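import Pool.Agent.PropA.Defs

/-!
Module A1 of MP_db4510_al: basic lemmas on hereditary modular graphs: medians, lower neighbours,
the Helly property for balls, and the two local lemmas `S1` and `W4`.
-/

namespace PropA

universe u

variable {W : Type u} {G : SimpleGraph W}

/-! ### parity -/

theorem HM.col (h : HM G) : ∃ col : W → Bool, ∀ x y, Even (G.dist x y) ↔ col x = col y := by
  obtain ⟨col, hcol⟩ := h.bip
  refine ⟨col, ?_⟩
  have key : ∀ x y (q : G.Walk x y), Even q.length ↔ col x = col y := by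
    intro x y q
    induction q with
    | nil => simp
    | @cons a b c hab q ih =>
      rw [SimpleGraph.Walk.length_cons, Nat.even_add_one, ih]
      have h1 := hcol _ _ hab
      revert h1
      cases col a <;> cases col b <;> cases col c <;> simp
  intro x y
  obtain ⟨q, hq⟩ := h.conn.exists_walk_length_eq_dist x y
  rw [← hq]
  exact key x y q

/-- adjacent vertices are at distances differing by exactly one from any vertex -/
theorem HM.step (h : HM G) (x : W) {a b : W} (hab : G.Adj a b) :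
    G.dist x a + 1 = G.dist x b ∨ G.dist x b + 1 = G.dist x a := by
  obtain ⟨col, hcol⟩ := h.col
  have h1 := hcol x a
  have h2 := hcol x b
  have h3 := hcol a b
  have hab1 : G.dist a b = 1 := SimpleGraph.dist_eq_one_iff_adj.2 hab
  rw [hab1] at h3
  have h4 : G.dist x b ≤ G.dist x a + G.dist a b := h.conn.dist_triangle
  have h5 : G.dist x a ≤ G.dist x b + G.dist b a := h.conn.dist_triangle
  rw [SimpleGraph.dist_comm (u := b) (v := a)] at h5
  rw [hab1] at h4 h5
  have h6 : G.dist x a ≠ G.dist x b := by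
    intro heq
    rw [heq] at h1
    have h7 : col x = col a ↔ col x = col b := h1.symm.trans h2
    have h8 : col a ≠ col b := by
      intro h8
      have := h3.2 h8
      exact absurd this (by decide)
    revert h7 h8
    cases col a <;> cases col b <;> cases col x <;> simp
  omega

theorem HM.even3 (h : HM G) (x y z : W) : Even (G.dist x y + G.dist y z + G.dist x z) := by
  obtain ⟨col, hcol⟩ := h.col
  have h1 := hcol x y
  have h2 := hcol y z
  have h3 := hcol x z
  rw [Nat.even_add, Nat.even_add, h1, h2, h3]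
  cases col x <;> cases col y <;> cases col z <;> simp

/-- parity as an arithmetic statement (for `omega`) -/
theorem HM.even3' (h : HM G) (x y z : W) : (G.dist x y + G.dist y z + G.dist x z) % 2 = 0 :=
  Nat.even_iff.1 (h.even3 x y z)

theorem HM.tri (h : HM G) (x y z : W) : G.dist x z ≤ G.dist x y + G.dist y z :=
  h.conn.dist_triangle

theorem HM.eq_of_dist (h : HM G) {x y : W} (hd : G.dist x y = 0) : x = y :=
  h.conn.dist_eq_zero_iff.1 hd

theorem HM.adj_of_dist {x y : W} (hd : G.dist x y = 1) : G.Adj x y :=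
  SimpleGraph.dist_eq_one_iff_adj.1 hd

/-- a neighbour closer to `x` -/
theorem HM.closer (h : HM G) {x w : W} (hd : G.dist w x ≠ 0) :
    ∃ s, G.Adj w s ∧ G.dist s x + 1 = G.dist w x := by
  obtain ⟨q, hq⟩ := h.conn.exists_walk_length_eq_dist w x
  cases q with
  | nil => simp at hd
  | @cons _ s _ hws q =>
    refine ⟨s, hws, ?_⟩
    rw [SimpleGraph.Walk.length_cons] at hq
    have h1 := SimpleGraph.dist_le q
    have h2 := h.tri w s x
    have h3 : G.dist w s = 1 := SimpleGraph.dist_eq_one_iff_adj.2 hws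
    omega

/-! ### medians and lower neighbours -/

theorem HM.med1 (h : HM G) {x y w : W} (hd : G.dist x y < G.dist x w + G.dist w y) :
    ∃ s, G.Adj w s ∧ G.dist s x + 1 = G.dist w x ∧ G.dist s y + 1 = G.dist w y := by
  induction hn : G.dist w x using Nat.strong_induction_on generalizing w with
  | _ a ih =>
    have hc1 : G.dist x w = G.dist w x := SimpleGraph.dist_comm
    have hpar := h.even3' x w y
    have ha : G.dist w x ≠ 0 := by
      intro h0
      have := h.eq_of_dist h0
      subst this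
      omega
    obtain ⟨s1, hs1, hs1x⟩ := h.closer ha
    have hst := h.step y hs1
    rw [SimpleGraph.dist_comm (u := y) (v := w), SimpleGraph.dist_comm (u := y) (v := s1)] at hst
    rcases hst with hst | hst
    · -- dist w y + 1 = dist s1 y
      have hc2 : G.dist x s1 = G.dist s1 x := SimpleGraph.dist_comm
      obtain ⟨s2, hs2, hs2x, hs2y⟩ := ih (G.dist s1 x) (by omega) (w := s1) (by omega) rfl
      have hne : w ≠ s2 := by
        rintro rfl
        omega
      obtain ⟨c, hwc, hs2c, hcy⟩ := h.qc y s1 w s2 hne hs1.symm hs2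
        (by rw [SimpleGraph.dist_comm (u := y) (v := w), SimpleGraph.dist_comm (u := y) (v := s1)]
            exact hst)
        (by rw [SimpleGraph.dist_comm (u := y) (v := s2), SimpleGraph.dist_comm (u := y) (v := s1)]
            exact hs2y)
      refine ⟨c, hwc, ?_, ?_⟩
      · have h1 := h.step x hwc
        rw [SimpleGraph.dist_comm (u := x) (v := w), SimpleGraph.dist_comm (u := x) (v := c)] at h1
        have h2 := h.tri c s2 x
        have h3 : G.dist c s2 = 1 := SimpleGraph.dist_eq_one_iff_adj.2 hs2c.symm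
        omega
      · rw [SimpleGraph.dist_comm (u := y) (v := c), SimpleGraph.dist_comm (u := y) (v := s1)]
          at hcy
        omega
    · exact ⟨s1, hs1, by omega, hst⟩

theorem HM.lower_aux (h : HM G) {x v : W} (hv : 2 ≤ G.dist x v) (n : ℕ) : ∀ S : Finset W,
    S.card = n → S.Nonempty → (∀ s ∈ S, G.Adj v s ∧ G.dist x s + 1 = G.dist x v) →
    ∃ c, (∀ s ∈ S, G.Adj c s) ∧ G.dist x c + 2 = G.dist x v := by
  classical
  induction n with
  | zero =>
    intro S hS hne _
    rw [Finset.card_eq_zero] at hS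
    exact absurd hS hne.ne_empty
  | succ n ih =>
    intro S hcard hne hS
    by_cases h1 : S.card = 1
    · obtain ⟨s, rfl⟩ := Finset.card_eq_one.1 h1
      have hs := (hS s (by simp)).2
      have h2 : G.dist s x ≠ 0 := by
        rw [SimpleGraph.dist_comm]
        omega
      obtain ⟨c, hsc, hc⟩ := h.closer h2
      refine ⟨c, ?_, ?_⟩
      · intro t ht
        rw [Finset.mem_singleton] at ht
        subst ht
        exact hsc.symm
      · rw [SimpleGraph.dist_comm (u := x) (v := c)]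
        rw [SimpleGraph.dist_comm (u := x) (v := s)] at hs
        omega
    by_cases h2 : S.card = 2
    · obtain ⟨a, b, hab, rfl⟩ := Finset.card_eq_two.1 h2
      obtain ⟨ha1, ha2⟩ := hS a (by simp)
      obtain ⟨hb1, hb2⟩ := hS b (by simp)
      obtain ⟨c, hac, hbc, hc⟩ := h.qc x v a b hab ha1 hb1 ha2 hb2
      refine ⟨c, ?_, hc⟩
      intro t ht
      rw [Finset.mem_insert, Finset.mem_singleton] at ht
      rcases ht with rfl | rfl
      · exact hac.symm
      · exact hbc.symm
    have h3 : 2 < S.card := by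
      have : S.card ≠ 0 := Finset.card_ne_zero.2 hne
      omega
    obtain ⟨s1, s2, s3, hs1, hs2, hs3, h12, h13, h23⟩ := Finset.two_lt_card_iff.1 h3
    have hrem : ∀ s ∈ S, ∃ c, (∀ t ∈ S, t ≠ s → G.Adj c t) ∧ G.dist x c + 2 = G.dist x v := by
      intro s hs
      have hc1 : (S.erase s).card = n := by
        rw [Finset.card_erase_of_mem hs, hcard]
        simp
      have hne1 : (S.erase s).Nonempty := by
        rw [← Finset.card_pos]
        omega
      obtain ⟨c, hc, hc'⟩ := ih (S.erase s) hc1 hne1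
        (fun t ht => hS t (Finset.mem_of_mem_erase ht))
      exact ⟨c, fun t ht hts => hc t (Finset.mem_erase.2 ⟨hts, ht⟩), hc'⟩
    obtain ⟨c1, hc1, hc1'⟩ := hrem s1 hs1
    obtain ⟨c2, hc2, hc2'⟩ := hrem s2 hs2
    obtain ⟨c3, hc3, hc3'⟩ := hrem s3 hs3
    have fin : ∀ c s, s ∈ S → (∀ t ∈ S, t ≠ s → G.Adj c t) → G.Adj c s → ∀ t ∈ S, G.Adj c t := by
      intro c s _ hc hcs t ht
      by_cases hts : t = s
      · rw [hts]; exact hcs
      · exact hc t ht hts
    by_cases e12 : c1 = c2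
    · exact ⟨c1, fin c1 s1 hs1 hc1 (by rw [e12]; exact hc2 s1 hs1 h12), hc1'⟩
    by_cases e13 : c1 = c3
    · exact ⟨c1, fin c1 s1 hs1 hc1 (by rw [e13]; exact hc3 s1 hs1 h13), hc1'⟩
    by_cases e23 : c2 = c3
    · exact ⟨c2, fin c2 s2 hs2 hc2 (by rw [e23]; exact hc3 s2 hs2 h23), hc2'⟩
    rcases h.c6 s1 c3 s2 c1 s3 c2 h12 h23 h13 (Ne.symm e13) e12 (Ne.symm e23)
      (hc3 s1 hs1 h13).symm (hc3 s2 hs2 h23) (hc1 s2 hs2 h12.symm).symm (hc1 s3 hs3 h13.symm)
      (hc2 s3 hs3 h23.symm).symm (hc2 s1 hs1 h12) with hh | hh | hh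
    · exact ⟨c1, fin c1 s1 hs1 hc1 hh.symm, hc1'⟩
    · exact ⟨c2, fin c2 s2 hs2 hc2 hh.symm, hc2'⟩
    · exact ⟨c3, fin c3 s3 hs3 hc3 hh.symm, hc3'⟩

theorem HM.lower (h : HM G) {x v : W} (S : Set W) (hfin : S.Finite) (hne : S.Nonempty)
    (hS : ∀ s ∈ S, G.Adj v s ∧ G.dist x s + 1 = G.dist x v) (hv : 2 ≤ G.dist x v) :
    ∃ c, (∀ s ∈ S, G.Adj c s) ∧ G.dist x c + 2 = G.dist x v := by
  obtain ⟨c, hc, hc'⟩ := h.lower_aux hv hfin.toFinset.card hfin.toFinset rfl
    (by simpa using hne) (fun s hs => hS s (by simpa using hs))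
  exact ⟨c, fun s hs => hc s (by simpa using hs), hc'⟩

/-! ### Helly property -/

theorem HM.helly_aux (h : HM G) (w0 : W) (S : Set (W × ℕ)) (hfin : S.Finite) :
    (∀ p ∈ S, Even (G.dist w0 p.1 + p.2)) →
    (∀ p ∈ S, ∀ q ∈ S, G.dist p.1 q.1 ≤ p.2 + q.2) →
    ∃ w, Even (G.dist w0 w) ∧ ∀ p ∈ S, G.dist w p.1 ≤ p.2 := by
  induction S, hfin using Set.Finite.induction_on with
  | empty =>
    intro _ _
    exact ⟨w0, by simp, by simp⟩
  | @insert q S' hq hS' ih =>
    intro hpar hpair
    obtain ⟨w1, hw1⟩ := ih (fun p hp => hpar p (Set.mem_insert_of_mem _ hp))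
      (fun p hp p' hp' => hpair p (Set.mem_insert_of_mem _ hp) p' (Set.mem_insert_of_mem _ hp'))
    -- choose a minimal one
    have hex : ∃ n, ∃ w, (Even (G.dist w0 w) ∧ ∀ p ∈ S', G.dist w p.1 ≤ p.2) ∧
        G.dist w q.1 = n := ⟨_, w1, hw1, rfl⟩
    classical
    obtain ⟨w, ⟨hwe, hwS⟩, hwn⟩ := Nat.find_spec hex
    have hmin : ∀ w', Even (G.dist w0 w') → (∀ p ∈ S', G.dist w' p.1 ≤ p.2) →
        G.dist w q.1 ≤ G.dist w' q.1 := by
      intro w' h1 h2
      rw [hwn]
      exact Nat.find_min' hex ⟨w', ⟨h1, h2⟩, rfl⟩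
    refine ⟨w, hwe, ?_⟩
    suffices hsuf : G.dist w q.1 ≤ q.2 by
      intro p hp
      rcases hp with rfl | hp
      · exact hsuf
      · exact hwS p hp
    by_contra hcon
    push Not at hcon
    have hparq := hpar q (Set.mem_insert _ _)
    have parw : ∀ p ∈ insert q S', (G.dist w p.1 + p.2) % 2 = 0 := by
      intro p hp
      have h1 := Nat.even_iff.1 (hpar p hp)
      have h2 := Nat.even_iff.1 hwe
      have h3 := h.even3' w0 w p.1
      omega
    have h1 := parw q (Set.mem_insert _ _)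
    have hge : q.2 + 2 ≤ G.dist w q.1 := by omega
    -- the tight balls
    have hsp : ∀ p, p ∈ S' → G.dist w p.1 = p.2 → ∃ s, G.Adj w s ∧
        G.dist s p.1 + 1 = G.dist w p.1 ∧ G.dist s q.1 + 1 = G.dist w q.1 := by
      intro p hp hpt
      apply h.med1
      have h2 := hpair p (Set.mem_insert_of_mem _ hp) q (Set.mem_insert _ _)
      rw [SimpleGraph.dist_comm (u := p.1) (v := w)]
      omega
    obtain ⟨s0, hs0, hs0q⟩ := h.closer (x := q.1) (w := w) (by omega)
    have hsp' : ∀ p : W × ℕ, ∃ s : W, p ∈ S' → G.dist w p.1 = p.2 → G.Adj w s ∧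
        G.dist s p.1 + 1 = G.dist w p.1 ∧ G.dist s q.1 + 1 = G.dist w q.1 := by
      intro p
      by_cases h1 : p ∈ S' ∧ G.dist w p.1 = p.2
      · obtain ⟨s, hs⟩ := hsp p h1.1 h1.2
        exact ⟨s, fun _ _ => hs⟩
      · exact ⟨w, fun h2 h3 => absurd ⟨h2, h3⟩ h1⟩
    choose s hs using hsp'
    have hs1 := fun p h1 h2 => (hs p h1 h2).1
    have hs2 := fun p h1 h2 => (hs p h1 h2).2.1
    have hs3 := fun p h1 h2 => (hs p h1 h2).2.2
    set T : Set W := insert s0 (s '' {p | p ∈ S' ∧ G.dist w p.1 = p.2}) with hT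
    have hTfin : T.Finite := by
      apply Set.Finite.insert
      apply Set.Finite.image
      exact hS'.subset fun p hp => hp.1
    obtain ⟨c, hcT, hcq⟩ := h.lower (x := q.1) (v := w) T hTfin ⟨s0, Set.mem_insert _ _⟩
      (by
        intro t ht
        rcases ht with rfl | ⟨p, ⟨hp1, hp2⟩, rfl⟩
        · refine ⟨hs0, ?_⟩
          rw [SimpleGraph.dist_comm (u := q.1), SimpleGraph.dist_comm (u := q.1)]
          exact hs0q
        · refine ⟨hs1 p hp1 hp2, ?_⟩
          rw [SimpleGraph.dist_comm (u := q.1), SimpleGraph.dist_comm (u := q.1)]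
          exact hs3 p hp1 hp2)
      (by rw [SimpleGraph.dist_comm]; omega)
    have hcs0 : G.dist c s0 = 1 := SimpleGraph.dist_eq_one_iff_adj.2 (hcT s0 (Set.mem_insert _ _))
    have hws0 : G.dist s0 w = 1 := SimpleGraph.dist_eq_one_iff_adj.2 hs0.symm
    have hcw := h.tri c s0 w
    have hcwe := h.even3' c s0 w
    have h2 : Even (G.dist w0 c) := by
      have h3 := h.even3' w0 w c
      have h4 := Nat.even_iff.1 hwe
      rw [SimpleGraph.dist_comm (u := w) (v := c)] at h3
      rw [Nat.even_iff]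
      omega
    have h3 := hmin c h2 (by
      intro p hp
      by_cases hpt : G.dist w p.1 = p.2
      · have h4 := hs2 p hp hpt
        have h5 : G.dist c (s p) = 1 := SimpleGraph.dist_eq_one_iff_adj.2
          (hcT (s p) (Set.mem_insert_of_mem _ ⟨p, ⟨hp, hpt⟩, rfl⟩))
        have h6 := h.tri c (s p) p.1
        omega
      · have h4 := hwS p hp
        have h5 := parw p (Set.mem_insert_of_mem _ hp)
        have h6 := h.tri c w p.1
        omega)
    rw [SimpleGraph.dist_comm (u := q.1) (v := c), SimpleGraph.dist_comm (u := q.1) (v := w)] at hcq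
    omega

/-- Helly property for balls of given parity -/
theorem HM.helly (h : HM G) (S : Set (W × ℕ)) (hfin : S.Finite) (w0 : W)
    (hpar : ∀ p ∈ S, Even (G.dist w0 p.1 + p.2))
    (hpair : ∀ p ∈ S, ∀ q ∈ S, G.dist p.1 q.1 ≤ p.2 + q.2) :
    ∃ w, ∀ p ∈ S, G.dist w p.1 ≤ p.2 ∧ Even (G.dist w p.1 + p.2) := by
  obtain ⟨w, hw, hw'⟩ := h.helly_aux w0 S hfin hpar hpair
  refine ⟨w, fun p hp => ⟨hw' p hp, ?_⟩⟩
  have h1 := Nat.even_iff.1 (hpar p hp)
  have h2 := Nat.even_iff.1 hw
  have h3 := h.even3' w0 w p.1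
  rw [Nat.even_iff]
  omega

/-- Helly property, parity condition in pairwise form -/
theorem HM.helly' (h : HM G) (S : Set (W × ℕ)) (hfin : S.Finite) {a b : W} (hab : a ≠ b)
    (hpar : ∀ p ∈ S, ∀ q ∈ S, (G.dist p.1 q.1 + p.2 + q.2) % 2 = 0)
    (hpair : ∀ p ∈ S, ∀ q ∈ S, G.dist p.1 q.1 ≤ p.2 + q.2) :
    ∃ w, ∀ p ∈ S, G.dist w p.1 ≤ p.2 ∧ (G.dist w p.1 + p.2) % 2 = 0 := by
  rcases S.eq_empty_or_nonempty with rfl | ⟨p0, hp0⟩
  · exact ⟨a, by simp⟩
  have hnb : ∃ s, G.Adj p0.1 s := by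
    have : p0.1 ≠ a ∨ p0.1 ≠ b := by
      by_contra hcon
      push Not at hcon
      exact hab (hcon.1.symm.trans hcon.2)
    rcases this with h1 | h1
    · obtain ⟨s, hs, _⟩ := h.closer (x := a) (w := p0.1) (fun h0 => h1 (h.eq_of_dist h0))
      exact ⟨s, hs⟩
    · obtain ⟨s, hs, _⟩ := h.closer (x := b) (w := p0.1) (fun h0 => h1 (h.eq_of_dist h0))
      exact ⟨s, hs⟩
  obtain ⟨s, hs⟩ := hnb
  have hbase : ∃ w0, (G.dist w0 p0.1 + p0.2) % 2 = 0 := by
    rcases Nat.even_or_odd p0.2 with h1 | h1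
    · refine ⟨p0.1, ?_⟩
      rw [SimpleGraph.dist_self]
      have := Nat.even_iff.1 h1
      omega
    · refine ⟨s, ?_⟩
      rw [SimpleGraph.dist_eq_one_iff_adj.2 hs.symm]
      have := Nat.odd_iff.1 h1
      omega
  obtain ⟨w0, hw0⟩ := hbase
  obtain ⟨w, hw⟩ := h.helly S hfin w0 (by
    intro p hp
    have h1 := hpar p0 hp0 p hp
    have h2 := h.even3' w0 p0.1 p.1
    rw [Nat.even_iff]
    omega) hpair
  exact ⟨w, fun p hp => ⟨(hw p hp).1, Nat.even_iff.1 (hw p hp).2⟩⟩

theorem Sl.dist_left {x0 x w : W} {i : ℕ} (hw : w ∈ Sl G x0 x i) : G.dist x0 w = i := hw.1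

theorem Sl.dist_right {x0 x w : W} {i : ℕ} (hw : w ∈ Sl G x0 x i) :
    i + G.dist w x = G.dist x0 x := hw.2

/-- distances inside a slice are even -/
theorem HM.slice_even (h : HM G) {x0 x w w' : W} {i : ℕ} (hw : w ∈ Sl G x0 x i)
    (hw' : w' ∈ Sl G x0 x i) : G.dist w w' % 2 = 0 := by
  have h1 := h.even3' x0 w w'
  rw [hw.1, hw'.1] at h1
  omega

/-! ### the local lemmas -/

/-- no gate with three points: L4 of the notes -/
theorem HM.S1 (h : HM G) {x0 x u b w0 c w2 : W} {i : ℕ} (hi : i < G.dist x0 x)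
    (hui : G.dist x0 u < i) (_hux : Bel G x0 u x)
    (hb : b ∈ Sl G x0 x i) (hw0 : w0 ∈ Sl G x0 x i) (hc : c ∈ Sl G x0 x i)
    (hw2 : w2 ∈ Sl G x0 x i)
    (hbu : ¬ Bel G x0 u b) (hw0u : Bel G x0 u w0) (hcu : Bel G x0 u c) (_hw2u : Bel G x0 u w2)
    (d1 : G.dist c w0 = 2) (d2 : G.dist c w2 = 2) (d3 : G.dist w0 w2 = 4)
    (d4 : G.dist b w0 = 2) (d5 : G.dist b c = 2) (d6 : G.dist b w2 = 2) : False := by
  have hcomm : ∀ a b : W, G.dist a b = G.dist b a := fun a b => SimpleGraph.dist_comm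
  obtain ⟨hb1, hb2⟩ := hb
  obtain ⟨hw01, hw02⟩ := hw0
  obtain ⟨hc1, hc2⟩ := hc
  obtain ⟨hw21, hw22⟩ := hw2
  unfold Bel at hbu hw0u hcu
  have hne : c ≠ w0 := by rintro rfl; simp at d1
  -- g0
  obtain ⟨g0, hg0⟩ := h.helly' {(w0, 1), (c, 1), (u, i - G.dist x0 u - 1)} (by simp) hne
    (by
      have e1 := hcomm w0 c
      have e2 := hcomm w0 u
      have e3 := hcomm c u
      (simp only [Set.mem_insert_iff, Set.mem_singleton_iff, forall_eq_or_imp, forall_eq,
        SimpleGraph.dist_self]; (repeat' apply And.intro) <;> first | trivial | omega))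
    (by
      have e1 := hcomm w0 c
      have e2 := hcomm w0 u
      have e3 := hcomm c u
      (simp only [Set.mem_insert_iff, Set.mem_singleton_iff, forall_eq_or_imp, forall_eq,
        SimpleGraph.dist_self]; (repeat' apply And.intro) <;> first | trivial | omega))
  obtain ⟨g1, g1'⟩ := hg0 (w0, 1) (by simp)
  obtain ⟨g2, g2'⟩ := hg0 (c, 1) (by simp)
  obtain ⟨g3, _⟩ := hg0 (u, i - G.dist x0 u - 1) (by simp)
  simp only at g1 g1' g2 g2' g3
  have hg0w0 : G.dist g0 w0 = 1 := by omega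
  have hg0c : G.dist g0 c = 1 := by omega
  have hg0l : G.dist x0 g0 = i - 1 := by
    have e1 := h.tri x0 u g0
    have e2 := h.tri x0 g0 w0
    have e3 := hcomm u g0
    omega
  -- v
  obtain ⟨v, hv⟩ := h.helly' {(w2, 1), (c, 1), (b, 1), (x0, i - 1)} (by simp) hne
    (by
      have e1 := hcomm w2 c
      have e2 := hcomm w2 b
      have e3 := hcomm c b
      have e4 := hcomm w2 x0
      have e5 := hcomm c x0
      have e6 := hcomm b x0
      (simp only [Set.mem_insert_iff, Set.mem_singleton_iff, forall_eq_or_imp, forall_eq,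
        SimpleGraph.dist_self]; (repeat' apply And.intro) <;> first | trivial | omega))
    (by
      have e1 := hcomm w2 c
      have e2 := hcomm w2 b
      have e3 := hcomm c b
      have e4 := hcomm w2 x0
      have e5 := hcomm c x0
      have e6 := hcomm b x0
      (simp only [Set.mem_insert_iff, Set.mem_singleton_iff, forall_eq_or_imp, forall_eq,
        SimpleGraph.dist_self]; (repeat' apply And.intro) <;> first | trivial | omega))
  obtain ⟨v1, v1'⟩ := hv (w2, 1) (by simp)
  obtain ⟨v2, v2'⟩ := hv (c, 1) (by simp)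
  obtain ⟨v3, v3'⟩ := hv (b, 1) (by simp)
  obtain ⟨v4, _⟩ := hv (x0, i - 1) (by simp)
  simp only at v1 v1' v2 v2' v3 v3' v4
  have hvw2 : G.dist v w2 = 1 := by omega
  have hvc : G.dist v c = 1 := by omega
  have hvb : G.dist v b = 1 := by omega
  have hvl : G.dist x0 v = i - 1 := by
    have e1 := h.tri x0 v b
    have e2 := hcomm v x0
    omega
  -- y
  obtain ⟨y, hy⟩ := h.helly' {(w0, 1), (b, 1), (x, G.dist x0 x - i - 1)} (by simp) hne
    (by
      have e1 := hcomm w0 b
      have e2 := hcomm w0 x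
      have e3 := hcomm b x
      (simp only [Set.mem_insert_iff, Set.mem_singleton_iff, forall_eq_or_imp, forall_eq,
        SimpleGraph.dist_self]; (repeat' apply And.intro) <;> first | trivial | omega))
    (by
      have e1 := hcomm w0 b
      have e2 := hcomm w0 x
      have e3 := hcomm b x
      (simp only [Set.mem_insert_iff, Set.mem_singleton_iff, forall_eq_or_imp, forall_eq,
        SimpleGraph.dist_self]; (repeat' apply And.intro) <;> first | trivial | omega))
  obtain ⟨y1, y1'⟩ := hy (w0, 1) (by simp)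
  obtain ⟨y2, y2'⟩ := hy (b, 1) (by simp)
  obtain ⟨y3, _⟩ := hy (x, G.dist x0 x - i - 1) (by simp)
  simp only at y1 y1' y2 y2' y3
  have hyw0 : G.dist y w0 = 1 := by omega
  have hyb : G.dist y b = 1 := by omega
  have hyl : G.dist x0 y = i + 1 := by
    have e1 := h.tri x0 y x
    have e2 := h.tri x0 w0 y
    have e3 := hcomm w0 y
    omega
  have hg0v : g0 ≠ v := by
    rintro rfl
    have e1 := h.tri w0 g0 w2
    have e2 := hcomm w0 g0
    omega
  obtain ⟨t, htg, htv, htl⟩ := h.qc x0 c g0 v hg0v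
    (HM.adj_of_dist (by rw [hcomm]; exact hg0c)) (HM.adj_of_dist (by rw [hcomm]; exact hvc))
    (by omega) (by omega)
  have htg1 := SimpleGraph.dist_eq_one_iff_adj.2 htg
  have htv1 := SimpleGraph.dist_eq_one_iff_adj.2 htv
  rcases h.c6 t g0 w0 y b v (by rintro rfl; omega) (by rintro rfl; simp at d4)
    (by rintro rfl; omega) (by rintro rfl; omega) (by rintro rfl; omega) hg0v
    htg.symm (HM.adj_of_dist hg0w0) (HM.adj_of_dist (by rw [hcomm]; exact hyw0))
    (HM.adj_of_dist hyb) (HM.adj_of_dist (by rw [hcomm]; exact hvb)) htv with hh | hh | hh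
  · have e1 := h.step x0 hh
    omega
  · have e0 := SimpleGraph.dist_eq_one_iff_adj.2 hh
    have e1 := h.tri w0 v w2
    omega
  · have e0 := SimpleGraph.dist_eq_one_iff_adj.2 hh
    apply hbu
    have e1 := h.tri x0 u b
    have e2 := h.tri u g0 b
    have e3 := hcomm u g0
    have e4 := hcomm g0 b
    omega

/-- L5 of the notes -/
theorem HM.W4 (h : HM G) {x0 x a b w0 c w2 : W} {i : ℕ} (hi : i < G.dist x0 x)
    (ha : a ∈ Sl G x0 x i)
    (hb : b ∈ Sl G x0 x i) (hw0 : w0 ∈ Sl G x0 x i) (hc : c ∈ Sl G x0 x i)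
    (hw2 : w2 ∈ Sl G x0 x i)
    (d1 : G.dist w0 w2 = 4) (d2 : G.dist a b = 4)
    (c1 : G.dist c w0 = 2) (c2 : G.dist c w2 = 2) (c3 : G.dist c a = 2) (c4 : G.dist c b = 2)
    (e1 : G.dist w0 a = 2) (e2 : G.dist w0 b = 2) (e3 : G.dist w2 a = 2) (e4 : G.dist w2 b = 2) :
    False := by
  have hcomm : ∀ a b : W, G.dist a b = G.dist b a := fun a b => SimpleGraph.dist_comm
  obtain ⟨ha1, ha2⟩ := ha
  obtain ⟨hb1, hb2⟩ := hb
  obtain ⟨hw01, hw02⟩ := hw0
  obtain ⟨hc1, hc2⟩ := hc
  obtain ⟨hw21, hw22⟩ := hw2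
  have hi1 : 1 ≤ i := by
    have := h.tri w0 x0 w2
    have := hcomm w0 x0
    omega
  have hne : c ≠ w0 := by rintro rfl; simp at c1
  -- p1
  obtain ⟨p1, hp1⟩ := h.helly' {(c, 1), (w0, 1), (a, 1), (x0, i - 1)} (by simp) hne
    (by
      have f1 := hcomm w0 c
      have f2 := hcomm a c
      have f3 := hcomm a w0
      have f4 := hcomm c x0
      have f5 := hcomm w0 x0
      have f6 := hcomm a x0
      (simp only [Set.mem_insert_iff, Set.mem_singleton_iff, forall_eq_or_imp, forall_eq,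
        SimpleGraph.dist_self]; (repeat' apply And.intro) <;> first | trivial | omega))
    (by
      have f1 := hcomm w0 c
      have f2 := hcomm a c
      have f3 := hcomm a w0
      have f4 := hcomm c x0
      have f5 := hcomm w0 x0
      have f6 := hcomm a x0
      (simp only [Set.mem_insert_iff, Set.mem_singleton_iff, forall_eq_or_imp, forall_eq,
        SimpleGraph.dist_self]; (repeat' apply And.intro) <;> first | trivial | omega))
  obtain ⟨g1, g1'⟩ := hp1 (c, 1) (by simp)
  obtain ⟨g2, g2'⟩ := hp1 (w0, 1) (by simp)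
  obtain ⟨g3, g3'⟩ := hp1 (a, 1) (by simp)
  obtain ⟨g4, _⟩ := hp1 (x0, i - 1) (by simp)
  simp only at g1 g1' g2 g2' g3 g3' g4
  have hp1c : G.dist p1 c = 1 := by omega
  have hp1w : G.dist p1 w0 = 1 := by omega
  have hp1a : G.dist p1 a = 1 := by omega
  have hp1l : G.dist x0 p1 = i - 1 := by
    have f1 := h.tri x0 p1 a
    have f2 := hcomm p1 x0
    omega
  -- p3
  obtain ⟨p3, hp3⟩ := h.helly' {(c, 1), (w2, 1), (b, 1), (x0, i - 1)} (by simp) hne
    (by
      have f1 := hcomm w2 c
      have f2 := hcomm b c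
      have f3 := hcomm b w2
      have f4 := hcomm c x0
      have f5 := hcomm w2 x0
      have f6 := hcomm b x0
      (simp only [Set.mem_insert_iff, Set.mem_singleton_iff, forall_eq_or_imp, forall_eq,
        SimpleGraph.dist_self]; (repeat' apply And.intro) <;> first | trivial | omega))
    (by
      have f1 := hcomm w2 c
      have f2 := hcomm b c
      have f3 := hcomm b w2
      have f4 := hcomm c x0
      have f5 := hcomm w2 x0
      have f6 := hcomm b x0
      (simp only [Set.mem_insert_iff, Set.mem_singleton_iff, forall_eq_or_imp, forall_eq,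
        SimpleGraph.dist_self]; (repeat' apply And.intro) <;> first | trivial | omega))
  obtain ⟨k1, k1'⟩ := hp3 (c, 1) (by simp)
  obtain ⟨k2, k2'⟩ := hp3 (w2, 1) (by simp)
  obtain ⟨k3, k3'⟩ := hp3 (b, 1) (by simp)
  obtain ⟨k4, _⟩ := hp3 (x0, i - 1) (by simp)
  simp only at k1 k1' k2 k2' k3 k3' k4
  have hp3c : G.dist p3 c = 1 := by omega
  have hp3w : G.dist p3 w2 = 1 := by omega
  have hp3b : G.dist p3 b = 1 := by omega
  have hp3l : G.dist x0 p3 = i - 1 := by
    have f1 := h.tri x0 p3 b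
    have f2 := hcomm p3 x0
    omega
  -- p2
  obtain ⟨p2, hp2⟩ := h.helly' {(a, 1), (w2, 1), (x, G.dist x0 x - i - 1)} (by simp) hne
    (by
      have f1 := hcomm w2 a
      have f2 := hcomm w2 x
      have f3 := hcomm a x
      (simp only [Set.mem_insert_iff, Set.mem_singleton_iff, forall_eq_or_imp, forall_eq,
        SimpleGraph.dist_self]; (repeat' apply And.intro) <;> first | trivial | omega))
    (by
      have f1 := hcomm w2 a
      have f2 := hcomm w2 x
      have f3 := hcomm a x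
      (simp only [Set.mem_insert_iff, Set.mem_singleton_iff, forall_eq_or_imp, forall_eq,
        SimpleGraph.dist_self]; (repeat' apply And.intro) <;> first | trivial | omega))
  obtain ⟨y1, y1'⟩ := hp2 (a, 1) (by simp)
  obtain ⟨y2, y2'⟩ := hp2 (w2, 1) (by simp)
  obtain ⟨y3, _⟩ := hp2 (x, G.dist x0 x - i - 1) (by simp)
  simp only at y1 y1' y2 y2' y3
  have hp2a : G.dist p2 a = 1 := by omega
  have hp2w : G.dist p2 w2 = 1 := by omega
  have hp2l : G.dist x0 p2 = i + 1 := by
    have f1 := h.tri x0 p2 x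
    have f2 := h.tri x0 a p2
    have f3 := hcomm a p2
    omega
  have hp13 : p1 ≠ p3 := by
    rintro rfl
    have f1 := h.tri w0 p1 w2
    have f2 := hcomm w0 p1
    omega
  obtain ⟨t, htg, htv, htl⟩ := h.qc x0 c p1 p3 hp13
    (HM.adj_of_dist (by rw [hcomm]; exact hp1c)) (HM.adj_of_dist (by rw [hcomm]; exact hp3c))
    (by omega) (by omega)
  rcases h.c6 t p1 a p2 w2 p3 (by rintro rfl; omega) (by rintro rfl; simp at e3)
    (by rintro rfl; omega) (by rintro rfl; omega) (by rintro rfl; omega) hp13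
    htg.symm (HM.adj_of_dist hp1a) (HM.adj_of_dist (by rw [hcomm]; exact hp2a))
    (HM.adj_of_dist hp2w) (HM.adj_of_dist (by rw [hcomm]; exact hp3w)) htv with hh | hh | hh
  · have f1 := h.step x0 hh
    omega
  · have f0 := SimpleGraph.dist_eq_one_iff_adj.2 hh
    have f1 := h.tri a p3 b
    omega
  · have f0 := SimpleGraph.dist_eq_one_iff_adj.2 hh
    have f1 := h.tri w0 p1 w2
    have f2 := hcomm w0 p1
    have f3 := hcomm w2 p1
    omega

end PropA
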