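import Pool.Agent.PropA.A1

/-!
Slices of hereditary modular graphs: gates, canonical sets, line claim, slab cover.
-/

namespace PropA

universe u

variable {W : Type u} {G : SimpleGraph W}

namespace HM

/-- Helly property inside a slice. -/
theorem hsl (h : HM G) {x0 x : W} {i : ℕ} (hi : i ≤ G.dist x0 x) (S : Set (W × ℕ))
    (hfin : S.Finite)
    (hS : ∀ p ∈ S, (i + G.dist x0 p.1 + p.2) % 2 = 0 ∧ G.dist x0 p.1 ≤ i + p.2 ∧
      G.dist p.1 x + i ≤ G.dist x0 x + p.2)
    (hpair : ∀ p ∈ S, ∀ q ∈ S, G.dist p.1 q.1 ≤ p.2 + q.2) :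
    ∃ w ∈ Sl G x0 x i, ∀ p ∈ S, G.dist w p.1 ≤ p.2 := by
  obtain ⟨w0, hw0, hw0'⟩ : ∃ w0, G.dist x0 w0 = i ∧ G.dist w0 x = G.dist x0 x - i := by
    obtain ⟨P, hP⟩ := (h.conn.preconnected x0 x).exists_walk_length_eq_dist
    refine ⟨P.getVert i, ?_, ?_⟩
    · have h1 : G.dist x0 (P.getVert i) ≤ i := by
        have := SimpleGraph.dist_le (P.take i)
        exact this.trans (by rw [SimpleGraph.Walk.take_length]; omega)
      have h2 : G.dist (P.getVert i) x ≤ P.length - i := by
        have := SimpleGraph.dist_le (P.drop i)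
        rwa [SimpleGraph.Walk.drop_length] at this
      have h3 := h.conn.dist_triangle (u := x0) (v := P.getVert i) (w := x)
      omega
    · have h1 : G.dist x0 (P.getVert i) ≤ i := by
        have := SimpleGraph.dist_le (P.take i)
        exact this.trans (by rw [SimpleGraph.Walk.take_length]; omega)
      have h2 : G.dist (P.getVert i) x ≤ P.length - i := by
        have := SimpleGraph.dist_le (P.drop i)
        rwa [SimpleGraph.Walk.drop_length] at this
      have h3 := h.conn.dist_triangle (u := x0) (v := P.getVert i) (w := x)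
      omega
  obtain ⟨w, hw⟩ := h.helly (insert (x0, i) (insert (x, G.dist x0 x - i) S))
    ((hfin.insert _).insert _) w0 (by
      rintro p hp
      rw [Nat.even_iff]
      rcases hp with rfl | rfl | hp
      · have := h.even3 x0 w0 w0
        rw [Nat.even_iff, SimpleGraph.dist_self] at this
        rw [SimpleGraph.dist_comm]
        simp only
        omega
      · simp only
        rw [hw0']; omega
      · have h1 := h.even3 x0 p.1 w0
        rw [Nat.even_iff] at h1
        have h2 := (hS p hp).1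
        rw [SimpleGraph.dist_comm (u := w0)]
        omega)
    (by
      rintro p hp q hq
      rcases hp with rfl | rfl | hp <;> rcases hq with rfl | rfl | hq <;>
        try simp only [SimpleGraph.dist_self]
      · omega
      · omega
      · exact (hS q hq).2.1
      · rw [SimpleGraph.dist_comm]; omega
      · omega
      · have := (hS q hq).2.2
        rw [SimpleGraph.dist_comm]
        omega
      · have := (hS p hp).2.1
        rw [SimpleGraph.dist_comm]; omega
      · have := (hS p hp).2.2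
        omega
      · exact hpair p hp q hq)
  have a1 := (hw (x0, i) (by simp)).1
  have a2 := (hw (x, G.dist x0 x - i) (by simp)).1
  simp only at a1 a2
  have a3 := h.conn.dist_triangle (u := x0) (v := w) (w := x)
  rw [SimpleGraph.dist_comm] at a1
  refine ⟨w, ⟨by omega, by omega⟩, fun p hp => (hw p (by simp [hp])).1⟩

theorem hslL (h : HM G) {x0 x : W} {i : ℕ} (hi : i ≤ G.dist x0 x) (L : List (W × ℕ))
    (hS : ∀ p ∈ L, (i + G.dist x0 p.1 + p.2) % 2 = 0 ∧ G.dist x0 p.1 ≤ i + p.2 ∧
      G.dist p.1 x + i ≤ G.dist x0 x + p.2)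
    (hpair : L.Pairwise fun p q => G.dist p.1 q.1 ≤ p.2 + q.2) :
    ∃ w ∈ Sl G x0 x i, ∀ p ∈ L, G.dist w p.1 ≤ p.2 :=
  h.hsl hi {p | p ∈ L} L.finite_toSet hS fun p hp q hq => by
    have : Std.Symm fun p q : W × ℕ => G.dist p.1 q.1 ≤ p.2 + q.2 :=
      ⟨fun p q hpq => by rw [SimpleGraph.dist_comm]; omega⟩
    exact List.Pairwise.forall_of_forall (R := fun p q : W × ℕ => G.dist p.1 q.1 ≤ p.2 + q.2)
      (fun p _ => by rw [SimpleGraph.dist_self]; omega) hpair hp hq

/-- distances in a slice are even -/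
theorem sl_even (h : HM G) {x0 x w w' : W} {i : ℕ} (hw : w ∈ Sl G x0 x i)
    (hw' : w' ∈ Sl G x0 x i) : G.dist w w' % 2 = 0 := by
  have := h.even3 x0 w w'
  rw [Nat.even_iff, hw.1, hw'.1] at this
  omega

theorem par (h : HM G) (x0 u v : W) : (G.dist x0 u + G.dist x0 v + G.dist u v) % 2 = 0 := by
  have := h.even3 x0 u v
  rw [Nat.even_iff] at this
  omega

/-- intermediate points in the intersection of a slice with two balls -/
theorem mid (h : HM G) {x0 x : W} {i : ℕ} (hi : i ≤ G.dist x0 x) {e1 e2 v1 v2 : W} {t1 t2 : ℕ}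
    (he1 : e1 ∈ Sl G x0 x i) (he2 : e2 ∈ Sl G x0 x i)
    (hp1 : (i + G.dist x0 v1 + t1) % 2 = 0) (hp2 : (i + G.dist x0 v2 + t2) % 2 = 0)
    (h11 : G.dist e1 v1 ≤ t1) (h12 : G.dist e1 v2 ≤ t2)
    (h21 : G.dist e2 v1 ≤ t1) (h22 : G.dist e2 v2 ≤ t2) (hd : 4 ≤ G.dist e1 e2) :
    ∃ c ∈ Sl G x0 x i, ∃ e ∈ Sl G x0 x i, G.dist e1 e = 4 ∧ G.dist c e1 = 2 ∧ G.dist c e = 2 ∧
      G.dist c v1 ≤ t1 ∧ G.dist c v2 ≤ t2 ∧ G.dist e v1 ≤ t1 ∧ G.dist e v2 ≤ t2 := by
  have hev := h.sl_even he1 he2
  have q1 := he1.1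
  have q1' := he1.2
  have q2 := he2.1
  have q2' := he2.2
  have r1 := h.tri x0 e1 v1
  have r2 := h.tri x0 e1 v2
  have r3 := h.tri v1 e1 x
  have r4 := h.tri v2 e1 x
  have r5 := h.tri v1 e1 v2
  have s1 := G.dist_comm (u := v1) (v := e1)
  have s2 := G.dist_comm (u := v2) (v := e1)
  obtain ⟨e, heT, he⟩ := h.hslL hi [(e1, 4), (e2, G.dist e1 e2 - 4), (v1, t1), (v2, t2)]
    (by
      simp only [List.forall_mem_cons, List.not_mem_nil, false_implies, implies_true, and_true]
      omega)
    (by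
      simp only [List.pairwise_cons, List.forall_mem_cons, List.not_mem_nil, false_implies,
        implies_true, and_true, List.Pairwise.nil]
      omega)
  simp only [List.forall_mem_cons, List.not_mem_nil, false_implies, implies_true, and_true] at he
  obtain ⟨f1, f2, f3, f4⟩ := he
  have g1 := h.tri e1 e e2
  have g2 := G.dist_comm (u := e1) (v := e)
  have g3 := heT.1
  have g3' := heT.2
  obtain ⟨c, hcT, hc⟩ := h.hslL hi [(e1, 2), (e, 2), (v1, t1), (v2, t2)]
    (by
      simp only [List.forall_mem_cons, List.not_mem_nil, false_implies, implies_true, and_true]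
      omega)
    (by
      simp only [List.pairwise_cons, List.forall_mem_cons, List.not_mem_nil, false_implies,
        implies_true, and_true, List.Pairwise.nil]
      omega)
  simp only [List.forall_mem_cons, List.not_mem_nil, false_implies, implies_true, and_true] at hc
  obtain ⟨k1, k2, k3, k4⟩ := hc
  have g4 := h.tri e1 c e
  have g5 := G.dist_comm (u := e1) (v := c)
  exact ⟨c, hcT, e, heT, by omega, by omega, by omega, k3, k4, f3, f4⟩

/-- intersection of a slice with two balls both of which are not minimal -/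
theorem two_ball (h : HM G) {x0 x : W} {i : ℕ} (hi : i < G.dist x0 x) {e1 e2 v1 v2 : W}
    {t1 t2 : ℕ} (he1 : e1 ∈ Sl G x0 x i) (he2 : e2 ∈ Sl G x0 x i)
    (hp1 : (i + G.dist x0 v1 + t1) % 2 = 0) (hp2 : (i + G.dist x0 v2 + t2) % 2 = 0)
    (ht1 : 2 ≤ t1) (ht2 : 2 ≤ t2)
    (ha1 : G.dist x0 v1 + 2 ≤ i + t1) (ha2 : G.dist x0 v2 + 2 ≤ i + t2)
    (hb1 : G.dist v1 x + i + 2 ≤ G.dist x0 x + t1) (hb2 : G.dist v2 x + i + 2 ≤ G.dist x0 x + t2)
    (hv : t1 + t2 ≤ G.dist v1 v2)
    (h11 : G.dist e1 v1 ≤ t1) (h12 : G.dist e1 v2 ≤ t2)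
    (h21 : G.dist e2 v1 ≤ t1) (h22 : G.dist e2 v2 ≤ t2) : G.dist e1 e2 ≤ 2 := by
  by_contra hcon
  have hev := h.sl_even he1 he2
  obtain ⟨c, hc, e, he, m1, m2, m3, m4, m5, m6, m7⟩ :=
    h.mid hi.le he1 he2 hp1 hp2 h11 h12 h21 h22 (by omega)
  have q1 := he1.1
  have q1' := he1.2
  have q2 := he.1
  have q2' := he.2
  have q3 := hc.1
  have q3' := hc.2
  have cm := fun a b => G.dist_comm (u := a) (v := b)
  have c1 := cm e1 e
  have c2 := cm c e1
  have c3 := cm c e
  obtain ⟨b, hbT, hb⟩ := h.hslL hi.le [(e1, 2), (c, 2), (e, 2), (v1, t1 - 2)]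
    (by
      simp only [List.forall_mem_cons, List.not_mem_nil, false_implies, implies_true, and_true]
      omega)
    (by
      simp only [List.pairwise_cons, List.forall_mem_cons, List.not_mem_nil, false_implies,
        implies_true, and_true, List.Pairwise.nil]
      omega)
  obtain ⟨a, haT, ha⟩ := h.hslL hi.le [(e1, 2), (c, 2), (e, 2), (v2, t2 - 2)]
    (by
      simp only [List.forall_mem_cons, List.not_mem_nil, false_implies, implies_true, and_true]
      omega)
    (by
      simp only [List.pairwise_cons, List.forall_mem_cons, List.not_mem_nil, false_implies,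
        implies_true, and_true, List.Pairwise.nil]
      omega)
  simp only [List.forall_mem_cons, List.not_mem_nil, false_implies, implies_true, and_true] at hb ha
  obtain ⟨b1, b2, b3, b4⟩ := hb
  obtain ⟨a1, a2, a3, a4⟩ := ha
  have t1' := h.tri v1 b v2
  have t2' := h.tri b a v2
  have t3' := h.tri a c b
  have t4' := h.tri v1 e1 v2
  have t5' := h.tri v1 c v2
  have t6' := h.tri v1 e v2
  have d1 := cm v1 b
  have d2 := cm b a
  have d3 := cm c b
  have d4 := cm v1 e1
  have d5 := cm v1 c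
  have d6 := cm v1 e
  have u1 := h.tri v1 b e1
  have u2 := h.tri v1 b c
  have u3 := h.tri v1 b e
  have w1 := h.tri e1 a v2
  have w2 := h.tri c a v2
  have w3 := h.tri e a v2
  have x1 := cm e1 a
  have x2 := cm c a
  have x3 := cm e a
  have x4 := cm e1 b
  have x5 := cm e b
  exact h.W4 hi haT hbT he1 hc he m1 (by omega) m2 m3 (by omega) (by omega) (by omega) (by omega)
    (by omega) (by omega)

/-- symmetric form of `S1` -/
theorem S1' (h : HM G) {x0 x u b w0 c w2 : W} {i : ℕ} (hi : i < G.dist x0 x)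
    (hux : Bel G x0 u x) (hui : G.dist x0 u ≠ i)
    (hb : b ∈ Sl G x0 x i) (hw0 : w0 ∈ Sl G x0 x i) (hc : c ∈ Sl G x0 x i)
    (hw2 : w2 ∈ Sl G x0 x i)
    (hbu : (i - G.dist x0 u) + (G.dist x0 u - i) < G.dist u b)
    (hw0u : G.dist u w0 ≤ (i - G.dist x0 u) + (G.dist x0 u - i))
    (hcu : G.dist u c ≤ (i - G.dist x0 u) + (G.dist x0 u - i))
    (hw2u : G.dist u w2 ≤ (i - G.dist x0 u) + (G.dist x0 u - i))
    (d1 : G.dist c w0 = 2) (d2 : G.dist c w2 = 2) (d3 : G.dist w0 w2 = 4)
    (d4 : G.dist b w0 = 2) (d5 : G.dist b c = 2) (d6 : G.dist b w2 = 2) : False := by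
  unfold Bel at hux
  obtain ⟨q1, q1'⟩ := hb
  obtain ⟨q2, q2'⟩ := hw0
  obtain ⟨q3, q3'⟩ := hc
  obtain ⟨q4, q4'⟩ := hw2
  rcases lt_or_gt_of_ne hui with hlt | hgt
  · have t1 := h.tri x0 u w0
    have t2 := h.tri x0 u c
    have t3 := h.tri x0 u w2
    have e : (i - G.dist x0 u) + (G.dist x0 u - i) = i - G.dist x0 u := by omega
    rw [e] at hbu hw0u hcu hw2u
    exact h.S1 hi hlt hux ⟨q1, q1'⟩ ⟨q2, q2'⟩ ⟨q3, q3'⟩ ⟨q4, q4'⟩ (by unfold Bel; omega)
      (by unfold Bel; omega) (by unfold Bel; omega) (by unfold Bel; omega) d1 d2 d3 d4 d5 d6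
  · have e : (i - G.dist x0 u) + (G.dist x0 u - i) = G.dist x0 u - i := by omega
    rw [e] at hbu hw0u hcu hw2u
    have t1 := h.tri x u w0
    have t2 := h.tri x u c
    have t3 := h.tri x u w2
    have hi0 : i ≠ 0 := by
      rintro rfl
      have a1 := h.tri w0 x0 w2
      have a2 := G.dist_comm (u := w0) (v := x0)
      omega
    have cm := fun a b => G.dist_comm (u := a) (v := b)
    rw [cm u x] at hux
    rw [cm b x] at q1'
    rw [cm w0 x] at q2'
    rw [cm c x] at q3'
    rw [cm w2 x] at q4'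
    rw [cm x0 b] at q1
    rw [cm x0 w0] at q2
    rw [cm x0 c] at q3
    rw [cm x0 w2] at q4
    have hxx : G.dist x x0 = G.dist x0 x := cm x x0
    have hu0 : G.dist u x0 = G.dist x0 u := cm u x0
    have hB : ∀ v, G.dist v x0 = i → i + G.dist x v = G.dist x0 x →
        v ∈ Sl G x x0 (G.dist x0 x - i) := by
      intro v h1 h2
      refine ⟨?_, ?_⟩
      · omega
      · rw [h1, hxx]; omega
    refine h.S1 (x0 := x) (x := x0) (u := u) (i := G.dist x0 x - i) (by omega) (by omega)
      (by unfold Bel; omega) (hB _ q1 q1') (hB _ q2 q2') (hB _ q3 q3')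
      (hB _ q4 q4') (by unfold Bel; omega) (by unfold Bel; omega) (by unfold Bel; omega)
      (by unfold Bel; omega) d1 d2 d3 d4 d5 d6

/-- intersection of a slice with a minimal ball around `u` and a ball which is not minimal -/
theorem one_ball (h : HM G) {x0 x : W} {i : ℕ} (hi : i < G.dist x0 x) {e1 e2 u v : W}
    {t : ℕ} (hux : Bel G x0 u x) (hui : G.dist x0 u ≠ i)
    (he1 : e1 ∈ Sl G x0 x i) (he2 : e2 ∈ Sl G x0 x i)
    (hp : (i + G.dist x0 v + t) % 2 = 0) (ht : 2 ≤ t)
    (ha : G.dist x0 v + 2 ≤ i + t)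
    (hb : G.dist v x + i + 2 ≤ G.dist x0 x + t)
    (hv : (i - G.dist x0 u) + (G.dist x0 u - i) + t ≤ G.dist u v)
    (h11 : G.dist e1 u ≤ (i - G.dist x0 u) + (G.dist x0 u - i)) (h12 : G.dist e1 v ≤ t)
    (h21 : G.dist e2 u ≤ (i - G.dist x0 u) + (G.dist x0 u - i)) (h22 : G.dist e2 v ≤ t) :
    G.dist e1 e2 ≤ 2 := by
  by_contra hcon
  have hev := h.sl_even he1 he2
  obtain ⟨c, hc, e, he, m1, m2, m3, m4, m5, m6, m7⟩ :=
    h.mid hi.le he1 he2 (v1 := u) (v2 := v)
      (t1 := (i - G.dist x0 u) + (G.dist x0 u - i)) (t2 := t) (by omega) hp h11 h12 h21 h22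
      (by omega)
  have q1 := he1.1
  have q1' := he1.2
  have q2 := he.1
  have q2' := he.2
  have q3 := hc.1
  have q3' := hc.2
  have cm := fun a b => G.dist_comm (u := a) (v := b)
  have c1 := cm e1 e
  have c2 := cm c e1
  have c3 := cm c e
  obtain ⟨b, hbT, hb⟩ := h.hslL hi.le [(e1, 2), (c, 2), (e, 2), (v, t - 2)]
    (by
      simp only [List.forall_mem_cons, List.not_mem_nil, false_implies, implies_true, and_true]
      omega)
    (by
      simp only [List.pairwise_cons, List.forall_mem_cons, List.not_mem_nil, false_implies,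
        implies_true, and_true, List.Pairwise.nil]
      omega)
  simp only [List.forall_mem_cons, List.not_mem_nil, false_implies, implies_true, and_true] at hb
  obtain ⟨b1, b2, b3, b4⟩ := hb
  have t1' := h.tri u b v
  have u1 := h.tri u b e1
  have u2 := h.tri u b c
  have u3 := h.tri u b e
  have v1 := h.tri u e1 b
  have v2 := h.tri u c b
  have v3 := h.tri u e b
  have x4 := cm e1 b
  have x5 := cm e b
  have x6 := cm c b
  have y1 := cm u e1
  have y2 := cm u c
  have y3 := cm u e
  have z1 := h.sl_even hbT he1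
  have z2 := h.sl_even hbT hc
  have z3 := h.sl_even hbT he
  exact h.S1' hi hux hui hbT he1 hc he (by omega) (by omega) (by omega) (by omega) m2 m3 m1
    (by omega) (by omega) (by omega)

/-! ### canonical sets -/

theorem JJ_le (x0 z : W) (i : ℕ) : JJ G x0 i z ≤ i := by
  classical exact Nat.findGreatest_le i

theorem JJ_spec (h : HM G) (x0 z : W) (i : ℕ) : ∀ m ∈ Sl G x0 z (JJ G x0 i z),
    ∀ m' ∈ Sl G x0 z (JJ G x0 i z), G.dist m m' ≤ 2 * (i - JJ G x0 i z) := by
  classical
  refine Nat.findGreatest_spec (P := fun j => ∀ m ∈ Sl G x0 z j, ∀ m' ∈ Sl G x0 z j,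
    G.dist m m' ≤ 2 * (i - j)) (m := 0) (Nat.zero_le i) ?_
  intro m hm m' hm'
  have h1 := h.tri m x0 m'
  have h2 := G.dist_comm (u := m) (v := x0)
  have h3 := hm.1
  have h4 := hm'.1
  omega

theorem JJ_max (x0 z : W) (i k : ℕ) (h1 : JJ G x0 i z < k) (h2 : k ≤ i) :
    ∃ m ∈ Sl G x0 z k, ∃ m' ∈ Sl G x0 z k, 2 * (i - k) < G.dist m m' := by
  classical
  have := Nat.findGreatest_is_greatest (P := fun j => ∀ m ∈ Sl G x0 z j, ∀ m' ∈ Sl G x0 z j,
    G.dist m m' ≤ 2 * (i - j)) h1 h2
  push Not at this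
  exact this

theorem sl_finite (h : HM G) (x0 z : W) (i : ℕ) : (Sl G x0 z i).Finite :=
  (h.fin x0 i).subset fun _ hw => hw.1.le

/-- points of `FF` in a ball -/
theorem FF_ball (h : HM G) {x0 z q : W} {i t : ℕ} (hi : i ≤ G.dist x0 z)
    (hp : (i + G.dist x0 q + t) % 2 = 0) (ha : G.dist x0 q ≤ i + t)
    (hb : G.dist q z + i ≤ G.dist x0 z + t)
    (hm : ∀ m ∈ Sl G x0 z (JJ G x0 i z), G.dist q m ≤ t + (i - JJ G x0 i z)) :
    ∃ w ∈ FF G x0 i z, G.dist w q ≤ t := by
  have hJ := JJ_le (G := G) x0 z i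
  have hs := h.JJ_spec x0 z i
  set J := JJ G x0 i z with hJdef
  obtain ⟨w, hw, hw'⟩ := h.hsl hi (insert (q, t) ((fun m => (m, i - J)) '' Sl G x0 z J))
    (((h.sl_finite x0 z J).image _).insert _)
    (by
      rintro p (rfl | ⟨m, hm1, rfl⟩)
      · exact ⟨hp, ha, hb⟩
      · have h1 := hm1.1
        have h2 := hm1.2
        simp only
        omega)
    (by
      rintro p (rfl | ⟨m, hm1, rfl⟩) p' (rfl | ⟨m', hm1', rfl⟩)
      · simp only [SimpleGraph.dist_self]; omega
      · exact hm m' hm1'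
      · simp only
        rw [SimpleGraph.dist_comm]
        have := hm m hm1
        omega
      · have := hs m hm1 m' hm1'
        simp only
        omega)
  refine ⟨w, ⟨hw, fun m hm1 => ?_⟩, hw' (q, t) (by simp)⟩
  have h1 := hw' (m, i - J) (Set.mem_insert_of_mem _ ⟨m, hm1, rfl⟩)
  simp only at h1
  have h2 := h.tri x0 m w
  have h3 := hw.1
  have h4 := hm1.1
  have h5 := G.dist_comm (u := m) (v := w)
  omega

theorem FF_nonempty (h : HM G) {x0 z : W} {i : ℕ} (hi : i ≤ G.dist x0 z) :
    (FF G x0 i z).Nonempty := by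
  obtain ⟨w, hw, -⟩ := h.FF_ball (q := x0) (t := i) hi (by rw [SimpleGraph.dist_self]; omega)
    (by rw [SimpleGraph.dist_self]; omega) (by omega) (fun m hm => by
      have := hm.1
      have := JJ_le (G := G) x0 z i
      omega)
  exact ⟨w, hw⟩

theorem sl_lower (h : HM G) {x0 z u : W} {j : ℕ} (hu : u ∈ Sl G x0 z (j + 1)) :
    ∃ m ∈ Sl G x0 z j, G.dist m u ≤ 1 := by
  have h1 := hu.1
  have h2 := hu.2
  have h3 := h.tri x0 u z
  obtain ⟨m, hm, hm'⟩ := h.hslL (x0 := x0) (x := z) (i := j) (by omega) [(u, 1)]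
    (by
      simp only [List.forall_mem_cons, List.not_mem_nil, false_implies, implies_true, and_true]
      omega)
    (by simp)
  exact ⟨m, hm, hm' (u, 1) (by simp)⟩

/-- the canonical set is small -/
theorem FF_diam (h : HM G) {x0 z w w' : W} {i : ℕ} (hi : i < G.dist x0 z)
    (hw : w ∈ FF G x0 i z) (hw' : w' ∈ FF G x0 i z) : G.dist w w' ≤ 6 := by
  have hJ := JJ_le (G := G) x0 z i
  have hs := h.JJ_spec x0 z i
  have hmax := JJ_max (G := G) x0 z i (JJ G x0 i z + 1) (by omega)
  obtain ⟨hwT, hwm⟩ := hw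
  obtain ⟨hwT', hwm'⟩ := hw'
  set J := JJ G x0 i z with hJdef
  rcases Nat.lt_or_ge J i with hlt | hge
  · rcases Nat.lt_or_ge (J + 1) i with hlt2 | hge2
    · obtain ⟨u1, hu1, u2, hu2, hu⟩ := hmax (by omega)
      obtain ⟨m1, hm1, hm1'⟩ := h.sl_lower hu1
      obtain ⟨m2, hm2, hm2'⟩ := h.sl_lower hu2
      have hev := h.sl_even hu1 hu2
      have p1 := hu1.1
      have p1' := hu1.2
      have p2 := hu2.1
      have p2' := hu2.2
      have cm := fun a b => G.dist_comm (u := a) (v := b)
      have key : ∀ v ∈ Sl G x0 z i, (∀ m ∈ Sl G x0 z J, J + G.dist m v = i) →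
          G.dist v u1 ≤ i - J + 1 ∧ G.dist v u2 ≤ i - J + 1 := by
        intro v hv hvm
        have a1 := hvm m1 hm1
        have a2 := hvm m2 hm2
        have a3 := h.tri v m1 u1
        have a4 := h.tri v m2 u2
        have a5 := cm v m1
        have a6 := cm v m2
        omega
      obtain ⟨k1, k2⟩ := key w hwT hwm
      obtain ⟨k1', k2'⟩ := key w' hwT' hwm'
      have b1 := h.tri u1 w u2
      have b2 := cm u1 w
      have b3 := cm u2 w
      have b4 := cm u1 w'
      have b5 := cm u2 w'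
      obtain ⟨g, hg⟩ : ∃ g, G.dist u1 u2 = 2 * (i - J - 1) + 2 * g :=
        ⟨(G.dist u1 u2 - 2 * (i - J - 1)) / 2, by omega⟩
      have key2 : ∀ v ∈ Sl G x0 z i, G.dist v u1 ≤ i - J + 1 → G.dist v u2 ≤ i - J + 1 →
          ∃ e ∈ Sl G x0 z i, G.dist e v ≤ 2 ∧ G.dist e u1 ≤ i - J - 1 ∧
            G.dist e u2 ≤ i - J - 1 + 2 * g := by
        intro v hv hv1 hv2
        have a1 := hv.1
        have a2 := hv.2
        obtain ⟨e, heT, he⟩ := h.hslL hi.le
          [(v, 2), (u1, i - J - 1), (u2, i - J - 1 + 2 * g)]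
          (by
            simp only [List.forall_mem_cons, List.not_mem_nil, false_implies, implies_true,
              and_true]
            omega)
          (by
            simp only [List.pairwise_cons, List.forall_mem_cons, List.not_mem_nil, false_implies,
              implies_true, and_true, List.Pairwise.nil]
            omega)
        simp only [List.forall_mem_cons, List.not_mem_nil, false_implies, implies_true,
          and_true] at he
        exact ⟨e, heT, he.1, he.2.1, he.2.2⟩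
      obtain ⟨e, he, e1, e2, e3⟩ := key2 w hwT k1 k2
      obtain ⟨e', he', e1', e2', e3'⟩ := key2 w' hwT' k1' k2'
      have hC : G.dist e e' ≤ 2 := by
        refine h.one_ball hi (u := u1) (v := u2) (t := i - J - 1 + 2 * g) ?_ (by omega) he he'
          (by omega) (by omega) (by omega) (by omega) (by omega) (by omega) e3 (by omega) e3'
        unfold Bel
        omega
      have f1 := h.tri w e w'
      have f2 := h.tri e e' w'
      have f3 := cm w e
      omega
    · obtain ⟨m, hm⟩ : (Sl G x0 z J).Nonempty := by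
        obtain ⟨m, hm, -⟩ := h.hslL (x0 := x0) (x := z) (i := J) (by omega) [] (by simp) (by simp)
        exact ⟨m, hm⟩
      have a1 := hwm m hm
      have a2 := hwm' m hm
      have a3 := h.tri w m w'
      have a4 := G.dist_comm (u := w) (v := m)
      omega
  · have hJi : J = i := by omega
    have := hs w (by rw [hJi]; exact hwT) w' (by rw [hJi]; exact hwT')
    omega

theorem sl_mono (h : HM G) {x0 x z v : W} {j : ℕ} (hz : Bel G x0 z x)
    (hv : v ∈ Sl G x0 z j) : v ∈ Sl G x0 x j := by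
  unfold Bel at hz
  obtain ⟨h1, h2⟩ := hv
  have h3 := h.tri v z x
  have h4 := h.tri x0 v x
  exact ⟨h1, by omega⟩

theorem JJ_mono (h : HM G) {x0 x z : W} {i : ℕ} (hz : Bel G x0 z x) :
    JJ G x0 i x ≤ JJ G x0 i z := by
  by_contra hcon
  push Not at hcon
  obtain ⟨m, hm, m', hm', hmm⟩ := JJ_max (G := G) x0 z i _ hcon (JJ_le x0 x i)
  have := h.JJ_spec x0 x i m (h.sl_mono hz hm) m' (h.sl_mono hz hm')
  omega

/-- gates in the set of points of a slice below `z` -/
theorem gate (h : HM G) {x0 x z q v : W} {i r : ℕ} (hi : i < G.dist x0 z)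
    (hq : q ∈ Sl G x0 x i) (hz : Bel G x0 z x) (hr : G.dist q z + i = G.dist x0 z + 2 * r)
    (hv : v ∈ Sl G x0 z i) : ∃ e ∈ Sl G x0 z i, G.dist e q ≤ 2 * r ∧
      G.dist e v + 2 * r ≤ G.dist q v := by
  have h1 := hv.1
  have h2 := hv.2
  have h3 := hq.1
  have h4 := h.sl_even hq (h.sl_mono hz hv)
  have h5 := h.tri q v z
  obtain ⟨e, heT, he⟩ := h.hslL (x0 := x0) (x := z) hi.le
    [(q, 2 * r), (v, G.dist q v - 2 * r)]
    (by
      simp only [List.forall_mem_cons, List.not_mem_nil, false_implies, implies_true, and_true]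
      omega)
    (by
      simp only [List.pairwise_cons, List.forall_mem_cons, List.not_mem_nil, false_implies,
        implies_true, and_true, List.Pairwise.nil]
      omega)
  simp only [List.forall_mem_cons, List.not_mem_nil, false_implies, implies_true, and_true] at he
  exact ⟨e, heT, he.1, by omega⟩

theorem gate_diam (h : HM G) {x0 x z q e1 e2 : W} {i r : ℕ} (hi : i < G.dist x0 z)
    (hq : q ∈ Sl G x0 x i) (hz : Bel G x0 z x) (hr : G.dist q z + i = G.dist x0 z + 2 * r)
    (hr1 : 1 ≤ r) (he1 : e1 ∈ Sl G x0 z i) (he2 : e2 ∈ Sl G x0 z i)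
    (h1 : G.dist e1 q ≤ 2 * r) (h2 : G.dist e2 q ≤ 2 * r) : G.dist e1 e2 ≤ 2 := by
  have a1 := he1.1
  have a2 := he1.2
  have a3 := he2.1
  have a4 := he2.2
  have a5 := hq.1
  have a6 := hq.2
  have a7 : i < G.dist x0 x := by
    unfold Bel at hz
    omega
  have a8 := G.dist_comm (u := z) (v := q)
  exact h.one_ball a7 hz (by omega) (h.sl_mono hz he1) (h.sl_mono hz he2) (by omega)
    (t := 2 * r) (v := q) (by omega) (by omega) (by omega) (by omega) (by omega) h1 (by omega) h2

/-- first claim in the proof of the line claim -/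
theorem claim1 (h : HM G) {x0 x z q m : W} {i r : ℕ} (hi : i < G.dist x0 z)
    (hz : Bel G x0 z x) (hq : q ∈ FF G x0 i x) (hr : G.dist q z + i = G.dist x0 z + 2 * r)
    (hm : m ∈ Sl G x0 z (JJ G x0 i z)) : G.dist q m ≤ (i - JJ G x0 i z) + 2 * (r + 3) := by
  have hKJ := h.JJ_mono (i := i) hz
  have hJi := JJ_le (G := G) x0 z i
  have hJs := h.JJ_spec x0 z i
  have hKmax := JJ_max (G := G) x0 x i (JJ G x0 i x + 1) (by omega)
  obtain ⟨hqT, hqm⟩ := hq
  have cm := fun a b => G.dist_comm (u := a) (v := b)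
  set J := JJ G x0 i z with hJdef
  set K := JJ G x0 i x with hKdef
  have hmT := h.sl_mono hz hm
  rcases Nat.eq_or_lt_of_le hKJ with hKJ' | hKJ'
  · have h1 := hqm m (by rw [hKJ']; exact hmT)
    have h2 := cm q m
    omega
  rcases Nat.eq_or_lt_of_le hJi with hJi' | hJi'
  · have hm' : m ∈ Sl G x0 z i := by rw [← hJi']; exact hm
    obtain ⟨e, he, he1, he2⟩ := h.gate hi hqT hz hr hm'
    have h1 := hJs m hm e (by rw [hJi']; exact he)
    have h2 := h.tri q e m
    have h3 := cm q e
    have h4 := cm e m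
    omega
  obtain ⟨u1, hu1, u2, hu2, hu⟩ := hKmax (by omega)
  obtain ⟨m1, hm1, hm1'⟩ := h.sl_lower hu1
  obtain ⟨m2, hm2, hm2'⟩ := h.sl_lower hu2
  have hev := h.sl_even hu1 hu2
  obtain ⟨p1, p1'⟩ := hu1
  obtain ⟨p2, p2'⟩ := hu2
  obtain ⟨q1, q1'⟩ := hqT
  obtain ⟨m1a, m1b⟩ := hm
  obtain ⟨m2a, m2b⟩ := hmT
  have hqu1 : G.dist q u1 ≤ i - K + 1 := by
    have a1 := hqm m1 hm1
    have a3 := h.tri q m1 u1
    have a5 := cm q m1
    omega
  have hqu2 : G.dist q u2 ≤ i - K + 1 := by
    have a1 := hqm m2 hm2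
    have a3 := h.tri q m2 u2
    have a5 := cm q m2
    omega
  -- (*)
  have star : ∀ u, G.dist x0 u = K + 1 → G.dist q u ≤ i - K + 1 →
      G.dist u m ≤ (i - K - 1) + (i - J) + 2 * (r + 1) := by
    intro u hu1 hu2
    have b1 := h.tri z q u
    have b2 := cm z q
    have b3 := cm z u
    obtain ⟨m', hm', hm''⟩ := h.hslL (x0 := x0) (x := z) (i := J) (by omega)
      [(u, J - K + 1 + 2 * r)]
      (by
        simp only [List.forall_mem_cons, List.not_mem_nil, false_implies, implies_true, and_true]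
        omega)
      (by simp)
    simp only [List.forall_mem_cons, List.not_mem_nil, false_implies, implies_true,
      and_true] at hm''
    have b4 := hJs m' hm' m ⟨m1a, m1b⟩
    have b5 := h.tri u m' m
    have b6 := cm u m'
    omega
  have st1 := star u1 p1 hqu1
  have st2 := star u2 p2 hqu2
  by_contra hcon
  push Not at hcon
  have hpar := h.par x0 q m
  obtain ⟨s, hs⟩ : ∃ s, G.dist q m = (i - J) + 2 * s := ⟨(G.dist q m - (i - J)) / 2, by omega⟩
  have hs4 : r + 4 ≤ s := by omega
  have hi' : i < G.dist x0 x := by unfold Bel at hz; omega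
  -- the points `b_k`
  have bk : ∀ u, G.dist x0 u = K + 1 → K + 1 + G.dist u x = G.dist x0 x →
      G.dist q u ≤ i - K + 1 → G.dist u m ≤ (i - K - 1) + (i - J) + 2 * (r + 1) →
      ∃ b ∈ Sl G x0 x i, G.dist b u ≤ i - K - 1 ∧ G.dist b m ≤ (i - J) + 2 * (s - 3) ∧
        G.dist b q ≤ 6 := by
    intro u hu1 hu2 hu3 hu4
    have c1 := cm m q
    have c2 := cm u q
    obtain ⟨b, hbT, hb⟩ := h.hslL (x0 := x0) (x := x) (i := i) hi'.le
      [(u, i - K - 1), (m, (i - J) + 2 * (s - 3)), (q, 6)]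
      (by
        simp only [List.forall_mem_cons, List.not_mem_nil, false_implies, implies_true, and_true]
        omega)
      (by
        simp only [List.pairwise_cons, List.forall_mem_cons, List.not_mem_nil, false_implies,
          implies_true, and_true, List.Pairwise.nil]
        omega)
    simp only [List.forall_mem_cons, List.not_mem_nil, false_implies, implies_true,
      and_true] at hb
    exact ⟨b, hbT, hb.1, hb.2.1, hb.2.2⟩
  obtain ⟨b1, hb1, b1u, b1m, b1q⟩ := bk u1 p1 p1' hqu1 st1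
  obtain ⟨b2, hb2, b2u, b2m, b2q⟩ := bk u2 p2 p2' hqu2 st2
  have hbb : G.dist b1 b2 ≤ 2 := by
    have c1 := cm m q
    exact h.two_ball hi' (v1 := m) (v2 := q) (t1 := (i - J) + 2 * (s - 3)) (t2 := 6) hb1 hb2
      (by omega) (by omega) (by omega) (by omega) (by omega) (by omega) (by omega) (by omega)
      (by omega) b1m b1q b2m b2q
  have d1 := h.tri u1 b1 u2
  have d2 := h.tri b1 b2 u2
  have d3 := cm u1 b1
  have hu12 : G.dist u1 u2 = 2 * (i - K - 1) + 2 := by omega
  have hqu1' := cm q u1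
  have hqu2' := cm q u2
  obtain ⟨c, hcT, hc⟩ := h.hslL (x0 := x0) (x := x) (i := i) hi'.le
      [(q, 2), (u1, i - K - 1), (u2, i - K - 1 + 2)]
      (by
        simp only [List.forall_mem_cons, List.not_mem_nil, false_implies, implies_true, and_true]
        omega)
      (by
        simp only [List.pairwise_cons, List.forall_mem_cons, List.not_mem_nil, false_implies,
          implies_true, and_true, List.Pairwise.nil]
        omega)
  simp only [List.forall_mem_cons, List.not_mem_nil, false_implies, implies_true,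
      and_true] at hc
  obtain ⟨c1, c2, c3⟩ := hc
  have hbc : G.dist b1 c ≤ 2 := by
    refine h.one_ball hi' (u := u1) (v := u2) (t := i - K - 1 + 2) ?_ (by omega) hb1 hcT
      (by omega) (by omega) (by omega) (by omega) (by omega) (by omega) (by omega) (by omega)
      (by omega)
    unfold Bel
    omega
  have e1 := h.tri b1 c q
  have e2 := h.tri q b1 m
  have e3 := cm q b1
  omega

theorem line_claim (h : HM G) {x0 x z p q w : W} {i : ℕ} (hi : i < G.dist x0 z)
    (hz : Bel G x0 z x) (hp : p ∈ Sl G x0 z i) (hq : q ∈ FF G x0 i x) (hw : w ∈ FF G x0 i z) :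
    G.dist w p + G.dist w q ≤ G.dist p q + 26 := by
  have cm := fun a b => G.dist_comm (u := a) (v := b)
  obtain ⟨r, hr⟩ : ∃ r, G.dist q z + i = G.dist x0 z + 2 * r := by
    have h1 := h.par x0 q z
    have h2 := hq.1.1
    have h3 := h.tri x0 q z
    exact ⟨(G.dist q z + i - G.dist x0 z) / 2, by omega⟩
  have hqT := hq.1
  obtain ⟨w', hw', hw'q⟩ := h.FF_ball (q := q) (t := 2 * (r + 3)) hi.le
    (by rw [hqT.1]; omega) (by rw [hqT.1]; omega) (by omega) (fun m hm => by
      have := h.claim1 hi hz hq hr hm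
      omega)
  have h1 := h.FF_diam hi hw hw'
  have h2 := h.tri w w' q
  rcases Nat.eq_zero_or_pos r with hr0 | hr0
  · have h3 := h.tri w q p
    have h4 := cm q p
    omega
  · obtain ⟨e, he, he1, he2⟩ := h.gate hi hqT hz hr hw.1
    obtain ⟨e', he', he1', he2'⟩ := h.gate hi hqT hz hr hp
    have h3 := h.gate_diam hi hqT hz hr hr0 he he' he1 he1'
    have h4 := h.tri w e p
    have h5 := h.tri e e' p
    have h6 := cm w e
    have h7 := cm q w
    have h8 := cm q p
    omega

theorem slab_cover (h : HM G) {x0 x p q : W} {i : ℕ} (hi : i < G.dist x0 x)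
    (hp : p ∈ Sl G x0 x i) (hq : q ∈ Sl G x0 x i) :
    ∃ g : ℕ → W, (∀ a ≤ G.dist p q / 2, g a ∈ Sl G x0 x i) ∧
      ∀ w ∈ Sl G x0 x i, G.dist w p + G.dist w q ≤ G.dist p q + 26 →
        ∃ a ≤ G.dist p q / 2, G.dist w (g a) ≤ 16 := by
  have cm := fun a b => G.dist_comm (u := a) (v := b)
  have hev := h.sl_even hp hq
  obtain ⟨p1, p2⟩ := hp
  obtain ⟨q1, q2⟩ := hq
  have hg : ∀ a, ∃ g, a ≤ G.dist p q / 2 →
      g ∈ Sl G x0 x i ∧ G.dist g p ≤ 2 * a ∧ G.dist g q ≤ G.dist p q - 2 * a := by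
    intro a
    by_cases ha : a ≤ G.dist p q / 2
    · obtain ⟨g, hgT, hg⟩ := h.hslL (x0 := x0) (x := x) (i := i) hi.le
        [(p, 2 * a), (q, G.dist p q - 2 * a)]
        (by
          simp only [List.forall_mem_cons, List.not_mem_nil, false_implies, implies_true,
            and_true]
          omega)
        (by
          simp only [List.pairwise_cons, List.forall_mem_cons, List.not_mem_nil, false_implies,
            implies_true, and_true, List.Pairwise.nil]
          omega)
      simp only [List.forall_mem_cons, List.not_mem_nil, false_implies, implies_true,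
        and_true] at hg
      exact ⟨g, fun _ => ⟨hgT, hg.1, hg.2⟩⟩
    · exact ⟨p, fun h => absurd h ha⟩
  choose g hg using hg
  refine ⟨g, fun a ha => (hg a ha).1, fun w hw hwpq => ?_⟩
  have hwp := h.sl_even hw ⟨p1, p2⟩
  have hwq := h.sl_even hw ⟨q1, q2⟩
  have t1 := h.tri p w q
  have t2 := h.tri w p q
  have t3 := h.tri w q p
  have t4 := cm p w
  have t5 := cm q p
  obtain ⟨w1, w2⟩ := hw
  set a := (G.dist w p - 14) / 2 with hadef
  have ha : a ≤ G.dist p q / 2 := by omega
  obtain ⟨hgT, g1, g2⟩ := hg a ha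
  obtain ⟨e, heT, he⟩ := h.hslL (x0 := x0) (x := x) (i := i) hi.le
    [(w, 14), (p, 2 * a), (q, G.dist p q - 2 * a)]
    (by
      simp only [List.forall_mem_cons, List.not_mem_nil, false_implies, implies_true, and_true]
      omega)
    (by
      simp only [List.pairwise_cons, List.forall_mem_cons, List.not_mem_nil, false_implies,
        implies_true, and_true, List.Pairwise.nil]
      omega)
  simp only [List.forall_mem_cons, List.not_mem_nil, false_implies, implies_true,
    and_true] at he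
  obtain ⟨e1, e2, e3⟩ := he
  have hge : G.dist e (g a) ≤ 2 := by
    rcases Nat.eq_zero_or_pos a with ha0 | ha0
    · have s1 := h.tri e p (g a)
      have s2 := cm p (g a)
      omega
    · rcases Nat.lt_or_ge (2 * a) (G.dist p q) with hlt | hge
      · exact h.two_ball hi (v1 := p) (v2 := q) (t1 := 2 * a) (t2 := G.dist p q - 2 * a) heT hgT
          (by omega) (by omega) (by omega) (by omega) (by omega) (by omega) (by omega) (by omega)
          (by omega) e2 e3 g1 g2
      · have s1 := h.tri e q (g a)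
        have s2 := cm q (g a)
        omega
  have f1 := h.tri w e (g a)
  have f2 := cm w e
  exact ⟨a, ha, by omega⟩

end HM

end PropA
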