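import Pool.Agent.PropA.A1
import Pool.Agent.PropA.A2

/-!
Module A3: the label map and the count of the labels on a ball.
-/

set_option autoImplicit false

open Finset

namespace PropA

universe u

namespace A3

theorem ncard_cover {α ι : Type*} [DecidableEq ι] (s : Finset ι) (f : ι → Set α) (n : ℕ)
    (hf : ∀ i ∈ s, (f i).Finite ∧ (f i).ncard ≤ n) :
    (⋃ i ∈ s, f i).Finite ∧ (⋃ i ∈ s, f i).ncard ≤ s.card * n := by
  induction s using Finset.induction_on with
  | empty => simp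
  | insert a s ha ih =>
    have h1 := ih fun i hi => hf i (Finset.mem_insert_of_mem hi)
    have h2 := hf a (Finset.mem_insert_self a s)
    rw [Finset.set_biUnion_insert]
    refine ⟨h2.1.union h1.1, ?_⟩
    rw [Finset.card_insert_of_notMem ha]
    refine (Set.ncard_union_le _ _).trans ?_
    rw [add_mul, one_mul]
    omega

theorem ncard_cover' {α ι : Type*} [DecidableEq ι] (s : Finset ι) (f : ι → Set α) (n : ℕ)
    (hf : ∀ i ∈ s, (f i).Finite ∧ (f i).ncard ≤ n) (A : Set α) (hA : A ⊆ ⋃ i ∈ s, f i) :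
    A.Finite ∧ A.ncard ≤ s.card * n := by
  have h1 := ncard_cover s f n hf
  exact ⟨h1.1.subset hA, (Set.ncard_le_ncard hA h1.1).trans h1.2⟩

variable {W : Type u} {G : SimpleGraph W}

theorem bel_trans (h : HM G) {x0 a b c : W} (h1 : Bel G x0 a b) (h2 : Bel G x0 b c) :
    Bel G x0 a c := by
  unfold Bel at *
  have h3 := h.conn.dist_triangle (u := a) (v := b) (w := c)
  have h4 := h.conn.dist_triangle (u := x0) (v := a) (w := c)
  omega

/-- a vertex on a geodesic -/
theorem exists_on (h : HM G) (x0 y : W) (k : ℕ) (hk : k ≤ G.dist x0 y) :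
    ∃ w, G.dist x0 w = k ∧ G.dist x0 w + G.dist w y = G.dist x0 y := by
  obtain ⟨p, hp⟩ := h.conn.exists_walk_length_eq_dist x0 y
  refine ⟨p.getVert k, ?_⟩
  have h1 : G.dist x0 (p.getVert k) ≤ k := by
    have := SimpleGraph.dist_le (p.take k)
    rw [SimpleGraph.Walk.take_length] at this
    omega
  have h2 : G.dist (p.getVert k) y ≤ G.dist x0 y - k := by
    have := SimpleGraph.dist_le (p.drop k)
    rw [SimpleGraph.Walk.drop_length] at this
    omega
  have h3 := h.conn.dist_triangle (u := x0) (v := p.getVert k) (w := y)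
  omega

/-- the point `z` below `y` -/
theorem exists_z (h : HM G) (x0 y : W) (lam : ℕ) (hy : 2 * lam ≤ G.dist x0 y) :
    ∃ z, G.dist x0 z + 2 * lam = G.dist x0 y ∧ ∀ m, Bel G x0 m y → G.dist m y ≤ lam →
      Bel G x0 z m := by
  set k := G.dist x0 y - 2 * lam with hk
  obtain ⟨w0, hw0, hw0'⟩ := exists_on h x0 y k (by omega)
  let S : Set (W × ℕ) := {(x0, k)} ∪
    (fun m => (m, G.dist x0 m - k)) '' {m | Bel G x0 m y ∧ G.dist m y ≤ lam}
  have hfin : {m | Bel G x0 m y ∧ G.dist m y ≤ lam}.Finite := by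
    apply (h.fin y lam).subset
    rintro m ⟨_, hm⟩
    rw [Set.mem_ofPred_eq, SimpleGraph.dist_comm]
    exact hm
  have hSfin : S.Finite := (Set.finite_singleton _).union (hfin.image _)
  have hpar : ∀ p ∈ S, Even (G.dist w0 p.1 + p.2) := by
    rintro p (hp | ⟨m, ⟨hm1, hm2⟩, rfl⟩)
    · rw [Set.mem_singleton_iff] at hp
      rw [hp]
      simp only
      rw [SimpleGraph.dist_comm, hw0]
      exact ⟨k, rfl⟩
    · simp only
      have h1 := h.even3 x0 w0 m
      unfold Bel at hm1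
      obtain ⟨r, hr⟩ := h1
      refine ⟨r - k, ?_⟩
      omega
  have hpair : ∀ p ∈ S, ∀ q ∈ S, G.dist p.1 q.1 ≤ p.2 + q.2 := by
    rintro p (hp | ⟨m, ⟨hm1, hm2⟩, rfl⟩) q (hq | ⟨m', ⟨hm1', hm2'⟩, rfl⟩)
    · rw [Set.mem_singleton_iff] at hp hq
      rw [hp, hq]
      simp
    · rw [Set.mem_singleton_iff] at hp
      rw [hp]
      simp only
      omega
    · rw [Set.mem_singleton_iff] at hq
      rw [hq]
      simp only
      rw [SimpleGraph.dist_comm]
      omega
    · simp only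
      unfold Bel at hm1 hm1'
      have h1 := h.conn.dist_triangle (u := m) (v := y) (w := m')
      rw [SimpleGraph.dist_comm (u := y) (v := m')] at h1
      omega
  obtain ⟨z, hz⟩ := h.helly S hSfin w0 hpar hpair
  have h1 := (hz (x0, k) (Or.inl rfl)).1
  simp only at h1
  rw [SimpleGraph.dist_comm] at h1
  have h2 : ∀ m, Bel G x0 m y → G.dist m y ≤ lam → G.dist z m ≤ G.dist x0 m - k := by
    intro m hm hm'
    exact (hz (m, G.dist x0 m - k) (Or.inr ⟨m, ⟨hm, hm'⟩, rfl⟩)).1
  have hyy : Bel G x0 y y := by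
    unfold Bel
    simp
  have h3 := h2 y hyy (by simp)
  have h4 := h.conn.dist_triangle (u := x0) (v := z) (w := y)
  refine ⟨z, by omega, ?_⟩
  intro m hm hm'
  have h5 := h2 m hm hm'
  have h6 := h.conn.dist_triangle (u := x0) (v := z) (w := m)
  unfold Bel at *
  omega

/-- medians -/
theorem exists_med (h : HM G) (x0 x y : W) : ∃ m, Bel G x0 m x ∧ Bel G x0 m y ∧
    G.dist m y ≤ G.dist x y := by
  obtain ⟨r, hr⟩ := h.even3 x0 x y
  have t1 := h.conn.dist_triangle (u := x0) (v := x) (w := y)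
  have t2 := h.conn.dist_triangle (u := x0) (v := y) (w := x)
  have t3 := h.conn.dist_triangle (u := x) (v := x0) (w := y)
  rw [SimpleGraph.dist_comm (u := y) (v := x)] at t2
  rw [SimpleGraph.dist_comm (u := x) (v := x0)] at t3
  obtain ⟨w0, hw0, hw0'⟩ := exists_on h x0 x (r - G.dist x y) (by omega)
  let S : Set (W × ℕ) := {(x0, r - G.dist x y), (x, r - G.dist x0 y), (y, r - G.dist x0 x)}
  have hS1 : (x0, r - G.dist x y) ∈ S := by simp [S]
  have hS2 : (x, r - G.dist x0 y) ∈ S := by simp [S]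
  have hS3 : (y, r - G.dist x0 x) ∈ S := by simp [S]
  have hSfin : S.Finite := Set.toFinite _
  have hpar : ∀ p ∈ S, Even (G.dist w0 p.1 + p.2) := by
    intro p hp
    simp only [S, Set.mem_insert_iff, Set.mem_singleton_iff] at hp
    rcases hp with rfl | rfl | rfl
    · simp only
      rw [SimpleGraph.dist_comm, hw0]
      exact ⟨_, rfl⟩
    · simp only
      refine ⟨r - G.dist x0 y, ?_⟩
      omega
    · simp only
      obtain ⟨s, hs⟩ := h.even3 x0 w0 y
      refine ⟨s - (r - G.dist x y), ?_⟩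
      omega
  have hpair : ∀ p ∈ S, ∀ q ∈ S, G.dist p.1 q.1 ≤ p.2 + q.2 := by
    intro p hp q hq
    simp only [S, Set.mem_insert_iff, Set.mem_singleton_iff] at hp hq
    have c1 := SimpleGraph.dist_comm (G := G) (u := x) (v := x0)
    have c2 := SimpleGraph.dist_comm (G := G) (u := y) (v := x0)
    have c3 := SimpleGraph.dist_comm (G := G) (u := y) (v := x)
    rcases hp with rfl | rfl | rfl <;> rcases hq with rfl | rfl | rfl <;>
      simp only [SimpleGraph.dist_self] <;> omega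
  obtain ⟨m, hm⟩ := h.helly S hSfin w0 hpar hpair
  have m1 := (hm _ hS1).1
  have m2 := (hm _ hS2).1
  have m3 := (hm _ hS3).1
  simp only at m1 m2 m3
  rw [SimpleGraph.dist_comm] at m1
  have u1 := h.conn.dist_triangle (u := x0) (v := m) (w := x)
  have u2 := h.conn.dist_triangle (u := x0) (v := m) (w := y)
  refine ⟨m, ?_, ?_, ?_⟩
  · unfold Bel
    omega
  · unfold Bel
    omega
  · omega

/-- small balls in slices -/
theorem ball_le (h : HM G) {x0 x : W} {M i : ℕ}
    (hTB : ∀ g, g ∈ Sl G x0 x i → {g' | g' ∈ Sl G x0 x i ∧ G.dist g g' ≤ 2}.ncard ≤ M)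
    {g : W} (hg : g ∈ Sl G x0 x i) (r : ℕ) :
    {w | w ∈ Sl G x0 x i ∧ G.dist w g ≤ 2 * r}.Finite ∧
      {w | w ∈ Sl G x0 x i ∧ G.dist w g ≤ 2 * r}.ncard ≤ M ^ r := by
  classical
  have hfin : ∀ r (g : W), {w | w ∈ Sl G x0 x i ∧ G.dist w g ≤ 2 * r}.Finite := by
    intro r g
    apply (h.fin g (2 * r)).subset
    rintro w ⟨_, hw⟩
    rw [Set.mem_ofPred_eq, SimpleGraph.dist_comm]
    exact hw
  refine ⟨hfin r g, ?_⟩
  induction r with
  | zero =>
    have : {w | w ∈ Sl G x0 x i ∧ G.dist w g ≤ 2 * 0} ⊆ {g} := by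
      rintro w ⟨_, hw⟩
      rw [Nat.mul_zero, Nat.le_zero, h.conn.dist_eq_zero_iff] at hw
      exact hw
    have h1 := Set.ncard_le_ncard this (Set.finite_singleton g)
    rw [Set.ncard_singleton] at h1
    simpa using h1
  | succ r ih =>
    have hc := ncard_cover' (hfin r g).toFinset
      (fun g' => {w | w ∈ Sl G x0 x i ∧ G.dist g' w ≤ 2}) M ?_
      {w | w ∈ Sl G x0 x i ∧ G.dist w g ≤ 2 * (r + 1)} ?_
    · refine hc.2.trans ?_
      rw [← Set.ncard_eq_toFinset_card _ (hfin r g), pow_succ]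
      exact Nat.mul_le_mul_right M ih
    · intro g' hg'
      rw [Set.Finite.mem_toFinset] at hg'
      refine ⟨?_, hTB g' hg'.1⟩
      apply (h.fin g' 2).subset
      rintro w ⟨_, hw⟩
      exact hw
    · rintro w ⟨hw, hwg⟩
      unfold Sl at hg hw
      simp only [Set.mem_ofPred_eq] at hg hw
      let S : Set (W × ℕ) := {(x0, i), (x, G.dist x0 x - i), (g, 2 * r), (w, 2)}
      have hS : S.Finite := Set.toFinite _
      have hpar : ∀ p ∈ S, Even (G.dist w p.1 + p.2) := by
        intro p hp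
        simp only [S, Set.mem_insert_iff, Set.mem_singleton_iff] at hp
        rcases hp with rfl | rfl | rfl | rfl
        · simp only
          rw [SimpleGraph.dist_comm, hw.1]
          exact ⟨i, rfl⟩
        · simp only
          refine ⟨G.dist x0 x - i, ?_⟩
          omega
        · simp only
          obtain ⟨s, hs⟩ := h.even3 x0 w g
          refine ⟨s - i + r, ?_⟩
          omega
        · simp
      have hpair : ∀ p ∈ S, ∀ q ∈ S, G.dist p.1 q.1 ≤ p.2 + q.2 := by
        intro p hp q hq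
        simp only [S, Set.mem_insert_iff, Set.mem_singleton_iff] at hp hq
        have c1 := SimpleGraph.dist_comm (G := G) (u := x) (v := x0)
        have c2 := SimpleGraph.dist_comm (G := G) (u := g) (v := x0)
        have c3 := SimpleGraph.dist_comm (G := G) (u := w) (v := x0)
        have c4 := SimpleGraph.dist_comm (G := G) (u := x) (v := g)
        have c5 := SimpleGraph.dist_comm (G := G) (u := x) (v := w)
        have c6 := SimpleGraph.dist_comm (G := G) (u := w) (v := g)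
        rcases hp with rfl | rfl | rfl | rfl <;> rcases hq with rfl | rfl | rfl | rfl <;>
          simp only [SimpleGraph.dist_self] <;> omega
      obtain ⟨g', hg'⟩ := h.helly S hS w hpar hpair
      have m1 := (hg' (x0, i) (by simp [S])).1
      have m2 := (hg' (x, G.dist x0 x - i) (by simp [S])).1
      have m3 := (hg' (g, 2 * r) (by simp [S])).1
      have m4 := (hg' (w, 2) (by simp [S])).1
      simp only at m1 m2 m3 m4
      rw [SimpleGraph.dist_comm] at m1
      have u1 := h.conn.dist_triangle (u := x0) (v := g') (w := x)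
      have hgs : g' ∈ Sl G x0 x i := by
        unfold Sl
        simp only [Set.mem_ofPred_eq]
        omega
      simp only [Set.mem_iUnion, Set.Finite.mem_toFinset, Set.mem_ofPred_eq, exists_prop]
      exact ⟨g', ⟨hgs, m3⟩, hw, m4⟩

theorem dist_le_mid (h : HM G) {a b c : W} {r s : ℕ} (h1 : G.dist a b ≤ r)
    (h2 : G.dist b c ≤ s) : G.dist a c ≤ r + s := by
  have h3 := h.conn.dist_triangle (u := a) (v := b) (w := c)
  omega

/-- the labels of one level -/
theorem level (h : HM G) (x0 : W) (M : ℕ)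
    (hTB : ∀ x i g, Odd i → i < G.dist x0 x → Even (G.dist x0 x) → g ∈ Sl G x0 x i →
      {g' | g' ∈ Sl G x0 x i ∧ G.dist g g' ≤ 2}.ncard ≤ M)
    (lam : ℕ) (hlam : Odd lam) (z w : W → W)
    (hz : ∀ y, 5 * lam ≤ G.dist x0 y → G.dist x0 (z y) + 2 * lam = G.dist x0 y ∧
      (∀ m, Bel G x0 m y → G.dist m y ≤ lam → Bel G x0 (z y) m) ∧
      w y ∈ FF G x0 (G.dist x0 y - 5 * lam) (z y))
    (x : W) (hx : Even (G.dist x0 x)) (i : ℕ) :
    (w '' {y | Even (G.dist x0 y) ∧ G.dist x y ≤ lam ∧ G.dist x0 y = i + 5 * lam}).Finite ∧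
    (w '' {y | Even (G.dist x0 y) ∧ G.dist x y ≤ lam ∧ G.dist x0 y = i + 5 * lam}).ncard ≤
      (6 * lam + 1) * M ^ 8 := by
  classical
  set Y := {y | Even (G.dist x0 y) ∧ G.dist x y ≤ lam ∧ G.dist x0 y = i + 5 * lam} with hY
  rcases Set.eq_empty_or_nonempty Y with hE | ⟨y0, hy0⟩
  · rw [hE]
    simp
  have hYfin : Y.Finite := by
    apply (h.fin x lam).subset
    rintro y ⟨_, hy, _⟩
    exact hy
  have hlam1 : 1 ≤ lam := hlam.pos
  -- the points z y
  have hzy : ∀ y ∈ Y, G.dist x0 (z y) = i + 3 * lam ∧ Bel G x0 (z y) x ∧ Bel G x0 (z y) y ∧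
      w y ∈ FF G x0 i (z y) := by
    rintro y ⟨hy1, hy2, hy3⟩
    obtain ⟨h1, h2, h3⟩ := hz y (by omega)
    obtain ⟨m, hm1, hm2, hm3⟩ := exists_med h x0 x y
    have h4 : Bel G x0 (z y) y := by
      refine h2 y ?_ (by simp)
      unfold Bel
      simp
    have h5 := h2 m hm2 (hm3.trans hy2)
    refine ⟨by omega, bel_trans h h5 hm1, h4, ?_⟩
    have h6 : G.dist x0 y - 5 * lam = i := by omega
    rw [h6] at h3
    exact h3
  obtain ⟨hy01, hy02, hy03⟩ := hy0
  have hi : Odd i := by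
    rw [hy03] at hy01
    have h7 : Odd (5 * lam) := by
      rw [Nat.odd_mul]
      exact ⟨by decide, hlam⟩
    rcases Nat.even_or_odd i with h8 | h8
    · exfalso
      exact (Nat.not_even_iff_odd.mpr (h8.add_odd h7)) hy01
    · exact h8
  have tri0 := h.conn.dist_triangle (u := x0) (v := x) (w := y0)
  have tri1 := h.conn.dist_triangle (u := x0) (v := y0) (w := x)
  rw [SimpleGraph.dist_comm (u := y0) (v := x)] at tri1
  have hix : i < G.dist x0 x := by omega
  have hzz : ∀ y ∈ Y, ∀ y' ∈ Y, G.dist (z y) (z y') ≤ 3 * lam + 3 * lam := by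
    intro y hy y' hy'
    obtain ⟨a1, _, a3, _⟩ := hzy y hy
    obtain ⟨b1, _, b3, _⟩ := hzy y' hy'
    have e1 : G.dist (z y) y ≤ 2 * lam := by
      unfold Bel at a3
      have := hy.2.2
      omega
    have e2 : G.dist y' (z y') ≤ 2 * lam := by
      rw [SimpleGraph.dist_comm]
      unfold Bel at b3
      have := hy'.2.2
      omega
    have e3 : G.dist y x ≤ lam := by
      rw [SimpleGraph.dist_comm]
      exact hy.2.1
    have e4 := dist_le_mid h (dist_le_mid h (dist_le_mid h e1 e3) hy'.2.1) e2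
    omega
  -- the point p
  obtain ⟨a1, a2, a3, a4⟩ := hzy y0 ⟨hy01, hy02, hy03⟩
  obtain ⟨w0, hw0, hw0'⟩ := exists_on h x0 (z y0) i (by omega)
  let S : Set (W × ℕ) := {(x0, i)} ∪ (fun y => (z y, 3 * lam)) '' Y
  have hS : S.Finite := (Set.finite_singleton _).union (hYfin.image _)
  have hpar : ∀ p ∈ S, Even (G.dist w0 p.1 + p.2) := by
    rintro p (hp | ⟨y, hy, rfl⟩)
    · rw [Set.mem_singleton_iff] at hp
      rw [hp]
      simp only
      rw [SimpleGraph.dist_comm, hw0]
      exact ⟨i, rfl⟩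
    · simp only
      obtain ⟨s, hs⟩ := h.even3 x0 w0 (z y)
      have := (hzy y hy).1
      refine ⟨s - i, ?_⟩
      omega
  have hpair : ∀ p ∈ S, ∀ q ∈ S, G.dist p.1 q.1 ≤ p.2 + q.2 := by
    rintro p (hp | ⟨y, hy, rfl⟩) q (hq | ⟨y', hy', rfl⟩)
    · rw [Set.mem_singleton_iff] at hp hq
      rw [hp, hq]
      simp
    · rw [Set.mem_singleton_iff] at hp
      rw [hp]
      simp only
      rw [(hzy y' hy').1]
    · rw [Set.mem_singleton_iff] at hq
      rw [hq]
      simp only
      rw [SimpleGraph.dist_comm, (hzy y hy).1]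
      omega
    · simp only
      exact hzz y hy y' hy'
  obtain ⟨p, hp⟩ := h.helly S hS w0 hpar hpair
  have hp0 := (hp (x0, i) (Or.inl rfl)).1
  simp only at hp0
  rw [SimpleGraph.dist_comm] at hp0
  have hpz : ∀ y ∈ Y, p ∈ Sl G x0 (z y) i := by
    intro y hy
    have e1 := (hp (z y, 3 * lam) (Or.inr ⟨y, hy, rfl⟩)).1
    simp only at e1
    have e2 := (hzy y hy).1
    have e3 := h.conn.dist_triangle (u := x0) (v := p) (w := z y)
    unfold Sl
    simp only [Set.mem_ofPred_eq]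
    omega
  have hSl : ∀ y ∈ Y, ∀ v, v ∈ Sl G x0 (z y) i → v ∈ Sl G x0 x i := by
    intro y hy v hv
    obtain ⟨b1, b2, _, _⟩ := hzy y hy
    unfold Sl at hv ⊢
    simp only [Set.mem_ofPred_eq] at hv ⊢
    unfold Bel at b2
    have e3 := h.conn.dist_triangle (u := x0) (v := v) (w := x)
    have e4 := h.conn.dist_triangle (u := v) (v := z y) (w := x)
    omega
  have hpx : p ∈ Sl G x0 x i := hSl y0 ⟨hy01, hy02, hy03⟩ p (hpz y0 ⟨hy01, hy02, hy03⟩)
  obtain ⟨q, hq⟩ := h.FF_nonempty (x0 := x0) (z := x) (i := i) hix.le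
  have hqx : q ∈ Sl G x0 x i := hq.1
  obtain ⟨g, hg1, hg2⟩ := h.slab_cover hix hpx hqx
  have hpq : G.dist p q ≤ 12 * lam := by
    unfold Sl at hpx hqx
    simp only [Set.mem_ofPred_eq] at hpx hqx
    have e5 := h.conn.dist_triangle (u := p) (v := x) (w := q)
    rw [SimpleGraph.dist_comm (u := x) (v := q)] at e5
    omega
  have hc := ncard_cover' (Finset.range (G.dist p q / 2 + 1))
    (fun a => {v | v ∈ Sl G x0 x i ∧ G.dist v (g a) ≤ 2 * 8}) (M ^ 8) ?_ (w '' Y) ?_
  · refine ⟨hc.1, hc.2.trans ?_⟩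
    rw [Finset.card_range]
    apply Nat.mul_le_mul_right
    omega
  · intro a ha
    rw [Finset.mem_range] at ha
    exact ball_le h (fun g' hg' => hTB x i g' hi hix hx hg') (hg1 a (by omega)) 8
  · rintro v ⟨y, hy, rfl⟩
    obtain ⟨b1, b2, _, b4⟩ := hzy y hy
    have hwx : w y ∈ Sl G x0 x i := hSl y hy _ b4.1
    have hline := h.line_claim (x := x) (z := z y) (p := p) (q := q) (w := w y) (i := i)
      (by omega) b2 (hpz y hy) hq b4
    obtain ⟨a, ha1, ha2⟩ := hg2 (w y) hwx hline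
    simp only [Set.mem_iUnion, Finset.mem_range, Set.mem_ofPred_eq, exists_prop]
    exact ⟨a, by omega, hwx, ha2⟩

end A3

theorem HM.labels {W : Type u} {G : SimpleGraph W} (h : HM G) (x0 : W) (M : ℕ)
    (hTB : ∀ x i g, Odd i → i < G.dist x0 x → Even (G.dist x0 x) → g ∈ Sl G x0 x i →
      {g' | g' ∈ Sl G x0 x i ∧ G.dist g g' ≤ 2}.ncard ≤ M)
    (lam : ℕ) (hlam : Odd lam) :
    ∃ w : W → W, (∀ y, G.dist y (w y) ≤ 5 * lam) ∧
      ∀ x, Even (G.dist x0 x) →
        (w '' {y | Even (G.dist x0 y) ∧ G.dist x y ≤ lam}).ncard ≤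
          (2 * lam + 1) * (6 * lam + 1) * M ^ 8 + 1 := by
  classical
  have h1 : ∀ y, ∃ z w : W, G.dist y w ≤ 5 * lam ∧
      (5 * lam ≤ G.dist x0 y → G.dist x0 z + 2 * lam = G.dist x0 y ∧
        (∀ m, Bel G x0 m y → G.dist m y ≤ lam → Bel G x0 z m) ∧
        w ∈ FF G x0 (G.dist x0 y - 5 * lam) z) ∧ (G.dist x0 y < 5 * lam → w = x0) := by
    intro y
    rcases lt_or_ge (G.dist x0 y) (5 * lam) with hy | hy
    · refine ⟨x0, x0, ?_, fun hy' => absurd hy' (by omega), fun _ => rfl⟩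
      rw [SimpleGraph.dist_comm]
      exact hy.le
    · obtain ⟨z, hz1, hz2⟩ := A3.exists_z h x0 y lam (by omega)
      obtain ⟨w, hw⟩ := h.FF_nonempty (x0 := x0) (z := z) (i := G.dist x0 y - 5 * lam) (by omega)
      refine ⟨z, w, ?_, fun _ => ⟨hz1, hz2, hw⟩, fun hy' => absurd hy' (by omega)⟩
      have hw1 := hw.1
      unfold Sl at hw1
      simp only [Set.mem_ofPred_eq] at hw1
      have hzy : Bel G x0 z y := by
        refine hz2 y ?_ (by simp)
        unfold Bel
        simp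
      unfold Bel at hzy
      have h2 := h.conn.dist_triangle (u := w) (v := z) (w := y)
      rw [SimpleGraph.dist_comm (u := y) (v := w)]
      omega
  choose z w hw1 hw2 hw3 using h1
  refine ⟨w, hw1, ?_⟩
  intro x hx
  have hc := A3.ncard_cover' (Finset.range (2 * lam + 1))
    (fun j => w '' {y | Even (G.dist x0 y) ∧ G.dist x y ≤ lam ∧
      G.dist x0 y = (G.dist x0 x + j - 6 * lam) + 5 * lam}) ((6 * lam + 1) * M ^ 8)
    (fun j _ => A3.level h x0 M hTB lam hlam z w hw2 x hx _)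
    (w '' {y | Even (G.dist x0 y) ∧ G.dist x y ≤ lam ∧ 5 * lam ≤ G.dist x0 y}) ?_
  · rw [Finset.card_range] at hc
    have h3 : w '' {y | Even (G.dist x0 y) ∧ G.dist x y ≤ lam} ⊆
        {x0} ∪ w '' {y | Even (G.dist x0 y) ∧ G.dist x y ≤ lam ∧ 5 * lam ≤ G.dist x0 y} := by
      rintro v ⟨y, ⟨hy1, hy2⟩, rfl⟩
      rcases lt_or_ge (G.dist x0 y) (5 * lam) with hy | hy
      · left
        exact hw3 y hy
      · right
        exact ⟨y, ⟨hy1, hy2, hy⟩, rfl⟩
    have h4 := Set.ncard_le_ncard h3 ((Set.finite_singleton _).union hc.1)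
    have h5 := Set.ncard_union_le {x0}
      (w '' {y | Even (G.dist x0 y) ∧ G.dist x y ≤ lam ∧ 5 * lam ≤ G.dist x0 y})
    rw [Set.ncard_singleton] at h5
    have h6 := hc.2
    rw [← mul_assoc] at h6
    omega
  · rintro v ⟨y, ⟨hy1, hy2, hy3⟩, rfl⟩
    have t1 := h.conn.dist_triangle (u := x0) (v := x) (w := y)
    have t2 := h.conn.dist_triangle (u := x0) (v := y) (w := x)
    rw [SimpleGraph.dist_comm (u := y) (v := x)] at t2
    simp only [Set.mem_iUnion, Finset.mem_range, exists_prop]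
    refine ⟨G.dist x0 y + lam - G.dist x0 x, by omega, y, ⟨hy1, hy2, ?_⟩, rfl⟩
    omega

end PropA
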