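import Pool.Agent.PropA.Defs

/-!
# Property A machine for MP_db4510_al: weights with natural number values
-/

namespace PropA

universe u

/-! ### Overlaps -/

section ov

variable {C : Type u}

theorem ov_eq_sum {f g : C →₀ ℕ} {s : Finset C} (h : f.support ⊆ s) :
    ov f g = ∑ c ∈ s, min (f c) (g c) := by
  unfold ov
  refine Finset.sum_subset h ?_
  intro c _ hc
  rw [Finsupp.notMem_support_iff] at hc
  simp [hc]

theorem mass_eq_sum {f : C →₀ ℕ} {s : Finset C} (h : f.support ⊆ s) :
    mass f = ∑ c ∈ s, f c := by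
  unfold mass Finsupp.sum
  refine Finset.sum_subset h ?_
  intro c _ hc
  rwa [Finsupp.notMem_support_iff] at hc

theorem ov_comm (f g : C →₀ ℕ) : ov f g = ov g f := by
  classical
  rw [ov_eq_sum (s := f.support ∪ g.support) Finset.subset_union_left,
    ov_eq_sum (s := f.support ∪ g.support) Finset.subset_union_right]
  exact Finset.sum_congr rfl fun c _ => min_comm _ _

theorem ov_self (f : C →₀ ℕ) : ov f f = mass f := by
  rw [ov_eq_sum (Finset.Subset.refl _), mass_eq_sum (Finset.Subset.refl _)]
  exact Finset.sum_congr rfl fun c _ => min_self _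

theorem ov_tri (f g k : C →₀ ℕ) (n : ℕ) (_hf : mass f = n) (hg : mass g = n)
    (_hk : mass k = n) : ov f g + ov g k ≤ ov f k + n := by
  classical
  set s := f.support ∪ g.support ∪ k.support with hs
  have h1 : f.support ⊆ s := fun c hc =>
    Finset.mem_union_left _ (Finset.mem_union_left _ hc)
  have h2 : g.support ⊆ s := fun c hc =>
    Finset.mem_union_left _ (Finset.mem_union_right _ hc)
  rw [ov_eq_sum h1, ov_eq_sum h2, ov_eq_sum h1, ← hg, mass_eq_sum h2, ← Finset.sum_add_distrib,
    ← Finset.sum_add_distrib]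
  refine Finset.sum_le_sum fun c _ => ?_
  omega

theorem ov_walk {V' : Type u} {G' : SimpleGraph V'} (F : V' → C →₀ ℕ) {ε : ℝ} {n L : ℕ}
    (hε : 0 ≤ ε) (hF : ∀ x, mass (F x) = n)
    (hov : ∀ x y, G'.Adj x y → (1 - ε) * n ≤ (ov (F x) (F y) : ℝ)) {a b : V'}
    (p : G'.Walk a b) (hp : p.length ≤ L) : (1 - L * ε) * n ≤ (ov (F a) (F b) : ℝ) := by
  have key : (1 - p.length * ε) * n ≤ (ov (F a) (F b) : ℝ) := by
    clear hp
    induction p with
    | nil => rw [ov_self, hF]; simp
    | @cons u v w huv q ih =>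
      have h1 := hov u v huv
      have h2 : (ov (F u) (F v) : ℝ) + ov (F v) (F w) ≤ ov (F u) (F w) + n := by
        exact_mod_cast ov_tri _ _ _ n (hF u) (hF v) (hF w)
      rw [SimpleGraph.Walk.length_cons]
      push_cast
      nlinarith
  refine le_trans ?_ key
  have h1 : (p.length : ℝ) ≤ L := by exact_mod_cast hp
  have h2 : (0 : ℝ) ≤ n := Nat.cast_nonneg n
  have h3 : (p.length : ℝ) * ε ≤ L * ε := mul_le_mul_of_nonneg_right h1 hε
  nlinarith

end ov

/-! ### Operations -/

section B1
variable {V : Type u}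

theorem PA.mono {G G' : SimpleGraph V} {ε : ℝ} {M M' n : ℕ} (hG : G' ≤ G) (hM : M ≤ M')
    (h : PA G ε M n) : PA G' ε M' n := by
  obtain ⟨hn, C, f, h1, h2, h3⟩ := h
  exact ⟨hn, C, f, h1, fun x y hxy => h2 x y (hG hxy), fun c => ⟨(h3 c).1, (h3 c).2.trans hM⟩⟩

/-- graph without edges -/
theorem PA.bot {ε : ℝ} (_hε : 0 ≤ ε) : PA (⊥ : SimpleGraph V) ε 1 1 := by
  classical
  refine ⟨Nat.one_pos, V, fun x => Finsupp.single x 1, ?_, ?_, ?_⟩
  · intro x
    simp [mass]
  · intro x y h
    exact h.elim
  · intro c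
    have h : {x | (Finsupp.single x 1 : V →₀ ℕ) c ≠ 0} ⊆ {c} := by
      intro x hx
      simp only [Set.mem_ofPred_eq, Finsupp.single_apply] at hx
      simp only [Set.mem_singleton_iff]
      by_contra hne
      exact hx (if_neg hne)
    refine ⟨(Set.finite_singleton c).subset h, ?_⟩
    exact (Set.ncard_le_ncard h (Set.finite_singleton c)).trans (Set.ncard_singleton c).le

/-- fibering lemma -/
theorem PA.fiber {G : SimpleGraph V} {C : Type u} (F : V → C →₀ ℕ) {ε ε' : ℝ} {M n n' : ℕ}
    (hn : 0 < n) (hε : 0 ≤ ε) (hε' : 0 ≤ ε') (hF : ∀ x, mass (F x) = n)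
    (hov : ∀ x y, G.Adj x y → (1 - ε) * n ≤ (ov (F x) (F y) : ℝ))
    (hfib : ∀ c, PA (res G {x | F x c ≠ 0}) ε' M n') (hn' : 0 < n') :
    PA G (ε + ε') M (n * n') := by
  classical
  choose hpos D f h1 h2 h3 using hfib
  let g : V → (Σ c, D c) →₀ ℕ := fun x =>
    Finsupp.onFinset ((F x).support.sigma fun c => (f c x).support)
      (fun z => F x z.1 * f z.1 x z.2) (by
        rintro ⟨c, d⟩ hz
        simp only at hz
        rw [Finset.mem_sigma]
        have hz1 := left_ne_zero_of_mul hz
        have hz2 := right_ne_zero_of_mul hz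
        exact ⟨by simpa using hz1, by simpa using hz2⟩)
  have hg : ∀ x z, g x z = F x z.1 * f z.1 x z.2 := fun x z => rfl
  have hsupp : ∀ x, (g x).support ⊆ (F x).support.sigma fun c => (f c x).support :=
    fun x => Finsupp.support_onFinset_subset
  refine ⟨Nat.mul_pos hn hn', _, g, ?_, ?_, ?_⟩
  · intro x
    rw [mass_eq_sum (hsupp x), Finset.sum_sigma]
    have : ∀ c ∈ (F x).support, ∑ d ∈ (f c x).support, g x ⟨c, d⟩ = F x c * n' := by
      intro c _
      simp only [hg]
      rw [← Finset.mul_sum, ← mass_eq_sum (Finset.Subset.refl _), h1]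
    rw [Finset.sum_congr rfl this, ← Finset.sum_mul, ← mass_eq_sum (Finset.Subset.refl _), hF]
  · intro x y hxy
    have hno : (0 : ℝ) ≤ n := Nat.cast_nonneg n
    have hno' : (0 : ℝ) ≤ n' := Nat.cast_nonneg n'
    rcases le_or_gt (1 - ε') 0 with h0 | h0
    · have : (1 - (ε + ε')) * ((n * n' : ℕ) : ℝ) ≤ 0 := by
        apply mul_nonpos_of_nonpos_of_nonneg
        · linarith
        · positivity
      exact this.trans (Nat.cast_nonneg _)
    have e1 : ∑ c ∈ (F x).support, min (F x c) (F y c) * ov (f c x) (f c y) ≤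
        ov (g x) (g y) := by
      rw [ov_eq_sum (hsupp x), Finset.sum_sigma]
      refine Finset.sum_le_sum fun c _ => ?_
      rw [ov_eq_sum (Finset.Subset.refl _), Finset.mul_sum]
      refine Finset.sum_le_sum fun d _ => ?_
      rw [hg, hg]
      refine le_min ?_ ?_
      · exact Nat.mul_le_mul (min_le_left _ _) (min_le_left _ _)
      · exact Nat.mul_le_mul (min_le_right _ _) (min_le_right _ _)
    have e2 : (1 - ε') * n' * (ov (F x) (F y) : ℝ) ≤
        ((∑ c ∈ (F x).support, min (F x c) (F y c) * ov (f c x) (f c y) : ℕ) : ℝ) := by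
      rw [ov_eq_sum (Finset.Subset.refl _), Nat.cast_sum, Nat.cast_sum, Finset.mul_sum]
      refine Finset.sum_le_sum fun c _ => ?_
      rw [Nat.cast_mul, mul_comm ((1 - ε') * (n' : ℝ))]
      by_cases hc : min (F x c) (F y c) = 0
      · rw [hc]; simp
      · apply mul_le_mul_of_nonneg_left _ (Nat.cast_nonneg _)
        apply h2
        refine ⟨hxy, ?_, ?_⟩
        · intro h
          apply hc
          rw [h]; simp
        · intro h
          apply hc
          rw [h]; simp
    have e3 := hov x y hxy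
    have e4 : (1 - (ε + ε')) * ((n * n' : ℕ) : ℝ) ≤ (1 - ε') * n' * (ov (F x) (F y) : ℝ) := by
      have h5 : (1 - ε') * n' * ((1 - ε) * n) ≤ (1 - ε') * n' * (ov (F x) (F y) : ℝ) :=
        mul_le_mul_of_nonneg_left e3 (by positivity)
      refine le_trans ?_ h5
      push_cast
      have h6 : 0 ≤ ε * ε' * (n * n') := by positivity
      nlinarith
    refine (e4.trans e2).trans ?_
    exact_mod_cast e1
  · rintro ⟨c, d⟩
    have hsub : {x | g x ⟨c, d⟩ ≠ 0} ⊆ {x | f c x d ≠ 0} := by
      intro x hx
      simp only [Set.mem_ofPred_eq, hg] at hx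
      exact right_ne_zero_of_mul hx
    exact ⟨(h3 c d).1.subset hsub, (Set.ncard_le_ncard hsub (h3 c d).1).trans (h3 c d).2⟩

/-- The set of vertices at distance at most `j` from `S`. -/
def nbh (G : SimpleGraph V) (S : Set V) : ℕ → Set V
  | 0 => S
  | j + 1 => nbh G S j ∪ ⋃ v ∈ nbh G S j, G.neighborSet v

theorem nbh_succ (G : SimpleGraph V) (S : Set V) (j : ℕ) : nbh G S j ⊆ nbh G S (j + 1) :=
  Set.subset_union_left

theorem nbh_mono (G : SimpleGraph V) (S : Set V) : Monotone (nbh G S) :=
  monotone_nat_of_le_succ (nbh_succ G S)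

theorem nbh_adj {G : SimpleGraph V} {S : Set V} {j : ℕ} {x y : V} (hx : x ∈ nbh G S j)
    (hxy : G.Adj x y) : y ∈ nbh G S (j + 1) := by
  right
  simp only [Set.mem_iUnion]
  exact ⟨x, hx, hxy⟩

theorem nbh_card {G : SimpleGraph V} {S : Set V} (hS : S.Finite) {m Δ : ℕ}
    (hSm : S.ncard ≤ m) (hdeg : ∀ v, (G.neighborSet v).Finite ∧ (G.neighborSet v).ncard ≤ Δ)
    (j : ℕ) : (nbh G S j).Finite ∧ (nbh G S j).ncard ≤ m * (Δ + 1) ^ j := by
  classical
  induction j with
  | zero => simpa [nbh] using And.intro hS hSm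
  | succ j ih =>
    obtain ⟨h1, h2⟩ := ih
    have hfin : (⋃ v ∈ nbh G S j, G.neighborSet v).Finite :=
      h1.biUnion fun v _ => (hdeg v).1
    refine ⟨h1.union hfin, ?_⟩
    have h3 : (⋃ v ∈ nbh G S j, G.neighborSet v).ncard ≤ (nbh G S j).ncard * Δ := by
      have e1 : (⋃ v ∈ nbh G S j, G.neighborSet v) =
          ((h1.toFinset.biUnion fun v => (hdeg v).1.toFinset : Finset V) : Set V) := by
        ext y
        simp
      rw [e1, Set.ncard_coe_finset, Set.ncard_eq_toFinset_card _ h1]
      refine Finset.card_biUnion_le_card_mul _ _ _ ?_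
      intro v _
      rw [← Set.ncard_eq_toFinset_card (G.neighborSet v) (hdeg v).1]
      exact (hdeg v).2
    calc (nbh G S (j + 1)).ncard ≤ (nbh G S j).ncard +
          (⋃ v ∈ nbh G S j, G.neighborSet v).ncard := Set.ncard_union_le _ _
      _ ≤ (nbh G S j).ncard + (nbh G S j).ncard * Δ := by omega
      _ = (nbh G S j).ncard * (Δ + 1) := by ring
      _ ≤ m * (Δ + 1) ^ j * (Δ + 1) := Nat.mul_le_mul_right _ h2
      _ = m * (Δ + 1) ^ (j + 1) := by ring

open Classical in
/-- The number of `j < r` such that `x` is at distance at most `j` from `S`. -/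
noncomputable def cnt (G : SimpleGraph V) (S : Set V) (r : ℕ) (x : V) : ℕ :=
  ((Finset.range r).filter fun j => x ∈ nbh G S j).card

theorem cnt_le (G : SimpleGraph V) (S : Set V) (r : ℕ) (x : V) : cnt G S r x ≤ r := by
  classical
  unfold cnt
  exact (Finset.card_filter_le _ _).trans (Finset.card_range r).le

theorem cnt_adj {G : SimpleGraph V} {S : Set V} {r : ℕ} {x y : V} (hxy : G.Adj x y) :
    cnt G S r x ≤ cnt G S r y + 1 := by
  classical
  unfold cnt
  have h1 : ((Finset.range r).filter fun j => x ∈ nbh G S j) ⊆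
      insert (r - 1) (((Finset.range r).filter fun j => y ∈ nbh G S j).image fun j => j - 1) := by
    intro j hj
    rw [Finset.mem_filter, Finset.mem_range] at hj
    rw [Finset.mem_insert, Finset.mem_image]
    by_cases h : j + 1 < r
    · right
      refine ⟨j + 1, ?_, by omega⟩
      rw [Finset.mem_filter, Finset.mem_range]
      exact ⟨h, nbh_adj hj.2 hxy⟩
    · left; omega
  refine (Finset.card_le_card h1).trans ((Finset.card_insert_le _ _).trans ?_)
  have := Finset.card_image_le (s := (Finset.range r).filter fun j => y ∈ nbh G S j)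
    (f := fun j => j - 1)
  omega

theorem cnt_mem {G : SimpleGraph V} {S : Set V} {r : ℕ} {x : V} (hx : x ∈ S) :
    cnt G S r x = r := by
  classical
  unfold cnt
  rw [Finset.filter_true_of_mem, Finset.card_range]
  intro j _
  exact nbh_mono G S (Nat.zero_le j) hx

theorem cnt_ne_zero {G : SimpleGraph V} {S : Set V} {r : ℕ} {x : V} (hx : cnt G S r x ≠ 0) :
    x ∈ nbh G S r := by
  classical
  unfold cnt at hx
  obtain ⟨j, hj⟩ := Finset.card_ne_zero.1 hx
  rw [Finset.mem_filter, Finset.mem_range] at hj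
  exact nbh_mono G S hj.1.le hj.2

/-- adding a finite set of vertices -/
theorem PA.add_finite {G : SimpleGraph V} {ε : ℝ} {M n Δ m r : ℕ} (S : Set V) (hS : S.Finite)
    (hSm : S.ncard ≤ m) (hdeg : ∀ v, (G.neighborSet v).Finite ∧ (G.neighborSet v).ncard ≤ Δ)
    (hε : 0 ≤ ε) (hr : 0 < r) (h : PA (res G Sᶜ) ε M n) :
    PA G (ε + 1 / r) (M + m * (Δ + 1) ^ r) (n * r) := by
  classical
  obtain ⟨hn, C, f, h1, h2, h3⟩ := h
  let a : V → ℕ := cnt G S r
  have ha : ∀ x, a x ≤ r := cnt_le G S r
  let g : V → Option C →₀ ℕ := fun x =>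
    Finsupp.onFinset (insert none ((f x).support.image some))
      (fun z => match z with
        | none => a x * n
        | some c => (r - a x) * f x c) (by
        rintro (_ | c) hz
        · simp
        · simp only at hz
          have hz2 := right_ne_zero_of_mul hz
          simp only [Finset.mem_insert, reduceCtorEq, Finset.mem_image, Option.some.injEq,
            exists_eq_right, false_or]
          simpa using hz2)
  have hg0 : ∀ x, g x none = a x * n := fun x => rfl
  have hg1 : ∀ x c, g x (some c) = (r - a x) * f x c := fun x c => rfl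
  have hsupp : ∀ x, (g x).support ⊆ insert none ((f x).support.image some) :=
    fun x => Finsupp.support_onFinset_subset
  have hsum : ∀ (x : V) (φ : Option C → ℕ),
      ∑ z ∈ insert none ((f x).support.image some), φ z =
        φ none + ∑ c ∈ (f x).support, φ (some c) := by
    intro x φ
    rw [Finset.sum_insert (by simp), Finset.sum_image]
    intro c _ d _ hcd
    exact Option.some.inj hcd
  have hov : ∀ x y, min (a x) (a y) * n + min (r - a x) (r - a y) * ov (f x) (f y) ≤
      ov (g x) (g y) := by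
    intro x y
    rw [ov_eq_sum (hsupp x), hsum, hg0, hg0]
    refine Nat.add_le_add ?_ ?_
    · refine le_min ?_ ?_
      · exact Nat.mul_le_mul_right _ (min_le_left _ _)
      · exact Nat.mul_le_mul_right _ (min_le_right _ _)
    · rw [ov_eq_sum (Finset.Subset.refl _), Finset.mul_sum]
      refine Finset.sum_le_sum fun c _ => ?_
      rw [hg1, hg1]
      refine le_min ?_ ?_
      · exact Nat.mul_le_mul (min_le_left _ _) (min_le_left _ _)
      · exact Nat.mul_le_mul (min_le_right _ _) (min_le_right _ _)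
  refine ⟨Nat.mul_pos hn hr, _, g, ?_, ?_, ?_⟩
  · intro x
    rw [mass_eq_sum (hsupp x), hsum, hg0]
    simp only [hg1]
    rw [← Finset.mul_sum, ← mass_eq_sum (Finset.Subset.refl _), h1, ← Nat.add_mul]
    have := ha x
    rw [show a x + (r - a x) = r by omega, Nat.mul_comm]
  · intro x y hxy
    have hno : (0 : ℝ) < n := by exact_mod_cast hn
    have hro : (0 : ℝ) < r := by exact_mod_cast hr
    have eRHS : (1 - (ε + 1 / r)) * ((n * r : ℕ) : ℝ) = n * (r - ε * r - 1) := by
      push_cast
      field_simp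
      ring
    rw [eRHS]
    have hov' : ((min (a x) (a y) * n + min (r - a x) (r - a y) * ov (f x) (f y) : ℕ) : ℝ) ≤
        (ov (g x) (g y) : ℝ) := by exact_mod_cast hov x y
    refine le_trans ?_ hov'
    -- one of the two vertices lies in `S`
    have key : ∀ u v : V, G.Adj u v → u ∈ S → (r : ℝ) - 1 ≤ min (a u) (a v) := by
      intro u v huv hu
      have e1 : a u = r := cnt_mem hu
      have e2 : a u ≤ a v + 1 := cnt_adj huv
      have e3 : r - 1 ≤ min (a u) (a v) := by omega
      have e4 : ((r - 1 : ℕ) : ℝ) ≤ ((min (a u) (a v) : ℕ) : ℝ) := by exact_mod_cast e3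
      rw [Nat.cast_sub hr] at e4
      push_cast at e4 ⊢
      linarith
    have key2 : (r : ℝ) - 1 ≤ ((min (a x) (a y) : ℕ) : ℝ) →
        (n : ℝ) * (r - ε * r - 1) ≤
          ((min (a x) (a y) * n + min (r - a x) (r - a y) * ov (f x) (f y) : ℕ) : ℝ) := by
      intro hk
      have h5 : (0 : ℝ) ≤ ((min (r - a x) (r - a y) * ov (f x) (f y) : ℕ) : ℝ) :=
        Nat.cast_nonneg _
      rw [Nat.cast_add, Nat.cast_mul]
      have h6 : 0 ≤ (n : ℝ) * (ε * r) := by positivity
      nlinarith
    by_cases hx : x ∈ S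
    · apply key2
      exact_mod_cast key x y hxy hx
    · by_cases hy : y ∈ S
      · apply key2
        rw [min_comm]
        exact_mod_cast key y x hxy.symm hy
      · rcases le_or_gt (1 - ε) 0 with h0 | h0
        · have h7 : (n : ℝ) * (r - ε * r - 1) ≤ 0 := by
            apply mul_nonpos_of_nonneg_of_nonpos hno.le
            nlinarith
          exact h7.trans (Nat.cast_nonneg _)
        have e1 := h2 x y ⟨hxy, hx, hy⟩
        have e2 : a x ≤ a y + 1 := cnt_adj hxy
        have e3 : a y ≤ a x + 1 := cnt_adj hxy.symm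
        have hax := ha x
        have hay := ha y
        obtain ⟨t, ht1, ht2, ht3⟩ : ∃ t : ℕ, t ≤ r ∧ min (r - a x) (r - a y) = r - t ∧
            t ≤ min (a x) (a y) + 1 := ⟨max (a x) (a y), by omega, by omega, by omega⟩
        rw [ht2, Nat.cast_add, Nat.cast_mul, Nat.cast_mul, Nat.cast_sub ht1]
        have ht3' : (t : ℝ) ≤ ((min (a x) (a y) : ℕ) : ℝ) + 1 := by exact_mod_cast ht3
        have ht1' : (t : ℝ) ≤ r := by exact_mod_cast ht1
        have ht0 : (0 : ℝ) ≤ t := Nat.cast_nonneg t
        have h8 : ((r : ℝ) - t) * ((1 - ε) * n) ≤ (r - t) * (ov (f x) (f y) : ℝ) :=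
          mul_le_mul_of_nonneg_left e1 (by linarith)
        have h9 : 0 ≤ (t : ℝ) * ε * n := by positivity
        nlinarith
  · rintro (_ | c)
    · have hsub : {x | g x none ≠ 0} ⊆ nbh G S r := by
        intro x hx
        simp only [Set.mem_ofPred_eq, hg0] at hx
        exact cnt_ne_zero (left_ne_zero_of_mul hx)
      obtain ⟨hf, hc⟩ := nbh_card hS hSm hdeg r
      refine ⟨hf.subset hsub, ?_⟩
      have := Set.ncard_le_ncard hsub hf
      omega
    · have hsub : {x | g x (some c) ≠ 0} ⊆ {x | f x c ≠ 0} := by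
        intro x hx
        simp only [Set.mem_ofPred_eq, hg1] at hx
        exact right_ne_zero_of_mul hx
      refine ⟨(h3 c).1.subset hsub, ?_⟩
      have h4 := Set.ncard_le_ncard hsub (h3 c).1
      have h5 := (h3 c).2
      omega

/-! ### Weights from label maps -/

theorem exists_large (Q k : ℕ) {ε : ℝ} (hε : 0 < ε) :
    ∃ l : ℕ, 0 < l ∧ 2 * Real.log ((Q * (l + 1) ^ k : ℕ) : ℝ) ≤ ε * l := by
  have h1 : (fun x : ℝ => 2 * (Real.log Q + k * Real.log x)) =o[Filter.atTop] (id : ℝ → ℝ) := by
    have e1 : (fun _ : ℝ => Real.log Q) =o[Filter.atTop] (id : ℝ → ℝ) :=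
      Asymptotics.isLittleO_const_id_atTop _
    have e2 : (fun x : ℝ => (k : ℝ) * Real.log x) =o[Filter.atTop] (id : ℝ → ℝ) :=
      Real.isLittleO_log_id_atTop.const_mul_left _
    exact (e1.add e2).const_mul_left _
  have h2 := h1.bound (show (0 : ℝ) < ε / 2 by positivity)
  obtain ⟨x0, hx0⟩ := Filter.eventually_atTop.1 h2
  obtain ⟨l, hl⟩ := exists_nat_gt (max x0 1)
  have hl0 : 0 < l := by
    have : (1 : ℝ) < l := lt_of_le_of_lt (le_max_right _ _) hl
    exact_mod_cast lt_trans one_pos this
  refine ⟨l, hl0, ?_⟩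
  have h3 := hx0 ((l : ℝ) + 1) (by
    have := lt_of_le_of_lt (le_max_left _ _) hl
    linarith)
  have h4 : (1 : ℝ) < l := lt_of_le_of_lt (le_max_right _ _) hl
  have h5 := (le_abs_self _).trans h3
  simp only [id, Real.norm_eq_abs] at h5
  rw [abs_of_pos (by linarith : (0 : ℝ) < (l : ℝ) + 1)] at h5
  by_cases hQ : Q = 0
  · subst hQ
    simp only [zero_mul, Nat.cast_zero, Real.log_zero, mul_zero]
    positivity
  · have hQ' : (Q : ℝ) ≠ 0 := by exact_mod_cast hQ
    have e : Real.log ((Q * (l + 1) ^ k : ℕ) : ℝ) = Real.log Q + k * Real.log ((l : ℝ) + 1) := by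
      push_cast
      rw [Real.log_mul hQ' (by positivity), Real.log_pow]
    rw [e]
    nlinarith

/-- criterion: label maps with polynomially many labels on balls give weights -/
theorem weights_of_labels {G : SimpleGraph V} (hG : G.Connected) {C : Type u} (Q k : ℕ)
    (w : ℕ → V → C)
    (hw : ∀ l x, (w l '' {y | G.dist x y ≤ 2 * l + 1}).Finite ∧
      (w l '' {y | G.dist x y ≤ 2 * l + 1}).ncard ≤ Q * (l + 1) ^ k) :
    ∀ ε > 0, ∃ l n : ℕ, 0 < n ∧ ∃ F : V → C →₀ ℕ, (∀ x, mass (F x) = n) ∧
      (∀ x y, G.Adj x y → (1 - ε) * (n : ℝ) ≤ (ov (F x) (F y) : ℝ)) ∧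
      ∀ x c, F x c ≠ 0 → ∃ y, G.dist x y ≤ 2 * l ∧ w l y = c := by
  classical
  intro ε hε
  obtain ⟨l, hl0, hl⟩ := exists_large Q k hε
  set P := Q * (l + 1) ^ k with hP
  let T : V → ℕ → Set C := fun x r => w l '' {y | G.dist x y ≤ r}
  have hTmono : ∀ x, Monotone (T x) := by
    intro x r s hrs
    refine Set.image_mono ?_
    intro y hy
    exact le_trans hy hrs
  have hTfin : ∀ x r, r ≤ 2 * l + 1 → (T x r).Finite := fun x r hr =>
    (hw l x).1.subset (hTmono x hr)
  let a : V → ℕ → ℕ := fun x r => (T x r).ncard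
  have ha1 : ∀ x r, r ≤ 2 * l + 1 → 1 ≤ a x r := by
    intro x r hr
    rw [Nat.one_le_iff_ne_zero]
    intro h0
    have := (Set.ncard_eq_zero (hTfin x r hr)).1 h0
    have hx : w l x ∈ T x r := ⟨x, by simp, rfl⟩
    rw [this] at hx
    exact hx
  have haP : ∀ x r, r ≤ 2 * l + 1 → a x r ≤ P := by
    intro x r hr
    exact (Set.ncard_le_ncard (hTmono x hr) (hTfin x _ le_rfl)).trans (hw l x).2
  have hamono : ∀ x r s, r ≤ s → s ≤ 2 * l + 1 → a x r ≤ a x s := by
    intro x r s hrs hs
    exact Set.ncard_le_ncard (hTmono x hrs) (hTfin x s hs)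
  set n0 := P.factorial with hn0
  have hn0pos : 0 < n0 := Nat.factorial_pos P
  have hdvd : ∀ x r, r ≤ 2 * l + 1 → a x r ∣ n0 := fun x r hr =>
    Nat.dvd_factorial (ha1 x r hr) (haP x r hr)
  let F : V → C →₀ ℕ := fun x =>
    Finsupp.onFinset (hTfin x (2 * l + 1) le_rfl).toFinset
      (fun c => ∑ j ∈ Finset.range l, if c ∈ T x (l + 1 + j) then n0 / a x (l + 1 + j) else 0) (by
        intro c hc
        obtain ⟨j, hj, hj2⟩ := Finset.exists_ne_zero_of_sum_ne_zero hc
        rw [Finset.mem_range] at hj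
        rw [Set.Finite.mem_toFinset]
        by_contra hcon
        apply hj2
        rw [if_neg]
        intro h
        exact hcon (hTmono x (by omega) h))
  have hF : ∀ x c, F x c =
      ∑ j ∈ Finset.range l, if c ∈ T x (l + 1 + j) then n0 / a x (l + 1 + j) else 0 :=
    fun x c => rfl
  have hsupp : ∀ x, (F x).support ⊆ (hTfin x (2 * l + 1) le_rfl).toFinset :=
    fun x => Finsupp.support_onFinset_subset
  -- sums over a slice
  have hslice : ∀ x r s, r ≤ s → (hs : s ≤ 2 * l + 1) → ∀ b : ℕ,
      ∑ c ∈ (hTfin x s hs).toFinset, (if c ∈ T x r then b else 0) = a x r * b := by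
    intro x r s hr hs b
    rw [← Finset.sum_filter, Finset.sum_const, smul_eq_mul]
    congr 1
    have : ((hTfin x s hs).toFinset.filter fun c => c ∈ T x r) =
        (hTfin x r (hr.trans hs)).toFinset := by
      ext c
      rw [Finset.mem_filter, Set.Finite.mem_toFinset, Set.Finite.mem_toFinset]
      exact ⟨fun h => h.2, fun h => ⟨hTmono x hr h, h⟩⟩
    rw [this, ← Set.ncard_eq_toFinset_card (T x r) (hTfin x r (hr.trans hs))]
  refine ⟨l, l * n0, Nat.mul_pos hl0 hn0pos, F, ?_, ?_, ?_⟩
  · intro x
    rw [mass_eq_sum (hsupp x)]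
    simp only [hF]
    rw [Finset.sum_comm]
    have : ∀ j ∈ Finset.range l, ∑ c ∈ (hTfin x (2 * l + 1) le_rfl).toFinset,
        (if c ∈ T x (l + 1 + j) then n0 / a x (l + 1 + j) else 0) = n0 := by
      intro j hj
      rw [Finset.mem_range] at hj
      rw [hslice x (l + 1 + j) (2 * l + 1) (by omega) le_rfl]
      exact Nat.mul_div_cancel' (hdvd x _ (by omega))
    rw [Finset.sum_congr rfl this, Finset.sum_const, Finset.card_range, smul_eq_mul]
  · intro x y hxy
    have hxy1 : ∀ z, G.dist y z ≤ G.dist x z + 1 := by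
      intro z
      have h1 : G.dist y z ≤ G.dist y x + G.dist x z := hG.dist_triangle
      have h2 : G.dist y x = 1 := SimpleGraph.dist_eq_one_iff_adj.2 hxy.symm
      omega
    have hxy2 : ∀ z, G.dist x z ≤ G.dist y z + 1 := by
      intro z
      have h1 : G.dist x z ≤ G.dist x y + G.dist y z := hG.dist_triangle
      have h2 : G.dist x y = 1 := SimpleGraph.dist_eq_one_iff_adj.2 hxy
      omega
    have hT1 : ∀ r, T x r ⊆ T y (r + 1) := by
      rintro r _ ⟨z, hz, rfl⟩
      refine ⟨z, ?_, rfl⟩
      have h1 : G.dist x z ≤ r := hz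
      have := hxy1 z
      show G.dist y z ≤ r + 1
      omega
    have hT2 : ∀ r, T y r ⊆ T x (r + 1) := by
      rintro r _ ⟨z, hz, rfl⟩
      refine ⟨z, ?_, rfl⟩
      have h1 : G.dist y z ≤ r := hz
      have := hxy2 z
      show G.dist x z ≤ r + 1
      omega
    have e1 : ∑ j ∈ Finset.range l, a x (l + j) * (n0 / a x (l + j + 2)) ≤ ov (F x) (F y) := by
      rw [ov_eq_sum (hsupp x)]
      have h1 : ∀ j ∈ Finset.range l, a x (l + j) * (n0 / a x (l + j + 2)) =
          ∑ c ∈ (hTfin x (2 * l + 1) le_rfl).toFinset,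
            (if c ∈ T x (l + j) then n0 / a x (l + j + 2) else 0) := by
        intro j hj
        rw [Finset.mem_range] at hj
        rw [hslice x (l + j) (2 * l + 1) (by omega) le_rfl]
      rw [Finset.sum_congr rfl h1, Finset.sum_comm]
      refine Finset.sum_le_sum fun c _ => ?_
      rw [hF, hF]
      have h2 : ∀ j ∈ Finset.range l, (if c ∈ T x (l + j) then n0 / a x (l + j + 2) else 0) ≤
          if c ∈ T x (l + 1 + j) then n0 / a x (l + 1 + j) else 0 := by
        intro j hj
        rw [Finset.mem_range] at hj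
        by_cases hc : c ∈ T x (l + j)
        · rw [if_pos hc, if_pos (hTmono x (by omega) hc)]
          exact Nat.div_le_div_left (hamono x _ _ (by omega) (by omega))
            (ha1 x _ (by omega))
        · rw [if_neg hc]; exact Nat.zero_le _
      have h3 : ∀ j ∈ Finset.range l, (if c ∈ T x (l + j) then n0 / a x (l + j + 2) else 0) ≤
          if c ∈ T y (l + 1 + j) then n0 / a y (l + 1 + j) else 0 := by
        intro j hj
        rw [Finset.mem_range] at hj
        by_cases hc : c ∈ T x (l + j)
        · have hc' : c ∈ T y (l + 1 + j) := by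
            have := hT1 _ hc
            rwa [show l + j + 1 = l + 1 + j by ring] at this
          rw [if_pos hc, if_pos hc']
          refine Nat.div_le_div_left ?_ (ha1 y _ (by omega))
          refine Set.ncard_le_ncard ?_ (hTfin x _ (by omega))
          have := hT2 (l + 1 + j)
          rwa [show l + 1 + j + 1 = l + j + 2 by ring] at this
        · rw [if_neg hc]; exact Nat.zero_le _
      exact le_min (Finset.sum_le_sum h2) (Finset.sum_le_sum h3)
    have e2 : ∀ j ∈ Finset.range l, (n0 : ℝ) * (1 + (Real.log (a x (l + j)) -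
        Real.log (a x (l + j + 2)))) ≤ ((a x (l + j) * (n0 / a x (l + j + 2)) : ℕ) : ℝ) := by
      intro j hj
      rw [Finset.mem_range] at hj
      have p1 : (0 : ℝ) < a x (l + j) := by exact_mod_cast ha1 x (l + j) (by omega)
      have p2 : (0 : ℝ) < a x (l + j + 2) := by exact_mod_cast ha1 x (l + j + 2) (by omega)
      rw [Nat.cast_mul, Nat.cast_div (hdvd x _ (by omega)) p2.ne', ← Real.log_div p1.ne' p2.ne']
      have h1 := Real.log_le_sub_one_of_pos (div_pos p1 p2)
      have h2 : (a x (l + j) : ℝ) * ((n0 : ℝ) / a x (l + j + 2)) =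
          n0 * ((a x (l + j) : ℝ) / a x (l + j + 2)) := by ring
      rw [h2]
      apply mul_le_mul_of_nonneg_left _ (Nat.cast_nonneg _)
      linarith
    have e3 : ∑ j ∈ Finset.range l, (Real.log (a x (l + j)) - Real.log (a x (l + j + 2))) =
        Real.log (a x l) + Real.log (a x (l + 1)) - (Real.log (a x (l + l)) +
          Real.log (a x (l + l + 1))) := by
      have := Finset.sum_range_sub' (fun j => Real.log (a x (l + j)) +
        Real.log (a x (l + j + 1))) l
      simp only [Nat.add_zero] at this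
      rw [← this]
      refine Finset.sum_congr rfl fun j _ => ?_
      rw [show l + (j + 1) = l + j + 1 by ring]
      ring
    have e4 : (n0 : ℝ) * (l - 2 * Real.log P) ≤ (ov (F x) (F y) : ℝ) := by
      have h1 : ((∑ j ∈ Finset.range l, a x (l + j) * (n0 / a x (l + j + 2)) : ℕ) : ℝ) ≤
          (ov (F x) (F y) : ℝ) := by exact_mod_cast e1
      refine le_trans ?_ h1
      rw [Nat.cast_sum]
      refine le_trans ?_ (Finset.sum_le_sum e2)
      rw [← Finset.mul_sum, Finset.sum_add_distrib, e3]
      apply mul_le_mul_of_nonneg_left _ (Nat.cast_nonneg _)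
      have q1 : 0 ≤ Real.log (a x l) :=
        Real.log_nonneg (by exact_mod_cast ha1 x l (by omega))
      have q2 : 0 ≤ Real.log (a x (l + 1)) :=
        Real.log_nonneg (by exact_mod_cast ha1 x (l + 1) (by omega))
      have q3 : Real.log (a x (l + l)) ≤ Real.log P :=
        Real.log_le_log (by exact_mod_cast ha1 x (l + l) (by omega))
          (by exact_mod_cast haP x (l + l) (by omega))
      have q4 : Real.log (a x (l + l + 1)) ≤ Real.log P :=
        Real.log_le_log (by exact_mod_cast ha1 x (l + l + 1) (by omega))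
          (by exact_mod_cast haP x (l + l + 1) (by omega))
      simp only [Finset.sum_const, Finset.card_range, nsmul_eq_mul, mul_one]
      linarith
    refine le_trans ?_ e4
    have h1 : (0 : ℝ) ≤ n0 := Nat.cast_nonneg _
    push_cast
    nlinarith
  · intro x c hc
    rw [hF] at hc
    obtain ⟨j, hj, hj2⟩ := Finset.exists_ne_zero_of_sum_ne_zero hc
    rw [Finset.mem_range] at hj
    by_cases h : c ∈ T x (l + 1 + j)
    · obtain ⟨y, hy, hyc⟩ := h
      refine ⟨y, ?_, hyc⟩
      have : G.dist x y ≤ l + 1 + j := hy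
      omega
    · rw [if_neg h] at hj2
      exact absurd rfl hj2

/-! ### Yu's Property A -/

/-- Chains with steps of length at most `L` in a set. -/
def chg (G : SimpleGraph V) (L : ℕ) (Z : Set V) : SimpleGraph V where
  Adj x y := x ≠ y ∧ G.dist x y ≤ L ∧ x ∈ Z ∧ y ∈ Z
  symm := ⟨fun _ _ h => ⟨h.1.symm, by rw [SimpleGraph.dist_comm]; exact h.2.1, h.2.2.2, h.2.2.1⟩⟩
  loopless := ⟨fun _ h => h.1 rfl⟩

theorem chg_walk {G : SimpleGraph V} (hG : G.Connected) {L : ℕ} {Z : Set V} {x y : V}
    (p : (chg G L Z).Walk x y) : G.dist x y ≤ L * p.length := by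
  induction p with
  | nil => simp
  | @cons u v w huv q ih =>
    rw [SimpleGraph.Walk.length_cons]
    have h1 : G.dist u w ≤ G.dist u v + G.dist v w := hG.dist_triangle
    have h2 := huv.2.1
    calc G.dist u w ≤ G.dist u v + G.dist v w := h1
      _ ≤ L + L * q.length := Nat.add_le_add h2 ih
      _ = L * (q.length + 1) := by ring

theorem chg_support {G : SimpleGraph V} {L : ℕ} {Z : Set V} {x y : V} (hx : x ∈ Z)
    (p : (chg G L Z).Walk x y) : ∀ z ∈ p.support, z ∈ Z := by
  induction p with
  | nil =>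
    intro z hz
    rw [SimpleGraph.Walk.support_nil, List.mem_singleton] at hz
    rw [hz]; exact hx
  | @cons u v w huv q ih =>
    intro z hz
    rw [SimpleGraph.Walk.support_cons, List.mem_cons] at hz
    rcases hz with rfl | hz
    · exact hx
    · exact ih huv.2.2.2 z hz

/-- Points of one component of a set with at most `M` elements are at distance at most `L M`. -/
theorem chg_dist {G : SimpleGraph V} (hG : G.Connected) {L M : ℕ} {Z : Set V} (hZ : Z.Finite)
    (hM : Z.ncard ≤ M) {x y : V} (hx : x ∈ Z) (h : (chg G L Z).Reachable x y) :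
    y ∈ Z ∧ G.dist x y ≤ L * M := by
  classical
  obtain ⟨p, hp⟩ := h.exists_isPath
  have hsup := chg_support hx p
  refine ⟨hsup y p.end_mem_support, ?_⟩
  refine (chg_walk hG p).trans (Nat.mul_le_mul_left _ ?_)
  have h1 : p.support.toFinset.card = p.length + 1 := by
    rw [List.toFinset_card_of_nodup hp.support_nodup, SimpleGraph.Walk.length_support]
  have h2 : (p.support.toFinset : Set V) ⊆ Z := by
    intro z hz
    exact hsup z (by simpa using hz)
  have h3 := Set.ncard_le_ncard h2 hZ
  rw [Set.ncard_coe_finset] at h3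
  omega

theorem propertyA_of_PA {G : SimpleGraph V} (hG : G.Connected)
    (h : ∀ ε > 0, ∃ M n, PA G ε M n) : PropertyA (fun x y => G.dist x y) := by
  classical
  intro R ε hR hε
  set L := ⌊R⌋₊ with hL
  set δ := ε / (3 + ε) with hδ
  have hδ0 : 0 < δ := by positivity
  have hδ1 : 2 * δ < ε * (1 - δ) := by
    rw [hδ]
    have h3 : (0 : ℝ) < 3 + ε := by positivity
    rw [show ε * (1 - ε / (3 + ε)) = 3 * (ε / (3 + ε)) by field_simp; ring]
    have : 0 < ε / (3 + ε) := by positivity
    linarith
  obtain ⟨M, n, hn, C, F, hF, hov, hfin⟩ := h (δ / (L + 1)) (by positivity)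
  -- overlaps of points at distance at most `R`
  have hov2 : ∀ x y, (G.dist x y : ℝ) ≤ R → (1 - δ) * n ≤ (ov (F x) (F y) : ℝ) := by
    intro x y hxy
    obtain ⟨p, hp⟩ := hG.exists_walk_length_eq_dist x y
    have hxy' : G.dist x y ≤ L := Nat.le_floor hxy
    have h1 := ov_walk (L := L) F (ε := δ / (L + 1)) (by positivity) hF hov p (by omega)
    refine le_trans ?_ h1
    have h2 : (0 : ℝ) ≤ n := Nat.cast_nonneg _
    apply mul_le_mul_of_nonneg_right _ h2
    have h3 : (L : ℝ) * (δ / (L + 1)) ≤ δ := by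
      rw [mul_div_assoc', div_le_iff₀ (by positivity)]
      nlinarith
    linarith
  let Z : C → Set V := fun c => {x | F x c ≠ 0}
  let p : C → V → V := fun c x => ((chg G L (Z c)).connectedComponentMk x).out
  have hp1 : ∀ c x, (chg G L (Z c)).Reachable x (p c x) := by
    intro c x
    have : (chg G L (Z c)).connectedComponentMk (p c x) = (chg G L (Z c)).connectedComponentMk x :=
      Quot.out_eq _
    exact (SimpleGraph.ConnectedComponent.exact this).symm
  have hp2 : ∀ c x y, F x c ≠ 0 → F y c ≠ 0 → G.dist x y ≤ L → p c x = p c y := by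
    intro c x y hx hy hxy
    by_cases hne : x = y
    · rw [hne]
    · have : (chg G L (Z c)).connectedComponentMk x = (chg G L (Z c)).connectedComponentMk y :=
        SimpleGraph.ConnectedComponent.sound
          (SimpleGraph.Adj.reachable (show (chg G L (Z c)).Adj x y from ⟨hne, hxy, hx, hy⟩))
      show ((chg G L (Z c)).connectedComponentMk x).out = _
      rw [this]
  have hcode : ∀ v : V, ∃ e : C → ℕ, Set.InjOn e ((F v).support : Set C) := fun v =>
    Set.countable_iff_exists_injOn.1 (F v).support.countable_toSet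
  choose e he using hcode
  let elt : V → C × ℕ → V × ℕ := fun x z => (p z.1 x, Nat.pair (e (p z.1 x) z.1) z.2)
  let I : V → Finset (C × ℕ) := fun x =>
    (F x).support.biUnion fun c => (Finset.range (F x c)).image fun j => (c, j)
  have hI : ∀ x z, z ∈ I x ↔ z.2 < F x z.1 := by
    rintro x ⟨c, j⟩
    simp only [I, Finset.mem_biUnion, Finset.mem_image, Finset.mem_range, Prod.mk.injEq,
      Finsupp.mem_support_iff]
    constructor
    · rintro ⟨c', -, j', hj', rfl, rfl⟩
      exact hj'
    · intro h
      exact ⟨c, by omega, j, h, rfl, rfl⟩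
  have hcardI : ∀ x, (I x).card = n := by
    intro x
    rw [Finset.card_biUnion]
    · have : ∀ c ∈ (F x).support, ((Finset.range (F x c)).image fun j => (c, j)).card = F x c := by
        intro c _
        rw [Finset.card_image_of_injective _ (fun j j' h => (Prod.mk.inj h).2), Finset.card_range]
      rw [Finset.sum_congr rfl this, ← mass_eq_sum (Finset.Subset.refl _), hF]
    · intro c _ c' _ hcc'
      rw [Function.onFun, Finset.disjoint_left]
      rintro ⟨d, j⟩ h1 h2
      simp only [Finset.mem_image, Prod.mk.injEq] at h1 h2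
      obtain ⟨_, _, rfl, _⟩ := h1
      obtain ⟨_, _, h3, _⟩ := h2
      exact hcc' h3.symm
  have hinj : ∀ x, Set.InjOn (elt x) (I x : Set (C × ℕ)) := by
    rintro x ⟨c, j⟩ hz ⟨c', j'⟩ hz' heq
    rw [Finset.mem_coe, hI] at hz hz'
    simp only at hz hz'
    simp only [elt, Prod.mk.injEq] at heq
    obtain ⟨h1, h2⟩ := heq
    rw [h1] at h2
    obtain ⟨h3, h4⟩ := Nat.pair_eq_pair.1 h2
    have k1 : F (p c x) c ≠ 0 :=
      (chg_dist hG (hfin c).1 (hfin c).2 (show x ∈ Z c from by
        show F x c ≠ 0
        omega) (hp1 c x)).1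
    have k2 : F (p c' x) c' ≠ 0 :=
      (chg_dist hG (hfin c').1 (hfin c').2 (show x ∈ Z c' from by
        show F x c' ≠ 0
        omega) (hp1 c' x)).1
    rw [h1] at k1
    have := he (p c' x) (by simpa using k1) (by simpa using k2) h3
    rw [this, h4]
  refine ⟨(L * M : ℕ) + 1, by positivity, fun x => (I x).image (elt x), ?_, ?_, ?_⟩
  · intro x
    apply Finset.Nonempty.image
    rw [← Finset.card_pos, hcardI]
    exact hn
  · intro x z hz
    obtain ⟨⟨c, j⟩, hz1, rfl⟩ := Finset.mem_image.1 hz
    rw [hI] at hz1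
    have := (chg_dist hG (hfin c).1 (hfin c).2 (show x ∈ Z c from by
        show F x c ≠ 0
        simp only at hz1
        omega) (hp1 c x)).2
    have h1 : ((G.dist x (p c x) : ℕ) : ℝ) ≤ ((L * M : ℕ) : ℝ) := by exact_mod_cast this
    show (G.dist x (p c x) : ℝ) ≤ _
    linarith
  · intro x y hxy
    have hxy' : G.dist x y ≤ L := Nat.le_floor hxy
    have hc1 : ((I x).image (elt x)).card = n := by
      rw [Finset.card_image_of_injOn (hinj x), hcardI]
    have hc2 : ((I y).image (elt y)).card = n := by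
      rw [Finset.card_image_of_injOn (hinj y), hcardI]
    have hint : ov (F x) (F y) ≤ ((I x).image (elt x) ∩ (I y).image (elt y)).card := by
      have h1 : (I x ∩ I y).image (elt x) ⊆ (I x).image (elt x) ∩ (I y).image (elt y) := by
        intro z hz
        obtain ⟨⟨c, j⟩, hz1, rfl⟩ := Finset.mem_image.1 hz
        rw [Finset.mem_inter] at hz1 ⊢
        refine ⟨Finset.mem_image_of_mem _ hz1.1, ?_⟩
        rw [Finset.mem_image]
        refine ⟨(c, j), hz1.2, ?_⟩
        have h2 := (hI x _).1 hz1.1
        have h3 := (hI y _).1 hz1.2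
        simp only at h2 h3
        have h4 := hp2 c x y (by omega) (by omega) hxy'
        simp only [elt]
        rw [h4]
      refine le_trans ?_ (Finset.card_le_card h1)
      rw [Finset.card_image_of_injOn ((hinj x).mono (by
        intro z hz
        exact (Finset.mem_inter.1 (Finset.mem_coe.1 hz)).1))]
      have h5 : I x ∩ I y = (F x).support.biUnion fun c =>
          (Finset.range (min (F x c) (F y c))).image fun j => (c, j) := by
        ext ⟨c, j⟩
        rw [Finset.mem_inter, hI, hI]
        simp only [Finset.mem_biUnion, Finset.mem_image, Finset.mem_range, Prod.mk.injEq,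
          Finsupp.mem_support_iff, lt_min_iff]
        constructor
        · rintro ⟨h1, h2⟩
          exact ⟨c, by omega, j, ⟨h1, h2⟩, rfl, rfl⟩
        · rintro ⟨c', -, j', hj', rfl, rfl⟩
          exact hj'
      rw [h5, Finset.card_biUnion]
      · rw [ov_eq_sum (Finset.Subset.refl _)]
        refine Finset.sum_le_sum fun c _ => ?_
        rw [Finset.card_image_of_injective _ (fun j j' h => (Prod.mk.inj h).2), Finset.card_range]
      · intro c _ c' _ hcc'
        rw [Function.onFun, Finset.disjoint_left]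
        rintro ⟨d, j⟩ h1 h2
        simp only [Finset.mem_image, Prod.mk.injEq] at h1 h2
        obtain ⟨_, _, rfl, _⟩ := h1
        obtain ⟨_, _, h3, _⟩ := h2
        exact hcc' h3.symm
    have h6 := hov2 x y hxy
    set A := (I x).image (elt x) with hA
    set B := (I y).image (elt y) with hB
    have h7 : (symmDiff A B).card + 2 * (A ∩ B).card = A.card + B.card := by
      have e1 : (A \ B).card + (A ∩ B).card = A.card := Finset.card_sdiff_add_card_inter A B
      have e2 : (B \ A).card + (B ∩ A).card = B.card := Finset.card_sdiff_add_card_inter B A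
      have e3 : (symmDiff A B).card = (A \ B).card + (B \ A).card := by
        rw [symmDiff_def, Finset.sup_eq_union, Finset.card_union_of_disjoint]
        exact disjoint_sdiff_sdiff
      rw [Finset.inter_comm B A] at e2
      omega
    have h8 : ((symmDiff A B).card : ℝ) + 2 * ((A ∩ B).card : ℝ) = n + n := by
      rw [hc1, hc2] at h7
      exact_mod_cast h7
    have h9 : (1 - δ) * n ≤ ((A ∩ B).card : ℝ) := h6.trans (by exact_mod_cast hint)
    have h10 : (0 : ℝ) < n := by exact_mod_cast hn
    have h11 : ((symmDiff A B).card : ℝ) ≤ 2 * δ * n := by nlinarith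
    calc ((symmDiff A B).card : ℝ) ≤ 2 * δ * n := h11
      _ < ε * (1 - δ) * n := mul_lt_mul_of_pos_right hδ1 h10
      _ = ε * ((1 - δ) * n) := by ring
      _ ≤ ε * ((A ∩ B).card : ℝ) := mul_le_mul_of_nonneg_left h9 hε.le

end B1

end PropA
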