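import Pool.Agent.PropA.Defs

/-!
Module B2 of MP_db4510_al: graphs of bounded cutwidth and bounded degree have Property A,
uniformly (`cutwidth_PA`).
-/

namespace PropA

namespace CW

universe u

/-! ### weights -/

section weights

variable {C : Type u}

lemma mass_zero : mass (0 : C →₀ ℕ) = 0 := by
  simp [mass]

lemma mass_add (f g : C →₀ ℕ) : mass (f + g) = mass f + mass g := by
  unfold mass
  exact Finsupp.sum_add_index' (fun _ => rfl) (fun _ _ _ => rfl)

lemma mass_smul (k : ℕ) (f : C →₀ ℕ) : mass (k • f) = k * mass f := by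
  induction k with
  | zero => simp [mass_zero]
  | succ k ih => rw [succ_nsmul, mass_add, ih]; ring

lemma mass_single (c : C) (k : ℕ) : mass (Finsupp.single c k) = k := by
  unfold mass
  simp

lemma mass_sum {ι : Type*} (s : Finset ι) (F : ι → C →₀ ℕ) :
    mass (∑ i ∈ s, F i) = ∑ i ∈ s, mass (F i) := by
  classical
  induction s using Finset.induction_on with
  | empty => simp [mass_zero]
  | insert a s ha ih => rw [Finset.sum_insert ha, mass_add, ih, Finset.sum_insert ha]

lemma mass_inf (f g : C →₀ ℕ) : mass (f ⊓ g) = ov f g := by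
  unfold mass ov Finsupp.sum
  rw [Finset.sum_subset (s₂ := f.support)]
  · rfl
  · intro c hc
    rw [Finsupp.mem_support_iff] at hc ⊢
    intro h
    apply hc
    rw [Finsupp.inf_apply, h]
    simp
  · intro c _ hc
    rw [Finsupp.notMem_support_iff] at hc
    exact hc

lemma mass_mono {f g : C →₀ ℕ} (h : f ≤ g) : mass f ≤ mass g := by
  obtain ⟨k, rfl⟩ := exists_add_of_le h
  rw [mass_add]
  exact Nat.le_add_right _ _

lemma ov_ge {f g h : C →₀ ℕ} (hf : h ≤ f) (hg : h ≤ g) : mass h ≤ ov f g := by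
  rw [← mass_inf]
  exact mass_mono (le_inf hf hg)

lemma smul_mono_left {a b : ℕ} (h : a ≤ b) (f g : C →₀ ℕ) (hfg : f ≤ g) : a • f ≤ b • g := by
  intro c
  simp only [Finsupp.smul_apply, smul_eq_mul]
  exact Nat.mul_le_mul h (hfg c)

lemma ov_comb {α β a a' b b' : ℕ} (f f' g g' : C →₀ ℕ) (h1 : α ≤ a) (h2 : α ≤ a')
    (h3 : β ≤ b) (h4 : β ≤ b') :
    α * ov f f' + β * ov g g' ≤ ov (a • f + b • g) (a' • f' + b' • g') := by
  rw [← mass_inf f f', ← mass_inf g g', ← mass_smul, ← mass_smul, ← mass_add]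
  apply ov_ge
  · exact add_le_add (smul_mono_left h1 _ _ inf_le_left) (smul_mono_left h3 _ _ inf_le_left)
  · exact add_le_add (smul_mono_left h2 _ _ inf_le_right) (smul_mono_left h4 _ _ inf_le_right)

lemma ov_comm' (f g : C →₀ ℕ) : ov f g = ov g f := by
  rw [← mass_inf, ← mass_inf, inf_comm]

/-- window on a path -/
noncomputable def win (p : ℕ → C) (i L : ℕ) : C →₀ ℕ :=
  ∑ j ∈ Finset.range (2 * L + 1), Finsupp.single (p (i + j - L)) 1

lemma mass_win (p : ℕ → C) (i L : ℕ) : mass (win p i L) = 2 * L + 1 := by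
  unfold win
  rw [mass_sum]
  simp [mass_single]

lemma win_ne_zero {p : ℕ → C} {i L : ℕ} {v : C} (h : win p i L v ≠ 0) :
    ∃ j, j ≤ 2 * L ∧ v = p (i + j - L) := by
  unfold win at h
  rw [Finsupp.finsetSum_apply] at h
  obtain ⟨j, hj, hne⟩ := Finset.exists_ne_zero_of_sum_ne_zero h
  rw [Finset.mem_range] at hj
  refine ⟨j, by omega, ?_⟩
  by_contra hcon
  exact hne (Finsupp.single_eq_of_ne hcon)

lemma ov_win_le (p : ℕ → C) {a b L : ℕ} (hab : a ≤ b) (hb : b - a ≤ 2 * L + 1) :
    2 * L + 1 - (b - a) ≤ ov (win p a L) (win p b L) := by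
  set m := 2 * L + 1 - (b - a) with hm
  set g : C →₀ ℕ := ∑ j ∈ Finset.range m, Finsupp.single (p (b + j - L)) 1 with hg
  have hmass : mass g = m := by
    rw [hg, mass_sum]
    simp [mass_single]
  rw [← hmass]
  apply ov_ge
  · have h1 : win p a L = ∑ j ∈ Finset.range ((b - a) + m), Finsupp.single (p (a + j - L)) 1 := by
      unfold win
      congr 2
      omega
    rw [h1, Finset.sum_range_add]
    refine le_trans (le_of_eq ?_) (le_add_of_nonneg_left (zero_le))
    rw [hg]
    refine Finset.sum_congr rfl ?_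
    intro j _
    congr 2
    omega
  · unfold win
    rw [hg]
    apply Finset.sum_le_sum_of_subset
    intro j hj
    rw [Finset.mem_range] at hj ⊢
    omega

lemma ov_win (p : ℕ → C) {a b L d : ℕ} (h1 : a ≤ b + d) (h2 : b ≤ a + d) :
    2 * L + 1 ≤ ov (win p a L) (win p b L) + d := by
  rcases le_total a b with h | h
  · by_cases hb : b - a ≤ 2 * L + 1
    · have := ov_win_le p h hb
      omega
    · omega
  · by_cases hb : a - b ≤ 2 * L + 1
    · have := ov_win_le p h hb
      rw [ov_comm'] at this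
      omega
    · omega

end weights

/-! ### walks of bounded length -/

section near

variable {V : Type u} {G : SimpleGraph V}

/-- there is a walk of length at most `n` -/
def Near (G : SimpleGraph V) (n : ℕ) (x y : V) : Prop := ∃ q : G.Walk x y, q.length ≤ n

lemma Near.refl (x : V) (n : ℕ) : Near G n x x := ⟨SimpleGraph.Walk.nil, by simp⟩

lemma Near.symm {n : ℕ} {x y : V} (h : Near G n x y) : Near G n y x := by
  obtain ⟨q, hq⟩ := h
  exact ⟨q.reverse, by simpa using hq⟩

lemma Near.trans {n m : ℕ} {x y z : V} (h : Near G n x y) (h' : Near G m y z) :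
    Near G (n + m) x z := by
  obtain ⟨q, hq⟩ := h
  obtain ⟨q', hq'⟩ := h'
  exact ⟨q.append q', by simp; omega⟩

lemma Near.mono {n m : ℕ} {x y : V} (h : Near G n x y) (hnm : n ≤ m) : Near G m x y := by
  obtain ⟨q, hq⟩ := h
  exact ⟨q, by omega⟩

lemma Near.adj {x y : V} (h : G.Adj x y) : Near G 1 x y := ⟨h.toWalk, by simp⟩

lemma Near.graph_mono {G' : SimpleGraph V} (hG : G' ≤ G) {n : ℕ} {x y : V} (h : Near G' n x y) :
    Near G n x y := by
  obtain ⟨q, hq⟩ := h
  exact ⟨q.mapLe hG, by simpa using hq⟩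

lemma Near.dist_le {n : ℕ} {x y : V} (h : Near G n x y) : G.dist x y ≤ n := by
  obtain ⟨q, hq⟩ := h
  exact (SimpleGraph.dist_le q).trans hq

lemma Near.of_reachable {x y : V} (h : G.Reachable x y) : Near G (G.dist x y) x y := by
  obtain ⟨q, hq⟩ := h.exists_walk_length_eq_dist
  exact ⟨q, hq.le⟩

lemma Near.reachable {n : ℕ} {x y : V} (h : Near G n x y) : G.Reachable x y := ⟨h.choose⟩

lemma Near.succ {n : ℕ} {x y : V} (h : Near G (n + 1) x y) :
    Near G n x y ∨ ∃ z, Near G n x z ∧ G.Adj z y := by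
  obtain ⟨q, hq⟩ := h
  rcases Nat.lt_or_ge q.length (n + 1) with h | h
  · exact Or.inl ⟨q, by omega⟩
  · right
    have hl : q.length = n + 1 := by omega
    refine ⟨q.getVert n, ⟨q.take n, ?_⟩, ?_⟩
    · rw [SimpleGraph.Walk.take_length]; exact min_le_left _ _
    · have h2 := q.adj_getVert_succ (i := n) (by omega)
      have h3 : q.getVert (n + 1) = y := by rw [← hl]; exact q.getVert_length
      rwa [h3] at h2

lemma ball_bound {Δ : ℕ} (hfin : ∀ v, (G.neighborSet v).Finite)
    (hdeg : ∀ v, (G.neighborSet v).ncard ≤ Δ) (n : ℕ) (x : V) :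
    {y | Near G n x y}.Finite ∧ {y | Near G n x y}.ncard ≤ (Δ + 1) ^ n := by
  classical
  induction n with
  | zero =>
    have h0 : {y | Near G 0 x y} = {x} := by
      ext y
      simp only [Set.mem_ofPred_eq, Set.mem_singleton_iff]
      constructor
      · rintro ⟨q, hq⟩
        exact (SimpleGraph.Walk.eq_of_length_eq_zero (p := q) (by omega)).symm
      · rintro rfl
        exact Near.refl _ _
    rw [h0]
    simp
  | succ n ih =>
    obtain ⟨ihf, ihc⟩ := ih
    set B := ihf.toFinset with hB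
    set N : V → Finset V := fun z => (hfin z).toFinset with hN
    have hsub : {y | Near G (n + 1) x y} ⊆ ↑(B.biUnion fun z => insert z (N z)) := by
      intro y hy
      rcases Near.succ hy with h | ⟨z, hz, hzy⟩
      · simp only [Finset.coe_biUnion, Set.mem_iUnion, Finset.mem_coe]
        exact ⟨y, by simpa [hB] using h, by simp⟩
      · simp only [Finset.coe_biUnion, Set.mem_iUnion, Finset.mem_coe]
        exact ⟨z, by simpa [hB] using hz, by simp [hN, hzy]⟩
    refine ⟨(Finset.finite_toSet _).subset hsub, ?_⟩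
    calc {y | Near G (n + 1) x y}.ncard
        ≤ (↑(B.biUnion fun z => insert z (N z)) : Set V).ncard :=
          Set.ncard_le_ncard hsub (Finset.finite_toSet _)
      _ = (B.biUnion fun z => insert z (N z)).card := Set.ncard_coe_finset _
      _ ≤ ∑ z ∈ B, (insert z (N z)).card := Finset.card_biUnion_le
      _ ≤ ∑ z ∈ B, (Δ + 1) := by
          apply Finset.sum_le_sum
          intro z _
          refine (Finset.card_insert_le _ _).trans ?_
          have h1 := hdeg z
          rw [Set.ncard_eq_toFinset_card _ (hfin z)] at h1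
          exact Nat.succ_le_succ h1
      _ = B.card * (Δ + 1) := by rw [Finset.sum_const, smul_eq_mul]
      _ ≤ (Δ + 1) ^ n * (Δ + 1) := by
          apply Nat.mul_le_mul_right
          rw [Set.ncard_eq_toFinset_card _ ihf] at ihc
          exact ihc
      _ = (Δ + 1) ^ (n + 1) := by ring

end near

/-! ### geodesics through the components -/

section geo

variable {V : Type u} {G : SimpleGraph V}

structure Geo (G : SimpleGraph V) (pos : V → ℕ) (S : Set V) (p : ℕ → V) (ℓ : ℕ) : Prop where
  mem : ∀ i, p i ∈ S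
  last : ∀ i, ℓ ≤ i → p i = p ℓ
  far : ∀ i j, i ≤ j → j ≤ ℓ → j ≤ i + G.dist (p i) (p j)
  walk : ∀ i d, Near G d (p i) (p (i + d))
  cross : ∀ a b, a ∈ S → b ∈ S → ∀ k, pos a ≤ k → k < pos b →
    ∃ i, G.Adj (p i) (p (i + 1)) ∧ pos (p i) ≤ k ∧ k < pos (p (i + 1))

lemma exists_geo (pos : V → ℕ) (c : G.ConnectedComponent) (hc : c.supp.Finite) :
    ∃ (p : ℕ → V) (ℓ : ℕ), Geo G pos c.supp p ℓ := by
  have hne : c.supp.Nonempty := c.nonempty_supp
  obtain ⟨s, hs, hsmin⟩ := Set.exists_min_image c.supp pos hc hne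
  obtain ⟨t, ht, htmax⟩ := Set.exists_max_image c.supp pos hc hne
  have hst : G.Reachable s t := SimpleGraph.ConnectedComponent.exact (hs.trans ht.symm)
  obtain ⟨γ, hγ⟩ := hst.exists_walk_length_eq_dist
  have hstep : ∀ i, Near G 1 (γ.getVert i) (γ.getVert (i + 1)) := by
    intro i
    rcases Nat.lt_or_ge i γ.length with h | h
    · exact Near.adj (γ.adj_getVert_succ h)
    · rw [γ.getVert_of_length_le h, γ.getVert_of_length_le (by omega : γ.length ≤ i + 1)]
      exact Near.refl _ _
  have hwalk : ∀ i d, Near G d (γ.getVert i) (γ.getVert (i + d)) := by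
    intro i d
    induction d with
    | zero => exact Near.refl _ _
    | succ d ih => exact ih.trans (hstep (i + d))
  have hreach : ∀ i, G.Reachable s (γ.getVert i) := by
    intro i
    have := (hwalk 0 i).reachable
    rwa [γ.getVert_zero, Nat.zero_add] at this
  refine ⟨γ.getVert, γ.length, ⟨?_, ?_, ?_, hwalk, ?_⟩⟩
  · intro i
    have h1 := hreach i
    change G.connectedComponentMk (γ.getVert i) = c
    rw [← (SimpleGraph.ConnectedComponent.mem_supp_iff c s).1 hs]
    exact (SimpleGraph.ConnectedComponent.sound h1).symm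
  · intro i hi
    rw [γ.getVert_of_length_le hi, γ.getVert_length]
  · intro i j hij hj
    have h1 : Near G i s (γ.getVert i) := by
      have := hwalk 0 i
      rwa [γ.getVert_zero, Nat.zero_add] at this
    have h2 : Near G (G.dist (γ.getVert i) (γ.getVert j)) (γ.getVert i) (γ.getVert j) :=
      Near.of_reachable ((hreach i).symm.trans (hreach j))
    have h3 : Near G (γ.length - j) (γ.getVert j) t := by
      have := hwalk j (γ.length - j)
      rwa [show j + (γ.length - j) = γ.length by omega, γ.getVert_length] at this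
    have h4 := ((h1.trans h2).trans h3).dist_le
    omega
  · intro a b ha hb k hak hkb
    have h0 : pos (γ.getVert 0) ≤ k := by
      rw [γ.getVert_zero]
      exact (hsmin a ha).trans hak
    have hex : ∃ i, k < pos (γ.getVert i) := ⟨γ.length, by
      rw [γ.getVert_length]
      exact lt_of_lt_of_le hkb (htmax b hb)⟩
    classical
    have hm := Nat.find_spec hex
    have hmin := fun i (h : i < Nat.find hex) => Nat.find_min hex h
    generalize Nat.find hex = m at hm hmin
    cases m with
    | zero => omega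
    | succ m =>
      have h1 := hmin m (Nat.lt_succ_self m)
      refine ⟨m, ?_, by omega, hm⟩
      rcases Nat.lt_or_ge m γ.length with h | h
      · exact γ.adj_getVert_succ h
      · exfalso
        rw [γ.getVert_of_length_le (by omega : γ.length ≤ m + 1)] at hm
        rw [γ.getVert_of_length_le h] at h1
        exact h1 hm

end geo

/-! ### the induction -/

/-- the uniform statement for crossing numbers at most `K` -/
def UPA (K : ℕ) : Prop := ∀ ε > (0 : ℝ), ∃ S n : ℕ, 0 < n ∧ ∀ (V : Type u) (G : SimpleGraph V)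
    (pos : V → ℕ), {v | ∃ w, G.Adj v w}.Finite →
    (∀ a b, (∃ c, G.Adj a c) → (∃ c, G.Adj b c) → pos a = pos b → a = b) →
    (∀ k, {e : V × V | G.Adj e.1 e.2 ∧ pos e.1 ≤ k ∧ k < pos e.2}.ncard ≤ K) →
    ∃ f : V → V →₀ ℕ, (∀ x, mass (f x) = n) ∧ (∀ x v, f x v ≠ 0 → Near G S x v) ∧
      ∀ x y, G.Adj x y → (1 - ε) * n ≤ (ov (f x) (f y) : ℝ)

lemma cross_finite {V : Type u} {G : SimpleGraph V} (pos : V → ℕ)
    (hU : {v | ∃ w, G.Adj v w}.Finite) (k : ℕ) :
    {e : V × V | G.Adj e.1 e.2 ∧ pos e.1 ≤ k ∧ k < pos e.2}.Finite := by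
  refine (hU.prod hU).subset ?_
  rintro ⟨a, b⟩ ⟨h1, _, _⟩
  exact ⟨⟨b, h1⟩, ⟨a, h1.symm⟩⟩

lemma UPA_zero : UPA.{u} 0 := by
  intro ε hε
  refine ⟨0, 1, one_pos, ?_⟩
  intro V G pos hU hinj hcr
  have hno : ∀ x y, ¬ G.Adj x y := by
    intro x y hxy
    have key : ∀ a b, G.Adj a b → pos a < pos b → False := by
      intro a b hab hlt
      have h1 := hcr (pos a)
      have h2 : (a, b) ∈ {e : V × V | G.Adj e.1 e.2 ∧ pos e.1 ≤ pos a ∧ pos a < pos e.2} :=
        ⟨hab, le_rfl, hlt⟩
      have h3 := (Set.ncard_pos (cross_finite pos hU (pos a))).2 ⟨_, h2⟩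
      omega
    rcases lt_trichotomy (pos x) (pos y) with h | h | h
    · exact key x y hxy h
    · exact hxy.ne (hinj x y ⟨y, hxy⟩ ⟨x, hxy.symm⟩ h)
    · exact key y x hxy.symm h
  refine ⟨fun x => Finsupp.single x 1, fun x => mass_single _ _, ?_, fun x y h => absurd h (hno x y)⟩
  intro x v hv
  have : v = x := by
    by_contra hne
    exact hv (Finsupp.single_eq_of_ne hne)
  rw [this]
  exact Near.refl _ _

lemma supp_finite {V : Type u} {G : SimpleGraph V} (hU : {v | ∃ w, G.Adj v w}.Finite)
    (c : G.ConnectedComponent) : c.supp.Finite := by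
  obtain ⟨s, hs⟩ := c.nonempty_supp
  refine (hU.insert s).subset ?_
  intro v hv
  by_cases hvs : v = s
  · exact Or.inl hvs
  · right
    have hr : G.Reachable v s := SimpleGraph.ConnectedComponent.exact (hv.trans hs.symm)
    obtain ⟨q⟩ := hr
    cases q with
    | nil => exact absurd rfl hvs
    | cons h _ => exact ⟨_, h⟩

lemma UPA_succ {K : ℕ} (hK : UPA.{u} K) : UPA.{u} (K + 1) := by
  intro ε hε
  obtain ⟨L, hL⟩ := exists_nat_ge (3 / ε)
  obtain ⟨L', hL'⟩ := exists_nat_ge (6 * L / ε)
  obtain ⟨S', n', hn', hS'⟩ := hK (ε / 3) (by positivity)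
  have hLpos : (0 : ℝ) < L := lt_of_lt_of_le (by positivity) hL
  have hLpos' : 0 < L := by exact_mod_cast hLpos
  have h1L : 1 ≤ ε / 3 * L := by
    rw [div_le_iff₀ hε] at hL
    linarith
  have h2L : 2 * (L : ℝ) ≤ ε / 3 * (2 * L' + 1) := by
    rw [div_le_iff₀ hε] at hL'
    nlinarith
  refine ⟨max S' (L + L'), L * n' * (2 * L' + 1), by positivity, ?_⟩
  intro V G pos hU hinj hcr
  choose p ℓ hgeo using fun c : G.ConnectedComponent => exists_geo pos c (supp_finite hU c)
  have hcomp : ∀ c i, G.connectedComponentMk (p c i) = c := fun c i => (hgeo c).mem i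
  have hidx : ∀ x, ∃ i, i ≤ ℓ (G.connectedComponentMk x) ∧ ∀ j,
      G.dist x (p (G.connectedComponentMk x) i) ≤ G.dist x (p (G.connectedComponentMk x) j) := by
    intro x
    obtain ⟨i, hi, hmin⟩ := Finset.exists_min_image
      (Finset.range (ℓ (G.connectedComponentMk x) + 1))
      (fun i => G.dist x (p (G.connectedComponentMk x) i)) ⟨0, by simp⟩
    rw [Finset.mem_range] at hi
    refine ⟨i, by omega, ?_⟩
    intro j
    rcases le_total j (ℓ (G.connectedComponentMk x)) with hj | hj
    · exact hmin j (by rw [Finset.mem_range]; omega)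
    · rw [(hgeo _).last j hj]
      exact hmin _ (by rw [Finset.mem_range]; omega)
  choose idx hidx1 hidx2 using hidx
  set T : V → ℕ := fun x => G.dist x (p (G.connectedComponentMk x) (idx x)) with hT
  have hnear : ∀ x, Near G (T x) x (p (G.connectedComponentMk x) (idx x)) := by
    intro x
    exact Near.of_reachable (SimpleGraph.ConnectedComponent.exact (hcomp _ _).symm)
  have hTadj : ∀ x y, G.Adj x y → T y ≤ T x + 1 := by
    intro x y hxy
    have hc : G.connectedComponentMk x = G.connectedComponentMk y :=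
      SimpleGraph.ConnectedComponent.sound hxy.reachable
    have h1 := hidx2 y (idx x)
    have h2 := ((Near.adj hxy.symm).trans (hnear x)).dist_le
    rw [hc] at h2
    simp only [hT] at h1 h2 ⊢
    omega
  have hidxadj : ∀ x y, G.Adj x y → idx y ≤ idx x + (T x + 1 + T y) := by
    intro x y hxy
    have hc : G.connectedComponentMk x = G.connectedComponentMk y :=
      SimpleGraph.ConnectedComponent.sound hxy.reachable
    rcases le_total (idx y) (idx x) with h | h
    · omega
    · have h1 := (hgeo (G.connectedComponentMk y)).far (idx x) (idx y) h (hidx1 y)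
      have h2 := (((hnear x).symm.trans (Near.adj hxy)).trans (hnear y)).dist_le
      rw [hc] at h2
      omega
  set P : Set V := {v | ∃ c i, v = p c i} with hP
  have hT0 : ∀ x, x ∈ P → T x = 0 := by
    rintro x ⟨c, i, hx⟩
    have hc : G.connectedComponentMk x = c := by rw [hx]; exact hcomp c i
    have h1 := hidx2 x i
    have h2 : p (G.connectedComponentMk x) i = x := by rw [hc, ← hx]
    rw [h2, SimpleGraph.dist_self] at h1
    simp only [hT]
    omega
  have hres : res G Pᶜ ≤ G := fun _ _ h => h.1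
  have hcr' : ∀ k, {e : V × V | (res G Pᶜ).Adj e.1 e.2 ∧ pos e.1 ≤ k ∧ k < pos e.2}.ncard ≤ K := by
    intro k
    have hsub : {e : V × V | (res G Pᶜ).Adj e.1 e.2 ∧ pos e.1 ≤ k ∧ k < pos e.2} ⊆
        {e : V × V | G.Adj e.1 e.2 ∧ pos e.1 ≤ k ∧ k < pos e.2} :=
      fun e he => ⟨he.1.1, he.2⟩
    by_cases hemp : {e : V × V | (res G Pᶜ).Adj e.1 e.2 ∧ pos e.1 ≤ k ∧ k < pos e.2} = ∅
    · rw [hemp]; simp
    · obtain ⟨⟨a, b⟩, hab, hak, hkb⟩ := Set.nonempty_iff_ne_empty.2 hemp
      have hcb : b ∈ (G.connectedComponentMk a).supp :=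
        (SimpleGraph.ConnectedComponent.sound hab.1.reachable).symm
      obtain ⟨i, hi1, hi2, hi3⟩ :=
        (hgeo (G.connectedComponentMk a)).cross a b rfl hcb k hak hkb
      have hlt := Set.ncard_lt_ncard (s := {e : V × V | (res G Pᶜ).Adj e.1 e.2 ∧ pos e.1 ≤ k ∧
        k < pos e.2}) (t := {e : V × V | G.Adj e.1 e.2 ∧ pos e.1 ≤ k ∧ k < pos e.2})
        ⟨hsub, fun hcon => ?_⟩ (cross_finite pos hU k)
      · have := hcr k
        omega
      · have h1 := hcon (show (p (G.connectedComponentMk a) i, p (G.connectedComponentMk a) (i + 1))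
          ∈ _ from ⟨hi1, hi2, hi3⟩)
        exact h1.1.2.1 ⟨_, _, rfl⟩
  obtain ⟨f', hf1, hf2, hf3⟩ := hS' V (res G Pᶜ) pos
    (hU.subset fun v ⟨w, hw⟩ => ⟨w, hw.1⟩)
    (fun a b ⟨c, hc⟩ ⟨d, hd⟩ => hinj a b ⟨c, hc.1⟩ ⟨d, hd.1⟩) hcr'
  refine ⟨fun x => ((L - T x) * n') • win (p (G.connectedComponentMk x)) (idx x) L' +
    (min (T x) L * (2 * L' + 1)) • f' x, ?_, ?_, ?_⟩
  · intro x
    rw [mass_add, mass_smul, mass_smul, mass_win, hf1]
    have : (L - T x) + min (T x) L = L := by omega
    calc (L - T x) * n' * (2 * L' + 1) + min (T x) L * (2 * L' + 1) * n'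
        = ((L - T x) + min (T x) L) * n' * (2 * L' + 1) := by ring
      _ = L * n' * (2 * L' + 1) := by rw [this]
  · intro x v hv
    rw [Finsupp.add_apply, Finsupp.smul_apply, Finsupp.smul_apply, smul_eq_mul, smul_eq_mul] at hv
    by_cases h1 : (L - T x) * n' * win (p (G.connectedComponentMk x)) (idx x) L' v = 0
    · have h2 : f' x v ≠ 0 := by
        intro h2
        rw [h1, h2] at hv
        simp at hv
      exact ((hf2 x v h2).graph_mono hres).mono (le_max_left _ _)
    · have h2 : win (p (G.connectedComponentMk x)) (idx x) L' v ≠ 0 := by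
        intro h2; exact h1 (by rw [h2]; simp)
      have h3 : L - T x ≠ 0 := by
        intro h3; exact h1 (by rw [h3]; simp)
      obtain ⟨j, hj, rfl⟩ := win_ne_zero h2
      refine ((hnear x).trans (m := L') ?_).mono (le_trans (by omega) (le_max_right _ _))
      rcases le_total L' j with h | h
      · have := (hgeo (G.connectedComponentMk x)).walk (idx x) (j - L')
        rw [show idx x + (j - L') = idx x + j - L' by omega] at this
        exact this.mono (by omega)
      · have := (hgeo (G.connectedComponentMk x)).walk (idx x + j - L')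
          (idx x - (idx x + j - L'))
        rw [show idx x + j - L' + (idx x - (idx x + j - L')) = idx x by omega] at this
        exact this.symm.mono (by omega)
  · intro x y hxy
    have hc : G.connectedComponentMk x = G.connectedComponentMk y :=
      SimpleGraph.ConnectedComponent.sound hxy.reachable
    set σ := min (L - T x) (L - T y) with hσ
    set τ := min (min (T x) L) (min (T y) L) with hτ
    have hxy1 := hTadj x y hxy
    have hxy2 := hTadj y x hxy.symm
    have hst : L ≤ σ + τ + 1 := by omega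
    have key := ov_comb (α := σ * n') (β := τ * (2 * L' + 1))
      (win (p (G.connectedComponentMk x)) (idx x) L') (win (p (G.connectedComponentMk y)) (idx y) L')
      (f' x) (f' y)
      (Nat.mul_le_mul_right n' (min_le_left _ _ : σ ≤ L - T x))
      (Nat.mul_le_mul_right n' (min_le_right _ _ : σ ≤ L - T y))
      (Nat.mul_le_mul_right (2 * L' + 1) (min_le_left _ _ : τ ≤ min (T x) L))
      (Nat.mul_le_mul_right (2 * L' + 1) (min_le_right _ _ : τ ≤ min (T y) L))
    set ow := ov (win (p (G.connectedComponentMk x)) (idx x) L')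
      (win (p (G.connectedComponentMk y)) (idx y) L') with how
    set of := ov (f' x) (f' y) with hof
    have hW : σ * (2 * L' + 1) ≤ σ * ow + σ * (2 * L) := by
      by_cases h0 : σ = 0
      · rw [h0]; simp
      · rw [← Nat.mul_add]
        apply Nat.mul_le_mul_left
        have h1 := hidxadj x y hxy
        have h2 := hidxadj y x hxy.symm
        have h3 := ov_win (p (G.connectedComponentMk y)) (L := L') (a := idx x) (b := idx y)
          (d := 2 * L) (by omega) (by omega)
        rw [how, hc]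
        exact h3
    have hF : (τ : ℝ) * ((1 - ε / 3) * n') ≤ τ * of := by
      by_cases h0 : τ = 0
      · rw [h0]; simp
      · apply mul_le_mul_of_nonneg_left _ (Nat.cast_nonneg _)
        apply hf3
        refine ⟨hxy, fun hx => ?_, fun hy => ?_⟩
        · have := hT0 x hx
          omega
        · have := hT0 y hy
          omega
    have keyR : ((σ * n' * ow + τ * (2 * L' + 1) * of : ℕ) : ℝ) ≤
      (ov (((L - T x) * n') • win (p (G.connectedComponentMk x)) (idx x) L' +
        (min (T x) L * (2 * L' + 1)) • f' x) (((L - T y) * n') •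
        win (p (G.connectedComponentMk y)) (idx y) L' +
        (min (T y) L * (2 * L' + 1)) • f' y) : ℝ) := by exact_mod_cast key
    refine le_trans ?_ keyR
    push_cast
    have hWR : (σ : ℝ) * (2 * L' + 1) ≤ σ * ow + σ * (2 * L) := by exact_mod_cast hW
    have hstR : (L : ℝ) ≤ σ + τ + 1 := by exact_mod_cast hst
    have hσL : (σ : ℝ) ≤ L := by
      have : σ ≤ L := by omega
      exact_mod_cast this
    have hτL : (τ : ℝ) ≤ L := by
      have : τ ≤ L := by omega
      exact_mod_cast this
    have hn'R : (0 : ℝ) < n' := by exact_mod_cast hn'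
    have hBpos : (0 : ℝ) < 2 * L' + 1 := by positivity
    have hσ0 : (0 : ℝ) ≤ σ := Nat.cast_nonneg _
    have hτ0 : (0 : ℝ) ≤ τ := Nat.cast_nonneg _
    have e1 : (n' : ℝ) * (σ * (2 * L' + 1) - σ * (2 * L)) ≤ n' * (σ * ow) :=
      mul_le_mul_of_nonneg_left (by linarith) hn'R.le
    have e2 : (2 * (L' : ℝ) + 1) * (τ * ((1 - ε / 3) * n')) ≤ (2 * L' + 1) * (τ * of) :=
      mul_le_mul_of_nonneg_left hF hBpos.le
    have e3 : (σ : ℝ) * (2 * L) ≤ L * (ε / 3 * (2 * L' + 1)) :=
      mul_le_mul hσL h2L (by positivity) hLpos.le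
    have e4 : (τ : ℝ) * (ε / 3 * (2 * L' + 1)) ≤ L * (ε / 3 * (2 * L' + 1)) :=
      mul_le_mul_of_nonneg_right hτL (by positivity)
    have e5 : (L : ℝ) * (2 * L' + 1) ≤ (σ + τ + 1) * (2 * L' + 1) :=
      mul_le_mul_of_nonneg_right hstR hBpos.le
    have e6 : (1 : ℝ) * (2 * L' + 1) ≤ ε / 3 * L * (2 * L' + 1) :=
      mul_le_mul_of_nonneg_right h1L hBpos.le
    have e7 : (1 - ε) * (L * (2 * L' + 1)) ≤
        (σ * (2 * L' + 1) - σ * (2 * L)) + (2 * L' + 1) * (τ * (1 - ε / 3)) := by
      nlinarith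
    have e8 := mul_le_mul_of_nonneg_left e7 hn'R.le
    calc (1 - ε) * (L * n' * (2 * L' + 1)) = n' * ((1 - ε) * (L * (2 * L' + 1))) := by ring
      _ ≤ n' * ((σ * (2 * L' + 1) - σ * (2 * L)) + (2 * L' + 1) * (τ * (1 - ε / 3))) := e8
      _ = n' * (σ * (2 * L' + 1) - σ * (2 * L)) + (2 * L' + 1) * (τ * ((1 - ε / 3) * n')) := by
          ring
      _ ≤ n' * (σ * ow) + (2 * L' + 1) * (τ * of) := add_le_add e1 e2
      _ = σ * n' * ow + τ * (2 * L' + 1) * of := by ring

lemma UPA_all (K : ℕ) : UPA.{u} K := by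
  induction K with
  | zero => exact UPA_zero
  | succ K ih => exact UPA_succ ih

end CW

universe u

/-- Graphs of bounded cutwidth and bounded degree have Property A uniformly. -/
theorem cutwidth_PA (K Δ : ℕ) : ∀ ε > (0 : ℝ), ∃ M n : ℕ, ∀ (V : Type u) (G : SimpleGraph V)
    (pos : V → ℕ), {v | ∃ w, G.Adj v w}.Finite →
    (∀ a b, (∃ c, G.Adj a c) → (∃ c, G.Adj b c) → pos a = pos b → a = b) →
    (∀ v, (G.neighborSet v).ncard ≤ Δ) →
    (∀ k, {e : V × V | G.Adj e.1 e.2 ∧ pos e.1 ≤ k ∧ k < pos e.2}.ncard ≤ K) →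
    PA G ε M n := by
  intro ε hε
  obtain ⟨S, n, hn, h⟩ := CW.UPA_all.{u} K ε hε
  refine ⟨(Δ + 1) ^ S, n, ?_⟩
  intro V G pos hU hinj hdeg hcr
  obtain ⟨f, hf1, hf2, hf3⟩ := h V G pos hU hinj hcr
  refine ⟨hn, V, f, hf1, hf3, ?_⟩
  intro c
  have hfin : ∀ v, (G.neighborSet v).Finite := fun v =>
    hU.subset fun w hw => ⟨v, SimpleGraph.Adj.symm hw⟩
  obtain ⟨hb1, hb2⟩ := CW.ball_bound hfin hdeg S c
  have hsub : {x | f x c ≠ 0} ⊆ {y | CW.Near G S c y} := fun x hx => (hf2 x c hx).symm
  exact ⟨hb1.subset hsub, (Set.ncard_le_ncard hsub hb1).trans hb2⟩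

end PropA
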