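import Pool.Agent.PropA.B1
import Pool.Agent.PropA.B2

/-!
Module B3 of MP_db4510_al: weights as in `PA` for all `ε` give a coarse embedding into a Hilbert
space.
-/

namespace PropA

universe u

/-! ### refined labels -/

/-- The labels can be refined such that points with a common label are at distance at most `M`. -/
theorem PA.refine {V : Type u} {G : SimpleGraph V} (hG : G.Connected) {ε : ℝ} {M n : ℕ}
    (h : PA G ε M n) :
    ∃ (C : Type u) (f : V → C →₀ ℕ), (∀ x, mass (f x) = n) ∧
      (∀ x y, G.Adj x y → (1 - ε) * n ≤ (ov (f x) (f y) : ℝ)) ∧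
      ∀ x y c, f x c ≠ 0 → f y c ≠ 0 → G.dist x y ≤ M := by
  classical
  obtain ⟨hn, C, F, hF, hov, hfin⟩ := h
  let Z : C → Set V := fun c => {x | F x c ≠ 0}
  let p : C → V → V := fun c x => ((chg G 1 (Z c)).connectedComponentMk x).out
  have hp2 : ∀ c x y, F x c ≠ 0 → F y c ≠ 0 → G.Adj x y → p c x = p c y := by
    intro c x y hx hy hxy
    have : (chg G 1 (Z c)).connectedComponentMk x = (chg G 1 (Z c)).connectedComponentMk y :=
      SimpleGraph.ConnectedComponent.sound
        (SimpleGraph.Adj.reachable (show (chg G 1 (Z c)).Adj x y from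
          ⟨hxy.ne, (SimpleGraph.dist_eq_one_iff_adj.2 hxy).le, hx, hy⟩))
    show ((chg G 1 (Z c)).connectedComponentMk x).out = _
    rw [this]
  let e : V → C ↪ C × V := fun x => ⟨fun c => (c, p c x), fun c c' hcc => (Prod.mk.inj hcc).1⟩
  have hemb : ∀ x (g : C →₀ ℕ) c v, (Finsupp.embDomain (e x) g) (c, v) =
      if v = p c x then g c else 0 := by
    intro x g c v
    by_cases hv : v = p c x
    · rw [if_pos hv, hv]
      exact Finsupp.embDomain_apply_self (e x) g c
    · rw [if_neg hv]
      apply Finsupp.embDomain_of_notMem_range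
      rintro ⟨c', hc'⟩
      have h1 : c' = c := (Prod.mk.inj hc').1
      have h2 : p c' x = v := (Prod.mk.inj hc').2
      subst h1
      exact hv h2.symm
  have hmass : ∀ x (g : C →₀ ℕ), mass (Finsupp.embDomain (e x) g) = mass g := by
    intro x g
    unfold mass
    rw [Finsupp.sum_embDomain]
  refine ⟨C × V, fun x => Finsupp.embDomain (e x) (F x), ?_, ?_, ?_⟩
  · intro x
    rw [hmass, hF]
  · intro x y hxy
    refine (hov x y hxy).trans ?_
    have key : ov (F x) (F y) ≤
        ov (Finsupp.embDomain (e x) (F x)) (Finsupp.embDomain (e y) (F y)) := by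
      rw [← CW.mass_inf, ← hmass x (F x ⊓ F y)]
      apply CW.ov_ge
      · rintro ⟨c, v⟩
        rw [hemb, hemb]
        by_cases hv : v = p c x
        · rw [if_pos hv, if_pos hv, Finsupp.inf_apply]
          exact inf_le_left
        · rw [if_neg hv, if_neg hv]
      · rintro ⟨c, v⟩
        rw [hemb, hemb]
        by_cases hv : v = p c x
        · rw [if_pos hv, Finsupp.inf_apply]
          by_cases h0 : F x c = 0 ∨ F y c = 0
          · rcases h0 with h0 | h0 <;> simp [h0]
          · push Not at h0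
            rw [if_pos (hv.trans (hp2 c x y h0.1 h0.2 hxy))]
            exact inf_le_right
        · rw [if_neg hv]
          exact Nat.zero_le _
    exact_mod_cast key
  · rintro x y ⟨c, v⟩ hx hy
    simp only [hemb] at hx hy
    have hxv : v = p c x := by
      by_contra hcon
      rw [if_neg hcon] at hx
      exact hx rfl
    have hyv : v = p c y := by
      by_contra hcon
      rw [if_neg hcon] at hy
      exact hy rfl
    rw [if_pos hxv] at hx
    rw [if_pos hyv] at hy
    have hr : ∀ z, (chg G 1 (Z c)).Reachable z (p c z) := by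
      intro z
      have : (chg G 1 (Z c)).connectedComponentMk (p c z) =
        (chg G 1 (Z c)).connectedComponentMk z := Quot.out_eq _
      exact (SimpleGraph.ConnectedComponent.exact this).symm
    have h1 : (chg G 1 (Z c)).Reachable x y := by
      refine (hr x).trans ?_
      rw [← hxv, hyv]
      exact (hr y).symm
    have h2 := (chg_dist hG (hfin c).1 (hfin c).2 (show x ∈ Z c from hx) h1).2
    omega

/-! ### Hellinger distances -/

section hell

variable {C : Type u}

/-- the square root of a weight -/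
noncomputable def rt (n : ℕ) (p : C →₀ ℕ) (c : C) : ℝ := √((p c : ℝ) / n)

lemma sq_sub_sqrt_le {a b : ℝ} (ha : 0 ≤ a) (hb : 0 ≤ b) : (√a - √b) ^ 2 ≤ a + b - 2 * min a b := by
  have h1 : (√a - √b) ^ 2 = a + b - 2 * (√a * √b) := by
    have h2 := Real.sq_sqrt ha
    have h3 := Real.sq_sqrt hb
    nlinarith
  rw [h1]
  have h4 : min a b ≤ √a * √b := by
    rcases le_total a b with hab | hab
    · rw [min_eq_left hab]
      calc a = √a * √a := (Real.mul_self_sqrt ha).symm
        _ ≤ √a * √b := mul_le_mul_of_nonneg_left (Real.sqrt_le_sqrt hab) (Real.sqrt_nonneg _)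
    · rw [min_eq_right hab]
      calc b = √b * √b := (Real.mul_self_sqrt hb).symm
        _ ≤ √a * √b := mul_le_mul_of_nonneg_right (Real.sqrt_le_sqrt hab) (Real.sqrt_nonneg _)
  linarith

open Classical in
lemma rt_hasSum (n : ℕ) (p q : C →₀ ℕ) :
    HasSum (fun c => (rt n p c - rt n q c) ^ 2)
      (∑ c ∈ p.support ∪ q.support, (rt n p c - rt n q c) ^ 2) := by
  apply hasSum_sum_of_ne_finset_zero
  intro c hc
  rw [Finset.mem_union, not_or, Finsupp.notMem_support_iff, Finsupp.notMem_support_iff] at hc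
  simp [rt, hc.1, hc.2]

lemma rt_summable (n : ℕ) (p q : C →₀ ℕ) :
    Summable (fun c => (rt n p c - rt n q c) ^ 2) := by
  classical
  exact (rt_hasSum n p q).summable

lemma rt_le {n : ℕ} (hn : 0 < n) {p q : C →₀ ℕ} (hp : mass p = n) (hq : mass q = n) {δ : ℝ}
    (h : (1 - δ) * n ≤ (ov p q : ℝ)) : ∑' c, (rt n p c - rt n q c) ^ 2 ≤ 2 * δ := by
  classical
  rw [(rt_hasSum n p q).tsum_eq]
  have hnR : (0 : ℝ) < n := by exact_mod_cast hn
  have h1 : ∑ c ∈ p.support ∪ q.support, (rt n p c - rt n q c) ^ 2 ≤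
      ∑ c ∈ p.support ∪ q.support, ((p c : ℝ) / n + (q c : ℝ) / n -
        2 * (((min (p c) (q c) : ℕ) : ℝ) / n)) := by
    apply Finset.sum_le_sum
    intro c _
    have h2 := sq_sub_sqrt_le (a := (p c : ℝ) / n) (b := (q c : ℝ) / n) (by positivity)
      (by positivity)
    have h3 : min ((p c : ℝ) / n) ((q c : ℝ) / n) = ((min (p c) (q c) : ℕ) : ℝ) / n := by
      rw [Nat.cast_min, min_div_div_right hnR.le]
    rw [h3] at h2
    exact h2
  refine h1.trans ?_
  rw [Finset.sum_sub_distrib, Finset.sum_add_distrib, ← Finset.sum_div, ← Finset.sum_div,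
    ← Finset.mul_sum, ← Finset.sum_div, ← Nat.cast_sum, ← Nat.cast_sum, ← Nat.cast_sum,
    ← mass_eq_sum Finset.subset_union_left, ← mass_eq_sum Finset.subset_union_right,
    ← ov_eq_sum Finset.subset_union_left, hp, hq]
  have h4 : 1 - δ ≤ (ov p q : ℝ) / n := by
    rw [le_div_iff₀ hnR]
    exact h
  rw [div_self hnR.ne']
  linarith

lemma rt_eq {n : ℕ} (hn : 0 < n) {p q : C →₀ ℕ} (hp : mass p = n) (hq : mass q = n)
    (h : ∀ c, p c = 0 ∨ q c = 0) : ∑' c, (rt n p c - rt n q c) ^ 2 = 2 := by
  classical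
  rw [(rt_hasSum n p q).tsum_eq]
  have hnR : (0 : ℝ) < n := by exact_mod_cast hn
  have h1 : ∑ c ∈ p.support ∪ q.support, (rt n p c - rt n q c) ^ 2 =
      ∑ c ∈ p.support ∪ q.support, ((p c : ℝ) / n + (q c : ℝ) / n) := by
    apply Finset.sum_congr rfl
    intro c _
    have e1 : √((p c : ℝ) / n) ^ 2 = (p c : ℝ) / n := Real.sq_sqrt (by positivity)
    have e2 : √((q c : ℝ) / n) ^ 2 = (q c : ℝ) / n := Real.sq_sqrt (by positivity)
    rcases h c with h0 | h0
    · have e3 : rt n p c = 0 := by simp [rt, h0]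
      rw [e3, zero_sub, neg_sq, h0]
      unfold rt
      rw [e2]
      simp
    · have e3 : rt n q c = 0 := by simp [rt, h0]
      rw [e3, sub_zero, h0]
      unfold rt
      rw [e1]
      simp
  rw [h1, Finset.sum_add_distrib, ← Finset.sum_div, ← Finset.sum_div, ← Nat.cast_sum,
    ← Nat.cast_sum, ← mass_eq_sum Finset.subset_union_left,
    ← mass_eq_sum Finset.subset_union_right, hp, hq, div_self hnR.ne']
  norm_num

end hell

/-! ### the embedding -/

theorem coarse_of_PA {V : Type u} {G : SimpleGraph V} (hG : G.Connected)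
    (h : ∀ ε > 0, ∃ M n, PA G ε M n) : CoarseEmb (fun x y => G.dist x y) := by
  classical
  have hchoice : ∀ k : ℕ, ∃ (C : Type u) (M n : ℕ) (f : V → C →₀ ℕ), 0 < n ∧
      (∀ x, mass (f x) = n) ∧
      (∀ x y, G.Adj x y → (1 - (1 / 2 : ℝ) ^ k) * n ≤ (ov (f x) (f y) : ℝ)) ∧
      ∀ x y c, f x c ≠ 0 → f y c ≠ 0 → G.dist x y ≤ M := by
    intro k
    obtain ⟨M, n, hMn⟩ := h ((1 / 2 : ℝ) ^ k) (by positivity)
    obtain ⟨C, f, h1, h2, h3⟩ := hMn.refine hG
    exact ⟨C, M, n, f, hMn.1, h1, h2, h3⟩
  choose C M n f hn hmass hov hdiam using hchoice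
  obtain ⟨x0⟩ := hG.nonempty
  -- the squared distances at one scale
  let D : V → V → ℕ → ℝ := fun x y k => ∑' c, (rt (n k) (f k x) c - rt (n k) (f k y) c) ^ 2
  have hD0 : ∀ x y k, 0 ≤ D x y k := fun x y k => tsum_nonneg fun c => sq_nonneg _
  have hDle : ∀ x y k, D x y k ≤ 2 * (G.dist x y * (1 / 2 : ℝ) ^ k) := by
    intro x y k
    apply rt_le (hn k) (hmass k x) (hmass k y)
    obtain ⟨p, hp⟩ := hG.exists_walk_length_eq_dist x y
    exact ov_walk (L := G.dist x y) (f k) (by positivity) (hmass k) (hov k) p hp.le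
  have hDeq : ∀ x y k, M k < G.dist x y → D x y k = 2 := by
    intro x y k hk
    apply rt_eq (hn k) (hmass k x) (hmass k y)
    intro c
    by_contra hcon
    push Not at hcon
    have := hdiam k x y c hcon.1 hcon.2
    omega
  have hDsum : ∀ x y, Summable (D x y) := by
    intro x y
    refine Summable.of_nonneg_of_le (hD0 x y) (hDle x y) ?_
    apply Summable.mul_left
    apply Summable.mul_left
    exact summable_geometric_of_lt_one (by norm_num) (by norm_num)
  -- the coordinates
  let E : V → V → (Σ k, C k) → ℝ := fun x y i =>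
    rt (n i.1) (f i.1 x) i.2 - rt (n i.1) (f i.1 y) i.2
  have hEsum : ∀ x y, Summable (fun i => E x y i ^ 2) := by
    intro x y
    rw [summable_sigma_of_nonneg (fun i => sq_nonneg _)]
    exact ⟨fun k => rt_summable (n k) (f k x) (f k y), hDsum x y⟩
  have hEtsum : ∀ x y, ∑' i, E x y i ^ 2 = ∑' k, D x y k := by
    intro x y
    exact (hEsum x y).tsum_sigma' (fun k => rt_summable (n k) (f k x) (f k y))
  have hmem : ∀ x, Memℓp (E := fun _ : (Σ k, C k) => ℝ) (E x x0) 2 := by
    intro x
    apply memℓp_gen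
    refine (hEsum x x0).congr ?_
    intro i
    norm_num
  let Φ : V → lp (fun _ : (Σ k, C k) => ℝ) 2 := fun x => ⟨E x x0, hmem x⟩
  have hnorm : ∀ x y, ‖Φ x - Φ y‖ ^ 2 = ∑' k, D x y k := by
    intro x y
    have h1 := lp.norm_rpow_eq_tsum (p := 2) (by norm_num) (Φ x - Φ y)
    have h2 : ‖Φ x - Φ y‖ ^ ((2 : ENNReal).toReal) = ‖Φ x - Φ y‖ ^ 2 := by
      norm_num
    rw [← h2, h1, ← hEtsum]
    apply tsum_congr
    intro i
    have h3 : (Φ x - Φ y) i = E x y i := by
      rw [lp.coeFn_sub, Pi.sub_apply]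
      show E x x0 i - E y x0 i = E x y i
      simp only [E]
      ring
    rw [h3]
    norm_num
  refine ⟨lp (fun _ : (Σ k, C k) => ℝ) 2, inferInstance, inferInstance, inferInstance, Φ,
    fun t => NNReal.sqrt (2 * (((Finset.range ⌈t⌉₊).filter fun k => (M k : NNReal) < t).card : ℕ)),
    fun t => NNReal.sqrt (4 * t), ?_, ?_, ?_, ?_⟩
  · intro s t hst
    apply NNReal.sqrt_le_sqrt.2
    apply mul_le_mul_of_nonneg_left _ (by norm_num)
    have : ((Finset.range ⌈s⌉₊).filter fun k => (M k : NNReal) < s) ⊆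
        ((Finset.range ⌈t⌉₊).filter fun k => (M k : NNReal) < t) := by
      intro k hk
      rw [Finset.mem_filter, Finset.mem_range] at hk ⊢
      exact ⟨lt_of_lt_of_le hk.1 (Nat.ceil_mono hst), lt_of_lt_of_le hk.2 hst⟩
    exact_mod_cast Finset.card_le_card this
  · intro s t hst
    exact NNReal.sqrt_le_sqrt.2 (mul_le_mul_of_nonneg_left hst (by norm_num))
  · rw [Filter.tendsto_atTop_atTop]
    intro b
    obtain ⟨K, hK⟩ := exists_nat_ge (b ^ 2)
    refine ⟨max (K : NNReal) (∑ k ∈ Finset.range K, (M k : NNReal) + 1), ?_⟩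
    intro t ht
    have h1 : (Finset.range K) ⊆ ((Finset.range ⌈t⌉₊).filter fun k => (M k : NNReal) < t) := by
      intro k hk
      rw [Finset.mem_filter]
      have hk' := Finset.mem_range.1 hk
      refine ⟨?_, ?_⟩
      · rw [Finset.mem_range]
        have : (K : NNReal) ≤ ⌈t⌉₊ := le_trans (le_trans (le_max_left _ _) ht) (Nat.le_ceil t)
        have : K ≤ ⌈t⌉₊ := by exact_mod_cast this
        omega
      · calc (M k : NNReal) ≤ ∑ k ∈ Finset.range K, (M k : NNReal) :=
              Finset.single_le_sum (f := fun k => (M k : NNReal)) (fun _ _ => zero_le) hk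
          _ < ∑ k ∈ Finset.range K, (M k : NNReal) + 1 := lt_add_one _
          _ ≤ t := le_trans (le_max_right _ _) ht
    have h2 := Finset.card_le_card h1
    rw [Finset.card_range] at h2
    have h3 : b ^ 2 ≤ 2 * (((Finset.range ⌈t⌉₊).filter fun k => (M k : NNReal) < t).card : ℕ) := by
      calc b ^ 2 ≤ K := hK
        _ ≤ (((Finset.range ⌈t⌉₊).filter fun k => (M k : NNReal) < t).card : ℕ) := by
            exact_mod_cast h2
        _ ≤ 2 * (((Finset.range ⌈t⌉₊).filter fun k => (M k : NNReal) < t).card : ℕ) := by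
            rw [two_mul]
            exact le_add_of_nonneg_left zero_le
    rw [NNReal.le_sqrt_iff_sq_le]
    exact h3
  · intro x y
    have hpos := norm_nonneg (Φ x - Φ y)
    constructor
    · rw [Real.coe_sqrt, Real.sqrt_le_left hpos, hnorm]
      push_cast
      set S := ((Finset.range ⌈((G.dist x y : ℕ) : NNReal)⌉₊).filter
        fun k => (M k : NNReal) < ((G.dist x y : ℕ) : NNReal)) with hS
      calc 2 * (S.card : ℝ) = ∑ k ∈ S, D x y k := by
            rw [Finset.sum_congr rfl (g := fun _ => (2 : ℝ)), Finset.sum_const, nsmul_eq_mul]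
            · ring
            · intro k hk
              apply hDeq
              rw [hS, Finset.mem_filter] at hk
              exact_mod_cast hk.2
        _ ≤ ∑' k, D x y k := (hDsum x y).sum_le_tsum S (fun k _ => hD0 x y k)
    · rw [Real.coe_sqrt]
      apply Real.le_sqrt_of_sq_le
      rw [hnorm]
      push_cast
      have h1 : ∑' k, D x y k ≤ ∑' k : ℕ, 2 * (G.dist x y * (1 / 2 : ℝ) ^ k) := by
        apply (hDsum x y).tsum_le_tsum (hDle x y)
        apply Summable.mul_left
        apply Summable.mul_left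
        exact summable_geometric_of_lt_one (by norm_num) (by norm_num)
      refine h1.trans ?_
      rw [tsum_mul_left, tsum_mul_left, tsum_geometric_of_lt_one (by norm_num) (by norm_num)]
      norm_num
      linarith

end PropA
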