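import Pool.Agent.PropA.Defs

/-!
# From combinatorial 2-complexes to cursor complexes (MP_db4510_al)
-/

namespace PropA

universe u

namespace Cpx

variable (X : Cpx.{u})

/-- the 2-cell of a place -/
def fa (o : X.Occ) : X.F := o.1

/-- a place given by its data -/
def pl (f : X.F) (i : ZMod (X.len f)) (b : Bool) : X.Occ := ⟨f, i, b⟩

lemma pl_ind {P : X.Occ → Prop} (h : ∀ f i b, P (X.pl f i b)) (o : X.Occ) : P o := h o.1 o.2.1 o.2.2

/-- next place -/
def step (o : X.Occ) : X.Occ :=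
  match o with
  | ⟨f, i, true⟩ => ⟨f, i + 1, true⟩
  | ⟨f, i, false⟩ => ⟨f, i - 1, false⟩

/-- previous place -/
def back (o : X.Occ) : X.Occ :=
  match o with
  | ⟨f, i, true⟩ => ⟨f, i - 1, true⟩
  | ⟨f, i, false⟩ => ⟨f, i + 1, false⟩

lemma occ_congr {f : X.F} {i i' : ZMod (X.len f)} (b : Bool) (h : i = i') :
    X.pl f i b = X.pl f i' b := by rw [h]

lemma back_step (o : X.Occ) : X.back (X.step o) = o := by
  rcases o with ⟨f, i, b⟩
  cases b
  · exact X.occ_congr false (sub_add_cancel i 1)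
  · exact X.occ_congr true (add_sub_cancel_right i 1)

lemma step_back (o : X.Occ) : X.step (X.back o) = o := by
  rcases o with ⟨f, i, b⟩
  cases b
  · exact X.occ_congr false (add_sub_cancel_right i 1)
  · exact X.occ_congr true (sub_add_cancel i 1)

lemma flip_flip (o : X.Occ) : X.flip (X.flip o) = o := by
  rcases o with ⟨f, i, b⟩
  cases b <;> rfl

lemma flip_step_flip_step (o : X.Occ) : X.flip (X.step (X.flip (X.step o))) = o := by
  rcases o with ⟨f, i, b⟩
  cases b
  · exact X.occ_congr false (sub_add_cancel i 1)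
  · exact X.occ_congr true (add_sub_cancel_right i 1)

lemma step_fst (o : X.Occ) : X.fa (X.step o) = X.fa o := by
  rcases o with ⟨f, i, b⟩
  cases b <;> rfl

lemma back_fst (o : X.Occ) : X.fa (X.back o) = X.fa o := by
  rcases o with ⟨f, i, b⟩
  cases b <;> rfl

lemma flip_fst (o : X.Occ) : X.fa (X.flip o) = X.fa o := rfl

/-- direction -/
def dr (o : X.Occ) : Bool := o.2.2

lemma step_dir (o : X.Occ) : X.dr (X.step o) = X.dr o := by
  rcases o with ⟨f, i, b⟩
  cases b <;> rfl

lemma back_dir (o : X.Occ) : X.dr (X.back o) = X.dr o := by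
  rcases o with ⟨f, i, b⟩
  cases b <;> rfl

lemma rdAt_step (o : X.Occ) (j : ℕ) : X.rdAt (X.step o) j = X.rdAt o (j + 1) := by
  rcases o with ⟨f, i, b⟩
  cases b
  · simp only [rdAt, step]
    congr 2
    push_cast
    ring
  · simp only [rdAt, step]
    congr 1
    push_cast
    ring

lemma rdAt_iter (o : X.Occ) (k j : ℕ) : X.rdAt (X.step^[k] o) j = X.rdAt o (k + j) := by
  induction k generalizing o with
  | zero => simp
  | succ k ih =>
    rw [Function.iterate_succ_apply, ih, rdAt_step]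
    congr 1
    ring

lemma rdAt_flip_step (o : X.Occ) : X.rdAt (X.flip (X.step o)) 0 = X.rev (X.rdAt o 0) := by
  rcases o with ⟨f, i, b⟩
  cases b
  · simp [rdAt, step, flip, X.rev_rev]
  · simp [rdAt, step, flip]

lemma src_rdAt_flip (o : X.Occ) : X.src (X.rdAt (X.flip o) 0) = X.src (X.rdAt o 0) := by
  rcases o with ⟨f, i, b⟩
  have h := X.bd_path f (i - 1)
  rw [sub_add_cancel] at h
  cases b
  · simp [rdAt, flip, h]
  · simp [rdAt, flip, h]

lemma src_rdAt_succ (o : X.Occ) (j : ℕ) :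
    X.src (X.rdAt o (j + 1)) = X.src (X.rev (X.rdAt o j)) := by
  have h1 : X.rdAt o (j + 1) = X.rdAt (X.step (X.step^[j] o)) 0 := by
    rw [rdAt_step, rdAt_iter]
  have h2 : X.rdAt o j = X.rdAt (X.step^[j] o) 0 := by rw [rdAt_iter, Nat.add_zero]
  rw [h1, h2, ← rdAt_flip_step, src_rdAt_flip]

lemma rdAt_add_len (o : X.Occ) (j : ℕ) : X.rdAt o (j + X.len (X.fa o)) = X.rdAt o j := by
  rcases o with ⟨f, i, b⟩
  cases b <;> simp [rdAt, fa]

lemma step_iter_true (f : X.F) (i : ZMod (X.len f)) (k : ℕ) :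
    X.step^[k] (X.pl f i true) = X.pl f (i + k) true := by
  induction k generalizing i with
  | zero => exact X.occ_congr true (by simp)
  | succ k ih =>
    rw [Function.iterate_succ_apply]
    refine (ih (i + 1)).trans (X.occ_congr true ?_)
    push_cast
    ring

lemma step_iter_false (f : X.F) (i : ZMod (X.len f)) (k : ℕ) :
    X.step^[k] (X.pl f i false) = X.pl f (i - k) false := by
  induction k generalizing i with
  | zero => exact X.occ_congr false (by simp)
  | succ k ih =>
    rw [Function.iterate_succ_apply]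
    refine (ih (i - 1)).trans (X.occ_congr false ?_)
    push_cast
    ring

lemma step_len (o : X.Occ) : X.step^[X.len (X.fa o)] o = o := by
  induction o using X.pl_ind with
  | h f i b =>
    cases b
    · refine (X.step_iter_false f i (X.len f)).trans (X.occ_congr false ?_)
      simp
    · refine (X.step_iter_true f i (X.len f)).trans (X.occ_congr true ?_)
      simp

lemma occ_inj {f : X.F} {i i' : ZMod (X.len f)} {b b' : Bool}
    (h : X.pl f i b = X.pl f i' b') : i = i' ∧ b = b' := by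
  have h' : (⟨f, i, b⟩ : Σ f : X.F, ZMod (X.len f) × Bool) = ⟨f, i', b'⟩ := h
  simpa using h'

/-- If the place returns after `n` steps then `n` is a multiple of the length. -/
lemma len_le_of_iter (o : X.Occ) {n : ℕ} (hn : 0 < n) (h : X.step^[n] o = o) :
    X.len (X.fa o) ≤ n := by
  have : (n : ZMod (X.len (X.fa o))) = 0 := by
    induction o using X.pl_ind with
    | h f i b =>
      show (n : ZMod (X.len f)) = 0
      cases b
      · rw [step_iter_false] at h
        have := (X.occ_inj h).1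
        simpa using this
      · rw [step_iter_true] at h
        have := (X.occ_inj h).1
        simpa using this
  exact Nat.le_of_dvd hn ((ZMod.natCast_eq_zero_iff _ _).1 this)

/-- the 2-cell has a reflection symmetry -/
def Sym (f : X.F) : Prop := ∃ i : ZMod (X.len f), ∀ j : ℕ, X.bd f (i + j) = X.rev (X.bd f (i - 1 - j))

lemma sym_of_flip {o : X.Occ} (h : ∀ j, X.rdAt o j = X.rdAt (X.flip o) j) : X.Sym (X.fa o) := by
  rcases o with ⟨f, i, b⟩
  refine ⟨i, fun j => ?_⟩
  show X.bd f (i + j) = X.rev (X.bd f (i - 1 - j))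
  have := h j
  cases b
  · simpa [rdAt, flip] using this.symm
  · simpa [rdAt, flip] using this

/-- the dart is read at no place of a 2-cell without reflection symmetry -/
def Unread (d : X.D) : Prop := ∀ o : X.Occ, ¬ X.Sym (X.fa o) → X.rdAt o 0 ≠ d

lemma Unread.rev {d : X.D} (h : X.Unread d) : X.Unread (X.rev d) := by
  intro o ho he
  apply h (X.flip (X.step o))
  · rw [flip_fst, step_fst]; exact ho
  · rw [rdAt_flip_step, he, X.rev_rev]

/-- Cursors -/
def Cu : Type u := {o : X.Occ // ¬ X.Sym (X.fa o)} ⊕ ({d : X.D // X.Unread d} × Bool)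

def cI (o : X.Occ) (h : ¬ X.Sym (X.fa o)) : X.Cu := Sum.inl ⟨o, h⟩

def cE (d : {d : X.D // X.Unread d}) (s : Bool) : X.Cu := Sum.inr (d, s)

lemma cu_ind {P : X.Cu → Prop} (h1 : ∀ o h, P (X.cI o h)) (h2 : ∀ d s, P (X.cE d s)) (c : X.Cu) :
    P c := by
  rcases c with ⟨o, ho⟩ | ⟨d, s⟩
  · exact h1 o ho
  · exact h2 d s

lemma cI_congr {o o' : X.Occ} {h : ¬ X.Sym (X.fa o)} {h' : ¬ X.Sym (X.fa o')} (e : o = o') :
    X.cI o h = X.cI o' h' := by
  subst e; rfl

/-- Faces -/
def Fa : Type u := {f : X.F // ¬ X.Sym f} ⊕ Quot fun d d' : {d : X.D // X.Unread d} =>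
  d'.1 = X.rev d.1

def nxF : X.Cu → X.Cu
  | Sum.inl o => Sum.inl ⟨X.step o.1, by rw [step_fst]; exact o.2⟩
  | Sum.inr (d, s) => Sum.inr (⟨X.rev d.1, d.2.rev X⟩, s)

def bkF : X.Cu → X.Cu
  | Sum.inl o => Sum.inl ⟨X.back o.1, by rw [back_fst]; exact o.2⟩
  | Sum.inr (d, s) => Sum.inr (⟨X.rev d.1, d.2.rev X⟩, s)

def opF : X.Cu → X.Cu
  | Sum.inl o => Sum.inl ⟨X.flip o.1, o.2⟩
  | Sum.inr (d, s) => Sum.inr (d, !s)

def rdF : X.Cu → X.D
  | Sum.inl o => X.rdAt o.1 0
  | Sum.inr (d, _) => d.1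

def fcF : X.Cu → X.Fa
  | Sum.inl o => Sum.inl ⟨X.fa o.1, o.2⟩
  | Sum.inr (d, _) => Sum.inr (Quot.mk _ d)

def dirF : X.Cu → Bool
  | Sum.inl o => X.dr o.1
  | Sum.inr (_, s) => s

def nxP : Equiv.Perm X.Cu where
  toFun := X.nxF
  invFun := X.bkF
  left_inv := by
    rintro (⟨o, ho⟩ | ⟨⟨d, hd⟩, s⟩)
    · exact congrArg Sum.inl (Subtype.ext (X.back_step o))
    · exact congrArg Sum.inr (Prod.ext (Subtype.ext (X.rev_rev d)) rfl)
  right_inv := by
    rintro (⟨o, ho⟩ | ⟨⟨d, hd⟩, s⟩)
    · exact congrArg Sum.inl (Subtype.ext (X.step_back o))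
    · exact congrArg Sum.inr (Prod.ext (Subtype.ext (X.rev_rev d)) rfl)

lemma nxP_apply (c : X.Cu) : X.nxP c = X.nxF c := rfl

lemma nxP_pow_inl (o : X.Occ) (ho : ¬ X.Sym (X.fa o)) (k : ℕ) :
    ∃ h : ¬ X.Sym (X.fa (X.step^[k] o)), (X.nxP ^ k) (X.cI o ho) = X.cI (X.step^[k] o) h := by
  induction k with
  | zero => exact ⟨ho, rfl⟩
  | succ k ih =>
    obtain ⟨h, e⟩ := ih
    have h2 : ¬ X.Sym (X.fa (X.step^[k + 1] o)) := by
      rw [Function.iterate_succ_apply', step_fst]; exact h
    refine ⟨h2, ?_⟩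
    rw [pow_succ', Equiv.Perm.mul_apply, e]
    exact X.cI_congr (Function.iterate_succ_apply' _ _ _).symm

lemma nxP_two (d : {d : X.D // X.Unread d}) (s : Bool) :
    (X.nxP ^ 2) (X.cE d s) = X.cE d s := by
  rw [pow_two, Equiv.Perm.mul_apply]
  exact congrArg Sum.inr (Prod.ext (Subtype.ext (X.rev_rev d.1)) rfl)

lemma dir_nx (c : X.Cu) : X.dirF (X.nxP c) = X.dirF c := by
  rcases c with ⟨o, ho⟩ | ⟨⟨d, hd⟩, s⟩
  · exact X.step_dir o
  · rfl

lemma dir_inv (c : X.Cu) : X.dirF (X.nxP⁻¹ c) = X.dirF c := by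
  have h := X.dir_nx (X.nxP⁻¹ c)
  rw [← Equiv.Perm.mul_apply, mul_inv_cancel, Equiv.Perm.one_apply] at h
  exact h.symm

lemma dir_pow (k : ℤ) (c : X.Cu) : X.dirF ((X.nxP ^ k) c) = X.dirF c := by
  induction k using Int.induction_on generalizing c with
  | zero => rfl
  | succ n ih => rw [zpow_add_one, Equiv.Perm.mul_apply, ih, dir_nx]
  | pred n ih => rw [zpow_sub_one, Equiv.Perm.mul_apply, ih, dir_inv]

lemma dir_op (c : X.Cu) : X.dirF (X.opF c) = !X.dirF c := by
  rcases c with ⟨⟨f, i, b⟩, ho⟩ | ⟨⟨d, hd⟩, s⟩ <;> rfl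

/-- The cursor complex. -/
def toGC : GC.{u} where
  V := X.V
  D := X.D
  F := X.Fa
  C := X.Cu
  src := X.src
  rev := X.rev
  rev_rev := X.rev_rev
  rev_ne := X.rev_ne
  fc := X.fcF
  rd := X.rdF
  nx := X.nxP
  op := X.opF
  op_op := by
    rintro (⟨o, ho⟩ | ⟨⟨d, hd⟩, s⟩)
    · exact congrArg Sum.inl (Subtype.ext (X.flip_flip o))
    · exact congrArg Sum.inr (Prod.ext rfl (Bool.not_not s))
  op_nx := by
    rintro (⟨o, ho⟩ | ⟨⟨d, hd⟩, s⟩)
    · exact congrArg Sum.inl (Subtype.ext (X.flip_step_flip_step o))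
    · exact congrArg Sum.inr (Prod.ext (Subtype.ext (X.rev_rev d)) (Bool.not_not s))
  or_ne := by
    intro k c h
    have h1 := congrArg X.dirF h
    rw [dir_pow, dir_op] at h1
    cases hd : X.dirF c <;> rw [hd] at h1 <;> exact absurd h1 (by decide)
  rd_rev := by
    rintro (⟨o, ho⟩ | ⟨⟨d, hd⟩, s⟩)
    · exact X.rdAt_flip_step o
    · rfl
  src_op := by
    rintro (⟨o, ho⟩ | ⟨⟨d, hd⟩, s⟩)
    · exact X.src_rdAt_flip o
    · rfl
  fc_nx := by
    rintro (⟨⟨f, i, b⟩, ho⟩ | ⟨⟨d, hd⟩, s⟩)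
    · cases b <;> rfl
    · refine congrArg Sum.inr (Quot.sound ?_)
      exact (X.rev_rev d).symm
  fc_op := by
    rintro (⟨⟨f, i, b⟩, ho⟩ | ⟨⟨d, hd⟩, s⟩) <;> rfl
  fc_orb := by
    rintro (⟨⟨f, i, b⟩, ho⟩ | ⟨⟨d, hd⟩, s⟩) (⟨⟨f', i', b'⟩, ho'⟩ | ⟨⟨d', hd'⟩, s'⟩) h
    · have h1 : f = f' := congrArg Subtype.val (Sum.inl.inj h)
      subst h1
      have hlen : X.len f ≠ 0 := (X.len_pos f).ne'
      have : NeZero (X.len f) := ⟨hlen⟩
      -- the number of steps
      have key : ∀ (j : ZMod (X.len f)) (b0 : Bool) (hb : ¬ X.Sym f),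
          ∃ k : ℕ, (X.nxP ^ k) (X.cI (X.pl f i b0) hb) = X.cI (X.pl f j b0) hb := by
        intro j b0 hb
        cases b0
        · obtain ⟨h2, e⟩ := X.nxP_pow_inl (X.pl f i false) hb (i - j).val
          refine ⟨(i - j).val, e.trans (X.cI_congr ?_)⟩
          refine (X.step_iter_false f i _).trans (X.occ_congr false ?_)
          rw [ZMod.natCast_zmod_val]
          ring
        · obtain ⟨h2, e⟩ := X.nxP_pow_inl (X.pl f i true) hb (j - i).val
          refine ⟨(j - i).val, e.trans (X.cI_congr ?_)⟩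
          refine (X.step_iter_true f i _).trans (X.occ_congr true ?_)
          rw [ZMod.natCast_zmod_val]
          ring
      by_cases hbb : b = b'
      · subst hbb
        obtain ⟨k, hk⟩ := key i' b ho
        exact ⟨k, Or.inl (by rw [zpow_natCast]; exact hk.symm)⟩
      · have hb2 : b' = !b := by
          cases b <;> cases b' <;> simp_all
        subst hb2
        obtain ⟨k, hk⟩ := key i' (!b) ho
        exact ⟨k, Or.inr (by rw [zpow_natCast]; exact hk.symm)⟩
    · exact absurd h (by simp [fcF])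
    · exact absurd h (by simp [fcF])
    · have h1 : (Quot.mk _ (⟨d, hd⟩ : {d : X.D // X.Unread d}) :
          Quot fun d d' : {d : X.D // X.Unread d} => d'.1 = X.rev d.1) = Quot.mk _ ⟨d', hd'⟩ :=
        Sum.inr.inj h
      have h2 := Quot.eqvGen_exact h1
      have h3 : d' = d ∨ d' = X.rev d := by
        have key : ∀ a b : {d : X.D // X.Unread d},
            Relation.EqvGen (fun d d' : {d : X.D // X.Unread d} => d'.1 = X.rev d.1) a b →
            b.1 = a.1 ∨ b.1 = X.rev a.1 := by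
          intro a b hab
          induction hab with
          | rel _ _ h => exact Or.inr h
          | refl _ => exact Or.inl rfl
          | symm x y _ ih =>
            rcases ih with ih | ih
            · exact Or.inl ih.symm
            · right; rw [ih, X.rev_rev]
          | trans x y z _ _ ih1 ih2 =>
            rcases ih1 with ih1 | ih1 <;> rcases ih2 with ih2 | ih2
            · left; rw [ih2, ih1]
            · right; rw [ih2, ih1]
            · right; rw [ih2, ih1]
            · left; rw [ih2, ih1, X.rev_rev]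
        exact key _ _ h2
      have e1 : ∀ (s : Bool), X.nxP (Sum.inr (⟨d, hd⟩, s)) = Sum.inr (⟨X.rev d, hd.rev X⟩, s) :=
        fun s => rfl
      rcases h3 with h3 | h3
      · subst h3
        by_cases hss : s' = s
        · subst hss
          exact ⟨0, Or.inl rfl⟩
        · have : s' = !s := by cases s <;> cases s' <;> simp_all
          subst this
          exact ⟨0, Or.inr rfl⟩
      · subst h3
        by_cases hss : s' = s
        · subst hss
          exact ⟨1, Or.inl rfl⟩
        · have : s' = !s := by cases s <;> cases s' <;> simp_all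
          subst this
          exact ⟨1, Or.inr rfl⟩
  per := by
    intro c
    induction c using X.cu_ind with
    | h1 o ho =>
      refine ⟨X.len (X.fa o), X.len_pos _, ?_⟩
      obtain ⟨h, e⟩ := X.nxP_pow_inl o ho (X.len (X.fa o))
      rw [e]
      exact X.cI_congr (X.step_len o)
    | h2 d s => exact ⟨2, by norm_num, X.nxP_two d s⟩
  rd_surj := by
    intro d
    by_cases h : X.Unread d
    · exact ⟨Sum.inr (⟨d, h⟩, true), rfl⟩
    · unfold Unread at h
      push Not at h
      obtain ⟨o, ho, he⟩ := h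
      exact ⟨Sum.inl ⟨o, ho⟩, he⟩
  fc_surj := by
    rintro (⟨f, hf⟩ | q)
    · exact ⟨Sum.inl ⟨X.pl f 0 true, hf⟩, rfl⟩
    · induction q using Quot.ind with
      | mk d => exact ⟨Sum.inr (d, true), rfl⟩

/-! ### Small cancellation conditions -/

lemma rd_pow (o : X.Occ) (h : ¬ X.Sym (X.fa o)) (j : ℕ) :
    X.rdF ((X.nxP ^ j) (X.cI o h)) = X.rdAt o j := by
  obtain ⟨h2, e⟩ := X.nxP_pow_inl o h j
  rw [e]
  show X.rdAt (X.step^[j] o) 0 = _
  rw [rdAt_iter, Nat.add_zero]

lemma rd_pow_edge (j : ℕ) (d : {d : X.D // X.Unread d}) (s s' : Bool) :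
    X.rdF ((X.nxP ^ j) (X.cE d s)) = X.rdF ((X.nxP ^ j) (X.cE d s')) := by
  induction j generalizing d with
  | zero => rfl
  | succ j ih =>
    rw [pow_succ, Equiv.Perm.mul_apply, Equiv.Perm.mul_apply]
    exact ih ⟨X.rev d.1, d.2.rev X⟩

lemma tw_place {o o' : X.Occ} {h : ¬ X.Sym (X.fa o)} {h' : ¬ X.Sym (X.fa o')} :
    X.toGC.Tw (X.cI o h) (X.cI o' h') ↔ ¬ X.EssDiff o o' := by
  unfold EssDiff
  rw [not_not]
  constructor
  · rintro ⟨h1, h2⟩
    refine ⟨congrArg Subtype.val (Sum.inl.inj h1), fun j => ?_⟩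
    rw [← X.rd_pow o h, ← X.rd_pow o' h']
    exact h2 j
  · rintro ⟨h1, h2⟩
    refine ⟨congrArg Sum.inl (Subtype.ext h1), fun j => ?_⟩
    show X.rdF ((X.nxP ^ j) (X.cI o h)) = X.rdF ((X.nxP ^ j) (X.cI o' h'))
    rw [X.rd_pow o h, X.rd_pow o' h']
    exact h2 j

lemma tw_edge (d : {d : X.D // X.Unread d}) (s s' : Bool) :
    X.toGC.Tw (X.cE d s) (X.cE d s') := ⟨rfl, fun j => X.rd_pow_edge j d s s'⟩

/-- A cursor which reads an unread dart. -/
lemma rd_unread {d : {d : X.D // X.Unread d}} {c : X.Cu} (h : X.rdF c = d.1) :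
    ∃ s, c = X.cE d s := by
  induction c using X.cu_ind with
  | h1 o ho => exact absurd h (d.2 o ho)
  | h2 d' s => exact ⟨s, congrArg Sum.inr (Prod.ext (Subtype.ext h) rfl)⟩

lemma pc_edge {d : {d : X.D // X.Unread d}} {s : Bool} {k : ℕ}
    (h : X.toGC.Pc (X.cE d s) k) : k = 0 := by
  rcases h with h | ⟨c', h1, h2⟩
  · exact h
  · by_contra hk
    have h3 : X.rdF (X.cE d s) = X.rdF c' := h2 0 (Nat.pos_of_ne_zero hk)
    obtain ⟨s', rfl⟩ := X.rd_unread (d := d) h3.symm
    exact h1 (X.tw_edge d s s')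

lemma pc_place {o : X.Occ} {ho : ¬ X.Sym (X.fa o)} {k : ℕ} (h : X.toGC.Pc (X.cI o ho) k) :
    k = 0 ∨ ∃ o', X.EssDiff o o' ∧ ∀ j < k, X.rdAt o j = X.rdAt o' j := by
  rcases h with h | ⟨c', h1, h2⟩
  · exact Or.inl h
  · by_cases hk : k = 0
    · exact Or.inl hk
    · right
      induction c' using X.cu_ind with
      | h1 o' ho' =>
        refine ⟨o', ?_, fun j hj => ?_⟩
        · by_contra hcon
          exact h1 (X.tw_place.2 hcon)
        · rw [← X.rd_pow o ho, ← X.rd_pow o' ho']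
          exact h2 j hj
      | h2 d s =>
        have h3 : X.rdF (X.cI o ho) = d.1 := h2 0 (Nat.pos_of_ne_zero hk)
        exact absurd h3 (d.2 o ho)

/-- the first `k` darts read from a place -/
def rl (o : X.Occ) (k : ℕ) : List X.D := (List.range k).map (X.rdAt o)

lemma rl_add (o : X.Occ) (a b : ℕ) : X.rl o (a + b) = X.rl o a ++ X.rl (X.step^[a] o) b := by
  unfold rl
  rw [List.range_add, List.map_append, List.map_map]
  congr 1
  refine List.map_congr_left fun j _ => ?_
  rw [Function.comp_apply, rdAt_iter]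

lemma bdPath_eq (o : X.Occ) : X.bdPath o = X.rl o (X.len (X.fa o)) := by
  unfold bdPath rl
  apply List.ext_getElem
  · simp [fa]
  · intro j h1 h2
    simp

lemma isPiece_rl {o : X.Occ} {k m : ℕ} (hm : 0 < m) (hmk : m ≤ k)
    (h : k = 0 ∨ ∃ o', X.EssDiff o o' ∧ ∀ j < k, X.rdAt o j = X.rdAt o' j) :
    X.IsPiece (X.rl o m) := by
  rcases h with h | ⟨o', h1, h2⟩
  · omega
  · refine ⟨?_, o, o', h1, ?_⟩
    · intro he
      have := congrArg List.length he
      simp [rl] at this
      omega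
    · intro j hj
      have hj' : j < m := by simpa [rl] using hj
      simp only [rl, List.getElem_map, List.getElem_range, true_and]
      exact h2 j (by omega)

theorem toGC_C4 (h4 : X.C4) : X.toGC.C4 := by
  intro c k1 k2 k3 n p1 p2 p3 hn hper
  by_contra hcon
  push Not at hcon
  revert p1 p2 p3 hper
  induction c using X.cu_ind with
  | h1 o ho =>
    intro p1 p2 p3 hper
    set L := X.len (X.fa o) with hL
    have hLn : L ≤ n := by
      apply X.len_le_of_iter o hn
      obtain ⟨h2, e⟩ := X.nxP_pow_inl o ho n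
      have e2 : X.cI (X.step^[n] o) h2 = X.cI o ho := by
        rw [← e]; exact hper
      exact congrArg Subtype.val (Sum.inl.inj e2)
    obtain ⟨g1, e1⟩ := X.nxP_pow_inl o ho k1
    obtain ⟨g2, e2⟩ := X.nxP_pow_inl o ho (k1 + k2)
    have q1 := X.pc_place p1
    have q2 : k2 = 0 ∨ ∃ o', X.EssDiff (X.step^[k1] o) o' ∧
        ∀ j < k2, X.rdAt (X.step^[k1] o) j = X.rdAt o' j := by
      apply X.pc_place (ho := g1)
      rw [← e1]; exact p2
    have q3 : k3 = 0 ∨ ∃ o', X.EssDiff (X.step^[k1 + k2] o) o' ∧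
        ∀ j < k3, X.rdAt (X.step^[k1 + k2] o) j = X.rdAt o' j := by
      apply X.pc_place (ho := g2)
      rw [← e2]; exact p3
    obtain ⟨m1, hm1⟩ : ∃ m1, m1 = min k1 L := ⟨_, rfl⟩
    obtain ⟨m2, hm2⟩ : ∃ m2, m2 = min k2 (L - m1) := ⟨_, rfl⟩
    obtain ⟨m3, hm3⟩ : ∃ m3, m3 = min k3 (L - m1 - m2) := ⟨_, rfl⟩
    have hsum : m1 + m2 + m3 = L := by omega
    let ps : List (List X.D) :=
      [X.rl o m1, X.rl (X.step^[m1] o) m2, X.rl (X.step^[m1 + m2] o) m3].filter (· ≠ [])
    refine h4 o ps ?_ ?_ ?_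
    · have := List.length_filter_le (· ≠ ([] : List X.D))
        [X.rl o m1, X.rl (X.step^[m1] o) m2, X.rl (X.step^[m1 + m2] o) m3]
      simp only [List.length_cons, List.length_nil] at this
      show (List.filter _ _).length < 4
      omega
    · intro p hp
      rw [List.mem_filter] at hp
      obtain ⟨hp1, hp2⟩ := hp
      have hp2' : p ≠ [] := by simpa using hp2
      have hne : ∀ (o' : X.Occ) (m : ℕ), X.rl o' m ≠ [] → 0 < m := by
        intro o' m h
        rcases Nat.eq_zero_or_pos m with h0 | h0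
        · subst h0; exact absurd rfl h
        · exact h0
      simp only [List.mem_cons, List.not_mem_nil, or_false] at hp1
      rcases hp1 with rfl | rfl | rfl
      · exact X.isPiece_rl (hne _ _ hp2') (by omega) q1
      · have hm := hne _ _ hp2'
        have : m1 = k1 := by omega
        rw [this] at *
        exact X.isPiece_rl hm (by omega) q2
      · have hm := hne _ _ hp2'
        have h5 : m1 + m2 = k1 + k2 := by omega
        rw [h5]
        exact X.isPiece_rl hm (by omega) q3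
    · show (List.filter _ _).flatten = _
      rw [X.bdPath_eq, ← hL, ← hsum, X.rl_add, X.rl_add]
      have hf : ∀ l : List (List X.D), (l.filter (· ≠ [])).flatten = l.flatten := by
        intro l
        induction l with
        | nil => rfl
        | cons a l ih =>
          by_cases ha : a = []
          · subst ha
            simp only [List.flatten_cons, List.nil_append]
            rw [List.filter_cons_of_neg (by simp)]
            exact ih
          · rw [List.filter_cons_of_pos (by simpa using ha), List.flatten_cons,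
              List.flatten_cons, ih]
      rw [hf]
      simp [List.append_assoc]
  | h2 d s =>
    intro p1 p2 p3 hper
    have hk1 := X.pc_edge p1
    subst hk1
    have hk2 : k2 = 0 := X.pc_edge (d := d) (s := s) p2
    subst hk2
    have hk3 : k3 = 0 := X.pc_edge (d := d) (s := s) p3
    omega

theorem toGC_T4 (h4 : X.T4) : X.toGC.T4 := by
  intro c1 c2 c3
  have edge : ∀ (d : {d : X.D // X.Unread d}) (s : Bool) (c : X.Cu),
      X.rdF (X.opF (X.cE d s)) = X.rdF c → X.toGC.Tw (X.opF (X.cE d s)) c := by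
    intro d s c h
    obtain ⟨s', rfl⟩ := X.rd_unread (d := d) (c := c) h.symm
    exact X.tw_edge d _ _
  induction c1 using X.cu_ind with
  | h2 d s =>
    intro h1 h2
    exact absurd (edge d s c2 h1) h2
  | h1 o1 ho1 =>
    induction c2 using X.cu_ind with
    | h2 d s =>
      intro _ _ h1 h2
      exact absurd (edge d s c3 h1) h2
    | h1 o2 ho2 =>
      induction c3 using X.cu_ind with
      | h2 d s =>
        intro _ _ _ _ h1 h2
        exact absurd (edge d s (X.cI o1 ho1) h1) h2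
      | h1 o3 ho3 =>
        intro a1 b1 a2 b2 a3 b3
        have key : ∀ (o o' : X.Occ) (ho : ¬ X.Sym (X.fa o)) (ho' : ¬ X.Sym (X.fa o')),
            ¬ X.toGC.Tw (X.opF (X.cI o ho)) (X.cI o' ho') → X.EssDiff (X.flip o) o' := by
          intro o o' ho ho' h
          by_contra hcon
          exact h ((X.tw_place (o := X.flip o) (h := ho)).2 hcon)
        exact h4 o1 o2 o3 a1 (key _ _ _ _ b1) a2 (key _ _ _ _ b2) a3 (key _ _ _ _ b3)

theorem toGC_NR : X.toGC.NR := by
  intro c
  induction c using X.cu_ind with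
  | h1 o ho =>
    intro h
    exfalso
    have h1 := (X.tw_place (o := o) (o' := X.flip o) (h := ho) (h' := ho)).1 h
    apply ho
    unfold EssDiff at h1
    rw [not_not] at h1
    exact X.sym_of_flip h1.2
  | h2 d s =>
    intro _
    refine ⟨?_, ?_⟩
    · have := X.nxP_two d s
      rw [pow_two, Equiv.Perm.mul_apply] at this
      exact this
    · intro c' hc'
      obtain ⟨s', rfl⟩ := X.rd_unread (d := d) (c := c') hc'
      by_cases hs : s' = s
      · subst hs; exact Or.inl rfl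
      · right
        have : s' = !s := by cases s <;> cases s' <;> simp_all
        subst this
        rfl

theorem walk_iff (u v : X.V) (p : List X.D) : X.toGC.Walk u p v ↔ X.IsPath u p v := by
  induction p generalizing u with
  | nil => exact Iff.rfl
  | cons d p ih =>
    show X.src d = u ∧ X.toGC.Walk (X.src (X.rev d)) p v ↔
      X.src d = u ∧ X.IsPath (X.src (X.rev d)) p v
    rw [ih]

theorem toGC_Conn (h : X.SimplyConnected) : X.toGC.Conn := by
  intro u v
  obtain ⟨p, hp⟩ := h.2.1 u v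
  exact ⟨p, (X.walk_iff u v p).2 hp⟩

theorem sub_ncard {α : Type u} (P : α → Prop) {S : Set α} (hS : S.Finite) :
    {x : {a // P a} | x.1 ∈ S}.Finite ∧ {x : {a // P a} | x.1 ∈ S}.ncard ≤ S.ncard := by
  refine ⟨hS.preimage Subtype.val_injective.injOn, ?_⟩
  exact Set.ncard_le_ncard_of_injOn Subtype.val (fun x hx => hx) Subtype.val_injective.injOn hS

theorem toGC_LF {N : ℕ} (h : ∀ v, {d | X.src d = v}.Finite ∧ {d | X.src d = v}.ncard ≤ N ∧
    {f | ∃ i, X.src (X.bd f i) = v}.Finite ∧ {f | ∃ i, X.src (X.bd f i) = v}.ncard ≤ N) :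
    X.toGC.LF (N + N) := by
  classical
  intro v
  obtain ⟨h1, h2, h3, h4⟩ := h v
  obtain ⟨g1, g2⟩ := sub_ncard (fun d => X.Unread d) h1
  obtain ⟨g3, g4⟩ := sub_ncard (fun f => ¬ X.Sym f) h3
  refine ⟨h1, ?_, ?_⟩
  · have : {d | X.toGC.src d = v}.ncard ≤ N := h2
    omega
  have hsub : {f : X.Fa | ∃ c : X.Cu, X.fcF c = f ∧ X.src (X.rdF c) = v} ⊆
      (fun f : {f : X.F // ¬ X.Sym f} => (Sum.inl f : X.Fa)) ''
        {x : {f : X.F // ¬ X.Sym f} | x.1 ∈ {f | ∃ i, X.src (X.bd f i) = v}} ∪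
      (fun d : {d : X.D // X.Unread d} => (Sum.inr (Quot.mk _ d) : X.Fa)) ''
        {x : {d : X.D // X.Unread d} | x.1 ∈ {d | X.src d = v}} := by
    rintro f ⟨c, hc, hv⟩
    induction c using X.cu_ind with
    | h1 o ho =>
      left
      refine ⟨⟨X.fa o, ho⟩, ?_, hc⟩
      rcases o with ⟨g, i, b⟩
      refine ⟨i, ?_⟩
      cases b
      · have h5 := X.bd_path g (i - 1)
        rw [sub_add_cancel] at h5
        rw [← hv]
        show X.src (X.bd g i) = X.src (X.rdAt (X.pl g i false) 0)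
        simp only [rdAt, pl, Nat.cast_zero, sub_zero]
        exact h5.symm
      · rw [← hv]
        show X.src (X.bd g i) = X.src (X.rdAt (X.pl g i true) 0)
        simp only [rdAt, pl, Nat.cast_zero, add_zero]
    | h2 d s =>
      right
      exact ⟨d, hv, hc⟩
  have hfin1 := (g3.image (fun f : {f : X.F // ¬ X.Sym f} => (Sum.inl f : X.Fa)))
  have hfin2 := (g1.image (fun d : {d : X.D // X.Unread d} => (Sum.inr (Quot.mk _ d) : X.Fa)))
  have hc1 := Set.ncard_image_le (f := fun f : {f : X.F // ¬ X.Sym f} => (Sum.inl f : X.Fa)) g3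
  have hc2 := Set.ncard_image_le
    (f := fun d : {d : X.D // X.Unread d} => (Sum.inr (Quot.mk _ d) : X.Fa)) g1
  have hunion := Set.ncard_le_ncard hsub (hfin1.union hfin2)
  have hle := Set.ncard_union_le
    ((fun f : {f : X.F // ¬ X.Sym f} => (Sum.inl f : X.Fa)) ''
        {x : {f : X.F // ¬ X.Sym f} | x.1 ∈ {f | ∃ i, X.src (X.bd f i) = v}})
    ((fun d : {d : X.D // X.Unread d} => (Sum.inr (Quot.mk _ d) : X.Fa)) ''
        {x : {d : X.D // X.Unread d} | x.1 ∈ {d | X.src d = v}})
  refine ⟨(hfin1.union hfin2).subset hsub, ?_⟩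
  exact hunion.trans (hle.trans (Nat.add_le_add (hc1.trans (g4.trans h4))
    (hc2.trans (g2.trans h2))))

/-! ### Simple connectedness -/

section SC

variable {X}
variable {S : Type u} {π : S → X.V} {act : S → X.D → S}

/-- states along the reading from a place -/
def tr (act : S → X.D → S) (o : X.Occ) (σ : S) : ℕ → S
  | 0 => σ
  | j + 1 => act (tr act o σ j) (X.rdAt o j)

lemma tr_foldl (o : X.Occ) (σ : S) (k : ℕ) : (X.rl o k).foldl act σ = tr act o σ k := by
  induction k with
  | zero => rfl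
  | succ k ih =>
    unfold rl at *
    rw [List.range_succ, List.map_append, List.foldl_append, ih]
    rfl

lemma tr_pi (h1 : ∀ σ d, X.src d = π σ → π (act σ d) = X.src (X.rev d) ∧
      act (act σ d) (X.rev d) = σ) {o : X.Occ} {σ : S} (h : X.src (X.rdAt o 0) = π σ) (j : ℕ) :
    X.src (X.rdAt o j) = π (tr act o σ j) := by
  induction j with
  | zero => exact h
  | succ j ih =>
    rw [X.src_rdAt_succ]
    exact (h1 _ _ ih).1.symm

lemma tr_add (o : X.Occ) (σ : S) (a b : ℕ) :
    tr act o σ (a + b) = tr act (X.step^[a] o) (tr act o σ a) b := by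
  induction b with
  | zero => rfl
  | succ b ih =>
    show act (tr act o σ (a + b)) (X.rdAt o (a + b)) = _
    rw [ih, ← X.rdAt_iter]
    rfl

lemma tr_congr {o o' : X.Occ} (h : ∀ j, X.rdAt o j = X.rdAt o' j) (σ : S) (k : ℕ) :
    tr act o σ k = tr act o' σ k := by
  induction k with
  | zero => rfl
  | succ k ih =>
    show act _ _ = act _ _
    rw [ih, h]

lemma tr_inj (h1 : ∀ σ d, X.src d = π σ → π (act σ d) = X.src (X.rev d) ∧
      act (act σ d) (X.rev d) = σ) {o : X.Occ} {σ τ : S} (hσ : X.src (X.rdAt o 0) = π σ)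
    (hτ : X.src (X.rdAt o 0) = π τ) (k : ℕ) (h : tr act o σ k = tr act o τ k) : σ = τ := by
  induction k with
  | zero => exact h
  | succ k ih =>
    apply ih
    have e1 := (h1 _ _ (tr_pi h1 hσ k)).2
    have e2 := (h1 _ _ (tr_pi h1 hτ k)).2
    rw [← e1, ← e2]
    exact congrArg (fun x => act x (X.rev (X.rdAt o k))) h

/-- The boundary path of a 2-cell with a reflection symmetry has trivial monodromy. -/
lemma tr_sym (h1 : ∀ σ d, X.src d = π σ → π (act σ d) = X.src (X.rev d) ∧
      act (act σ d) (X.rev d) = σ) {o : X.Occ} (ho : X.Sym (X.fa o)) {σ : S}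
    (hσ : X.src (X.rdAt o 0) = π σ) : tr act o σ (X.len (X.fa o)) = σ := by
  obtain ⟨i0, hi0⟩ := ho
  have hLpos : 0 < X.len (X.fa o) := X.len_pos _
  have : NeZero (X.len (X.fa o)) := ⟨hLpos.ne'⟩
  obtain ⟨o', ho'⟩ : ∃ o', o' = X.pl (X.fa o) i0 (X.dr o) := ⟨_, rfl⟩
  have ha : ∀ j : ℕ, X.rdAt o' j = X.bd (X.fa o) (i0 + j) := by
    intro j
    rw [ho']
    cases X.dr o
    · exact (hi0 j).symm
    · rfl
  have hrefl : ∀ j < X.len (X.fa o), X.rdAt o' (X.len (X.fa o) - 1 - j) =
      X.rev (X.rdAt o' j) := by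
    intro j hj
    rw [ha, ha, hi0 j, X.rev_rev]
    congr 1
    have : ((X.len (X.fa o) - 1 - j : ℕ) : ZMod (X.len (X.fa o))) = -1 - j := by
      rw [Nat.sub_sub, Nat.cast_sub (by omega)]
      push_cast
      rw [ZMod.natCast_self]
      ring
    rw [this]
    ring
  obtain ⟨m, hm⟩ : ∃ m, X.len (X.fa o) = 2 * m := by
    rcases Nat.even_or_odd' (X.len (X.fa o)) with ⟨m, hm | hm⟩
    · exact ⟨m, hm⟩
    · exfalso
      have := hrefl m (by omega)
      rw [show X.len (X.fa o) - 1 - m = m by omega] at this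
      exact X.rev_ne _ this.symm
  have hmid : ∀ τ : S, X.src (X.rdAt o' 0) = π τ → ∀ s ≤ m,
      tr act o' τ (m + s) = tr act o' τ (m - s) := by
    intro τ hτ s
    induction s with
    | zero => intro _; rfl
    | succ s ih =>
      intro hs
      have e1 : tr act o' τ (m + (s + 1)) = act (tr act o' τ (m + s)) (X.rdAt o' (m + s)) := rfl
      obtain ⟨t, ht⟩ : ∃ t, m - s = t + 1 := ⟨m - s - 1, by omega⟩
      have e2 : X.rdAt o' (m + s) = X.rev (X.rdAt o' t) := by
        rw [← hrefl t (by omega)]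
        congr 1
        omega
      rw [e1, ih (by omega), e2, ht, show m - (s + 1) = t by omega]
      exact (h1 _ _ (tr_pi h1 hτ t)).2
  have hloop : ∀ τ : S, X.src (X.rdAt o' 0) = π τ → tr act o' τ (X.len (X.fa o)) = τ := by
    intro τ hτ
    have := hmid τ hτ m le_rfl
    rw [show m + m = X.len (X.fa o) by omega, Nat.sub_self] at this
    exact this
  have hshift : ∀ (f : X.F) (i i1 : ZMod (X.len f)) (b : Bool),
      ∃ t, X.step^[t] (X.pl f i b) = X.pl f i1 b := by
    intro f i i1 b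
    have : NeZero (X.len f) := ⟨(X.len_pos f).ne'⟩
    cases b
    · refine ⟨(i - i1).val, ?_⟩
      refine (X.step_iter_false f i _).trans (X.occ_congr false ?_)
      rw [ZMod.natCast_zmod_val]
      ring
    · refine ⟨(i1 - i).val, ?_⟩
      refine (X.step_iter_true f i _).trans (X.occ_congr true ?_)
      rw [ZMod.natCast_zmod_val]
      ring
  obtain ⟨t, ht⟩ : ∃ t, X.step^[t] o = o' := by
    obtain ⟨t, ht⟩ := hshift (X.fa o) o.2.1 i0 (X.dr o)
    exact ⟨t, ht.trans ho'.symm⟩
  have e1 : tr act o σ (t + X.len (X.fa o)) = tr act o σ t := by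
    rw [tr_add, ht]
    apply hloop
    rw [← ht, X.rdAt_iter, Nat.add_zero]
    exact tr_pi h1 hσ t
  have e2 : tr act o σ (X.len (X.fa o) + t) = tr act o (tr act o σ (X.len (X.fa o))) t := by
    rw [tr_add, X.step_len]
  rw [Nat.add_comm, e2] at e1
  refine tr_inj h1 ?_ hσ t e1
  have := tr_pi h1 hσ (X.len (X.fa o))
  rw [← this]
  congr 1
  have h3 := X.rdAt_add_len o 0
  rw [Nat.zero_add] at h3
  exact h3.symm

lemma path_foldl (h1 : ∀ σ d, X.src d = π σ → π (act σ d) = X.src (X.rev d) ∧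
      act (act σ d) (X.rev d) = σ) {a b : List X.D} {u w : X.V} (σ : S) (hσ : π σ = u)
    (h : X.IsPath u (a ++ b) w) : X.IsPath (π (a.foldl act σ)) b w := by
  induction a generalizing σ u with
  | nil => rw [← hσ] at h; exact h
  | cons d a ih =>
    obtain ⟨h2, h3⟩ := h
    exact ih (act σ d) ((h1 σ d (by rw [h2, hσ])).1) h3

theorem sc_aux (h : X.SimplyConnected)
    (h1 : ∀ σ d, X.src d = π σ → π (act σ d) = X.src (X.rev d) ∧
      act (act σ d) (X.rev d) = σ)
    (h2 : ∀ σ c n, X.src (X.rdF c) = π σ → 0 < n → (X.nxP ^ n) c = c →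
      (List.ofFn fun j : Fin n => X.rdF ((X.nxP ^ (j : ℕ)) c)).foldl act σ = σ)
    (σ : S) (p : List X.D) (hp : X.IsPath (π σ) p (π σ)) : p.foldl act σ = σ := by
  have key : ∀ p q : List X.D, Relation.EqvGen (fun p q => (X.IsPath (π σ) p (π σ) ∧
      X.IsPath (π σ) q (π σ)) ∧ X.Elem p q) p q → p.foldl act σ = q.foldl act σ := by
    intro p q hpq
    induction hpq with
    | refl _ => rfl
    | symm _ _ _ ih => exact ih.symm
    | trans _ _ _ _ _ ih1 ih2 => exact ih1.trans ih2
    | rel p q hr =>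
      obtain ⟨⟨hp1, -⟩, a, l, b, rfl, rfl, hl⟩ := hr
      rw [List.append_assoc] at hp1
      have hp2 := path_foldl (X := X) h1 σ rfl hp1
      rw [List.foldl_append, List.foldl_append, List.foldl_append]
      congr 1
      rcases hl with ⟨d, rfl⟩ | ⟨o, rfl⟩
      · have h3 : X.src d = π (a.foldl act σ) := hp2.1
        exact (h1 _ _ h3).2
      · have h3 : X.src (X.rdAt o 0) = π (a.foldl act σ) := by
          rw [X.bdPath_eq] at hp2
          obtain ⟨n, hn⟩ : ∃ n, X.len (X.fa o) = n + 1 := ⟨X.len (X.fa o) - 1, by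
            have := X.len_pos (X.fa o)
            omega⟩
          rw [hn, Nat.add_comm, X.rl_add] at hp2
          exact hp2.1
        by_cases ho : X.Sym (X.fa o)
        · rw [X.bdPath_eq, tr_foldl]
          exact tr_sym h1 ho h3
        · have h4 := h2 (a.foldl act σ) (X.cI o ho) (X.len (X.fa o)) h3 (X.len_pos _) (by
            obtain ⟨h5, e⟩ := X.nxP_pow_inl o ho (X.len (X.fa o))
            exact e.trans (X.cI_congr (X.step_len o)))
          have h6 : (List.ofFn fun j : Fin (X.len (X.fa o)) =>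
              X.rdF ((X.nxP ^ (j : ℕ)) (X.cI o ho))) = X.bdPath o := by
            unfold bdPath
            refine congrArg List.ofFn ?_
            funext j
            exact X.rd_pow o ho j
          rw [h6] at h4
          exact h4
  exact key p [] (h.2.2 (π σ) p hp)

end SC

theorem toGC_SC (h : X.SimplyConnected) : X.toGC.SC := by
  intro S π act h1 h2 σ p hp
  exact sc_aux (X := X) h h1 h2 σ p ((X.walk_iff _ _ p).1 hp)

theorem exists_GC (X : Cpx.{u}) (hs : X.SimplyConnected) (hu : X.ULF) (h4 : X.C4)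
    (ht : X.T4) : ∃ (Z : GC.{u}) (φ : Z.V ≃ X.V) (N : ℕ),
      (∀ a b, Z.gr.Adj a b ↔ X.gr.Adj (φ a) (φ b)) ∧ Nonempty Z.V ∧
      Z.C4 ∧ Z.T4 ∧ Z.NR ∧ Z.Conn ∧ Z.SC ∧ Z.LF N := by
  obtain ⟨N, hN⟩ := hu
  exact ⟨X.toGC, Equiv.refl _, N + N, fun a b => Iff.rfl, hs.1, X.toGC_C4 h4, X.toGC_T4 ht,
    X.toGC_NR, X.toGC_Conn hs, X.toGC_SC hs, X.toGC_LF hN⟩

end Cpx

end PropA
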