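import Pool.Agent.PropA.Defs

/-!
# Development of a square multigraph (module C2)
-/

namespace PropA

universe u

namespace SG

variable {Y : SG.{u}}

theorem Sq_rev {a a' b b' : Y.K} (h : Y.Sq a a' b b') :
    Y.Sq (Y.r a') (Y.r a) (Y.r b') (Y.r b) :=
  Y.sq_swap (Y.sq_rot (Y.sq_rot h))

theorem Sq_mid {a a' b b' : Y.K} (h : Y.Sq a a' b b') : Y.Sq (Y.r a) b a' (Y.r b') :=
  Y.sq_swap (Y.sq_rot h)

theorem Sq_mid' {a a' b b' : Y.K} (h : Y.Sq a a' b b') : Y.Sq (Y.r b) a b' (Y.r a') :=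
  Sq_mid (Y.sq_swap h)

/-- Two consecutive layers of the development. -/
structure Lay (Y : SG.{u}) where
  A : Type u
  B : Type u
  pA : A → Y.N
  pB : B → Y.N
  rel : A → B → Y.K → Prop
  PA : A → Y.K → Prop
  share : A → A → Y.K → Y.K → Prop
  i1 : ∀ {a b k}, rel a b k → Y.s k = pA a ∧ Y.s (Y.r k) = pB b
  i2 : ∀ {a b b' k}, rel a b k → rel a b' k → b = b'
  i3 : ∀ {a b k k'}, rel a b k → rel a b k' → k = k'
  i3' : ∀ {a a' b k}, rel a b k → rel a' b k → a = a'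
  i4 : ∀ {a b k}, rel a b k → ¬ PA a k
  i5 : ∀ {a k}, Y.s k = pA a → ¬ PA a k → ∃ b, rel a b k
  i6 : ∀ {a a' b k k'}, rel a b k → rel a' b k' → a ≠ a' →
    ∃ m m', share a a' m m' ∧ Y.Sq m k m' k'
  i7 : ∀ {a b b' k k' l l' a'}, rel a b k → rel a b' k' → Y.Sq k l k' l' →
    rel a' b (Y.r l) → rel a' b' (Y.r l')
  i8 : ∀ {a b k m l l'}, rel a b k → PA a m → Y.Sq (Y.r k) m l l' →
    ∃ a', rel a' b (Y.r l) ∧ share a a' (Y.r m) (Y.r l')
  i9 : ∀ {a a' m m'}, share a a' m m' → PA a (Y.r m)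

namespace Lay

variable (L : Lay Y)

/-- the edge `k` at `b` leads down -/
def PB (b : L.B) (k : Y.K) : Prop := ∃ a, L.rel a b (Y.r k)

/-- an upward edge at level `B` -/
def Val : Type u := {p : L.B × Y.K // Y.s p.2 = L.pB p.1 ∧ ¬ L.PB p.1 p.2}

/-- identification of upward edges -/
def R (p q : L.B × Y.K) : Prop := p = q ∨ ∃ ρ m m', L.rel ρ p.1 m ∧ L.rel ρ q.1 m' ∧
  Y.Sq m p.2 m' q.2

variable {L}

theorem R_symm {p q : L.B × Y.K} (h : L.R p q) : L.R q p := by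
  rcases h with h | ⟨ρ, m, m', h1, h2, h3⟩
  · exact Or.inl h.symm
  · exact Or.inr ⟨ρ, m', m, h2, h1, Y.sq_swap h3⟩

theorem R_same {σ : L.A} {b1 b3 : L.B} {k1 k2 k3 m1 m2 m3 : Y.K} (h1 : L.rel σ b1 m1)
    (h3 : L.rel σ b3 m3) (s1 : Y.Sq m1 k1 m2 k2)
    (s2 : Y.Sq m2 k2 m3 k3) : L.R (b1, k1) (b3, k3) := by
  by_cases h : m1 = m3
  · subst h
    left
    have e1 := L.i2 h1 h3
    have e2 := Y.sq_uniq s1 (Y.sq_swap s2)
    rw [e1, e2]
  · right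
    exact ⟨σ, m1, m3, h1, h3, Y.sq_E s1 s2 h⟩

theorem R_aux {ρ σ : L.A} {b1 b2 b3 : L.B} {k1 k2 k3 m1 m2 m2' m3 c1 : Y.K}
    (h1 : L.rel ρ b1 m1) (h2 : L.rel ρ b2 m2) (h2' : L.rel σ b2 m2') (h3 : L.rel σ b3 m3)
    (s1 : Y.Sq m2' k2 m3 k3) (s2 : Y.Sq k2 (Y.r k1) (Y.r m2') c1)
    (s3 : Y.Sq (Y.r m2) m1 (Y.r m2') c1) : L.R (b1, k1) (b3, k3) := by
  have e1 := Sq_mid s3
  rw [Y.r_r] at e1
  have e2 : L.rel σ b1 c1 := by
    have := L.i7 h2 h1 e1 (a' := σ) (by rw [Y.r_r]; exact h2')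
    rwa [Y.r_r] at this
  have e3 := Sq_mid' s2
  rw [Y.r_r, Y.r_r] at e3
  exact R_same e2 h3 (Y.sq_swap e3) s1

theorem R_trans {p q t : L.B × Y.K} (hq : ¬ L.PB q.1 q.2) (h : L.R p q) (h' : L.R q t) :
    L.R p t := by
  rcases h with h | ⟨ρ, m1, m2, h1, h2, h3⟩
  · rw [h]; exact h'
  rcases h' with h' | ⟨σ, m2', m3, h1', h2', h3'⟩
  · rw [← h']; exact Or.inr ⟨ρ, m1, m2, h1, h2, h3⟩
  obtain ⟨b1, k1⟩ := p
  obtain ⟨b2, k2⟩ := q
  obtain ⟨b3, k3⟩ := t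
  simp only at *
  by_cases hρ : ρ = σ
  · subst hρ
    have := L.i3 h2 h1'
    subst this
    exact R_same h1 h2' h3 h3'
  · obtain ⟨n, n', hn, hs⟩ := L.i6 h2 h1' hρ
    have S1 := Y.sq_swap (Sq_mid' h3)
    have S2 := Sq_rev hs
    have S3 := Sq_mid h3'
    rcases Y.sq_H S1 S2 S3 with ⟨c1, e1, e2⟩ | ⟨a2, e1, e2⟩ | ⟨b, e1, e2⟩
    · exact R_aux h1 h2 h1' h2' h3' e1 e2
    · exfalso
      obtain ⟨a', ha, -⟩ := L.i8 h2 (L.i9 hn) e1
      exact hq ⟨a', ha⟩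
    · exact R_symm (R_aux h2' h1' h2 h1 (Y.sq_swap h3) e2 e1)

variable (L)

/-- the next level -/
def setoid : Setoid L.Val where
  r p q := L.R p.1 q.1
  iseqv := ⟨fun _ => Or.inl rfl, R_symm, fun {_ q _} => R_trans q.2.2⟩

/-- the next level -/
def B' : Type u := Quotient L.setoid

/-- position of an element of the next level -/
def pB' : L.B' → Y.N := Quotient.lift (fun p : L.Val => Y.s (Y.r p.1.2)) (by
  rintro p q (h | ⟨ρ, m, m', h1, h2, h3⟩)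
  · exact congrArg (fun t : L.B × Y.K => Y.s (Y.r t.2)) h
  · exact (Y.sq_path h3).2.2.2)

/-- upward edges to the next level -/
def rel' (b : L.B) (β : L.B') (k : Y.K) : Prop :=
  ∃ h : Y.s k = L.pB b ∧ ¬ L.PB b k, β = Quotient.mk L.setoid ⟨(b, k), h⟩

variable {L}

theorem rel'_R {b b' : L.B} {β : L.B'} {k k' : Y.K} (h : L.rel' b β k) (h' : L.rel' b' β k') :
    L.R (b, k) (b', k') := by
  obtain ⟨h1, h2⟩ := h
  obtain ⟨h3, h4⟩ := h'
  rw [h2] at h4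
  exact Quotient.exact h4

theorem rel'_of_R {b b' : L.B} {β : L.B'} {k k' : Y.K} (h : L.rel' b β k)
    (hv : Y.s k' = L.pB b' ∧ ¬ L.PB b' k') (hR : L.R (b, k) (b', k')) : L.rel' b' β k' := by
  obtain ⟨h1, h2⟩ := h
  refine ⟨hv, ?_⟩
  rw [h2]
  exact Quotient.sound hR

theorem rel'_k {b : L.B} {β : L.B'} {k k' : Y.K} (h : L.rel' b β k) (h' : L.rel' b β k') :
    k = k' := by
  rcases rel'_R h h' with h | ⟨ρ, m, m', h1, h2, h3⟩
  · exact congrArg Prod.snd h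
  · exact absurd (L.i3 h1 h2) (Y.sq_ne h3).1

theorem next_i7 {b b' : L.B} {β β' : L.B'} {k k' l l' : Y.K} (h1 : L.rel' b β k)
    (h2 : L.rel' b β' k') (s : Y.Sq k l k' l') (h3 : L.rel' b' β (Y.r l)) :
    L.rel' b' β' (Y.r l') := by
  rcases rel'_R h1 h3 with h | ⟨ψ, m, m', e1, e2, e3⟩
  · exfalso
    have := congrArg Prod.snd h
    simp only at this
    apply (Y.sq_ne s).2
    rw [this, Y.r_r]
  · simp only at e1 e2 e3
    have e4 := Sq_mid e3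
    rw [Y.r_r] at e4
    have hne : Y.r m ≠ k' := by
      intro h
      apply h2.1.2
      refine ⟨ψ, ?_⟩
      rw [← h, Y.r_r]
      exact e1
    have e5 := Y.sq_E e4 s hne
    have e6 := Sq_mid e5
    rw [Y.r_r] at e6
    refine rel'_of_R h2 ⟨?_, ?_⟩ (Or.inr ⟨ψ, m, m', e1, e2, e6⟩)
    · rw [← (Y.sq_path e5).2.2.2]
      exact (L.i1 e2).2
    · rintro ⟨a, ha⟩
      exact h2.1.2 ⟨a, L.i7 e2 e1 (Y.sq_swap e6) ha⟩

theorem next_i8 {b : L.B} {β : L.B'} {k m l l' : Y.K} (h1 : L.rel' b β k) (h2 : L.PB b m)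
    (s : Y.Sq (Y.r k) m l l') :
    ∃ b', L.rel' b' β (Y.r l) ∧ ∃ ρ, L.rel ρ b (Y.r m) ∧ L.rel ρ b' (Y.r l') := by
  obtain ⟨a, ha⟩ := h2
  have e1 := Sq_rev s
  rw [Y.r_r] at e1
  by_cases hP : L.PA a (Y.r l')
  · exfalso
    have e2 := Y.sq_rot s
    rw [Y.r_r] at e2
    obtain ⟨a'', h3, -⟩ := L.i8 ha hP (by rw [Y.r_r]; exact e2)
    exact h1.1.2 ⟨a'', h3⟩
  · have e3 : Y.s (Y.r l') = L.pA a := by
      rw [← (Y.sq_path s).2.2.2]
      exact (L.i1 ha).1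
    obtain ⟨b', hb'⟩ := L.i5 e3 hP
    refine ⟨b', ?_, a, ha, hb'⟩
    refine rel'_of_R h1 ⟨?_, ?_⟩ (Or.inr ⟨a, _, _, ha, hb', e1⟩)
    · rw [← (Y.sq_path s).2.2.1, ← (L.i1 hb').2, Y.r_r]
    · rintro ⟨a2, ha2⟩
      exact h1.1.2 ⟨a2, L.i7 hb' ha (Y.sq_swap e1) ha2⟩

variable (L)

/-- The next pair of layers. -/
def next : Lay Y where
  A := L.B
  B := L.B'
  pA := L.pB
  pB := L.pB'
  rel := L.rel'
  PA := L.PB
  share b b' m m' := ∃ ρ, L.rel ρ b m ∧ L.rel ρ b' m'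
  i1 := by
    rintro a b k ⟨h, rfl⟩
    exact ⟨h.1, rfl⟩
  i2 := by
    rintro a b b' k ⟨h, rfl⟩ ⟨h', rfl⟩
    rfl
  i3 := rel'_k
  i3' := by
    intro a a' b k h h'
    rcases rel'_R h h' with h | ⟨ρ, m, m', h1, h2, h3⟩
    · exact congrArg Prod.fst h
    · exact absurd rfl (Y.sq_ne (Y.sq_rot h3)).2
  i4 := fun h => h.1.2
  i5 := fun h h' => ⟨_, ⟨h, h'⟩, rfl⟩
  i6 := by
    intro a a' b k k' h h' hne
    rcases rel'_R h h' with h | ⟨ρ, m, m', h1, h2, h3⟩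
    · exact absurd (congrArg Prod.fst h) hne
    · exact ⟨m, m', ⟨ρ, h1, h2⟩, h3⟩
  i7 := next_i7
  i8 := next_i8
  i9 := by
    rintro a a' m m' ⟨ρ, h1, h2⟩
    exact ⟨ρ, by rw [Y.r_r]; exact h1⟩

end Lay

/-- level zero -/
def lay0 (x0 : Y.N) : Lay Y where
  A := PEmpty
  B := PUnit
  pA := fun a => a.elim
  pB := fun _ => x0
  rel := fun _ _ _ => False
  PA := fun _ _ => False
  share := fun _ _ _ _ => False
  i1 := fun h => h.elim
  i2 := fun _ _ => rfl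
  i3 := fun h => h.elim
  i3' := fun h => h.elim
  i4 := fun h => h.elim
  i5 := fun {a} => a.elim
  i6 := fun h => h.elim
  i7 := fun h => h.elim
  i8 := fun h => h.elim
  i9 := fun h => h.elim

/-- all levels -/
def lay (x0 : Y.N) : ℕ → Lay Y
  | 0 => lay0 x0
  | n + 1 => (lay x0 n).next

section total

variable (x0 : Y.N)

/-- the total space of the development -/
def Tot : Type u := Σ n, (lay x0 n).B

/-- one step in the development -/
inductive St : Tot x0 → Y.K → Tot x0 → Prop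
  | up (n : ℕ) (b : (lay x0 n).B) (b' : (lay x0 (n + 1)).B) (k : Y.K)
      (h : (lay x0 (n + 1)).rel b b' k) : St ⟨n, b⟩ k ⟨n + 1, b'⟩
  | down (n : ℕ) (b : (lay x0 n).B) (b' : (lay x0 (n + 1)).B) (k : Y.K)
      (h : (lay x0 (n + 1)).rel b b' (Y.r k)) : St ⟨n + 1, b'⟩ k ⟨n, b⟩

variable {x0}

theorem St_symm {σ τ : Tot x0} {k : Y.K} (h : St x0 σ k τ) : St x0 τ (Y.r k) σ := by
  cases h with
  | up n b b' k h => exact St.down n b b' _ (by rw [Y.r_r]; exact h)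
  | down n b b' k h => exact St.up n b b' _ h

/-- position -/
def pos (σ : Tot x0) : Y.N := (lay x0 σ.1).pB σ.2

theorem St_pos {σ τ : Tot x0} {k : Y.K} (h : St x0 σ k τ) :
    Y.s k = pos σ ∧ Y.s (Y.r k) = pos τ := by
  cases h with
  | up n b b' k h => exact (lay x0 (n + 1)).i1 h
  | down n b b' k h =>
    have := (lay x0 (n + 1)).i1 h
    rw [Y.r_r] at this
    exact this.symm

theorem St_exists (σ : Tot x0) (k : Y.K) (h : Y.s k = pos σ) : ∃ τ, St x0 σ k τ := by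
  obtain ⟨n, b⟩ := σ
  by_cases hP : (lay x0 n).PB b k
  · obtain ⟨a, ha⟩ := hP
    cases n with
    | zero => exact ha.elim
    | succ m => exact ⟨_, St.down m a b k ha⟩
  · obtain ⟨b', hb'⟩ := (lay x0 (n + 1)).i5 (a := b) (k := k) h hP
    exact ⟨_, St.up n b b' k hb'⟩

theorem St_det {σ τ τ' : Tot x0} {k : Y.K} (h : St x0 σ k τ) (h' : St x0 σ k τ') : τ = τ' := by
  cases h with
  | up n b b' k h =>
    cases h' with
    | up _ _ b'' _ h' => rw [(lay x0 (n + 1)).i2 h h']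
    | down m c _ _ h' => exact absurd ⟨c, h'⟩ h.1.2
  | down n b b' k h =>
    cases h' with
    | up _ _ b'' _ h' => exact absurd ⟨b, h⟩ h'.1.2
    | down _ c _ _ h' => rw [(lay x0 (n + 1)).i3' h h']

theorem St_det' {σ τ : Tot x0} {k k' : Y.K} (h : St x0 σ k τ) (h' : St x0 σ k' τ) : k = k' := by
  cases h with
  | up n b b' k h =>
    cases h' with
    | up _ _ b'' _ h' => exact (lay x0 (n + 1)).i3 h h'
  | down n b b' k h =>
    cases h' with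
    | down _ c _ _ h' =>
      have := (lay x0 (n + 1)).i3 h h'
      rw [← Y.r_r k, this, Y.r_r]

theorem lift_uu {n : ℕ} {x : (lay x0 n).B} {y y' : (lay x0 (n + 1)).B} {a a' b b' : Y.K}
    {ρ : Tot x0} (s : Y.Sq a a' b b') (h1 : (lay x0 (n + 1)).rel x y a)
    (h2 : (lay x0 (n + 1)).rel x y' b) (h3 : St x0 ⟨n + 1, y⟩ a' ρ) :
    St x0 ⟨n + 1, y'⟩ b' ρ := by
  cases h3 with
  | up _ _ z _ h =>
    refine St.up (n + 1) y' z b' ?_
    refine Lay.rel'_of_R (L := lay x0 (n + 1)) h ⟨?_, ?_⟩ (Or.inr ⟨x, a, b, h1, h2, s⟩)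
    · rw [(Y.sq_path s).2.2.1]
      exact ((lay x0 (n + 1)).i1 h2).2
    · rintro ⟨ψ, hψ⟩
      exact h.1.2 ⟨ψ, (lay x0 (n + 1)).i7 h2 h1 (Y.sq_swap s) hψ⟩
  | down _ z _ _ h =>
    exact St.down n z y' b' ((lay x0 (n + 1)).i7 h1 h2 s h)

theorem lift_du {n : ℕ} {x : (lay x0 n).B} {y : (lay x0 (n + 1)).B} {z : (lay x0 (n + 2)).B}
    {a a' b b' : Y.K}
    {ρ : Tot x0} (s : Y.Sq a a' b b') (h1 : (lay x0 (n + 1)).rel x y (Y.r a))
    (h2 : (lay x0 (n + 2)).rel y z b) (h3 : St x0 ⟨n, x⟩ a' ρ) :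
    St x0 ⟨n + 2, z⟩ b' ρ := by
  cases h3 with
  | up _ _ w _ h =>
    have e1 := Sq_mid s
    have e2 := lift_uu e1 h1 h (St.up (n + 1) y z b h2)
    have e3 := St_symm e2
    rwa [Y.r_r] at e3
  | down m w _ _ h =>
    exfalso
    have e1 : Y.Sq (Y.r (Y.r a)) a' b b' := by rw [Y.r_r]; exact s
    obtain ⟨a2, ha2, -⟩ := (lay x0 (m + 1 + 1)).i8 h1 ⟨w, h⟩ e1
    exact h2.1.2 ⟨a2, ha2⟩

theorem lift_dd {n : ℕ} {x x' : (lay x0 n).B} {y : (lay x0 (n + 1)).B}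
    {a a' b b' : Y.K}
    {ρ : Tot x0} (s : Y.Sq a a' b b') (h1 : (lay x0 (n + 1)).rel x y (Y.r a))
    (h2 : (lay x0 (n + 1)).rel x' y (Y.r b)) (h3 : St x0 ⟨n, x⟩ a' ρ) :
    St x0 ⟨n, x'⟩ b' ρ := by
  have hne : x ≠ x' := by
    rintro rfl
    have := (lay x0 (n + 1)).i3 h1 h2
    apply (Y.sq_ne s).1
    rw [← Y.r_r a, this, Y.r_r]
  obtain ⟨m, m', ⟨χ, c1, c2⟩, e⟩ := (lay x0 (n + 1)).i6 h1 h2 hne
  cases n with
  | zero => exact c1.elim
  | succ n =>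
    have e1 := Sq_mid (Sq_rev e)
    simp only [Y.r_r] at e1
    have e2 := Sq_mid s
    by_cases hc : Y.r m = a'
    · subst hc
      have e3 := Y.sq_uniq (Y.sq_swap e1) (Y.sq_swap e2)
      have e4 : b' = Y.r m' := by rw [e3, Y.r_r]
      have e5 : St x0 ⟨n + 1, x⟩ (Y.r m) ⟨n, χ⟩ := St.down n χ x _ (by rw [Y.r_r]; exact c1)
      rw [St_det h3 e5, e4]
      exact St.down n χ x' _ (by rw [Y.r_r]; exact c2)
    · have e3 := Y.sq_E (Y.sq_swap e1) e2 hc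
      have e4 := Sq_mid e3
      rw [Y.r_r, Y.r_r] at e4
      exact lift_uu e4 c1 c2 h3

theorem lift {σ τ τ' ρ : Tot x0} {a a' b b' : Y.K} (s : Y.Sq a a' b b') (h1 : St x0 σ a τ)
    (h2 : St x0 τ a' ρ) (h3 : St x0 σ b τ') : St x0 τ' b' ρ := by
  cases h1 with
  | up n x y _ h1 =>
    cases h3 with
    | up _ _ y' _ h3 => exact lift_uu s h1 h3 h2
    | down m z _ _ h3 =>
      obtain ⟨ρ', hρ'⟩ := St_exists (x0 := x0) ⟨m, z⟩ b' (by
        rw [(Y.sq_path s).2.2.1]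
        exact (St_pos (St.down m z _ _ h3)).2)
      have e1 := lift_du (Y.sq_swap s) h3 h1 hρ'
      rw [St_det h2 e1]
      exact hρ'
  | down n x y _ h1 =>
    cases h3 with
    | up _ _ z _ h3 => exact lift_du s h1 h3 h2
    | down _ x' _ _ h3 => exact lift_dd s h1 h3 h2

end total

theorem develop (Y : SG.{u}) (x0 : Y.N) : ∃ (S : Type u) (π : S → Y.N) (lev : S → ℕ)
    (St : S → Y.K → S → Prop),
    (∀ σ k τ, St σ k τ → Y.s k = π σ ∧ Y.s (Y.r k) = π τ) ∧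
    (∀ σ k τ, St σ k τ → St τ (Y.r k) σ) ∧
    (∀ σ k τ, St σ k τ → lev τ = lev σ + 1 ∨ lev σ = lev τ + 1) ∧
    (∀ σ k, Y.s k = π σ → ∃ τ, St σ k τ) ∧
    (∀ σ k τ τ', St σ k τ → St σ k τ' → τ = τ') ∧
    (∀ σ k k' τ, St σ k τ → St σ k' τ → k = k') ∧
    (∀ σ a a' b b' τ ρ τ', Y.Sq a a' b b' → St σ a τ → St τ a' ρ → St σ b τ' → St τ' b' ρ) ∧
    (∃ σ0, π σ0 = x0 ∧ lev σ0 = 0 ∧ ∀ σ, lev σ = 0 → σ = σ0) ∧
    (∀ σ, 0 < lev σ → ∃ k τ, St σ k τ ∧ lev τ + 1 = lev σ) ∧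
    (∀ σ k k' τ τ', k ≠ k' → St σ k τ → St σ k' τ' → lev τ + 1 = lev σ → lev τ' + 1 = lev σ →
      ∃ ρ m m', St τ m ρ ∧ St τ' m' ρ ∧ lev ρ + 1 = lev τ ∧ Y.Sq k m k' m') := by
  refine ⟨Tot x0, pos, Sigma.fst, St x0, fun σ k τ h => St_pos h, fun σ k τ h => St_symm h,
    ?_, St_exists, fun σ k τ τ' h h' => St_det h h', fun σ k k' τ h h' => St_det' h h',
    fun σ a a' b b' τ ρ τ' s h1 h2 h3 => lift s h1 h2 h3, ?_, ?_, ?_⟩
  · intro σ k τ h
    cases h with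
    | up n b b' k h => exact Or.inl rfl
    | down n b b' k h => exact Or.inr rfl
  · refine ⟨⟨0, PUnit.unit⟩, rfl, rfl, ?_⟩
    rintro ⟨n, b⟩ h
    cases n with
    | zero => rfl
    | succ m => exact absurd h (Nat.succ_ne_zero m)
  · rintro ⟨n, b⟩ h
    cases n with
    | zero => exact absurd h (lt_irrefl 0)
    | succ m =>
      induction b using Quotient.inductionOn with
      | h p =>
        refine ⟨Y.r p.1.2, ⟨m, p.1.1⟩, ?_, rfl⟩
        refine St.down m p.1.1 _ _ ?_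
        rw [Y.r_r]
        exact ⟨p.2, rfl⟩
  · intro σ k k' τ τ' hk h h' hl hl'
    cases h with
    | up n b b' k h => exact absurd hl (by show ¬ (n + 1 + 1 = n); omega)
    | down n x y k h =>
      cases h' with
      | up _ _ z k' h' => exact absurd hl' (by show ¬ (n + 1 + 1 + 1 = n + 1); omega)
      | down _ x' _ k' h' =>
        have hne : x ≠ x' := by
          rintro rfl
          have := (lay x0 (n + 1)).i3 h h'
          apply hk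
          rw [← Y.r_r k, this, Y.r_r]
        obtain ⟨m, m', ⟨χ, c1, c2⟩, e⟩ := (lay x0 (n + 1)).i6 h h' hne
        cases n with
        | zero => exact c1.elim
        | succ n =>
          refine ⟨⟨n, χ⟩, Y.r m, Y.r m', ?_, ?_, rfl, ?_⟩
          · exact St.down n χ x _ (by rw [Y.r_r]; exact c1)
          · exact St.down n χ x' _ (by rw [Y.r_r]; exact c2)
          · have := Sq_rev e
            rwa [Y.r_r, Y.r_r] at this

end SG

end PropA
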