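import Pool.Agent.PropA.C1H
import Pool.Agent.PropA.C2

/-!
# Module C1: the square multigraph of corners, and `GC.good`
-/

namespace PropA

universe u

namespace GC

/-- the incidence multigraph of vertices and faces with its squares -/
def toSG (X : GC.{u}) (h4 : X.C4) (ht : X.T4) (hn : X.NR) : SG.{u} where
  N := X.V ⊕ X.F
  K := X.Cor × Bool
  s := X.sK
  r := X.rK
  r_r := fun k => by
    obtain ⟨κ, b⟩ := k
    simp [rK]
  Sq := X.SqK
  sq_path := fun h => h.path ht hn
  sq_swap := fun h => h.swap h4 ht hn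
  sq_rot := fun h => h.rot h4 ht hn
  sq_ne := fun h => h.ne
  sq_uniq := fun h h' => h.uniq h4 ht hn h'
  sq_E := fun h h' hne => h.E h4 ht hn h' hne
  sq_H := fun h1 h2 h3 => SqK_H h4 ht hn h1 h2 h3

theorem dev (X : GC.{u}) (h4 : X.C4) (ht : X.T4) (hn : X.NR) : X.Dev where
  path := fun h => h.path ht hn
  H := fun h1 h2 h3 => SqK_H h4 ht hn h1 h2 h3
  dd := fun x0 => by
    obtain ⟨S, π, lev, St, h1, h2, h3, h4, h5, h6, h7, h8, h9, h10⟩ :=
      SG.develop (X.toSG h4 ht hn) x0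
    exact ⟨⟨S, π, lev, St, h1, h2, h3, h4, h5, h6, h7, h8, h9, h10⟩⟩

/-- Module C3: everything that is used about the complex -/
theorem good (X : GC.{u}) (N : ℕ) (h4 : X.C4) (ht : X.T4) (hn : X.NR) (hne : Nonempty X.V)
    (hc : X.Conn) (hs : X.SC) (hl : X.LF N) : X.Good N :=
  good_of_dev X N h4 ht hn hne hc hs hl (dev X h4 ht hn)

end GC

end PropA
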