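import Pool.Agent.PropA.C3

/-!
Module C1 of MP_db4510_al, basic lemmas on cursors.
-/

namespace PropA

universe u

namespace GC

variable {X : GC.{u}}

theorem op_nx_eq (c : X.C) : X.op (X.nx c) = X.nx⁻¹ (X.op c) := by
  rw [Equiv.Perm.eq_inv_iff_eq]
  exact nx_op_nx c

theorem op_npow (k : ℕ) (c : X.C) : X.op ((X.nx ^ k) c) = (X.nx⁻¹ ^ k) (X.op c) := by
  induction k with
  | zero => rfl
  | succ k ih =>
    rw [pow_succ', Equiv.Perm.mul_apply, op_nx_eq, ih, pow_succ', Equiv.Perm.mul_apply]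

theorem op_zpow (k : ℤ) (c : X.C) : X.op ((X.nx ^ k) c) = (X.nx ^ (-k)) (X.op c) := by
  obtain ⟨n, rfl | rfl⟩ := k.eq_nat_or_neg
  · rw [zpow_natCast, op_npow, zpow_neg, zpow_natCast, inv_pow]
  · rw [neg_neg]
    have h := op_npow n ((X.nx ^ (-(n : ℤ))) c)
    have e : (X.nx ^ n) ((X.nx ^ (-(n : ℤ))) c) = c := by
      rw [← Equiv.Perm.mul_apply, ← zpow_natCast, ← zpow_add]
      simp
    rw [e] at h
    rw [h, zpow_natCast, ← Equiv.Perm.mul_apply, inv_pow]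
    simp

theorem zz (a b : ℤ) (c : X.C) : (X.nx ^ a) ((X.nx ^ b) c) = (X.nx ^ (a + b)) c := by
  rw [zpow_add, Equiv.Perm.mul_apply]

theorem zpow_op (k : ℤ) (c : X.C) : (X.nx ^ k) (X.op c) = X.op ((X.nx ^ (-k)) c) := by
  rw [op_zpow, neg_neg]

theorem nx_eq_zpow (c : X.C) : X.nx c = (X.nx ^ (1 : ℤ)) c := by rw [zpow_one]

theorem zpow_zero' (c : X.C) : (X.nx ^ (0 : ℤ)) c = c := by rw [zpow_zero]; rfl

theorem fc_zpow (k : ℤ) (c : X.C) : X.fc ((X.nx ^ k) c) = X.fc c := by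
  obtain ⟨n, hn⟩ := zpow_nat c k
  rw [hn, fc_pow]

/-- reading backwards -/
theorem rd_op (c : X.C) : X.rd (X.op c) = X.rev (X.rd ((X.nx ^ (-1 : ℤ)) c)) := by
  have := X.rd_rev ((X.nx ^ (-1 : ℤ)) c)
  rw [nx_eq_zpow, zz] at this
  simpa using this

theorem rd_zpow_op (k : ℤ) (c : X.C) :
    X.rd ((X.nx ^ k) (X.op c)) = X.rev (X.rd ((X.nx ^ (-k - 1)) c)) := by
  rw [zpow_op, rd_op, zz]
  congr 3
  ring_nf

theorem rev_inj {d d' : X.D} (h : X.rev d = X.rev d') : d = d' := by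
  rw [← X.rev_rev d, h, X.rev_rev]

theorem vt_nx_of_rd {c c' : X.C} (h : X.rd c = X.rd c') : X.vt (X.nx c) = X.vt (X.nx c') := by
  rw [← src_rev_rd, ← src_rev_rd, h]

/-- agreement on an interval -/
def AgI (p q : ℤ) (c c' : X.C) : Prop :=
  ∀ j, p ≤ j → j < q → X.rd ((X.nx ^ j) c) = X.rd ((X.nx ^ j) c')

theorem ag_iff {k : ℕ} {c c' : X.C} : X.Ag k c c' ↔ AgI 0 k c c' := by
  constructor
  · intro h j h0 hk
    obtain ⟨n, rfl⟩ := Int.eq_ofNat_of_zero_le h0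
    have := h n (by exact_mod_cast hk)
    simpa only [zpow_natCast] using this
  · intro h j hj
    have := h j (by positivity) (by exact_mod_cast hj)
    simpa only [zpow_natCast] using this

theorem AgI.symm {p q : ℤ} {c c' : X.C} (h : AgI p q c c') : AgI p q c' c :=
  fun j h1 h2 => (h j h1 h2).symm

theorem AgI.trans {p q : ℤ} {c c' c'' : X.C} (h : AgI p q c c') (h' : AgI p q c' c'') :
    AgI p q c c'' := fun j h1 h2 => (h j h1 h2).trans (h' j h1 h2)

theorem AgI.mono {p q p' q' : ℤ} {c c' : X.C} (h : AgI p q c c') (hp : p ≤ p') (hq : q' ≤ q) :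
    AgI p' q' c c' := fun j h1 h2 => h j (hp.trans h1) (h2.trans_le hq)

theorem AgI.union {p q r : ℤ} {c c' : X.C} (h : AgI p q c c') (h' : AgI q r c c') :
    AgI p r c c' := by
  intro j h1 h2
  rcases lt_or_ge j q with h3 | h3
  · exact h j h1 h3
  · exact h' j h3 h2

theorem AgI.shift {p q : ℤ} (s : ℤ) {c c' : X.C} (h : AgI p q c c') :
    AgI (p - s) (q - s) ((X.nx ^ s) c) ((X.nx ^ s) c') := by
  intro j h1 h2
  rw [zz, zz]
  exact h _ (by omega) (by omega)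

theorem AgI.op {p q : ℤ} {c c' : X.C} (h : AgI p q c c') : AgI (-q) (-p) (X.op c) (X.op c') := by
  intro j h1 h2
  rw [rd_zpow_op, rd_zpow_op]
  exact congrArg _ (h _ (by omega) (by omega))

/-- cursors of one face have the same periods -/
theorem per_face {c c' : X.C} (h : X.fc c = X.fc c') {n : ℤ} (hn : (X.nx ^ n) c = c) :
    (X.nx ^ n) c' = c' := by
  obtain ⟨k, rfl | rfl⟩ := X.fc_orb c c' h
  · rw [zz, add_comm, ← zz, hn]
  · have hop : (X.nx ^ n) (X.op c) = X.op c := by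
      have h1 : (X.nx ^ (-n)) c = c := by
        conv_lhs => rw [← hn]
        rw [zz]; simp
      rw [zpow_op, h1]
    rw [zz, add_comm, ← zz, hop]

theorem tw_iff {c c' : X.C} :
    X.Tw c c' ↔ X.fc c = X.fc c' ∧ ∀ j : ℤ, X.rd ((X.nx ^ j) c) = X.rd ((X.nx ^ j) c') := by
  constructor
  · rintro ⟨h1, h2⟩
    refine ⟨h1, ?_⟩
    intro j
    obtain ⟨n, hn, hp⟩ := X.per c
    have hp1 : (X.nx ^ (n : ℤ)) c = c := by rw [zpow_natCast]; exact hp
    have hp2 : (X.nx ^ (n : ℤ)) c' = c' := per_face h1 hp1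
    have hfix : ∀ (e : X.C), (X.nx ^ (n : ℤ)) e = e → (X.nx ^ j) e = (X.nx ^ (j % n)) e := by
      intro e he
      have h0 : Function.IsFixedPt (X.nx ^ (n : ℤ)) e := he
      have h3 := h0.perm_zpow (j / n)
      have h4 : j = j % n + n * (j / n) := (Int.emod_add_mul_ediv j n).symm
      conv_lhs => rw [h4, zpow_add, Equiv.Perm.mul_apply, zpow_mul]
      rw [h3]
    rw [hfix c hp1, hfix c' hp2]
    have h5 : (0 : ℤ) ≤ j % n := Int.emod_nonneg _ (by exact_mod_cast hn.ne')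
    obtain ⟨m, hm⟩ := Int.eq_ofNat_of_zero_le h5
    rw [hm]
    simpa only [zpow_natCast] using h2 m
  · rintro ⟨h1, h2⟩
    refine ⟨h1, fun j => ?_⟩
    have := h2 j
    simpa only [zpow_natCast] using this

theorem Tw.symm {c c' : X.C} (h : X.Tw c c') : X.Tw c' c := ⟨h.1.symm, fun j => (h.2 j).symm⟩

theorem Tw.refl (c : X.C) : X.Tw c c := ⟨rfl, fun _ => rfl⟩

theorem Tw.trans {c c' c'' : X.C} (h : X.Tw c c') (h' : X.Tw c' c'') : X.Tw c c'' :=
  ⟨h.1.trans h'.1, fun j => (h.2 j).trans (h'.2 j)⟩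

theorem Tw.zpow {c c' : X.C} (h : X.Tw c c') (s : ℤ) : X.Tw ((X.nx ^ s) c) ((X.nx ^ s) c') := by
  rw [tw_iff] at h ⊢
  refine ⟨by rw [fc_zpow, fc_zpow, h.1], fun j => ?_⟩
  rw [zz, zz]
  exact h.2 _

theorem Tw.op {c c' : X.C} (h : X.Tw c c') : X.Tw (X.op c) (X.op c') := by
  rw [tw_iff] at h ⊢
  refine ⟨by rw [X.fc_op, X.fc_op, h.1], fun j => ?_⟩
  rw [rd_zpow_op, rd_zpow_op, h.2]

theorem tw_zpow_iff {c c' : X.C} (s : ℤ) : X.Tw ((X.nx ^ s) c) ((X.nx ^ s) c') ↔ X.Tw c c' := by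
  constructor
  · intro h
    have := h.zpow (-s)
    rwa [zz, zz, neg_add_cancel, zpow_zero', zpow_zero'] at this
  · exact fun h => h.zpow s

theorem tw_op_iff {c c' : X.C} : X.Tw (X.op c) (X.op c') ↔ X.Tw c c' := by
  constructor
  · intro h
    have := h.op
    rwa [X.op_op, X.op_op] at this
  · exact Tw.op

theorem Tw.agI {c c' : X.C} (h : X.Tw c c') (p q : ℤ) : AgI p q c c' :=
  fun j _ _ => (tw_iff.1 h).2 j

/-- orientation: `nx ^ k c` is never `op` of a power -/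
theorem or_ne' (a b : ℤ) (c : X.C) : (X.nx ^ a) c ≠ X.op ((X.nx ^ b) c) := by
  intro h
  rw [op_zpow] at h
  apply X.or_ne (a + b) c
  have := congrArg (X.nx ^ b) h
  rw [zz, zz] at this
  rw [add_comm, this]
  simp

theorem eq_of_cor_zpow {a b : ℤ} {c : X.C} (h : X.cor ((X.nx ^ a) c) = X.cor ((X.nx ^ b) c)) :
    (X.nx ^ b) c = (X.nx ^ a) c := by
  rcases cor_eq_iff.1 h with h | h
  · exact h
  · exact absurd h (or_ne' _ _ _)

/-- C(4) for two pieces -/
theorem two_pieces (h4 : X.C4) {c c1 c2 : X.C} {k l : ℕ} (h1 : AgI 0 k c c1) (t1 : ¬ X.Tw c c1)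
    (h2 : AgI k (k + l) c c2) (t2 : ¬ X.Tw c c2) {n : ℤ} (hn : 0 < n) (hc : (X.nx ^ n) c = c) :
    (k + l : ℤ) < n := by
  obtain ⟨m, rfl⟩ := Int.eq_ofNat_of_zero_le hn.le
  have p1 : X.Pc c k := Or.inr ⟨c1, t1, ag_iff.2 h1⟩
  have p2 : X.Pc ((X.nx ^ k) c) l := by
    refine Or.inr ⟨(X.nx ^ (k : ℤ)) c2, ?_, ?_⟩
    · rw [← zpow_natCast, tw_zpow_iff]; exact t2
    · rw [← zpow_natCast, ag_iff]
      have := h2.shift k
      simpa using this
  have := h4 c k l 0 m p1 p2 (Or.inl rfl) (by exact_mod_cast hn) (by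
    simpa only [zpow_natCast] using hc)
  exact_mod_cast this

/-- C(4) for one piece -/
theorem one_piece (h4 : X.C4) {c c1 : X.C} {k : ℕ} (h1 : AgI 0 k c c1) (t1 : ¬ X.Tw c c1)
    {n : ℤ} (hn : 0 < n) (hc : (X.nx ^ n) c = c) : (k : ℤ) < n := by
  have := two_pieces h4 (l := 0) h1 t1 (c2 := c1) (by intro j h1 h2; omega) t1 hn hc
  simpa using this

/-- only bigons along free edges read the same dart in both directions at a corner -/
theorem bigon (ht : X.T4) (hn : X.NR) {c : X.C} (h : X.rd c = X.rd (X.op c)) :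
    X.nx (X.nx c) = c ∧ ∀ c', X.rd c' = X.rd c → X.cor c = X.cor c' := by
  have htw : X.Tw (X.op c) c := by
    by_contra hc
    exact ht c c c h.symm hc h.symm hc h.symm hc
  obtain ⟨h1, h2⟩ := hn c htw.symm
  exact ⟨h1, fun c' hc' => cor_eq_iff.2 (h2 c' hc')⟩

/-- an arc has distinct corners at its end iff it has distinct corners at its start -/
theorem cor_ne_end (ht : X.T4) (hn : X.NR) {c c' : X.C} {k : ℕ} (hk : 0 < k) (h : AgI 0 k c c')
    (hne : X.cor c ≠ X.cor c') : X.cor ((X.nx ^ k) c) ≠ X.cor ((X.nx ^ k) c') := by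
  intro he
  rcases cor_eq_iff.1 he with h1 | h1
  · exact hne (by rw [(X.nx ^ k).injective h1])
  · -- `y = nx ^ k c`
    have h2 : c' = X.op ((X.nx ^ (2 * k : ℤ)) c) := by
      have h3 : (X.nx ^ (k : ℤ)) c' = X.op ((X.nx ^ (k : ℤ)) c) := by
        simpa only [zpow_natCast] using h1
      have := congrArg (X.nx ^ (-(k : ℤ))) h3
      rw [zz, neg_add_cancel, zpow_zero', op_zpow, zz] at this
      rw [this, op_zpow]
      congr 2
      ring
    -- compare the last dart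
    have h3 := h (k - 1) (by omega) (by omega)
    rw [h2, rd_zpow_op, zz] at h3
    have h4 : X.rd ((X.nx ^ (k : ℤ)) c) = X.rd (X.op ((X.nx ^ (k : ℤ)) c)) := by
      rw [rd_op, zz, show (-1 + k : ℤ) = k - 1 by ring, h3, X.rev_rev,
        show (-(k - 1) - 1 + 2 * k : ℤ) = k by ring]
    obtain ⟨h5, h6⟩ := bigon ht hn h4
    -- the square of `nx` is trivial on this face
    have h7 : ∀ m : ℤ, (X.nx ^ (2 * m)) c = c := by
      intro m
      have h8 : (X.nx ^ (2 : ℤ)) ((X.nx ^ (k : ℤ)) c) = (X.nx ^ (k : ℤ)) c := by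
        rw [show (2 : ℤ) = 1 + 1 by norm_num, zpow_add, Equiv.Perm.mul_apply, zpow_one]
        exact h5
      have h9 : (X.nx ^ (2 : ℤ)) c = c := per_face (fc_zpow _ _) h8
      have h0 : Function.IsFixedPt (X.nx ^ (2 : ℤ)) c := h9
      rw [zpow_mul]
      exact h0.perm_zpow m
    apply hne
    rw [h2, h7, cor_op]

end GC

end PropA
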