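import Pool.Agent.PropA.C1S

/-!
# Cursor lemmas and the axiom `sq_H` (part of module C1)
-/

namespace PropA

universe u

namespace GC

variable {X : GC.{u}}

/-! ### Powers of `nx` -/

theorem papply {α : Type*} (f : Equiv.Perm α) (x : α) : f (f⁻¹ x) = x := f.apply_symm_apply x

theorem pinv {α : Type*} (f : Equiv.Perm α) (x : α) : f⁻¹ (f x) = x := f.symm_apply_apply x

theorem nx_zpow_op (k : ℤ) (c : X.C) : (X.nx ^ k) (X.op c) = X.op ((X.nx ^ (-k)) c) := by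
  let o : Equiv.Perm X.C := ⟨X.op, X.op, X.op_op, X.op_op⟩
  have h1 : o * X.nx * o⁻¹ = X.nx⁻¹ := by
    ext c
    change X.op (X.nx (X.op c)) = X.nx⁻¹ c
    have := X.op_nx (X.nx⁻¹ c)
    rw [papply] at this
    exact this
  have h2 : o * X.nx ^ k * o⁻¹ = X.nx ^ (-k) := by
    rw [← conj_zpow, h1, inv_zpow, zpow_neg]
  have h3 : X.op ((X.nx ^ k) (X.op c)) = (X.nx ^ (-k)) c := by
    rw [← h2]; rfl
  rw [← h3, X.op_op]

theorem nx_pow_op (k : ℕ) (c : X.C) : (X.nx ^ k) (X.op ((X.nx ^ k) c)) = X.op c := by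
  have h := nx_zpow_op (X := X) k ((X.nx ^ k) c)
  rw [zpow_neg, zpow_natCast, pinv] at h
  exact h

theorem nx_zpow_add (i j : ℤ) (c : X.C) : (X.nx ^ (i + j)) c = (X.nx ^ i) ((X.nx ^ j) c) := by
  rw [zpow_add]; rfl

theorem nx_pow_add (i j : ℕ) (c : X.C) : (X.nx ^ (i + j)) c = (X.nx ^ i) ((X.nx ^ j) c) := by
  rw [pow_add]; rfl

theorem rd_nx_op (k : ℤ) (c : X.C) : X.rd ((X.nx ^ k) (X.op c)) =
    X.rev (X.rd ((X.nx ^ (-k - 1)) c)) := by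
  rw [nx_zpow_op, rd_op, ← nx_zpow_add]
  congr 4
  ring

/-! ### Corners -/

theorem cor_eq {c c' : X.C} (h : X.cor c = X.cor c') : c' = c ∨ c' = X.op c := by
  let f : X.Cor → Set X.C := Quot.lift (fun c => {c, X.op c}) (by
    rintro a b rfl
    rw [X.op_op, Set.pair_comm])
  have h1 : f (X.cor c) = f (X.cor c') := by rw [h]
  have h2 : c' ∈ f (X.cor c') := Or.inl rfl
  rw [← h1] at h2
  exact h2

theorem cor_zpow_eq {k l : ℤ} {c : X.C} (h : X.cor ((X.nx ^ k) c) = X.cor ((X.nx ^ l) c)) :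
    (X.nx ^ k) c = (X.nx ^ l) c := by
  rcases cor_eq h with h | h
  · exact h.symm
  · exfalso
    apply X.or_ne (l - k) ((X.nx ^ k) c)
    rw [← nx_zpow_add, ← h]
    congr 2
    ring

theorem cor_surj (κ : X.Cor) : ∃ c, X.cor c = κ := Quot.exists_rep κ

/-! ### Agreement -/

theorem Ag.symm {k : ℕ} {c c' : X.C} (h : X.Ag k c c') : X.Ag k c' c := fun j hj => (h j hj).symm

theorem Ag.trans {k : ℕ} {c c' c'' : X.C} (h : X.Ag k c c') (h' : X.Ag k c' c'') :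
    X.Ag k c c'' := fun j hj => (h j hj).trans (h' j hj)

theorem Ag.mono {k l : ℕ} {c c' : X.C} (h : X.Ag k c c') (hl : l ≤ k) : X.Ag l c c' :=
  fun j hj => h j (hj.trans_le hl)

theorem Ag.sub {k i l : ℕ} {c c' : X.C} (h : X.Ag k c c') (hl : i + l ≤ k) :
    X.Ag l ((X.nx ^ i) c) ((X.nx ^ i) c') := by
  intro j hj
  rw [← nx_pow_add, ← nx_pow_add]
  exact h _ (by omega)

theorem Ag.add {k l : ℕ} {c c' : X.C} (h : X.Ag k c c')
    (h' : X.Ag l ((X.nx ^ k) c) ((X.nx ^ k) c')) : X.Ag (k + l) c c' := by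
  intro j hj
  rcases lt_or_ge j k with h1 | h1
  · exact h j h1
  · obtain ⟨i, rfl⟩ := Nat.exists_eq_add_of_le h1
    have := h' i (by omega)
    rw [← nx_pow_add, ← nx_pow_add, add_comm i k] at this
    exact this

theorem Ag.rev {k : ℕ} {c c' : X.C} (h : X.Ag k c c') :
    X.Ag k (X.op ((X.nx ^ k) c)) (X.op ((X.nx ^ k) c')) := by
  intro j hj
  have e : ∀ d : X.C, X.rd ((X.nx ^ j) (X.op ((X.nx ^ k) d))) =
      X.rev (X.rd ((X.nx ^ (k - j - 1)) d)) := by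
    intro d
    have h1 := rd_nx_op (X := X) j ((X.nx ^ k) d)
    rw [zpow_natCast] at h1
    rw [h1, ← zpow_natCast, ← nx_zpow_add, ← zpow_natCast]
    congr 4
    omega
  rw [e, e, h _ (by omega)]

/-! ### Twins -/

theorem common_period (c c' : X.C) : ∃ M : ℕ, 0 < M ∧ (X.nx ^ M) c = c ∧ (X.nx ^ M) c' = c' := by
  obtain ⟨n, hn, h⟩ := X.per c
  obtain ⟨m, hm, h'⟩ := X.per c'
  refine ⟨n * m, Nat.mul_pos hn hm, ?_, ?_⟩
  · rw [pow_mul]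
    exact Function.IsFixedPt.perm_pow h m
  · rw [mul_comm, pow_mul]
    exact Function.IsFixedPt.perm_pow h' n

theorem Tw.rdz {c c' : X.C} (h : X.Tw c c') (j : ℤ) :
    X.rd ((X.nx ^ j) c) = X.rd ((X.nx ^ j) c') := by
  obtain ⟨M, hM, h1, h2⟩ := common_period c c'
  have key : ∀ d : X.C, (X.nx ^ M) d = d → (X.nx ^ j) d = (X.nx ^ (j % (M : ℤ)).toNat) d := by
    intro d hd
    have e1 : j = (j % (M : ℤ)) + (M : ℤ) * (j / M) := (Int.emod_add_mul_ediv j M).symm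
    have e2 : (X.nx ^ ((M : ℤ) * (j / M))) d = d := by
      rw [zpow_mul, zpow_natCast]
      exact Function.IsFixedPt.perm_zpow hd _
    rw [← zpow_natCast, Int.toNat_of_nonneg (Int.emod_nonneg _ (by omega))]
    conv_lhs => rw [e1, nx_zpow_add, e2]
  rw [key c h1, key c' h2]
  exact h.2 _

theorem Tw.of_zpow {c c' : X.C} (hf : X.fc c = X.fc c')
    (h : ∀ j : ℤ, X.rd ((X.nx ^ j) c) = X.rd ((X.nx ^ j) c')) : X.Tw c c' :=
  ⟨hf, fun j => by simpa using h j⟩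

theorem Tw.shift {c c' : X.C} (h : X.Tw c c') (k : ℤ) :
    X.Tw ((X.nx ^ k) c) ((X.nx ^ k) c') := by
  refine Tw.of_zpow (by rw [fc_zpow, fc_zpow, h.1]) fun j => ?_
  rw [← nx_zpow_add, ← nx_zpow_add]
  exact h.rdz _

theorem Tw.ag {c c' : X.C} (h : X.Tw c c') (k : ℕ) : X.Ag k c c' := fun j _ => h.2 j

/-- cursors of a bigon with reflection -/
def Bg (c : X.C) : Prop := X.Tw c (X.op c)

theorem Bg.two (hn : X.NR) {c : X.C} (h : Bg c) : (X.nx ^ (2 : ℤ)) c = c := by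
  have := (hn c h).1
  rw [zpow_two]
  exact this

theorem Bg.two_mul (hn : X.NR) {c : X.C} (h : Bg c) (k : ℤ) : (X.nx ^ (2 * k)) c = c := by
  rw [zpow_mul]
  exact Function.IsFixedPt.perm_zpow (h.two hn) k

theorem Bg.op {c : X.C} (h : Bg c) : Bg (X.op c) := Tw.op h

theorem Bg.shift (hn : X.NR) {c : X.C} (h : Bg c) (k : ℤ) : Bg ((X.nx ^ k) c) := by
  have h1 := Tw.shift h k
  have h2 : (X.nx ^ k) (X.op c) = X.op ((X.nx ^ k) c) := by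
    rw [nx_zpow_op]
    congr 1
    have := h.two_mul hn k
    conv_rhs => rw [← this]
    rw [← nx_zpow_add]
    have h3 := h.two_mul hn (-k)
    have h4 : (X.nx ^ (k + 2 * k)) c = (X.nx ^ (-k)) c := by
      have h5 : k + 2 * k = -k + 2 * (2 * k) := by ring
      rw [h5, nx_zpow_add, h.two_mul hn]
    rw [h4]
  rw [h2] at h1
  exact h1

theorem bg_of_shift (hn : X.NR) {c : X.C} {k : ℤ} (h : Bg ((X.nx ^ k) c)) : Bg c := by
  have := h.shift hn (-k)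
  rw [← nx_zpow_add, neg_add_cancel, zpow_zero] at this
  exact this

theorem bg_of_rd (ht : X.T4) {c : X.C} (h : X.rd c = X.rd (X.op c)) : Bg c := by
  by_contra hb
  have h' : ¬ X.Tw (X.op c) c := fun h => hb h.symm
  exact ht c c c h.symm h' h.symm h' h.symm h'

theorem Bg.uniq (hn : X.NR) {c c' : X.C} (h : Bg c) (h' : X.rd c' = X.rd c) :
    X.cor c = X.cor c' := by
  rcases (hn c h).2 c' h' with h | h
  · rw [h]
  · rw [h, cor_op]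

theorem Tw.cases (hn : X.NR) {c c' : X.C} (h : X.Tw c c') :
    (∃ k : ℤ, c' = (X.nx ^ k) c) ∨ c' = X.op c := by
  obtain ⟨k, hk | hk⟩ := X.fc_orb c c' h.1
  · exact Or.inl ⟨k, hk⟩
  · right
    have key : ∀ j : ℤ, X.rd ((X.nx ^ j) c) = X.rev (X.rd ((X.nx ^ (-(j + k) - 1)) c)) := by
      intro j
      rw [h.rdz j, hk, ← nx_zpow_add, rd_nx_op]
    rcases Int.even_or_odd' k with ⟨m, rfl | rfl⟩
    · have hb : Bg ((X.nx ^ (-m)) c) := by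
        refine Tw.of_zpow (X.fc_op _).symm fun j => ?_
        rw [rd_nx_op, ← nx_zpow_add, ← nx_zpow_add, key]
        congr 4
        ring
      have hb' := bg_of_shift hn hb
      rw [hk, nx_zpow_op]
      congr 1
      rw [show -(2 * m) = 2 * (-m) by ring]
      exact hb'.two_mul hn _
    · exfalso
      have := key (-m - 1)
      have e : -(-m - 1 + (2 * m + 1)) - 1 = -m - 1 := by ring
      rw [e] at this
      exact X.rev_ne _ this.symm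

/-! ### Arcs -/

/-- nontrivial common arc -/
structure Arc (X : GC.{u}) (k : ℕ) (c c' : X.C) : Prop where
  pos : 0 < k
  ag : X.Ag k c c'
  ne : X.cor c ≠ X.cor c'

theorem Arc.symm {k : ℕ} {c c' : X.C} (h : X.Arc k c c') : X.Arc k c' c :=
  ⟨h.pos, h.ag.symm, h.ne.symm⟩

theorem Arc.rd {k : ℕ} {c c' : X.C} (h : X.Arc k c c') : X.rd c = X.rd c' := h.ag 0 h.pos

theorem Arc.nbg (hn : X.NR) {k : ℕ} {c c' : X.C} (h : X.Arc k c c') : ¬ Bg c := fun hb =>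
  h.ne (hb.uniq hn h.rd.symm)

theorem Arc.tw (hn : X.NR) {k : ℕ} {c c' : X.C} (h : X.Arc k c c') (h' : X.Tw c c') :
    ∃ m : ℤ, c' = (X.nx ^ m) c := by
  rcases h'.cases hn with h1 | h1
  · exact h1
  · exact absurd (by rw [h1, cor_op]) h.ne

theorem Arc.cor_ne (ht : X.T4) (hn : X.NR) {k : ℕ} {c c' : X.C} (h : X.Arc k c c') {i : ℕ}
    (hi : i ≤ k) : X.cor ((X.nx ^ i) c) ≠ X.cor ((X.nx ^ i) c') := by
  intro he
  rcases cor_eq he with h1 | h1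
  · apply h.ne
    rw [(X.nx ^ i).injective h1]
  · have hb : Bg ((X.nx ^ (i : ℤ)) c) := by
      rw [zpow_natCast]
      apply bg_of_rd ht
      rcases hi.lt_or_eq with h2 | h2
      · rw [← h1]
        exact h.ag i h2
      · subst h2
        have h3 := h.ag.rev 0 h.pos
        simp only [pow_zero, Equiv.Perm.one_apply] at h3
        rw [h1, X.op_op] at h3
        exact h3.symm
    exact h.nbg hn (bg_of_shift hn hb)

theorem Arc.rev (ht : X.T4) (hn : X.NR) {k : ℕ} {c c' : X.C} (h : X.Arc k c c') :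
    X.Arc k (X.op ((X.nx ^ k) c)) (X.op ((X.nx ^ k) c')) :=
  ⟨h.pos, h.ag.rev, by rw [cor_op, cor_op]; exact h.cor_ne ht hn le_rfl⟩

theorem Arc.sub (ht : X.T4) (hn : X.NR) {k : ℕ} {c c' : X.C} (h : X.Arc k c c') {i l : ℕ}
    (hl : 0 < l) (hi : i + l ≤ k) : X.Arc l ((X.nx ^ i) c) ((X.nx ^ i) c') :=
  ⟨hl, h.ag.sub hi, h.cor_ne ht hn (by omega)⟩

/-- an arc which is not given by a symmetry is shorter than the face -/
theorem Arc.lt (h4 : X.C4) {k : ℕ} {c c' : X.C} (h : X.Arc k c c') (ht : ¬ X.Tw c c')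
    {n : ℕ} (hn : 0 < n) (hp : (X.nx ^ n) c = c) : k < n := by
  have := h4 c k 0 0 n (Or.inr ⟨c', ht, h.ag⟩) (Or.inl rfl) (Or.inl rfl) hn hp
  omega

theorem Arc.period (h4 : X.C4) (hn : X.NR) {k : ℕ} {c c' : X.C} (h : X.Arc k c c') :
    (X.nx ^ k) c = c ↔ (X.nx ^ k) c' = c' := by
  have key : ∀ {c c' : X.C}, X.Arc k c c' → (X.nx ^ k) c = c → (X.nx ^ k) c' = c' := by
    intro c c' h hp
    by_cases htw : X.Tw c c'
    · obtain ⟨m, rfl⟩ := h.tw hn htw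
      rw [← zpow_natCast, ← nx_zpow_add, add_comm, nx_zpow_add, zpow_natCast, hp]
    · exact absurd (h.lt h4 htw h.pos hp) (lt_irrefl k)
  exact ⟨key h, key h.symm⟩

/-! ### Quads -/

theorem Qr_iff {κ κ' μ μ' : X.Cor} : X.Qr κ κ' μ μ' ↔ ∃ (c c' : X.C) (k : ℕ),
    X.cor c = κ ∧ X.cor ((X.nx ^ k) c) = κ' ∧ X.cor c' = μ ∧ X.cor ((X.nx ^ k) c') = μ' ∧
    X.Arc k c c' ∧ κ ≠ κ' := by
  constructor
  · rintro ⟨c, c', k, h1, h2, h3, h4, h5, h6, h7⟩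
    refine ⟨c, c', k, h1, h2, h3, h4, ⟨?_, h5, ?_⟩, h7⟩
    · rcases Nat.eq_zero_or_pos k with h | h
      · subst h
        exfalso
        apply h7
        rw [← h1, ← h2]
        rfl
      · exact h
    · rw [h1, h3]; exact h6
  · rintro ⟨c, c', k, h1, h2, h3, h4, h5, h6⟩
    refine ⟨c, c', k, h1, h2, h3, h4, h5.ag, ?_, h6⟩
    rw [← h1, ← h3]
    exact h5.ne

theorem Qr_swap (h4 : X.C4) (hn : X.NR) {κ κ' μ μ' : X.Cor} (h : X.Qr κ κ' μ μ') :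
    X.Qr μ μ' κ κ' := by
  rw [Qr_iff] at h ⊢
  obtain ⟨c, c', k, h1, h2, h3, h5, h6, h7⟩ := h
  refine ⟨c', c, k, h3, h5, h1, h2, h6.symm, ?_⟩
  intro he
  apply h7
  rw [← h3, ← h5] at he
  have h8 : (X.nx ^ k) c' = c' := by
    have := cor_zpow_eq (X := X) (k := 0) (l := k) (c := c') (by simpa using he)
    simpa using this.symm
  rw [← h1, ← h2, (h6.period h4 hn).mpr h8]

theorem Qr_rev (ht : X.T4) (hn : X.NR) {κ κ' μ μ' : X.Cor} (h : X.Qr κ κ' μ μ') :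
    X.Qr κ' κ μ' μ := by
  rw [Qr_iff] at h ⊢
  obtain ⟨c, c', k, h1, h2, h3, h5, h6, h7⟩ := h
  refine ⟨_, _, k, ?_, ?_, ?_, ?_, h6.rev ht hn, h7.symm⟩
  · rw [cor_op, h2]
  · rw [nx_pow_op, cor_op, h1]
  · rw [cor_op, h5]
  · rw [nx_pow_op, cor_op, h3]

/-! ### The three-corner axiom at a vertex -/

theorem Qr_ne1 {κ κ' μ μ' : X.Cor} (h : X.Qr κ κ' μ μ') : κ ≠ κ' := by
  obtain ⟨c, c', k, -, -, -, -, -, -, h7⟩ := h
  exact h7

theorem Qr_ne2 {κ κ' μ μ' : X.Cor} (h : X.Qr κ κ' μ μ') : κ ≠ μ := by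
  obtain ⟨c, c', k, -, -, -, -, -, h6, -⟩ := h
  exact h6

theorem H_nested (h4 : X.C4) (hn : X.NR) {κ κ1 μ μ1 μ2 ν ν2 : X.Cor}
    {c1 c2 c3 : X.C} {k l : ℕ} (e1 : X.cor c1 = κ) (e2 : X.cor ((X.nx ^ k) c1) = κ1)
    (e3 : X.cor c2 = μ) (e4 : X.cor ((X.nx ^ k) c2) = μ1) (e5 : X.cor ((X.nx ^ l) c2) = μ2)
    (e6 : X.cor c3 = ν) (e7 : X.cor ((X.nx ^ l) c3) = ν2)
    (h : X.Arc k c1 c2) (h' : X.Arc l c2 c3) (hκ : κ ≠ κ1) (hμ : μ ≠ μ2) (hne : κ ≠ ν) :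
    (∃ ν1, X.Qr κ κ1 ν ν1 ∧ X.Qr μ μ1 ν ν1) ∨ (∃ κ2, X.Qr μ μ2 κ κ2 ∧ X.Qr ν ν2 κ κ2) := by
  have q1 : X.Qr κ κ1 μ μ1 := Qr_iff.mpr ⟨c1, c2, k, e1, e2, e3, e4, h, hκ⟩
  have q2 : X.Qr μ μ2 ν ν2 := Qr_iff.mpr ⟨c2, c3, l, e3, e5, e6, e7, h', hμ⟩
  rcases le_total k l with hk | hk
  · left
    refine ⟨X.cor ((X.nx ^ k) c3), ?_, ?_⟩
    · exact Qr_iff.mpr ⟨c1, c3, k, e1, e2, e6, rfl,
        ⟨h.pos, h.ag.trans (h'.ag.mono hk), by rw [e1, e6]; exact hne⟩, hκ⟩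
    · exact Qr_iff.mpr ⟨c2, c3, k, e3, e4, e6, rfl, ⟨h.pos, h'.ag.mono hk, h'.ne⟩,
        Qr_ne1 (Qr_swap h4 hn q1)⟩
  · right
    refine ⟨X.cor ((X.nx ^ l) c1), ?_, ?_⟩
    · exact Qr_iff.mpr ⟨c2, c1, l, e3, e5, e1, rfl, ⟨h'.pos, (h.ag.mono hk).symm, h.ne.symm⟩, hμ⟩
    · exact Qr_iff.mpr ⟨c3, c1, l, e6, e7, e1, rfl,
        ⟨h'.pos, ((h.ag.mono hk).trans h'.ag).symm, by rw [e1, e6]; exact hne.symm⟩,
        Qr_ne1 (Qr_swap h4 hn q2)⟩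

theorem H_tri (ht : X.T4) (hn : X.NR) {c1 c2 c3 : X.C} {k : ℕ}
    (h2 : X.Arc k (X.op c1) c2) (h3 : X.rd (X.op c2) = X.rd c3)
    (htw : X.Tw (X.op c3) c1) : False := by
  have e1 := htw.op.rdz 0
  simp only [X.op_op, zpow_zero, Equiv.Perm.one_apply] at e1
  have e2 := h2.rd
  exact h2.symm.nbg hn (bg_of_rd ht (by rw [h3, e1, e2]))

theorem H_vertex (h4 : X.C4) (ht : X.T4) (hn : X.NR) {κ κ1 μ μ1 μ2 ν ν2 ν3 κ3 : X.Cor}
    (h1 : X.Qr κ κ1 μ μ1) (h2 : X.Qr μ μ2 ν ν2) (h3 : X.Qr ν ν3 κ κ3) :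
    (∃ ν1, X.Qr κ κ1 ν ν1 ∧ X.Qr μ μ1 ν ν1) ∨ (∃ κ2, X.Qr μ μ2 κ κ2 ∧ X.Qr ν ν2 κ κ2) ∨
    (∃ μ3, X.Qr ν ν3 μ μ3 ∧ X.Qr κ κ3 μ μ3) := by
  have n1 := Qr_ne2 h1
  have n2 := Qr_ne2 h2
  have n3 := Qr_ne2 h3
  obtain ⟨c1, c1', k1, a1, a2, a3, a4, a5, a6⟩ := Qr_iff.mp h1
  obtain ⟨c2, c2', k2, b1, b2, b3, b4, b5, b6⟩ := Qr_iff.mp h2
  obtain ⟨c3, c3', k3, d1, d2, d3, d4, d5, d6⟩ := Qr_iff.mp h3
  rcases cor_eq (a3.trans b1.symm) with f1 | f1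
  · subst f1
    rcases H_nested h4 hn a1 a2 a3 a4 b2 b3 b4 a5 b5 a6 b6 n3.symm with h | h
    · exact Or.inl h
    · exact Or.inr (Or.inl h)
  rcases cor_eq (b3.trans d1.symm) with f2 | f2
  · subst f2
    rcases H_nested h4 hn b1 b2 b3 b4 d2 d3 d4 b5 d5 b6 d6 n1.symm with h | h
    · exact Or.inr (Or.inl h)
    · exact Or.inr (Or.inr h)
  rcases cor_eq (d3.trans a1.symm) with f3 | f3
  · subst f3
    rcases H_nested h4 hn d1 d2 d3 d4 a2 a3 a4 d5 a5 d6 a6 n2.symm with h | h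
    · exact Or.inr (Or.inr h)
    · exact Or.inl h
  exfalso
  subst f1 f2 f3
  have r1 := a5.rd
  have r2 := b5.rd
  have r3 := d5.rd
  refine ht c1' c2' c3' r2 (fun htw => ?_) r3 (fun htw => ?_) r1 (fun htw => ?_)
  · exact H_tri ht hn d5 r1 htw
  · exact H_tri ht hn a5 r2 htw
  · exact H_tri ht hn b5 r3 htw

/-! ### The three-corner axiom at a face -/

theorem dvd_of_period {U : X.C} {n : ℕ} (hn : 0 < n) (hp : (X.nx ^ n) U = U)
    (hmin : ∀ m : ℕ, 0 < m → (X.nx ^ m) U = U → n ≤ m) {k : ℤ} (hk : (X.nx ^ k) U = U) :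
    (n : ℤ) ∣ k := by
  have e1 : k = (k % (n : ℤ)) + (n : ℤ) * (k / n) := (Int.emod_add_mul_ediv k n).symm
  have e2 : (X.nx ^ ((n : ℤ) * (k / n))) U = U := by
    rw [zpow_mul, zpow_natCast]
    exact Function.IsFixedPt.perm_zpow hp _
  have e3 : (X.nx ^ (k % (n : ℤ))) U = U := by
    conv_rhs => rw [← hk, e1, nx_zpow_add, e2]
  have e4 : 0 ≤ k % (n : ℤ) := Int.emod_nonneg _ (by omega)
  have e5 : k % (n : ℤ) < n := Int.emod_lt_of_pos _ (by omega)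
  by_contra hd
  have e6 : k % (n : ℤ) ≠ 0 := fun h => hd (Int.dvd_of_emod_eq_zero h)
  have := hmin (k % (n : ℤ)).toNat (by omega) (by
    rw [← zpow_natCast, Int.toNat_of_nonneg e4, e3])
  omega

theorem H_red (h4 : X.C4) (hn : X.NR) {c c' : X.C} {k i n : ℕ} (h : X.Arc k c c') (hi : 0 < i)
    (hin : i < n) (hp : (X.nx ^ n) c = c) (hmin : ∀ m : ℕ, 0 < m → (X.nx ^ m) c = c → n ≤ m)
    (he : (X.nx ^ k) c = (X.nx ^ i) c) : X.Arc i c c' ∧ (X.nx ^ i) c' = (X.nx ^ k) c' := by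
  by_cases htw : X.Tw c c'
  · obtain ⟨m, rfl⟩ := h.tw hn htw
    refine ⟨⟨hi, htw.ag i, h.ne⟩, ?_⟩
    rw [← zpow_natCast, ← nx_zpow_add, add_comm, nx_zpow_add, zpow_natCast, ← he,
      ← zpow_natCast, ← nx_zpow_add, add_comm, nx_zpow_add]
  · have h1 := h.lt h4 htw (by omega) hp
    have h2 : (n : ℤ) ∣ ((k : ℤ) - i) := by
      apply dvd_of_period (U := c) (by omega) hp hmin
      rw [sub_eq_neg_add, nx_zpow_add, zpow_natCast, he, zpow_neg, zpow_natCast, pinv]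
    have h3 : k = i := by
      obtain ⟨t, ht⟩ := h2
      have h5 : (n : ℤ) * t < n := by omega
      have h6 : -(n : ℤ) < n * t := by omega
      have h7 : t < 1 := by
        by_contra h8
        have : (n : ℤ) * 1 ≤ n * t := mul_le_mul_of_nonneg_left (by omega) (by omega)
        omega
      have h8 : -1 < t := by
        by_contra h9
        have : (n : ℤ) * t ≤ n * (-1) := mul_le_mul_of_nonneg_left (by omega) (by omega)
        omega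
      have h9 : t = 0 := by omega
      rw [h9] at ht
      omega
    subst h3
    exact ⟨h, rfl⟩

theorem H_norm (h4 : X.C4) (ht : X.T4) (hn : X.NR) {κ κ' p p' : X.Cor} (h : X.Qr κ κ' p p')
    {U : X.C} (hU : X.cor U = κ) {n i : ℕ} (hi : 0 < i) (hin : i < n) (hp : (X.nx ^ n) U = U)
    (hmin : ∀ m : ℕ, 0 < m → (X.nx ^ m) U = U → n ≤ m) (hκ' : X.cor ((X.nx ^ i) U) = κ') :
    (∃ x', X.cor x' = p ∧ X.cor ((X.nx ^ i) x') = p' ∧ X.Arc i U x') ∨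
    (∃ x', X.cor x' = p' ∧ X.cor ((X.nx ^ (n - i)) x') = p ∧
      X.Arc (n - i) ((X.nx ^ i) U) x') := by
  obtain ⟨c, c', k, a1, a2, a3, a4, a5, a6⟩ := Qr_iff.mp h
  rcases cor_eq (hU.trans a1.symm) with h1 | h1
  · subst h1
    left
    have e1 : (X.nx ^ k) c = (X.nx ^ i) c := by
      have := cor_zpow_eq (X := X) (k := k) (l := i) (c := c) (by
        rw [zpow_natCast, zpow_natCast, a2, hκ'])
      simpa using this
    obtain ⟨e2, e3⟩ := H_red h4 hn a5 hi hin hp hmin e1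
    exact ⟨c', a3, by rw [e3, a4], e2⟩
  · subst h1
    right
    have hpn : (X.nx ^ (-(n : ℤ))) U = U := by
      rw [zpow_neg, zpow_natCast]
      conv_lhs => rw [← hp]
      exact pinv _ _
    have f1 : (X.nx ^ (n - i)) (X.op U) = X.op ((X.nx ^ i) U) := by
      rw [← zpow_natCast, nx_zpow_op, Nat.cast_sub hin.le]
      congr 1
      rw [show -((n : ℤ) - i) = i + -(n : ℤ) by ring, nx_zpow_add, hpn, zpow_natCast]
    have f2 : (X.nx ^ k) (X.op U) = (X.nx ^ (n - i)) (X.op U) := by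
      rw [f1, ← zpow_natCast, nx_zpow_op]
      congr 1
      have := cor_zpow_eq (X := X) (k := -(k : ℤ)) (l := i) (c := U) (by
        rw [zpow_natCast, hκ', ← a2, ← zpow_natCast, nx_zpow_op, cor_op])
      rw [this, zpow_natCast]
    have f3 : (X.nx ^ n) (X.op U) = X.op U := by
      rw [← zpow_natCast, nx_zpow_op, hpn]
    have f4 : ∀ m : ℕ, 0 < m → (X.nx ^ m) (X.op U) = X.op U → n ≤ m := by
      intro m hm he
      apply hmin m hm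
      rw [← zpow_natCast, nx_zpow_op] at he
      have h5 := congrArg X.op he
      rw [X.op_op, X.op_op] at h5
      conv_lhs => rw [← h5]
      rw [zpow_neg, zpow_natCast]
      exact papply _ _
    obtain ⟨e2, e3⟩ := H_red h4 hn a5 (by omega : 0 < n - i) (by omega) f3 f4 f2
    have e4 := e2.rev ht hn
    rw [f1, X.op_op] at e4
    refine ⟨_, ?_, ?_, e4⟩
    · rw [cor_op, e3, a4]
    · rw [nx_pow_op, cor_op, a3]

theorem H_contain (ht : X.T4) (hn : X.NR) {U u' : X.C} {s t : ℕ} (hs : 0 < s) (hst : s < t)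
    (h : X.Arc t U u') :
    (X.cor U ≠ X.cor ((X.nx ^ s) U) →
      X.Qr (X.cor U) (X.cor ((X.nx ^ s) U)) (X.cor u') (X.cor ((X.nx ^ s) u'))) ∧
    (X.cor ((X.nx ^ s) U) ≠ X.cor ((X.nx ^ t) U) →
      X.Qr (X.cor ((X.nx ^ s) U)) (X.cor ((X.nx ^ t) U)) (X.cor ((X.nx ^ s) u'))
        (X.cor ((X.nx ^ t) u'))) ∧
    (X.cor U ≠ X.cor ((X.nx ^ t) U) →
      X.Qr (X.cor U) (X.cor ((X.nx ^ t) U)) (X.cor u') (X.cor ((X.nx ^ t) u'))) := by
  refine ⟨fun hne => ?_, fun hne => ?_, fun hne => ?_⟩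
  · exact Qr_iff.mpr ⟨U, u', s, rfl, rfl, rfl, rfl, ⟨hs, h.ag.mono hst.le, h.ne⟩, hne⟩
  · refine Qr_iff.mpr ⟨_, _, t - s, rfl, ?_, rfl, ?_, h.sub ht hn (i := s) (l := t - s)
      (by omega) (by omega), hne⟩
    · rw [← nx_pow_add, Nat.sub_add_cancel hst.le]
    · rw [← nx_pow_add, Nat.sub_add_cancel hst.le]
  · exact Qr_iff.mpr ⟨U, u', t, rfl, rfl, rfl, rfl, h, hne⟩

theorem H_face_aux (h4 : X.C4) (ht : X.T4) (hn : X.NR)
    {κ κ' κ'' p p' q' q'' r'' r : X.Cor} (h1 : X.Qr κ κ' p p') (h2 : X.Qr κ' κ'' q' q'')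
    (h3 : X.Qr κ'' κ r'' r) {U : X.C} {n i j : ℕ} (hi : 0 < i) (hij : i < j) (hjn : j < n)
    (hp : (X.nx ^ n) U = U) (hmin : ∀ m : ℕ, 0 < m → (X.nx ^ m) U = U → n ≤ m)
    (hU : X.cor U = κ) (hUi : X.cor ((X.nx ^ i) U) = κ') (hUj : X.cor ((X.nx ^ j) U) = κ'') :
    (∃ x, X.Qr κ κ'' p x ∧ X.Qr κ' κ'' p' x) ∨ (∃ y, X.Qr κ' κ q' y ∧ X.Qr κ'' κ q'' y) ∨
    (∃ z, X.Qr κ'' κ' r'' z ∧ X.Qr κ κ' r z) := by
  have n1 := Qr_ne1 h1
  have n2 := Qr_ne1 h2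
  have n3 := Qr_ne1 h3
  have hshift : ∀ m : ℕ, (X.nx ^ n) ((X.nx ^ m) U) = (X.nx ^ m) U := by
    intro m
    rw [← nx_pow_add, add_comm, nx_pow_add, hp]
  have hshift' : ∀ a m : ℕ, 0 < m → (X.nx ^ m) ((X.nx ^ a) U) = (X.nx ^ a) U → n ≤ m := by
    intro a m hm he
    apply hmin m hm
    rw [← nx_pow_add, add_comm, nx_pow_add] at he
    exact (X.nx ^ a).injective he
  have u1 : (X.nx ^ (j - i)) ((X.nx ^ i) U) = (X.nx ^ j) U := by
    rw [← nx_pow_add, Nat.sub_add_cancel hij.le]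
  have u2 : (X.nx ^ (n - j)) ((X.nx ^ j) U) = U := by
    rw [← nx_pow_add, Nat.sub_add_cancel hjn.le, hp]
  have u3 : (X.nx ^ (n - i)) ((X.nx ^ i) U) = U := by
    rw [← nx_pow_add, Nat.sub_add_cancel (by omega), hp]
  have u4 : (X.nx ^ (n - (j - i))) ((X.nx ^ j) U) = (X.nx ^ i) U := by
    rw [← nx_pow_add, show n - (j - i) + j = n + i by omega, nx_pow_add, hshift]
  have N1 := H_norm h4 ht hn h1 hU hi (by omega) hp hmin hUi
  have N2 := H_norm h4 ht hn h2 hUi (i := j - i) (n := n) (by omega) (by omega) (hshift i)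
    (hshift' i) (by rw [u1, hUj])
  have N3 := H_norm h4 ht hn h3 hUj (i := n - j) (n := n) (by omega) (by omega) (hshift j)
    (hshift' j) (by rw [u2, hU])
  rw [u1] at N2
  rw [u2, show n - (n - j) = j by omega] at N3
  rcases N1 with ⟨x, x1, x2, x3⟩ | ⟨x, x1, x2, x3⟩
  swap
  · -- indirect arc
    left
    obtain ⟨c1, c2, -⟩ := H_contain ht hn (s := j - i) (t := n - i) (by omega) (by omega) x3
    rw [u1, u3, hU, hUj, x2] at c2
    rw [u1, hUi, hUj, x1] at c1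
    exact ⟨_, Qr_rev ht hn (c2 n3), c1 n2⟩
  rcases N2 with ⟨y, y1, y2, y3⟩ | ⟨y, y1, y2, y3⟩
  swap
  · right; left
    obtain ⟨c1, c2, -⟩ := H_contain ht hn (s := n - j) (t := n - (j - i)) (by omega) (by omega) y3
    rw [u2, u4, hU, hUi, y2] at c2
    rw [u2, hU, hUj, y1] at c1
    exact ⟨_, Qr_rev ht hn (c2 n1), c1 n3⟩
  rcases N3 with ⟨z, z1, z2, z3⟩ | ⟨z, z1, z2, z3⟩
  swap
  · right; right
    obtain ⟨c1, c2, -⟩ := H_contain ht hn (s := i) (t := j) (by omega) (by omega) z3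
    rw [hUi, hUj, z2] at c2
    rw [hUi, hU, z1] at c1
    exact ⟨_, Qr_rev ht hn (c2 n2), c1 n1⟩
  by_cases t1 : X.Tw U x
  · left
    have x3' : X.Arc j U x := ⟨by omega, t1.ag j, x3.ne⟩
    obtain ⟨-, c2, c3⟩ := H_contain ht hn (s := i) (t := j) (by omega) (by omega) x3'
    rw [hUi, hUj, x2] at c2
    rw [hU, hUj, x1] at c3
    exact ⟨_, c3 n3.symm, c2 n2⟩
  by_cases t2 : X.Tw ((X.nx ^ i) U) y
  · right; left
    have y3' : X.Arc (n - i) ((X.nx ^ i) U) y := ⟨by omega, t2.ag _, y3.ne⟩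
    obtain ⟨-, c2, c3⟩ := H_contain ht hn (s := j - i) (t := n - i) (by omega) (by omega) y3'
    rw [u1, u3, hUj, hU, y2] at c2
    rw [u3, hU, hUi, y1] at c3
    exact ⟨_, c3 n1.symm, c2 n3⟩
  by_cases t3 : X.Tw ((X.nx ^ j) U) z
  · right; right
    have z3' : X.Arc (n - (j - i)) ((X.nx ^ j) U) z := ⟨by omega, t3.ag _, z3.ne⟩
    obtain ⟨-, c2, c3⟩ := H_contain ht hn (s := n - j) (t := n - (j - i)) (by omega) (by omega)
      z3'
    rw [u2, u4, hUi, hU, z2] at c2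
    rw [u4, hUj, hUi, z1] at c3
    exact ⟨_, c3 n2.symm, c2 n1⟩
  exfalso
  have := h4 U i (j - i) (n - j) n (Or.inr ⟨x, t1, x3.ag⟩) (Or.inr ⟨y, t2, y3.ag⟩)
    (Or.inr ⟨z, by rw [show i + (j - i) = j by omega]; exact t3, by
      rw [show i + (j - i) = j by omega]; exact z3.ag⟩) (by omega) hp
  omega

/-- position of the second corner on the face, seen from a cursor of the first one -/
theorem H_pos {κ κ' p p' : X.Cor} (h : X.Qr κ κ' p p')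
    {U : X.C} (hU : X.cor U = κ) {n : ℕ} (hn : 0 < n) (hp : (X.nx ^ n) U = U) :
    ∃ i, 0 < i ∧ i < n ∧ X.cor ((X.nx ^ i) U) = κ' := by
  have hne := Qr_ne1 h
  obtain ⟨c, c', k, a1, a2, -, -, -, -, -⟩ := h
  have key : ∃ m : ℤ, X.cor ((X.nx ^ m) U) = κ' := by
    rcases cor_eq (hU.trans a1.symm) with h1 | h1
    · subst h1
      exact ⟨k, by rw [zpow_natCast, a2]⟩
    · subst h1
      refine ⟨-k, ?_⟩
      rw [← a2, ← zpow_natCast (X.nx) k, nx_zpow_op, cor_op]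
  obtain ⟨m, hm⟩ := key
  have e1 : m = (m % (n : ℤ)) + (n : ℤ) * (m / n) := (Int.emod_add_mul_ediv m n).symm
  have e2 : (X.nx ^ ((n : ℤ) * (m / n))) U = U := by
    rw [zpow_mul, zpow_natCast]
    exact Function.IsFixedPt.perm_zpow hp _
  have e3 : (X.nx ^ m) U = (X.nx ^ (m % (n : ℤ)).toNat) U := by
    rw [← zpow_natCast, Int.toNat_of_nonneg (Int.emod_nonneg _ (by omega))]
    conv_lhs => rw [e1, nx_zpow_add, e2]
  have e5 : m % (n : ℤ) < n := Int.emod_lt_of_pos _ (by omega)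
  have e6 : 0 ≤ m % (n : ℤ) := Int.emod_nonneg _ (by omega)
  rw [e3] at hm
  refine ⟨_, ?_, ?_, hm⟩
  · rcases Nat.eq_zero_or_pos (m % (n : ℤ)).toNat with h0 | h0
    · exfalso
      rw [h0] at hm
      apply hne
      rw [← hU, ← hm]
      rfl
    · exact h0
  · omega

theorem exists_period (c : X.C) : ∃ n : ℕ, 0 < n ∧ (X.nx ^ n) c = c ∧
    ∀ m : ℕ, 0 < m → (X.nx ^ m) c = c → n ≤ m := by
  classical
  have h := X.per c
  exact ⟨Nat.find h, (Nat.find_spec h).1, (Nat.find_spec h).2, fun m hm he =>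
    Nat.find_min' h ⟨hm, he⟩⟩

theorem H_face (h4 : X.C4) (ht : X.T4) (hn : X.NR)
    {κ κ' κ'' p p' q' q'' r'' r : X.Cor} (h1 : X.Qr κ κ' p p') (h2 : X.Qr κ' κ'' q' q'')
    (h3 : X.Qr κ'' κ r'' r) :
    (∃ x, X.Qr κ κ'' p x ∧ X.Qr κ' κ'' p' x) ∨ (∃ y, X.Qr κ' κ q' y ∧ X.Qr κ'' κ q'' y) ∨
    (∃ z, X.Qr κ'' κ' r'' z ∧ X.Qr κ κ' r z) := by
  obtain ⟨U, hU⟩ := cor_surj κ
  obtain ⟨n, hn0, hp, hmin⟩ := exists_period U
  obtain ⟨i, hi, hin, hUi⟩ := H_pos h1 hU hn0 hp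
  obtain ⟨j, hj, hjn, hUj⟩ := H_pos (Qr_rev ht hn h3) hU hn0 hp
  have hij : i ≠ j := by
    rintro rfl
    exact Qr_ne1 h2 (hUi.symm.trans hUj)
  rcases lt_or_gt_of_ne hij with hlt | hlt
  · exact H_face_aux h4 ht hn h1 h2 h3 hi hlt hjn hp hmin hU hUi hUj
  · have hpn : (X.nx ^ (-(n : ℤ))) U = U := by
      rw [zpow_neg, zpow_natCast]
      conv_lhs => rw [← hp]
      exact pinv _ _
    have f1 : ∀ i : ℕ, i < n → (X.nx ^ (n - i)) (X.op U) = X.op ((X.nx ^ i) U) := by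
      intro i hin
      rw [← zpow_natCast, nx_zpow_op, Nat.cast_sub hin.le]
      congr 1
      rw [show -((n : ℤ) - i) = i + -(n : ℤ) by ring, nx_zpow_add, hpn, zpow_natCast]
    have f3 : (X.nx ^ n) (X.op U) = X.op U := by
      rw [← zpow_natCast, nx_zpow_op, hpn]
    have f4 : ∀ m : ℕ, 0 < m → (X.nx ^ m) (X.op U) = X.op U → n ≤ m := by
      intro m hm he
      apply hmin m hm
      rw [← zpow_natCast, nx_zpow_op] at he
      have h5 := congrArg X.op he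
      rw [X.op_op, X.op_op] at h5
      conv_lhs => rw [← h5]
      rw [zpow_neg, zpow_natCast]
      exact papply _ _
    exact H_face_aux h4 ht hn h1 h2 h3 (i := n - i) (j := n - j) (by omega) (by omega) (by omega)
      f3 f4 (by rw [cor_op, hU]) (by rw [f1 i hin, cor_op, hUi]) (by rw [f1 j hjn, cor_op, hUj])

/-- the axiom `sq_H` -/
theorem SqK_H (h4 : X.C4) (ht : X.T4) (hn : X.NR) {a b c a1 b1 b2 c2 c3 a3 : X.Cor × Bool}
    (h1 : X.SqK a a1 b b1) (h2 : X.SqK b b2 c c2) (h3 : X.SqK c c3 a a3) :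
    (∃ c1, X.SqK a a1 c c1 ∧ X.SqK b b1 c c1) ∨ (∃ a2, X.SqK b b2 a a2 ∧ X.SqK c c2 a a2) ∨
    (∃ b3, X.SqK c c3 b b3 ∧ X.SqK a a3 b b3) := by
  obtain ⟨a, ε⟩ := a
  obtain ⟨b, εb⟩ := b
  obtain ⟨c, εc⟩ := c
  obtain ⟨a1, ε1⟩ := a1
  obtain ⟨b1, ε2⟩ := b1
  obtain ⟨b2, ε3⟩ := b2
  obtain ⟨c2, ε4⟩ := c2
  obtain ⟨c3, ε5⟩ := c3
  obtain ⟨a3, ε6⟩ := a3
  obtain ⟨s1, s2, s3, s4⟩ := h1
  obtain ⟨t1, t2, t3, t4⟩ := h2
  obtain ⟨u1, u2, u3, u4⟩ := h3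
  simp only at s1 s2 s3 s4 t1 t2 t3 t4 u1 u2 u3 u4
  subst s1 t1 s2 s3 t2 t3 u2 u3
  cases ε
  · rcases H_face h4 ht hn s4 t4 u4 with ⟨x, x1, x2⟩ | ⟨x, x1, x2⟩ | ⟨x, x1, x2⟩
    · exact Or.inl ⟨(x, true), ⟨rfl, rfl, rfl, x1⟩, ⟨rfl, rfl, rfl, x2⟩⟩
    · exact Or.inr (Or.inl ⟨(x, true), ⟨rfl, rfl, rfl, x1⟩, ⟨rfl, rfl, rfl, x2⟩⟩)
    · exact Or.inr (Or.inr ⟨(x, true), ⟨rfl, rfl, rfl, x1⟩, ⟨rfl, rfl, rfl, x2⟩⟩)
  · rcases H_vertex h4 ht hn s4 t4 u4 with ⟨x, x1, x2⟩ | ⟨x, x1, x2⟩ | ⟨x, x1, x2⟩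
    · exact Or.inl ⟨(x, false), ⟨rfl, rfl, rfl, x1⟩, ⟨rfl, rfl, rfl, x2⟩⟩
    · exact Or.inr (Or.inl ⟨(x, false), ⟨rfl, rfl, rfl, x1⟩, ⟨rfl, rfl, rfl, x2⟩⟩)
    · exact Or.inr (Or.inr ⟨(x, false), ⟨rfl, rfl, rfl, x1⟩, ⟨rfl, rfl, rfl, x2⟩⟩)

end GC

end PropA
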