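import Pool.Agent.PropA.C1B

/-!
Module C1 of MP_db4510_al: the relation `Qr`.
-/

namespace PropA

universe u

namespace GC

variable {X : GC.{u}}

theorem qr_mk {c c' : X.C} {k : ℕ} {κ κ' μ μ' : X.Cor} (h1 : X.cor c = κ)
    (h2 : X.cor ((X.nx ^ (k : ℤ)) c) = κ') (h3 : X.cor c' = μ)
    (h4 : X.cor ((X.nx ^ (k : ℤ)) c') = μ') (h5 : AgI 0 k c c') (h6 : κ ≠ μ) (h7 : κ ≠ κ') :
    X.Qr κ κ' μ μ' :=
  ⟨c, c', k, h1, by simpa only [zpow_natCast] using h2, h3, by simpa only [zpow_natCast] using h4,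
    ag_iff.2 h5, h6, h7⟩

theorem Qr.data {κ κ' μ μ' : X.Cor} (h : X.Qr κ κ' μ μ') : ∃ (c c' : X.C) (k : ℕ), 0 < k ∧
    X.cor c = κ ∧ X.cor ((X.nx ^ (k : ℤ)) c) = κ' ∧ X.cor c' = μ ∧
    X.cor ((X.nx ^ (k : ℤ)) c') = μ' ∧ AgI 0 k c c' ∧ κ ≠ μ ∧ κ ≠ κ' := by
  obtain ⟨c, c', k, h1, h2, h3, h4, h5, h6, h7⟩ := h
  refine ⟨c, c', k, ?_, h1, by simpa only [zpow_natCast] using h2, h3,
    by simpa only [zpow_natCast] using h4, ag_iff.1 h5, h6, h7⟩
  rcases Nat.eq_zero_or_pos k with rfl | h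
  · exfalso
    apply h7
    rw [← h1, ← h2]
    rfl
  · exact h

theorem Qr.ne_start {κ κ' μ μ' : X.Cor} (h : X.Qr κ κ' μ μ') : κ ≠ μ := by
  obtain ⟨c, c', k, h1, h2, h3, h4, h5, h6, h7⟩ := h
  exact h6

theorem Qr.ne_side {κ κ' μ μ' : X.Cor} (h : X.Qr κ κ' μ μ') : κ ≠ κ' := by
  obtain ⟨c, c', k, h1, h2, h3, h4, h5, h6, h7⟩ := h
  exact h7

theorem Qr.vtx_start {κ κ' μ μ' : X.Cor} (h : X.Qr κ κ' μ μ') : X.vtx κ = X.vtx μ := by
  obtain ⟨c, c', k, hk, rfl, rfl, rfl, rfl, h5, h6, h7⟩ := h.data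
  have := h5 0 le_rfl (by exact_mod_cast hk)
  simp only [zpow_zero'] at this
  exact congrArg X.src this

theorem Qr.fac_left {κ κ' μ μ' : X.Cor} (h : X.Qr κ κ' μ μ') : X.fac κ = X.fac κ' := by
  obtain ⟨c, c', k, hk, rfl, rfl, rfl, rfl, h5, h6, h7⟩ := h.data
  rw [fac_cor, fac_cor, fc_zpow]

theorem Qr.fac_right {κ κ' μ μ' : X.Cor} (h : X.Qr κ κ' μ μ') : X.fac μ = X.fac μ' := by
  obtain ⟨c, c', k, hk, rfl, rfl, rfl, rfl, h5, h6, h7⟩ := h.data
  rw [fac_cor, fac_cor, fc_zpow]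

/-- if a full period of the second cursor is read in common, the cursors are twins -/
theorem tw_of_period (h4 : X.C4) {c c' : X.C} {k : ℕ} (h : AgI 0 k c c') {n : ℤ} (hn : 0 < n)
    (hnk : n ≤ k) (hc : (X.nx ^ n) c' = c') : X.Tw c c' := by
  by_contra ht
  have := one_piece h4 h.symm (fun h => ht h.symm) hn hc
  omega

theorem zfix_neg {c : X.C} {n : ℤ} (h : (X.nx ^ n) c = c) : (X.nx ^ (-n)) c = c := by
  conv_lhs => rw [← h]
  rw [zz]; simp

theorem zfix_of_eq {c : X.C} {a b : ℤ} (h : (X.nx ^ a) c = (X.nx ^ b) c) :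
    (X.nx ^ (a - b)) c = c := by
  have := congrArg (X.nx ^ (-b)) h
  rw [zz, zz] at this
  simpa [sub_eq_neg_add] using this

theorem zeq_of_fix {c : X.C} {a b : ℤ} (h : (X.nx ^ (a - b)) c = c) :
    (X.nx ^ a) c = (X.nx ^ b) c := by
  have := congrArg (X.nx ^ b) h
  rw [zz] at this
  simpa using this

theorem Qr.swap (h4 : X.C4) {κ κ' μ μ' : X.Cor} (h : X.Qr κ κ' μ μ') : X.Qr μ μ' κ κ' := by
  obtain ⟨c, c', k, hk, rfl, rfl, rfl, rfl, h5, h6, h7⟩ := h.data
  refine qr_mk rfl rfl rfl rfl h5.symm h6.symm ?_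
  intro he
  have h8 : (X.nx ^ (k : ℤ)) c' = c' := by
    have := eq_of_cor_zpow (a := 0) (b := k) (c := c') (by rw [zpow_zero']; exact he)
    rwa [zpow_zero'] at this
  have ht := tw_of_period h4 h5 (by exact_mod_cast hk) le_rfl h8
  apply h7
  rw [per_face ht.1.symm h8]

theorem AgI.rev {c c' : X.C} {k : ℕ} (h : AgI 0 k c c') :
    AgI 0 k (X.op ((X.nx ^ (k : ℤ)) c)) (X.op ((X.nx ^ (k : ℤ)) c')) := by
  have := (h.shift k).op
  simpa using this

theorem cor_zpow_op (k : ℤ) (c : X.C) :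
    X.cor ((X.nx ^ k) (X.op c)) = X.cor ((X.nx ^ (-k)) c) := by
  rw [zpow_op, cor_op]

theorem Qr.rev (ht : X.T4) (hn : X.NR) {κ κ' μ μ' : X.Cor} (h : X.Qr κ κ' μ μ') :
    X.Qr κ' κ μ' μ := by
  obtain ⟨c, c', k, hk, rfl, rfl, rfl, rfl, h5, h6, h7⟩ := h.data
  refine qr_mk (k := k) (cor_op _) ?_ (cor_op _) ?_ h5.rev ?_ h7.symm
  · rw [cor_zpow_op, zz, neg_add_cancel, zpow_zero']
  · rw [cor_zpow_op, zz, neg_add_cancel, zpow_zero']
  · have := cor_ne_end ht hn hk h5 h6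
    simpa only [zpow_natCast] using this

theorem Qr.vtx_end (ht : X.T4) (hn : X.NR) {κ κ' μ μ' : X.Cor} (h : X.Qr κ κ' μ μ') :
    X.vtx κ' = X.vtx μ' := (h.rev ht hn).vtx_start

theorem rd_zero {p q : ℤ} {c c' : X.C} (h : AgI p q c c') (hp : p ≤ 0) (hq : 0 < q) :
    X.rd c = X.rd c' := by
  have := h 0 hp hq
  simpa only [zpow_zero'] using this

theorem same_end (h4 : X.C4) {c c' : X.C} {k l : ℕ} (hk : AgI 0 k c c') (hl : AgI 0 l c c')
    (e : (X.nx ^ (k : ℤ)) c' = (X.nx ^ (l : ℤ)) c') :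
    (X.nx ^ (k : ℤ)) c = (X.nx ^ (l : ℤ)) c := by
  rcases lt_trichotomy k l with h | h | h
  · have h1 := zfix_of_eq e.symm
    have ht := tw_of_period h4 hl (n := l - k) (by omega) (by omega) h1
    exact (zeq_of_fix (per_face ht.1.symm h1)).symm
  · rw [h]
  · have h1 := zfix_of_eq e
    have ht := tw_of_period h4 hk (n := k - l) (by omega) (by omega) h1
    exact zeq_of_fix (per_face ht.1.symm h1)

theorem Qr.uniq (h4 : X.C4) (ht : X.T4) (hn : X.NR) {κ κ' κ'' μ μ' : X.Cor}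
    (h : X.Qr κ κ' μ μ') (h' : X.Qr κ κ'' μ μ') : κ' = κ'' := by
  obtain ⟨c, c', k, hk, rfl, rfl, rfl, rfl, h5, h6, h7⟩ := h.data
  obtain ⟨d, d', l, hl, e1, rfl, e3, e4, f5, f6, f7⟩ := h'.data
  rcases cor_eq_iff.1 e1.symm with rfl | rfl <;> rcases cor_eq_iff.1 e3.symm with rfl | rfl
  · rw [same_end h4 h5 f5 (eq_of_cor_zpow e4)]
  · exfalso
    have g1 := rd_zero h5 le_rfl (by exact_mod_cast hk)
    have g2 := rd_zero f5 le_rfl (by exact_mod_cast hl)
    exact h6 ((bigon ht hn (g1.symm.trans g2)).2 _ g1).symm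
  · exfalso
    have g1 := rd_zero h5 le_rfl (by exact_mod_cast hk)
    have g2 := rd_zero f5 le_rfl (by exact_mod_cast hl)
    exact h6 ((bigon ht hn (g1.trans g2.symm)).2 _ g1.symm)
  · rw [cor_zpow_op] at e4
    have g1 := eq_of_cor_zpow e4
    have g2 := zfix_of_eq g1
    rw [sub_neg_eq_add] at g2
    have g3 : AgI (-l) 0 c c' := by
      have := f5.op
      rw [X.op_op, X.op_op] at this
      simpa using this
    have g4 : AgI 0 (k + l : ℕ) ((X.nx ^ (-(l : ℤ))) c) ((X.nx ^ (-(l : ℤ))) c') := by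
      have := (g3.union h5).shift (-(l : ℤ))
      simpa using this
    have g5 := tw_of_period h4 g4 (n := k + l) (by omega) (by push_cast; exact le_rfl)
      (per_face (fc_zpow _ _).symm g2)
    have g6 : X.Tw c c' := (tw_zpow_iff _).1 g5
    have g7 := per_face g6.1.symm g2
    rw [cor_zpow_op]
    rw [← sub_neg_eq_add] at g7
    rw [zeq_of_fix g7]

theorem Qr.E1 (h4 : X.C4) {κ κ' μ μ' ν ν' : X.Cor} (h : X.Qr κ κ' μ μ') (h' : X.Qr μ μ' ν ν')
    (hne : κ ≠ ν) : X.Qr κ κ' ν ν' := by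
  obtain ⟨c, c', k, hk, rfl, rfl, rfl, rfl, h5, h6, h7⟩ := h.data
  obtain ⟨d, d', l, hl, e1, e2, rfl, rfl, f5, f6, f7⟩ := h'.data
  rcases cor_eq_iff.1 e1.symm with rfl | rfl
  · have g1 := eq_of_cor_zpow e2
    rcases lt_trichotomy k l with hkl | hkl | hkl
    · have g2 := zfix_of_eq g1.symm
      have g3 : X.Tw d d' := (tw_of_period h4 f5.symm (n := l - k) (by omega) (by omega) g2).symm
      refine qr_mk rfl rfl rfl ?_ (h5.trans (g3.agI _ _)) hne h7
      rw [← zeq_of_fix (per_face g3.1 g2)]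
    · subst hkl
      exact qr_mk rfl rfl rfl rfl (h5.trans f5) hne h7
    · have g2 := zfix_of_eq g1
      have g3 : X.Tw c d := tw_of_period h4 h5 (n := k - l) (by omega) (by omega) g2
      refine qr_mk (k := l) rfl ?_ rfl rfl ((g3.agI _ _).trans f5) hne h7
      rw [← zeq_of_fix (per_face g3.1.symm g2)]
  · rw [cor_zpow_op] at e2
    have g1 := eq_of_cor_zpow e2
    have g2 := zfix_of_eq g1
    rw [sub_neg_eq_add] at g2
    -- aligned cursor
    have g3 : AgI (-l) 0 c' (X.op d') := by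
      have := f5.op
      rw [X.op_op] at this
      simpa using this
    by_cases t1 : X.Tw c' c
    · have g4 : (X.nx ^ (k + l : ℤ)) c = c := per_face t1.1 g2
      refine qr_mk (c := X.op c) (k := l) (cor_op c) ?_ rfl rfl ((t1.symm.op.agI _ _).trans f5) hne h7
      rw [cor_zpow_op]
      rw [← sub_neg_eq_add] at g4
      rw [zeq_of_fix g4]
    · by_cases t2 : X.Tw c' (X.op d')
      · have g4 : (X.nx ^ (k + l : ℤ)) d' = d' := per_face (t2.1.trans (X.fc_op d')) g2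
        refine qr_mk (c := c) (c' := X.op d') (k := k) rfl rfl (cor_op d') ?_
          (h5.trans (t2.agI _ _)) hne h7
        rw [cor_zpow_op]
        have g5 : (X.nx ^ (l - (-k) : ℤ)) d' = d' := by
          rw [sub_neg_eq_add, add_comm]; exact g4
        rw [zeq_of_fix g5]
      · exfalso
        have g4 : AgI k (k + l) c' ((X.nx ^ (-(k + l : ℤ))) (X.op d')) := by
          intro j j1 j2
          rw [zz, ← g3 (j + -(k + l)) (by omega) (by omega), ← zz, zfix_neg g2]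
        have g5 : ¬ X.Tw c' ((X.nx ^ (-(k + l : ℤ))) (X.op d')) := by
          intro h
          apply t2
          rw [← tw_zpow_iff (-(k + l : ℤ)), zfix_neg g2]
          exact h
        have := two_pieces h4 h5.symm t1 g4 g5 (n := k + l) (by omega) g2
        omega

theorem Qr.E2 (ht : X.T4) (hn : X.NR) {κ κ' μ μ' ν ν' : X.Cor} (h : X.Qr κ μ κ' μ')
    (h' : X.Qr μ ν μ' ν') (hne : κ ≠ ν) : X.Qr κ ν κ' ν' := by
  have hμ : μ ≠ μ' := (h.rev ht hn).ne_start
  obtain ⟨c, c', k, hk, rfl, rfl, rfl, rfl, h5, h6, h7⟩ := h.data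
  obtain ⟨d, d', l, hl, e1, rfl, e3, rfl, f5, f6, f7⟩ := h'.data
  rcases cor_eq_iff.1 e1.symm with rfl | rfl <;> rcases cor_eq_iff.1 e3.symm with rfl | rfl
  · refine qr_mk (c := c) (c' := c') (k := k + l) rfl ?_ rfl ?_ ?_ h6 hne
    · rw [zz, Nat.cast_add, add_comm (k : ℤ)]
    · rw [zz, Nat.cast_add, add_comm (k : ℤ)]
    · have := f5.shift (-k)
      rw [zz, zz, neg_add_cancel, zpow_zero', zpow_zero'] at this
      have := h5.union (q := k) (r := k + l) (by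
        simpa [add_comm] using this)
      simpa using this
  · exfalso
    have g1 := rd_zero f5 le_rfl (by exact_mod_cast hl)
    have g2 := rd_zero h5.rev le_rfl (by exact_mod_cast hk)
    have := (bigon ht hn (g1.trans g2.symm)).2 _ g1.symm
    rw [cor_op] at this
    exact hμ this
  · exfalso
    have g1 := rd_zero f5 le_rfl (by exact_mod_cast hl)
    have g2 := rd_zero h5.rev le_rfl (by exact_mod_cast hk)
    have := (bigon ht hn (g1.symm.trans g2)).2 _ g1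
    rw [cor_op] at this
    exact hμ this.symm
  · have g3 : AgI (-l) 0 ((X.nx ^ (k : ℤ)) c) ((X.nx ^ (k : ℤ)) c') := by
      have := f5.op
      rw [X.op_op, X.op_op] at this
      simpa using this
    have g4 : AgI (k - l) k c c' := by
      have := g3.shift (-k)
      rw [zz, zz, neg_add_cancel, zpow_zero', zpow_zero'] at this
      simpa [sub_eq_neg_add, add_comm] using this
    have hν : X.cor ((X.nx ^ (l : ℤ)) (X.op ((X.nx ^ (k : ℤ)) c))) =
        X.cor ((X.nx ^ (k - l : ℤ)) c) := by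
      rw [cor_zpow_op, zz, neg_add_eq_sub]
    have hν' : X.cor ((X.nx ^ (l : ℤ)) (X.op ((X.nx ^ (k : ℤ)) c'))) =
        X.cor ((X.nx ^ (k - l : ℤ)) c') := by
      rw [cor_zpow_op, zz, neg_add_eq_sub]
    rw [hν, hν']
    rw [hν] at hne
    rcases le_total l k with hlk | hlk
    · refine qr_mk (c := c) (c' := c') (k := k - l) rfl ?_ rfl ?_ (h5.mono le_rfl (by omega)) h6 hne
      · rw [Nat.cast_sub hlk]
      · rw [Nat.cast_sub hlk]
    · refine qr_mk (c := X.op c) (c' := X.op c') (k := l - k) (cor_op c) ?_ (cor_op c') ?_ ?_ h6 hne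
      · rw [cor_zpow_op, Nat.cast_sub hlk, neg_sub]
      · rw [cor_zpow_op, Nat.cast_sub hlk, neg_sub]
      · have := (g4.mono (p' := k - l) (q' := 0) le_rfl (by omega)).op
        simpa [Nat.cast_sub hlk] using this

end GC

end PropA
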