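import Pool.Agent.PropA.C1Q

/-!
Module C1 of MP_db4510_al: the laws of `SqK` except `sq_H`.
-/

namespace PropA

universe u

namespace GC

variable {X : GC.{u}}

theorem SqK.cases {a a' b b' : X.Cor × Bool} (h : X.SqK a a' b b') :
    (∃ κ κ' μ μ', a = (κ, true) ∧ a' = (κ', false) ∧ b = (μ, true) ∧ b' = (μ', false) ∧
      X.Qr κ κ' μ μ') ∨
    (∃ κ κ' μ μ', a = (κ, false) ∧ a' = (κ', true) ∧ b = (μ, false) ∧ b' = (μ', true) ∧
      X.Qr κ μ κ' μ') := by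
  obtain ⟨κ, x⟩ := a
  obtain ⟨κ', x'⟩ := a'
  obtain ⟨μ, y⟩ := b
  obtain ⟨μ', y'⟩ := b'
  obtain ⟨h1, h2, h3, h4⟩ := h
  simp only at h1 h2 h3 h4
  subst h1 h2 h3
  cases x
  · exact Or.inr ⟨κ, κ', μ, μ', rfl, rfl, rfl, rfl, by simpa using h4⟩
  · exact Or.inl ⟨κ, κ', μ, μ', rfl, rfl, rfl, rfl, by simpa using h4⟩

theorem sqK_true {κ κ' μ μ' : X.Cor} (h : X.Qr κ κ' μ μ') :
    X.SqK (κ, true) (κ', false) (μ, true) (μ', false) := ⟨rfl, rfl, rfl, by simpa using h⟩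

theorem sqK_false {κ κ' μ μ' : X.Cor} (h : X.Qr κ μ κ' μ') :
    X.SqK (κ, false) (κ', true) (μ, false) (μ', true) := ⟨rfl, rfl, rfl, by simpa using h⟩

theorem SqK.qr_true {κ κ' μ μ' : X.Cor} {x y z : Bool} (h : X.SqK (κ, true) (κ', x) (μ, y) (μ', z)) :
    X.Qr κ κ' μ μ' := by simpa using h.2.2.2

theorem SqK.qr_false {κ κ' μ μ' : X.Cor} {x y z : Bool}
    (h : X.SqK (κ, false) (κ', x) (μ, y) (μ', z)) : X.Qr κ μ κ' μ' := by simpa using h.2.2.2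

theorem SqK.path (ht : X.T4) (hn : X.NR) {a a' b b' : X.Cor × Bool} (h : X.SqK a a' b b') :
    X.sK a = X.sK b ∧ X.sK a' = X.sK (X.rK a) ∧ X.sK b' = X.sK (X.rK b) ∧
      X.sK (X.rK a') = X.sK (X.rK b') := by
  rcases h.cases with ⟨κ, κ', μ, μ', rfl, rfl, rfl, rfl, hq⟩ | ⟨κ, κ', μ, μ', rfl, rfl, rfl, rfl, hq⟩
  · simp only [sK_true, sK_false, rK_mk, Bool.not_true, Bool.not_false]
    rw [hq.vtx_start, hq.fac_left, hq.fac_right, hq.vtx_end ht hn]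
    exact ⟨rfl, rfl, rfl, rfl⟩
  · simp only [sK_true, sK_false, rK_mk, Bool.not_true, Bool.not_false]
    rw [hq.vtx_start, hq.fac_left, hq.fac_right, hq.vtx_end ht hn]
    exact ⟨rfl, rfl, rfl, rfl⟩

theorem SqK.swap (h4 : X.C4) (ht : X.T4) (hn : X.NR) {a a' b b' : X.Cor × Bool}
    (h : X.SqK a a' b b') : X.SqK b b' a a' := by
  rcases h.cases with ⟨κ, κ', μ, μ', rfl, rfl, rfl, rfl, hq⟩ | ⟨κ, κ', μ, μ', rfl, rfl, rfl, rfl, hq⟩
  · exact sqK_true (hq.swap h4)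
  · exact sqK_false (hq.rev ht hn)

theorem SqK.rot (h4 : X.C4) (ht : X.T4) (hn : X.NR) {a a' b b' : X.Cor × Bool}
    (h : X.SqK a a' b b') : X.SqK a' (X.rK b') (X.rK a) b := by
  rcases h.cases with ⟨κ, κ', μ, μ', rfl, rfl, rfl, rfl, hq⟩ | ⟨κ, κ', μ, μ', rfl, rfl, rfl, rfl, hq⟩
  · exact sqK_false (hq.rev ht hn)
  · exact sqK_true (hq.swap h4)

theorem SqK.ne {a a' b b' : X.Cor × Bool} (h : X.SqK a a' b b') : a ≠ b ∧ a' ≠ X.rK a := by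
  rcases h.cases with ⟨κ, κ', μ, μ', rfl, rfl, rfl, rfl, hq⟩ | ⟨κ, κ', μ, μ', rfl, rfl, rfl, rfl, hq⟩
  · refine ⟨fun h => hq.ne_start (congrArg Prod.fst h), fun h => hq.ne_side ?_⟩
    exact (congrArg Prod.fst h).symm
  · refine ⟨fun h => hq.ne_side (congrArg Prod.fst h), fun h => hq.ne_start ?_⟩
    exact (congrArg Prod.fst h).symm

theorem SqK.uniq (h4 : X.C4) (ht : X.T4) (hn : X.NR) {a a' a'' b b' : X.Cor × Bool}
    (h : X.SqK a a' b b') (h' : X.SqK a a'' b b') : a' = a'' := by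
  rcases h.cases with ⟨κ, κ', μ, μ', rfl, rfl, rfl, rfl, hq⟩ | ⟨κ, κ', μ, μ', rfl, rfl, rfl, rfl, hq⟩
  · obtain ⟨κ'', x⟩ := a''
    have h2 := h'.2.1
    simp only at h2
    rw [h2, hq.uniq h4 ht hn h'.qr_true]
    rfl
  · obtain ⟨κ'', x⟩ := a''
    have h2 := h'.2.1
    simp only at h2
    have e := ((hq.rev ht hn).swap h4).uniq h4 ht hn ((h'.qr_false.rev ht hn).swap h4)
    rw [h2, e]
    rfl

theorem SqK.E (h4 : X.C4) (ht : X.T4) (hn : X.NR) {a a' b b' c c' : X.Cor × Bool}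
    (h : X.SqK a a' b b') (h' : X.SqK b b' c c') (hne : a ≠ c) : X.SqK a a' c c' := by
  rcases h.cases with ⟨κ, κ', μ, μ', rfl, rfl, rfl, rfl, hq⟩ | ⟨κ, κ', μ, μ', rfl, rfl, rfl, rfl, hq⟩
  · rcases h'.cases with ⟨κ1, κ1', ν, ν', e1, e2, rfl, rfl, hq'⟩ | ⟨κ1, κ1', ν, ν', e1, e2, rfl, rfl, hq'⟩
    · simp only [Prod.mk.injEq, and_true] at e1 e2
      subst e1 e2
      exact sqK_true (hq.E1 h4 hq' fun h => hne (by rw [h]))
    · simp at e1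
  · rcases h'.cases with ⟨κ1, κ1', ν, ν', e1, e2, rfl, rfl, hq'⟩ | ⟨κ1, κ1', ν, ν', e1, e2, rfl, rfl, hq'⟩
    · simp at e1
    · simp only [Prod.mk.injEq, and_true] at e1 e2
      subst e1 e2
      exact sqK_false (hq.E2 ht hn hq' fun h => hne (by rw [h]))

end GC

end PropA
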