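import Pool.Agent.PropA.Defs

/-!
Module C3 of MP_db4510_al: the development of the incidence multigraph of a simply connected complex
is the incidence graph itself; hence that graph is hereditary modular.
-/

namespace PropA

universe u

namespace GC

variable {X : GC.{u}}

/-! ### Corners -/

theorem cor_eq_iff {c c' : X.C} : X.cor c = X.cor c' ↔ c' = c ∨ c' = X.op c := by
  have key : ∀ a b, Relation.EqvGen (fun c c' => c' = X.op c) a b → b = a ∨ b = X.op a := by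
    intro a b h
    induction h with
    | rel a b h => exact Or.inr h
    | refl a => exact Or.inl rfl
    | symm a b _ ih =>
      rcases ih with h | h
      · exact Or.inl h.symm
      · right; rw [h, X.op_op]
    | trans a b c _ _ ih1 ih2 =>
      rcases ih1 with h1 | h1 <;> rcases ih2 with h2 | h2
      · left; rw [h2, h1]
      · right; rw [h2, h1]
      · right; rw [h2, h1]
      · left; rw [h2, h1, X.op_op]
  constructor
  · intro h
    exact key _ _ (Quot.eqvGen_exact h)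
  · rintro (h | h)
    · rw [h]
    · exact Quot.sound h

@[simp] theorem cor_op (c : X.C) : X.cor (X.op c) = X.cor c := cor_eq_iff.2 (Or.inr (X.op_op c).symm)

@[simp] theorem vtx_cor (c : X.C) : X.vtx (X.cor c) = X.vt c := rfl

@[simp] theorem fac_cor (c : X.C) : X.fac (X.cor c) = X.fc c := rfl

theorem exists_cor (κ : X.Cor) : ∃ c, X.cor c = κ := Quot.exists_rep κ

@[simp] theorem vt_op (c : X.C) : X.vt (X.op c) = X.vt c := X.src_op c

theorem src_rev_rd (c : X.C) : X.src (X.rev (X.rd c)) = X.vt (X.nx c) := by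
  rw [← X.rd_rev, X.src_op]; rfl

theorem nx_op_nx (c : X.C) : X.nx (X.op (X.nx c)) = X.op c := by
  have h := X.op_nx c
  have := congrArg X.op h
  rwa [X.op_op] at this

@[simp] theorem sK_true (κ : X.Cor) : X.sK (κ, true) = Sum.inl (X.vtx κ) := rfl

@[simp] theorem sK_false (κ : X.Cor) : X.sK (κ, false) = Sum.inr (X.fac κ) := rfl

@[simp] theorem rK_mk (κ : X.Cor) (b : Bool) : X.rK (κ, b) = (κ, !b) := rfl

@[simp] theorem fc_pow (c : X.C) (k : ℕ) : X.fc ((X.nx ^ k) c) = X.fc c := by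
  induction k with
  | zero => rfl
  | succ k ih => rw [pow_succ', Equiv.Perm.mul_apply, X.fc_nx, ih]

/-- integer powers of `nx` reduce to natural ones -/
theorem zpow_nat (c : X.C) (k : ℤ) : ∃ n : ℕ, (X.nx ^ k) c = (X.nx ^ n) c := by
  obtain ⟨n, hn, h⟩ := X.per c
  have hm : ∀ j : ℤ, (X.nx ^ (n * j : ℤ)) c = c := by
    intro j
    rw [zpow_mul]
    have h0 : Function.IsFixedPt (X.nx ^ (n : ℤ)) c := by
      rw [zpow_natCast]; exact h
    exact h0.perm_zpow j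
  refine ⟨(k % n).toNat, ?_⟩
  have h1 : k = k % n + n * (k / n) := (Int.emod_add_mul_ediv k n).symm
  have h2 : (0 : ℤ) ≤ k % n := Int.emod_nonneg _ (by exact_mod_cast hn.ne')
  conv_lhs => rw [h1, zpow_add, Equiv.Perm.mul_apply, hm]
  rw [← zpow_natCast, Int.toNat_of_nonneg h2]

/-- two cursors of the same face: after reversal of the first one is a power of `nx` away -/
theorem fc_orb' (c c' : X.C) (h : X.fc c = X.fc c') :
    ∃ (e : X.C) (k : ℕ), X.cor e = X.cor c ∧ c' = (X.nx ^ k) e := by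
  obtain ⟨k, hk | hk⟩ := X.fc_orb c c' h
  · obtain ⟨n, hn⟩ := zpow_nat c k
    exact ⟨c, n, rfl, by rw [hk, hn]⟩
  · obtain ⟨n, hn⟩ := zpow_nat (X.op c) k
    exact ⟨X.op c, n, cor_op c, by rw [hk, hn]⟩

/-! ### Development data -/

variable (X) in
/-- the result of module C2 for the incidence multigraph -/
structure DD (x0 : X.V ⊕ X.F) where
  S : Type u
  π : S → X.V ⊕ X.F
  lev : S → ℕ
  St : S → X.Cor × Bool → S → Prop
  h1 : ∀ σ k τ, St σ k τ → X.sK k = π σ ∧ X.sK (X.rK k) = π τ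
  h2 : ∀ σ k τ, St σ k τ → St τ (X.rK k) σ
  h3 : ∀ σ k τ, St σ k τ → lev τ = lev σ + 1 ∨ lev σ = lev τ + 1
  h4 : ∀ σ k, X.sK k = π σ → ∃ τ, St σ k τ
  h5 : ∀ σ k τ τ', St σ k τ → St σ k τ' → τ = τ'
  h6 : ∀ σ k k' τ, St σ k τ → St σ k' τ → k = k'
  h7 : ∀ σ a a' b b' τ ρ τ', X.SqK a a' b b' → St σ a τ → St τ a' ρ → St σ b τ' → St τ' b' ρ
  h8 : ∃ σ0, π σ0 = x0 ∧ lev σ0 = 0 ∧ ∀ σ, lev σ = 0 → σ = σ0
  h9 : ∀ σ, 0 < lev σ → ∃ k τ, St σ k τ ∧ lev τ + 1 = lev σ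
  h10 : ∀ σ k k' τ τ', k ≠ k' → St σ k τ → St σ k' τ' → lev τ + 1 = lev σ → lev τ' + 1 = lev σ →
      ∃ ρ m m', St τ m ρ ∧ St τ' m' ρ ∧ lev ρ + 1 = lev τ ∧ X.SqK k m k' m'

/-- Two cursors reading the same dart: the corners at the two ends coincide, or the
corners at the starting point are different and the corners of the first at both ends, too. -/
theorem same_rd (h4 : X.C4) (ht : X.T4) (hn : X.NR) {c c' : X.C} (h : X.rd c = X.rd c') :
    (X.cor c = X.cor c' ∧ X.cor (X.nx c) = X.cor (X.nx c')) ∨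
      X.Qr (X.cor c) (X.cor (X.nx c)) (X.cor c') (X.cor (X.nx c')) := by
  by_cases hκ : X.cor c = X.cor c'
  · left
    refine ⟨hκ, ?_⟩
    rcases cor_eq_iff.1 hκ with rfl | rfl
    · rfl
    · have htw : X.Tw (X.op c) c := by
        by_contra hc
        exact ht c c c h.symm hc h.symm hc h.symm hc
      have htw' : X.Tw c (X.op c) := ⟨htw.1.symm, fun j => (htw.2 j).symm⟩
      obtain ⟨hnn, -⟩ := hn c htw'
      have h1 : X.nx (X.op c) = X.op (X.nx c) := by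
        have := nx_op_nx (X.nx c)
        rwa [hnn] at this
      rw [h1, cor_op]
  · by_cases hκ' : X.cor c = X.cor (X.nx c)
    · exfalso
      have h1 : X.nx c = c := by
        rcases cor_eq_iff.1 hκ' with h1 | h1
        · exact h1
        · exact absurd h1 (by simpa using X.or_ne 1 c)
      have hop : X.nx (X.op c) = X.op c := by
        have := nx_op_nx c
        rwa [h1] at this
      have htw : X.Tw c c' := by
        by_contra hc
        have hp : X.Pc c 1 := Or.inr ⟨c', hc, by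
          intro j hj
          have : j = 0 := by omega
          subst this
          exact h⟩
        have := h4 c 1 0 0 1 hp (Or.inl rfl) (Or.inl rfl) one_pos (by simpa using h1)
        omega
      obtain ⟨k, hk | hk⟩ := X.fc_orb c c' htw.1
      · have h0 : Function.IsFixedPt X.nx c := h1
        rw [h0.perm_zpow k] at hk
        exact hκ (by rw [hk])
      · have h0 : Function.IsFixedPt X.nx (X.op c) := hop
        rw [h0.perm_zpow k] at hk
        exact hκ (by rw [hk, cor_op])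
    · right
      refine ⟨c, c', 1, rfl, by simp, rfl, by simp, ?_, hκ, hκ'⟩
      intro j hj
      have : j = 0 := by omega
      subst this
      exact h

namespace DD

variable {x0 : X.V ⊕ X.F} (D : X.DD x0)

theorem inj_src {σ σ' : D.S} {k : X.Cor × Bool} {τ : D.S} (h : D.St σ k τ) (h' : D.St σ' k τ) :
    σ = σ' := D.h5 _ _ _ _ (D.h2 _ _ _ h) (D.h2 _ _ _ h')

/-- move along a dart -/
def Mv (σ : D.S) (d : X.D) (ρ : D.S) : Prop :=
  ∃ c, X.rd c = d ∧ ∃ τ, D.St σ (X.cor c, true) τ ∧ D.St τ (X.cor (X.nx c), false) ρ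

theorem exists_mv {σ : D.S} {d : X.D} (h : D.π σ = Sum.inl (X.src d)) : ∃ ρ, D.Mv σ d ρ := by
  obtain ⟨c, hc⟩ := X.rd_surj d
  obtain ⟨τ, hτ⟩ := D.h4 σ (X.cor c, true) (by
    rw [h, sK_true, vtx_cor, ← hc]; rfl)
  obtain ⟨ρ, hρ⟩ := D.h4 τ (X.cor (X.nx c), false) (by
    rw [← (D.h1 _ _ _ hτ).2]
    simp [X.fc_nx])
  exact ⟨ρ, c, hc, τ, hτ, hρ⟩

theorem mv_unique (h4 : X.C4) (ht : X.T4) (hn : X.NR) {σ : D.S} {c : X.C} {τ ρ ρ' : D.S}
    (hτ : D.St σ (X.cor c, true) τ) (hρ : D.St τ (X.cor (X.nx c), false) ρ)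
    (h : D.Mv σ (X.rd c) ρ') : ρ' = ρ := by
  obtain ⟨c', hc', τ', hτ', hρ'⟩ := h
  rcases same_rd h4 ht hn hc'.symm with ⟨e1, e2⟩ | hq
  · rw [← e1] at hτ'
    have := D.h5 _ _ _ _ hτ hτ'
    subst this
    rw [← e2] at hρ'
    exact D.h5 _ _ _ _ hρ' hρ
  · have h7 := D.h7 σ (X.cor c, true) (X.cor (X.nx c), false) (X.cor c', true)
      (X.cor (X.nx c'), false) τ ρ τ' ⟨rfl, rfl, rfl, by simpa using hq⟩ hτ hρ hτ'
    exact D.h5 _ _ _ _ hρ' h7

theorem mv_unique' (h4 : X.C4) (ht : X.T4) (hn : X.NR) {σ : D.S} {d : X.D} {ρ ρ' : D.S}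
    (h : D.Mv σ d ρ) (h' : D.Mv σ d ρ') : ρ = ρ' := by
  obtain ⟨c, rfl, τ, hτ, hρ⟩ := h
  exact (D.mv_unique h4 ht hn hτ hρ h').symm

theorem mv_rev {σ : D.S} {d : X.D} {ρ : D.S} (h : D.Mv σ d ρ) : D.Mv ρ (X.rev d) σ := by
  obtain ⟨c, rfl, τ, hτ, hρ⟩ := h
  refine ⟨X.op (X.nx c), X.rd_rev c, τ, ?_, ?_⟩
  · rw [cor_op]; simpa using D.h2 _ _ _ hρ
  · rw [nx_op_nx, cor_op]; simpa using D.h2 _ _ _ hτ

theorem mv_π {σ : D.S} {d : X.D} {ρ : D.S} (h : D.Mv σ d ρ) :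
    D.π σ = Sum.inl (X.src d) ∧ D.π ρ = Sum.inl (X.src (X.rev d)) := by
  obtain ⟨c, rfl, τ, hτ, hρ⟩ := h
  refine ⟨?_, ?_⟩
  · rw [← (D.h1 _ _ _ hτ).1]; rfl
  · rw [← (D.h1 _ _ _ hρ).2, src_rev_rd]; rfl

/-- vertex states -/
def VS : Type u := {σ : D.S // ∃ v, D.π σ = Sum.inl v}

/-- the vertex of a vertex state -/
noncomputable def πV (σ : D.VS) : X.V := σ.2.choose

theorem πV_spec (σ : D.VS) : D.π σ.1 = Sum.inl (D.πV σ) := σ.2.choose_spec

theorem πV_eq {σ : D.VS} {v : X.V} (h : D.π σ.1 = Sum.inl v) : D.πV σ = v := by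
  rw [D.πV_spec] at h
  exact Sum.inl_injective h

open Classical in
/-- the dart action -/
noncomputable def act (σ : D.VS) (d : X.D) : D.VS :=
  if h : ∃ ρ : D.VS, D.Mv σ.1 d ρ.1 then h.choose else σ

theorem act_spec {σ : D.VS} {d : X.D} (h : X.src d = D.πV σ) : D.Mv σ.1 d (D.act σ d).1 := by
  have hex : ∃ ρ : D.VS, D.Mv σ.1 d ρ.1 := by
    obtain ⟨ρ, hρ⟩ := D.exists_mv (σ := σ.1) (d := d) (by rw [D.πV_spec, h])
    exact ⟨⟨ρ, _, (D.mv_π hρ).2⟩, hρ⟩
  unfold act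
  rw [dif_pos hex]
  exact hex.choose_spec

theorem act_eq (h4 : X.C4) (ht : X.T4) (hn : X.NR) {σ ρ : D.VS} {d : X.D}
    (h : D.Mv σ.1 d ρ.1) : D.act σ d = ρ := by
  have h1 : X.src d = D.πV σ := by
    have := (D.mv_π h).1
    exact (D.πV_eq this).symm
  exact Subtype.ext (D.mv_unique' h4 ht hn (D.act_spec h1) h)

theorem act_ok (h4 : X.C4) (ht : X.T4) (hn : X.NR) (σ : D.VS) (d : X.D) (h : X.src d = D.πV σ) :
    D.πV (D.act σ d) = X.src (X.rev d) ∧ D.act (D.act σ d) (X.rev d) = σ := by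
  have h1 := D.act_spec h
  exact ⟨D.πV_eq (D.mv_π h1).2, D.act_eq h4 ht hn (D.mv_rev h1)⟩

/-- walking around a face -/
theorem face_walk (h4 : X.C4) (ht : X.T4) (hn : X.NR) (n : ℕ) : ∀ (c : X.C) (σ : D.VS) (τ : D.S),
    D.St σ.1 (X.cor c, true) τ →
    D.St ((List.ofFn fun j : Fin n => X.rd ((X.nx ^ (j : ℕ)) c)).foldl D.act σ).1
      (X.cor ((X.nx ^ n) c), true) τ := by
  induction n with
  | zero => intro c σ τ h; simpa using h
  | succ n ih =>
    intro c σ τ h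
    rw [List.ofFn_succ, List.foldl_cons]
    obtain ⟨ρ, hρ⟩ := D.h4 τ (X.cor (X.nx c), false) (by
      rw [← (D.h1 _ _ _ h).2]; simp [X.fc_nx])
    have hm : D.Mv σ.1 (X.rd c) ρ := ⟨c, rfl, τ, h, hρ⟩
    have hact : D.act σ (X.rd c) = ⟨ρ, _, (D.mv_π hm).2⟩ := D.act_eq h4 ht hn hm
    have h5 := ih (X.nx c) ⟨ρ, _, (D.mv_π hm).2⟩ τ (by simpa using D.h2 _ _ _ hρ)
    have e1 : (X.nx ^ n) (X.nx c) = (X.nx ^ (n + 1)) c := by
      rw [pow_succ, Equiv.Perm.mul_apply]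
    rw [e1] at h5
    have e2 : (fun j : Fin n => X.rd ((X.nx ^ (j : ℕ)) (X.nx c))) =
        fun i : Fin n => X.rd ((X.nx ^ ((i.succ : Fin (n + 1)) : ℕ)) c) := by
      funext i
      rw [Fin.val_succ, pow_succ, Equiv.Perm.mul_apply]
    rw [e2] at h5
    have e3 : X.rd ((X.nx ^ (((0 : Fin (n + 1)) : ℕ))) c) = X.rd c := by simp
    rw [e3, hact]
    exact h5

theorem face_loop (h4 : X.C4) (ht : X.T4) (hn : X.NR) (σ : D.VS) (c : X.C) (n : ℕ)
    (h : X.vt c = D.πV σ) (hc : (X.nx ^ n) c = c) :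
    (List.ofFn fun j : Fin n => X.rd ((X.nx ^ (j : ℕ)) c)).foldl D.act σ = σ := by
  obtain ⟨τ, hτ⟩ := D.h4 σ.1 (X.cor c, true) (by rw [D.πV_spec, ← h]; rfl)
  have h1 := D.face_walk h4 ht hn n c σ τ hτ
  rw [hc] at h1
  exact Subtype.ext (D.inj_src h1 hτ)

theorem no_monodromy (h4 : X.C4) (ht : X.T4) (hn : X.NR) (hs : X.SC) (σ : D.VS) (p : List X.D)
    (h : X.Walk (D.πV σ) p (D.πV σ)) : p.foldl D.act σ = σ :=
  hs D.VS D.πV D.act (D.act_ok h4 ht hn) (fun σ c n h _ hc => D.face_loop h4 ht hn σ c n h hc) σ p h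

theorem walk_end (h4 : X.C4) (ht : X.T4) (hn : X.NR) : ∀ (p : List X.D) (σ : D.VS) (v : X.V),
    X.Walk (D.πV σ) p v → D.πV (p.foldl D.act σ) = v := by
  intro p
  induction p with
  | nil => intro σ v h; exact h
  | cons d p ih =>
    intro σ v h
    obtain ⟨h1, h2⟩ := h
    rw [List.foldl_cons]
    apply ih
    rw [(D.act_ok h4 ht hn σ d h1).1]
    exact h2

end DD

theorem Walk.append {u v w : X.V} {p q : List X.D} (hp : X.Walk u p v) (hq : X.Walk v q w) :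
    X.Walk u (p ++ q) w := by
  induction p generalizing u with
  | nil =>
    have : u = v := hp
    subst this
    exact hq
  | cons d p ih => exact ⟨hp.1, ih hp.2⟩

theorem Walk.rev {u v : X.V} {p : List X.D} (hp : X.Walk u p v) :
    X.Walk v (p.map X.rev).reverse u := by
  induction p generalizing u with
  | nil => exact (show u = v from hp).symm
  | cons d p ih =>
    rw [List.map_cons, List.reverse_cons]
    refine (ih hp.2).append ⟨rfl, ?_⟩
    rw [X.rev_rev]; exact hp.1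

theorem walk_face (n : ℕ) : ∀ (c : X.C),
    X.Walk (X.vt c) (List.ofFn fun j : Fin n => X.rd ((X.nx ^ (j : ℕ)) c)) (X.vt ((X.nx ^ n) c)) := by
  induction n with
  | zero => intro c; simp [Walk]
  | succ n ih =>
    intro c
    rw [List.ofFn_succ]
    refine ⟨by simp [GC.vt], ?_⟩
    have e1 : (X.nx ^ n) (X.nx c) = (X.nx ^ (n + 1)) c := by
      rw [pow_succ, Equiv.Perm.mul_apply]
    have h5 := ih (X.nx c)
    rw [e1] at h5
    have e2 : (fun j : Fin n => X.rd ((X.nx ^ (j : ℕ)) (X.nx c))) =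
        fun i : Fin n => X.rd ((X.nx ^ ((i.succ : Fin (n + 1)) : ℕ)) c) := by
      funext i
      rw [Fin.val_succ, pow_succ, Equiv.Perm.mul_apply]
    rw [e2] at h5
    have e3 : X.src (X.rev (X.rd ((X.nx ^ (((0 : Fin (n + 1)) : ℕ))) c))) = X.vt (X.nx c) := by
      simp [src_rev_rd]
    rw [e3]
    exact h5

namespace DD

variable {x0 : X.V ⊕ X.F} (D : X.DD x0)

/-- two vertex states joined by a dart path -/
def Rel (σ σ' : D.VS) : Prop := ∃ p v, X.Walk (D.πV σ) p v ∧ p.foldl D.act σ = σ'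

theorem Rel.refl (σ : D.VS) : D.Rel σ σ := ⟨[], _, rfl, rfl⟩

theorem Rel.trans (h4 : X.C4) (ht : X.T4) (hn : X.NR) {σ σ' σ'' : D.VS} (h : D.Rel σ σ')
    (h' : D.Rel σ' σ'') : D.Rel σ σ'' := by
  obtain ⟨p, v, hp, rfl⟩ := h
  obtain ⟨q, w, hq, rfl⟩ := h'
  refine ⟨p ++ q, w, ?_, by rw [List.foldl_append]⟩
  rw [D.walk_end h4 ht hn p σ v hp] at hq
  exact hp.append hq

theorem foldl_rev (h4 : X.C4) (ht : X.T4) (hn : X.NR) : ∀ (p : List X.D) (σ : D.VS) (v : X.V),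
    X.Walk (D.πV σ) p v → (p.map X.rev).reverse.foldl D.act (p.foldl D.act σ) = σ := by
  intro p
  induction p with
  | nil => intro σ v _; rfl
  | cons d p ih =>
    intro σ v h
    obtain ⟨h1, h2⟩ := h
    have h3 := D.act_ok h4 ht hn σ d h1
    rw [List.foldl_cons, List.map_cons, List.reverse_cons, List.foldl_append, ih _ v (by
      rw [h3.1]; exact h2)]
    exact h3.2

theorem Rel.symm (h4 : X.C4) (ht : X.T4) (hn : X.NR) {σ σ' : D.VS} (h : D.Rel σ σ') :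
    D.Rel σ' σ := by
  obtain ⟨p, v, hp, rfl⟩ := h
  refine ⟨(p.map X.rev).reverse, D.πV σ, ?_, D.foldl_rev h4 ht hn p σ v hp⟩
  rw [D.walk_end h4 ht hn p σ v hp]
  exact hp.rev

theorem rel_face (h4 : X.C4) (ht : X.T4) (hn : X.NR) {σ σ' : D.VS} {κ κ' : X.Cor} {τ : D.S}
    (h : D.St σ.1 (κ, true) τ) (h' : D.St σ'.1 (κ', true) τ) : D.Rel σ σ' := by
  obtain ⟨c, rfl⟩ := exists_cor κ
  obtain ⟨c', rfl⟩ := exists_cor κ'
  have hf : X.fc c = X.fc c' := by
    have h1 := (D.h1 _ _ _ h).2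
    have h2 := (D.h1 _ _ _ h').2
    have h3 : X.sK (X.cor c, false) = X.sK (X.cor c', false) := h1.trans h2.symm
    exact Sum.inr_injective h3
  obtain ⟨e, k, he, rfl⟩ := fc_orb' c c' hf
  rw [← he] at h
  have h1 := D.face_walk h4 ht hn k e σ τ h
  refine ⟨_, X.vt ((X.nx ^ k) e), ?_, Subtype.ext (D.inj_src h1 h')⟩
  have : D.πV σ = X.vt e := D.πV_eq (by rw [← (D.h1 _ _ _ h).1]; rfl)
  rw [this]
  exact walk_face k e

theorem true_of_VS {σ : D.S} {v : X.V} (hσ : D.π σ = Sum.inl v) {k : X.Cor × Bool} {τ : D.S}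
    (h : D.St σ k τ) : ∃ κ f, k = (κ, true) ∧ D.π τ = Sum.inr f := by
  obtain ⟨κ, b⟩ := k
  have h1 := D.h1 _ _ _ h
  cases b with
  | true => exact ⟨κ, X.fac κ, rfl, h1.2.symm⟩
  | false =>
    rw [hσ] at h1
    exact absurd h1.1 (by simp)

theorem false_of_FS {σ : D.S} {f : X.F} (hσ : D.π σ = Sum.inr f) {k : X.Cor × Bool} {τ : D.S}
    (h : D.St σ k τ) : ∃ κ v, k = (κ, false) ∧ D.π τ = Sum.inl v := by
  obtain ⟨κ, b⟩ := k
  have h1 := D.h1 _ _ _ h
  cases b with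
  | false => exact ⟨κ, X.vtx κ, rfl, h1.2.symm⟩
  | true =>
    rw [hσ] at h1
    exact absurd h1.1 (by simp)

theorem rel_all (h4 : X.C4) (ht : X.T4) (hn : X.NR) : ∃ ω0 : D.VS, ∀ ω : D.VS, D.Rel ω0 ω := by
  obtain ⟨σ0, hπ, hl, hu⟩ := D.h8
  -- the base vertex state
  obtain ⟨ω0, hω0⟩ : ∃ ω0 : D.VS, (ω0.1 = σ0 ∨ ∃ κ, D.St ω0.1 (κ, true) σ0) := by
    rcases hx : D.π σ0 with v | f
    · exact ⟨⟨σ0, v, hx⟩, Or.inl rfl⟩
    · obtain ⟨c, hc⟩ := X.fc_surj f
      obtain ⟨ρ, hρ⟩ := D.h4 σ0 (X.cor c, false) (by rw [hx, ← hc]; rfl)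
      exact ⟨⟨ρ, X.vt c, by rw [← (D.h1 _ _ _ hρ).2]; rfl⟩, Or.inr ⟨X.cor c, by
        simpa using D.h2 _ _ _ hρ⟩⟩
  refine ⟨ω0, ?_⟩
  have key : ∀ n (σ : D.S), D.lev σ = n →
      ∀ ω : D.VS, (ω.1 = σ ∨ ∃ κ, D.St ω.1 (κ, true) σ) → D.Rel ω0 ω := by
    intro n
    induction n with
    | zero =>
      intro σ hσ ω hω
      have := hu σ hσ
      subst this
      rcases hω0 with h0 | ⟨κ, h0⟩
      · rcases hω with h1 | ⟨κ', h1⟩
        · have : ω0 = ω := Subtype.ext (h0.trans h1.symm)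
          rw [this]; exact Rel.refl D ω
        · -- impossible: both vertex states
          have h2 := (D.h1 _ _ _ h1).2
          have h3 := D.πV_spec ω0
          rw [h0] at h3
          rw [h3] at h2
          exact absurd h2 (by simp)
      · rcases hω with h1 | ⟨κ', h1⟩
        · have h2 := (D.h1 _ _ _ h0).2
          have h3 := D.πV_spec ω
          rw [h1] at h3
          rw [h3] at h2
          exact absurd h2 (by simp)
        · exact D.rel_face h4 ht hn h0 h1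
    | succ n ih =>
      intro σ hσ ω hω
      obtain ⟨k, τ, hk, hlev⟩ := D.h9 σ (by omega)
      have hτ : D.lev τ = n := by omega
      rcases hω with h1 | ⟨κ', h1⟩
      · subst h1
        obtain ⟨κ, f, rfl, -⟩ := D.true_of_VS (D.πV_spec ω) hk
        exact ih τ hτ ω (Or.inr ⟨κ, hk⟩)
      · have hf : ∃ f, D.π σ = Sum.inr f := ⟨_, (D.h1 _ _ _ h1).2.symm⟩
        obtain ⟨f, hf⟩ := hf
        obtain ⟨κ, v, rfl, hv⟩ := D.false_of_FS hf hk
        have h2 := ih τ hτ ⟨τ, v, hv⟩ (Or.inl rfl)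
        have h3 : D.Rel ⟨τ, v, hv⟩ ω := D.rel_face h4 ht hn (κ := κ) (by
          simpa using D.h2 _ _ _ hk) h1
        exact Rel.trans D h4 ht hn h2 h3
  intro ω
  exact key _ ω.1 rfl ω (Or.inl rfl)

theorem π_inj (h4 : X.C4) (ht : X.T4) (hn : X.NR) (hs : X.SC) : Function.Injective D.π := by
  obtain ⟨ω0, hω0⟩ := D.rel_all h4 ht hn
  have hV : ∀ σ σ' : D.VS, D.π σ.1 = D.π σ'.1 → σ = σ' := by
    intro σ σ' h
    have hr : D.Rel σ σ' := Rel.trans D h4 ht hn (Rel.symm D h4 ht hn (hω0 σ)) (hω0 σ')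
    obtain ⟨p, v, hp, hpe⟩ := hr
    have h1 := D.walk_end h4 ht hn p σ v hp
    have h2 : D.πV σ' = D.πV σ := D.πV_eq (by rw [← h, D.πV_spec])
    rw [hpe, h2] at h1
    rw [← h1] at hp
    rw [← hpe, D.no_monodromy h4 ht hn hs σ p hp]
  intro τ τ' h
  rcases hx : D.π τ with v | f
  · have := hV ⟨τ, v, hx⟩ ⟨τ', v, by rw [← h, hx]⟩ h
    exact congrArg Subtype.val this
  · obtain ⟨c, hc⟩ := X.fc_surj f
    obtain ⟨σ, hσ⟩ := D.h4 τ (X.cor c, false) (by rw [hx, ← hc]; rfl)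
    obtain ⟨σ', hσ'⟩ := D.h4 τ' (X.cor c, false) (by rw [← h, hx, ← hc]; rfl)
    have e1 := (D.h1 _ _ _ hσ).2
    have e2 := (D.h1 _ _ _ hσ').2
    have := hV ⟨σ, _, e1.symm⟩ ⟨σ', _, e2.symm⟩ (e1.symm.trans e2)
    have := congrArg Subtype.val this
    simp only at this
    subst this
    exact D.inj_src hσ hσ'

theorem π_surj (h4 : X.C4) (ht : X.T4) (hn : X.NR) (hc : X.Conn) : Function.Surjective D.π := by
  obtain ⟨ω0, -⟩ := D.rel_all h4 ht hn
  have hV : ∀ v, ∃ σ, D.π σ = Sum.inl v := by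
    intro v
    obtain ⟨p, hp⟩ := hc (D.πV ω0) v
    have := D.walk_end h4 ht hn p ω0 v hp
    exact ⟨_, by rw [← this]; exact D.πV_spec _⟩
  rintro (v | f)
  · exact hV v
  · obtain ⟨c, rfl⟩ := X.fc_surj f
    obtain ⟨σ, hσ⟩ := hV (X.vt c)
    obtain ⟨τ, hτ⟩ := D.h4 σ (X.cor c, true) (by rw [hσ]; rfl)
    exact ⟨τ, by rw [← (D.h1 _ _ _ hτ).2]; rfl⟩

theorem adj_of_St {σ τ : D.S} {k : X.Cor × Bool} (h : D.St σ k τ) : X.Y.Adj (D.π σ) (D.π τ) := by
  obtain ⟨h1, h2⟩ := D.h1 _ _ _ h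
  obtain ⟨κ, b⟩ := k
  obtain ⟨c, rfl⟩ := exists_cor κ
  rw [← h1, ← h2]
  cases b with
  | true => exact Or.inl ⟨c, rfl, rfl⟩
  | false => exact Or.inr ⟨c, rfl, rfl⟩

theorem St_of_key (hi : Function.Injective D.π) {σ τ : D.S} {k : X.Cor × Bool}
    (h1 : X.sK k = D.π σ) (h2 : X.sK (X.rK k) = D.π τ) : D.St σ k τ := by
  obtain ⟨τ', hτ'⟩ := D.h4 σ k h1
  have := (D.h1 _ _ _ hτ').2
  rw [h2] at this
  rw [hi this]
  exact hτ'

end DD

theorem key_of_adj {a b : X.V ⊕ X.F} (h : X.Y.Adj a b) : ∃ k, X.sK k = a ∧ X.sK (X.rK k) = b := by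
  rcases h with ⟨c, rfl, rfl⟩ | ⟨c, rfl, rfl⟩
  · exact ⟨(X.cor c, true), rfl, rfl⟩
  · exact ⟨(X.cor c, false), rfl, rfl⟩

theorem adj_of_key (k : X.Cor × Bool) : X.Y.Adj (X.sK k) (X.sK (X.rK k)) := by
  obtain ⟨κ, b⟩ := k
  obtain ⟨c, rfl⟩ := exists_cor κ
  cases b with
  | true => exact Or.inl ⟨c, rfl, rfl⟩
  | false => exact Or.inr ⟨c, rfl, rfl⟩

/-- no double edges -/
theorem key_unique (h4 : X.C4) (ht : X.T4) (hn : X.NR) (hs : X.SC) (hc : X.Conn)
    {x0 : X.V ⊕ X.F} (D : X.DD x0) {k k' : X.Cor × Bool} (h1 : X.sK k = X.sK k')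
    (h2 : X.sK (X.rK k) = X.sK (X.rK k')) : k = k' := by
  have hi := D.π_inj h4 ht hn hs
  have hsu := D.π_surj h4 ht hn hc
  obtain ⟨σ, hσ⟩ := hsu (X.sK k)
  obtain ⟨τ, hτ⟩ := hsu (X.sK (X.rK k))
  exact D.h6 σ k k' τ (D.St_of_key hi hσ.symm hτ.symm)
    (D.St_of_key hi (by rw [← h1, hσ]) (by rw [← h2, hτ]))

/-! ### The incidence graph -/

theorem Y_vt_fc (c : X.C) : X.Y.Adj (Sum.inl (X.vt c)) (Sum.inr (X.fc c)) := Or.inl ⟨c, rfl, rfl⟩

theorem Y_connected (hne : Nonempty X.V) (hc : X.Conn) : X.Y.Connected := by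
  have hw : ∀ (p : List X.D) (u v : X.V), X.Walk u p v →
      X.Y.Reachable (Sum.inl u) (Sum.inl v) := by
    intro p
    induction p with
    | nil =>
      intro u v h
      have : u = v := h
      subst this
      exact SimpleGraph.Reachable.refl _
    | cons d p ih =>
      intro u v h
      obtain ⟨h1, h2⟩ := h
      refine SimpleGraph.Reachable.trans ?_ (ih _ _ h2)
      obtain ⟨c, rfl⟩ := X.rd_surj d
      have e1 : X.Y.Adj (Sum.inl u) (Sum.inr (X.fc c)) := by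
        rw [← h1]; exact Y_vt_fc c
      have e2 : X.Y.Adj (Sum.inr (X.fc c)) (Sum.inl (X.src (X.rev (X.rd c)))) := by
        rw [src_rev_rd, ← X.fc_nx]; exact (Y_vt_fc (X.nx c)).symm
      exact e1.reachable.trans e2.reachable
  have hvv : ∀ u v : X.V, X.Y.Reachable (Sum.inl u) (Sum.inl v) := by
    intro u v
    obtain ⟨p, hp⟩ := hc u v
    exact hw p u v hp
  obtain ⟨v0⟩ := hne
  have hall : ∀ a : X.V ⊕ X.F, X.Y.Reachable (Sum.inl v0) a := by
    rintro (v | f)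
    · exact hvv _ _
    · obtain ⟨c, rfl⟩ := X.fc_surj f
      exact (hvv v0 (X.vt c)).trans (Y_vt_fc c).reachable
  have : Nonempty (X.V ⊕ X.F) := ⟨Sum.inl v0⟩
  exact ⟨fun a b => (hall a).symm.trans (hall b)⟩

theorem Y_bip : ∃ col : X.V ⊕ X.F → Bool, ∀ a b, X.Y.Adj a b → col a ≠ col b := by
  refine ⟨Sum.elim (fun _ => true) (fun _ => false), ?_⟩
  rintro a b (⟨c, rfl, rfl⟩ | ⟨c, rfl, rfl⟩) <;> simp

/-- the level function is the distance from the base node -/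
theorem DD.lev_eq {x0 : X.V ⊕ X.F} (D : X.DD x0) (hcon : X.Y.Connected)
    (hi : Function.Injective D.π) (hsu : Function.Surjective D.π) (σ : D.S) :
    D.lev σ = X.Y.dist x0 (D.π σ) := by
  obtain ⟨σ0, hπ, hl, hu⟩ := D.h8
  apply le_antisymm
  · -- Lipschitz
    have key : ∀ (a b : X.V ⊕ X.F) (p : X.Y.Walk a b) (σ τ : D.S), D.π σ = a → D.π τ = b →
        D.lev τ ≤ D.lev σ + p.length := by
      intro a b p
      induction p with
      | nil =>
        intro σ τ h1 h2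
        have := hi (h1.trans h2.symm)
        subst this
        simp
      | cons h p ih =>
        rename_i u v w
        intro σ τ h1 h2
        obtain ⟨ρ, hρ⟩ := hsu v
        obtain ⟨k, hk1, hk2⟩ := key_of_adj h
        have hst := D.St_of_key hi (hk1.trans h1.symm) (hk2.trans hρ.symm)
        have h3 := D.h3 _ _ _ hst
        have h4 := ih ρ τ hρ h2
        rw [SimpleGraph.Walk.length_cons]
        omega
    obtain ⟨p, hp⟩ := hcon.exists_walk_length_eq_dist x0 (D.π σ)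
    have := key _ _ p σ0 σ hπ rfl
    omega
  · have key : ∀ n (σ : D.S), D.lev σ = n → X.Y.dist x0 (D.π σ) ≤ n := by
      intro n
      induction n with
      | zero =>
        intro σ hσ
        rw [hu σ hσ, hπ, SimpleGraph.dist_self]
      | succ n ih =>
        intro σ hσ
        obtain ⟨k, τ, hk, hlev⟩ := D.h9 σ (by omega)
        have h1 := ih τ (by omega)
        have h2 : X.Y.dist (D.π τ) (D.π σ) = 1 :=
          SimpleGraph.dist_eq_one_iff_adj.2 (D.adj_of_St hk).symm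
        have h3 := hcon.dist_triangle (u := x0) (v := D.π τ) (w := D.π σ)
        omega
    exact key _ σ rfl

/-- quadrangle condition with squares -/
theorem qcSq (h4 : X.C4) (ht : X.T4) (hn : X.NR) (hs : X.SC) (hne : Nonempty X.V) (hc : X.Conn)
    {x : X.V ⊕ X.F} (D : X.DD x) {v a b : X.V ⊕ X.F} (hab : a ≠ b) {k k' : X.Cor × Bool}
    (hk : X.sK k = v) (hk' : X.sK (X.rK k) = a) (hl : X.sK k' = v) (hl' : X.sK (X.rK k') = b)
    (h1 : X.Y.dist x a + 1 = X.Y.dist x v) (h2 : X.Y.dist x b + 1 = X.Y.dist x v) :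
    ∃ c m m', X.sK m = a ∧ X.sK (X.rK m) = c ∧ X.sK m' = b ∧ X.sK (X.rK m') = c ∧
      X.Y.dist x c + 2 = X.Y.dist x v ∧ X.SqK k m k' m' := by
  have hi := D.π_inj h4 ht hn hs
  have hsu := D.π_surj h4 ht hn hc
  have hcon := Y_connected hne hc
  have hlev := D.lev_eq hcon hi hsu
  obtain ⟨σ, rfl⟩ := hsu v
  obtain ⟨τ, rfl⟩ := hsu a
  obtain ⟨τ', rfl⟩ := hsu b
  have s1 := D.St_of_key hi hk hk'
  have s2 := D.St_of_key hi hl hl'
  rw [← hlev, ← hlev] at h1 h2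
  have hkk : k ≠ k' := by
    rintro rfl
    exact hab (hk'.symm.trans hl')
  obtain ⟨ρ, m, m', t1, t2, t3, t4⟩ := D.h10 σ k k' τ τ' hkk s1 s2 h1 h2
  refine ⟨D.π ρ, m, m', (D.h1 _ _ _ t1).1, (D.h1 _ _ _ t1).2, (D.h1 _ _ _ t2).1,
    (D.h1 _ _ _ t2).2, ?_, t4⟩
  rw [← hlev, ← hlev]
  omega

theorem dist_two (hcon : X.Y.Connected) {a b c : X.V ⊕ X.F} (h1 : X.Y.Adj a b) (h2 : X.Y.Adj b c)
    (hac : a ≠ c) : X.Y.dist a c = 2 := by
  have h3 : X.Y.dist a c ≤ 2 := by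
    have := hcon.dist_triangle (u := a) (v := b) (w := c)
    have e1 := SimpleGraph.dist_eq_one_iff_adj.2 h1
    have e2 := SimpleGraph.dist_eq_one_iff_adj.2 h2
    omega
  have h4 : X.Y.dist a c ≠ 0 := by
    intro h
    exact hac (hcon.dist_eq_zero_iff.1 h)
  have h5 : X.Y.dist a c ≠ 1 := by
    intro h
    have h6 := SimpleGraph.dist_eq_one_iff_adj.1 h
    obtain ⟨col, hcol⟩ := Y_bip (X := X)
    have e1 := hcol _ _ h1
    have e2 := hcol _ _ h2
    have e3 := hcol _ _ h6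
    revert e1 e2 e3
    cases col a <;> cases col b <;> cases col c <;> simp
  omega

/-- 4-cycles are squares -/
theorem sq_of_cycle (h4 : X.C4) (ht : X.T4) (hn : X.NR) (hs : X.SC) (hne : Nonempty X.V)
    (hc : X.Conn) (hD : ∀ x0, Nonempty (X.DD x0)) {v a b c : X.V ⊕ X.F} (hab : a ≠ b) (hvc : v ≠ c)
    {k k' m m' : X.Cor × Bool} (hk : X.sK k = v) (hk' : X.sK (X.rK k) = a) (hl : X.sK k' = v)
    (hl' : X.sK (X.rK k') = b) (hm : X.sK m = a) (hm' : X.sK (X.rK m) = c) (hn1 : X.sK m' = b)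
    (hn2 : X.sK (X.rK m') = c) : X.SqK k m k' m' := by
  have hcon := Y_connected hne hc
  obtain ⟨D⟩ := hD c
  have ava : X.Y.Adj v a := by rw [← hk, ← hk']; exact adj_of_key k
  have avb : X.Y.Adj v b := by rw [← hl, ← hl']; exact adj_of_key k'
  have aac : X.Y.Adj a c := by rw [← hm, ← hm']; exact adj_of_key m
  have abc : X.Y.Adj b c := by rw [← hn1, ← hn2]; exact adj_of_key m'
  have d1 : X.Y.dist c a = 1 := SimpleGraph.dist_eq_one_iff_adj.2 aac.symm
  have d2 : X.Y.dist c b = 1 := SimpleGraph.dist_eq_one_iff_adj.2 abc.symm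
  have d3 : X.Y.dist c v = 2 := dist_two hcon aac.symm ava.symm hvc.symm
  obtain ⟨c', n1, n2, e1, e2, e3, e4, e5, e6⟩ := qcSq h4 ht hn hs hne hc D hab hk hk' hl hl'
    (by omega) (by omega)
  have hcc : c = c' := hcon.dist_eq_zero_iff.1 (by omega)
  subst hcc
  have u1 : m = n1 := key_unique h4 ht hn hs hc D (hm.trans e1.symm) (hm'.trans e2.symm)
  have u2 : m' = n2 := key_unique h4 ht hn hs hc D (hn1.trans e3.symm) (hn2.trans e4.symm)
  rw [u1, u2]
  exact e6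

variable (X) in
/-- the results of C1 and C2 used below -/
structure Dev : Prop where
  path : ∀ {a a' b b' : X.Cor × Bool}, X.SqK a a' b b' →
    X.sK a = X.sK b ∧ X.sK a' = X.sK (X.rK a) ∧ X.sK b' = X.sK (X.rK b) ∧
      X.sK (X.rK a') = X.sK (X.rK b')
  H : ∀ {a b c a1 b1 b2 c2 c3 a3 : X.Cor × Bool}, X.SqK a a1 b b1 → X.SqK b b2 c c2 →
    X.SqK c c3 a a3 →
    (∃ c1, X.SqK a a1 c c1 ∧ X.SqK b b1 c c1) ∨ (∃ a2, X.SqK b b2 a a2 ∧ X.SqK c c2 a a2) ∨
    (∃ b3, X.SqK c c3 b b3 ∧ X.SqK a a3 b b3)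
  dd : ∀ x0, Nonempty (X.DD x0)

theorem no_c6 (h4 : X.C4) (ht : X.T4) (hn : X.NR) (hs : X.SC) (hne : Nonempty X.V) (hc : X.Conn)
    (hD : X.Dev) : ∀ a1 b1 a2 b2 a3 b3, a1 ≠ a2 → a2 ≠ a3 → a1 ≠ a3 → b1 ≠ b2 → b2 ≠ b3 → b1 ≠ b3 →
    X.Y.Adj a1 b1 → X.Y.Adj b1 a2 → X.Y.Adj a2 b2 → X.Y.Adj b2 a3 → X.Y.Adj a3 b3 → X.Y.Adj b3 a1 →
    X.Y.Adj a1 b2 ∨ X.Y.Adj a2 b3 ∨ X.Y.Adj a3 b1 := by
  intro a1 b1 a2 b2 a3 b3 n12 n23 n13 m12 m23 m13 h11 h12 h22 h23 h33 h31
  have hcon := Y_connected hne hc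
  by_cases hA : X.Y.Adj a1 b2
  · exact Or.inl hA
  right
  obtain ⟨D⟩ := hD.dd a1
  have da2 : X.Y.dist a1 a2 = 2 := dist_two hcon h11 h12 n12
  have da3 : X.Y.dist a1 a3 = 2 := dist_two hcon h31.symm h33.symm n13
  have db2 : X.Y.dist a1 b2 = 3 := by
    have e1 : X.Y.dist a1 b2 ≤ 3 := by
      have := hcon.dist_triangle (u := a1) (v := a2) (w := b2)
      have e2 := SimpleGraph.dist_eq_one_iff_adj.2 h22
      omega
    have e2 : X.Y.dist a1 b2 ≠ 1 := fun h => hA (SimpleGraph.dist_eq_one_iff_adj.1 h)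
    have e3 : 1 ≤ X.Y.dist a1 b2 := by
      have := hcon.dist_triangle (u := a1) (v := b2) (w := a2)
      have e2 := SimpleGraph.dist_eq_one_iff_adj.2 h22.symm
      omega
    have e4 : X.Y.dist a1 b2 ≠ 2 := by
      intro h
      obtain ⟨p, hp⟩ := hcon.exists_walk_length_eq_dist a1 b2
      rw [h] at hp
      obtain ⟨col, hcol⟩ := Y_bip (X := X)
      have c1 := hcol _ _ h11
      have c2 := hcol _ _ h12
      have c3 := hcol _ _ h22
      cases p with
      | nil => simp at hp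
      | cons h p =>
        cases p with
        | nil => simp at hp
        | cons h' p =>
          cases p with
          | nil =>
            have c4 := hcol _ _ h
            have c5 := hcol _ _ h'
            rename_i w
            revert c1 c2 c3 c4 c5
            cases col a1 <;> cases col b1 <;> cases col a2 <;> cases col b2 <;> cases col w <;> simp
          | cons h'' p => simp at hp
    omega
  obtain ⟨k, hk, hk'⟩ := key_of_adj h22.symm
  obtain ⟨l, hl, hl'⟩ := key_of_adj h23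
  obtain ⟨c, m, m', e1, e2, e3, e4, e5, -⟩ := qcSq h4 ht hn hs hne hc D n23 hk hk' hl hl'
    (by omega) (by omega)
  have dc : X.Y.dist a1 c = 1 := by omega
  have ac1 : X.Y.Adj c a1 := (SimpleGraph.dist_eq_one_iff_adj.1 dc).symm
  have ac2 : X.Y.Adj c a2 := by rw [← e1, ← e2]; exact (adj_of_key m).symm
  have ac3 : X.Y.Adj c a3 := by rw [← e3, ← e4]; exact (adj_of_key m').symm
  by_cases hb1 : c = b1
  · right; rw [← hb1]; exact ac3.symm
  by_cases hb3 : c = b3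
  · left; rw [← hb3]; exact ac2.symm
  have hb2 : c ≠ b2 := by
    rintro rfl
    omega
  obtain ⟨ka, ka1, ka2⟩ := key_of_adj ac1
  obtain ⟨kb, kb1, kb2⟩ := key_of_adj ac2
  obtain ⟨kc, kc1, kc2⟩ := key_of_adj ac3
  obtain ⟨p11, p11a, p11b⟩ := key_of_adj h11
  obtain ⟨p21, p21a, p21b⟩ := key_of_adj h12.symm
  obtain ⟨p22, p22a, p22b⟩ := key_of_adj h22
  obtain ⟨p32, p32a, p32b⟩ := key_of_adj h23.symm
  obtain ⟨p33, p33a, p33b⟩ := key_of_adj h33
  obtain ⟨p13, p13a, p13b⟩ := key_of_adj h31.symm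
  have q1 : X.SqK ka p11 kb p21 := sq_of_cycle h4 ht hn hs hne hc hD.dd n12 hb1 ka1 ka2 kb1 kb2
    p11a p11b p21a p21b
  have q2 : X.SqK kb p22 kc p32 := sq_of_cycle h4 ht hn hs hne hc hD.dd n23 hb2 kb1 kb2 kc1 kc2
    p22a p22b p32a p32b
  have q3 : X.SqK kc p33 ka p13 := sq_of_cycle h4 ht hn hs hne hc hD.dd n13.symm hb3 kc1 kc2 ka1 ka2
    p33a p33b p13a p13b
  rcases hD.H q1 q2 q3 with ⟨w, w1, -⟩ | ⟨w, w1, -⟩ | ⟨w, w1, -⟩
  · right
    obtain ⟨-, -, t3, t4⟩ := hD.path w1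
    rw [kc2] at t3
    rw [p11b] at t4
    rw [← t3, t4]
    exact adj_of_key w
  · exfalso
    obtain ⟨-, -, t3, t4⟩ := hD.path w1
    rw [ka2] at t3
    rw [p22b] at t4
    apply hA
    rw [← t3, t4]
    exact adj_of_key w
  · left
    obtain ⟨-, -, t3, t4⟩ := hD.path w1
    rw [kb2] at t3
    rw [p33b] at t4
    rw [← t3, t4]
    exact adj_of_key w

theorem Y_fin {N : ℕ} (hl : X.LF N) (hcon : X.Y.Connected) (x : X.V ⊕ X.F) (r : ℕ) :
    {y | X.Y.dist x y ≤ r}.Finite := by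
  have hnb : ∀ y : X.V ⊕ X.F, {z | X.Y.Adj y z}.Finite := by
    rintro (v | f)
    · refine ((hl v).2.2.1.image Sum.inr).subset ?_
      rintro z (⟨c, h1, rfl⟩ | ⟨c, rfl, h1⟩)
      · exact ⟨X.fc c, ⟨c, rfl, (Sum.inl_injective h1).symm⟩, rfl⟩
      · simp at h1
    · obtain ⟨c0, rfl⟩ := X.fc_surj f
      have hfin : ∀ c : X.C, {e | ∃ k : ℤ, e = (X.nx ^ k) c}.Finite := by
        intro c
        obtain ⟨n, hn, h⟩ := X.per c
        refine ((Set.finite_lt_nat n).image fun j : ℕ => (X.nx ^ j) c).subset ?_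
        rintro e ⟨k, rfl⟩
        obtain ⟨m, hm⟩ := zpow_nat c k
        refine ⟨m % n, Nat.mod_lt _ hn, ?_⟩
        rw [hm]
        have h0 : Function.IsFixedPt (X.nx ^ n) c := h
        have h1 := h0.perm_pow (m / n)
        conv_rhs => rw [← Nat.mod_add_div m n, pow_add, Equiv.Perm.mul_apply, pow_mul]
        rw [h1]
      refine (((hfin c0).union (hfin (X.op c0))).image fun c => Sum.inl (X.vt c)).subset ?_
      rintro z (⟨c, h1, rfl⟩ | ⟨c, rfl, h1⟩)
      · simp at h1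
      · obtain ⟨k, hk | hk⟩ := X.fc_orb c0 c (Sum.inr_injective h1)
        · exact ⟨c, Or.inl ⟨k, hk⟩, rfl⟩
        · exact ⟨c, Or.inr ⟨k, hk⟩, rfl⟩
  induction r with
  | zero =>
    refine (Set.finite_singleton x).subset ?_
    intro y hy
    have : X.Y.dist x y = 0 := by simpa using hy
    exact (hcon.dist_eq_zero_iff.1 this).symm
  | succ r ih =>
    refine (ih.union (ih.biUnion fun y _ => hnb y)).subset ?_
    intro z hz
    by_cases h : X.Y.dist x z ≤ r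
    · exact Or.inl h
    · right
      have hz' : X.Y.dist x z = r + 1 := by
        have : X.Y.dist x z ≤ r + 1 := hz
        omega
      obtain ⟨p, hp⟩ := hcon.exists_walk_length_eq_dist z x
      rw [SimpleGraph.dist_comm, hz'] at hp
      cases p with
      | nil => simp at hp
      | cons h p =>
        rename_i w
        refine Set.mem_biUnion (x := w) ?_ h.symm
        have h1 : p.length = r := by simpa using hp
        have h2 := SimpleGraph.dist_le p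
        rw [SimpleGraph.dist_comm, h1] at h2
        exact h2

/-- Module C3 -/
theorem good_of_dev (X : GC.{u}) (N : ℕ) (h4 : X.C4) (ht : X.T4) (hn : X.NR) (hne : Nonempty X.V)
    (hc : X.Conn) (hs : X.SC) (hl : X.LF N) (hD : X.Dev) : X.Good N := by
  have hcon := Y_connected hne hc
  refine ⟨hne, hc, hl, ⟨hcon, Y_bip, ?_, no_c6 h4 ht hn hs hne hc hD, Y_fin hl hcon⟩, ?_, ?_⟩
  · intro x v a b hab hva hvb h1 h2
    obtain ⟨D⟩ := hD.dd x
    obtain ⟨k, hk, hk'⟩ := key_of_adj hva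
    obtain ⟨l, hl, hl'⟩ := key_of_adj hvb
    obtain ⟨c, m, m', e1, e2, e3, e4, e5, -⟩ := qcSq h4 ht hn hs hne hc D hab hk hk' hl hl' h1 h2
    refine ⟨c, ?_, ?_, e5⟩
    · rw [← e1, ← e2]; exact adj_of_key m
    · rw [← e3, ← e4]; exact adj_of_key m'
  · intro c c' h1 h2
    obtain ⟨v0⟩ := hne
    obtain ⟨D⟩ := hD.dd (Sum.inl v0)
    have : (X.cor c, true) = (X.cor c', true) := key_unique h4 ht hn hs hc D
      (by simp [h2]) (by simp [h1])
    exact cor_eq_iff.1 (congrArg Prod.fst this)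
  · intro f g u v hfg huv huf hvf hug hvg
    obtain ⟨k1, a1, a2⟩ := key_of_adj huf
    obtain ⟨k2, b1, b2⟩ := key_of_adj hvf.symm
    obtain ⟨k3, c1, c2⟩ := key_of_adj hug
    obtain ⟨k4, d1, d2⟩ := key_of_adj hvg.symm
    have hsq : X.SqK k1 k2 k3 k4 := sq_of_cycle h4 ht hn hs hne hc hD.dd (v := Sum.inl u)
      (a := Sum.inr f) (b := Sum.inr g) (c := Sum.inl v) (fun h => hfg (Sum.inr_injective h))
      (fun h => huv (Sum.inl_injective h)) a1 a2 c1 c2 b1 b2 d1 d2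
    obtain ⟨κ1, β1⟩ := k1
    obtain ⟨κ2, β2⟩ := k2
    obtain ⟨κ3, β3⟩ := k3
    obtain ⟨κ4, β4⟩ := k4
    have hβ1 : β1 = true := by
      cases β1 with
      | true => rfl
      | false => simp at a1
    subst hβ1
    have hβ2 : β2 = false := by
      cases β2 with
      | false => rfl
      | true => simp at b1
    subst hβ2
    have hβ3 : β3 = true := by
      cases β3 with
      | true => rfl
      | false => simp at c1
    subst hβ3
    have hβ4 : β4 = false := by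
      cases β4 with
      | false => rfl
      | true => simp at d1
    subst hβ4
    obtain ⟨-, -, -, hq⟩ := hsq
    simp only [if_true] at hq
    obtain ⟨c, c', k, q1, q2, q3, q4, q5, q6, q7⟩ := hq
    subst q1 q2 q3 q4
    simp only [sK_true, sK_false, rK_mk, Bool.not_true, Bool.not_false, vtx_cor, fac_cor,
      Sum.inl.injEq, Sum.inr.injEq] at a1 a2 b1 b2 c1 c2 d1 d2
    refine ⟨c, c', k, a2, c2, a1, q5, ?_, b2, c1, d2⟩
    rcases Nat.eq_zero_or_pos k with rfl | h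
    · exact absurd rfl q7
    · exact h

end GC

end PropA
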