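import Mathlib

/-!
# Small cancellation complexes and Property A

Definitions used in the statements for MP_db4510_al.

A combinatorial 2-complex is given by vertices, darts (oriented edges) and 2-cells.  The 2-cells are
attached along arbitrary closed edge paths: they need not be embedded, may be proper powers, and their
lengths need not be bounded.

The condition T(4) is stated on corners: there are no three corners of 2-cells which close up around a
vertex such that at each of the three edges the two sides are essentially different.  If such corners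
exist in a complex which satisfies C(4), then the three 2-cells have perimeter at least three, and
gluing them around the vertex gives a reduced disc diagram with an interior vertex of degree three.
So `C4` and `T4` hold in every complex which satisfies C(4) and T(4) in the diagram form.
-/

namespace PropA

universe u

/-- Property A (Yu) of a metric space with integer-valued distance. -/
def PropertyA {V : Type u} (d : V → V → ℕ) : Prop :=
  ∀ R ε : ℝ, 0 < R → 0 < ε → ∃ S : ℝ, 0 < S ∧ ∃ A : V → Finset (V × ℕ),
    (∀ x, (A x).Nonempty) ∧ (∀ x, ∀ p ∈ A x, (d x p.1 : ℝ) ≤ S) ∧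
    ∀ x y, (d x y : ℝ) ≤ R →
      open Classical in ((symmDiff (A x) (A y)).card : ℝ) < ε * ((A x ∩ A y).card : ℝ)

/-- Coarse embedding into a Hilbert space. -/
def CoarseEmb {V : Type u} (d : V → V → ℕ) : Prop :=
  ∃ (H : Type u) (_ : NormedAddCommGroup H) (_ : InnerProductSpace ℝ H) (_ : CompleteSpace H)
    (f : V → H) (ρm ρp : NNReal → NNReal), Monotone ρm ∧ Monotone ρp ∧
    Filter.Tendsto ρm Filter.atTop Filter.atTop ∧
    ∀ x y, (ρm (d x y) : ℝ) ≤ ‖f x - f y‖ ∧ ‖f x - f y‖ ≤ (ρp (d x y) : ℝ)

/-! ### Combinatorial 2-complexes -/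

/-- A 2-dimensional CW complex with combinatorial attaching maps.  Edges are pairs `{d, rev d}` of
darts; the 2-cell `f` is attached along the closed path `bd f 0, bd f 1, ..., bd f (len f - 1)`. -/
structure Cpx where
  V : Type u
  D : Type u
  F : Type u
  src : D → V
  rev : D → D
  rev_rev : ∀ d, rev (rev d) = d
  rev_ne : ∀ d, rev d ≠ d
  len : F → ℕ
  len_pos : ∀ f, 0 < len f
  bd : (f : F) → ZMod (len f) → D
  bd_path : ∀ f i, src (rev (bd f i)) = src (bd f (i + 1))

namespace Cpx

variable (X : Cpx.{u})

/-- A place on the boundary of a 2-cell together with a direction of reading. -/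
def Occ : Type u := Σ f : X.F, ZMod (X.len f) × Bool

/-- the `j`-th dart read from the place `o` -/
def rdAt (o : X.Occ) (j : ℕ) : X.D :=
  match o with
  | ⟨f, i, true⟩ => X.bd f (i + j)
  | ⟨f, i, false⟩ => X.rev (X.bd f (i - 1 - j))

/-- same corner, opposite direction -/
def flip (o : X.Occ) : X.Occ := ⟨o.1, o.2.1, !o.2.2⟩

/-- Two places are essentially different if they are in different 2-cells or if they are not related
by a symmetry of the 2-cell. -/
def EssDiff (o o' : X.Occ) : Prop := ¬ (o.1 = o'.1 ∧ ∀ j, X.rdAt o j = X.rdAt o' j)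

/-- pieces -/
def IsPiece (p : List X.D) : Prop := p ≠ [] ∧ ∃ o o' : X.Occ, X.EssDiff o o' ∧
  ∀ (j : ℕ) (h : j < p.length), p[j] = X.rdAt o j ∧ p[j] = X.rdAt o' j

/-- the boundary path of a 2-cell read from a place -/
def bdPath (o : X.Occ) : List X.D := List.ofFn fun j : Fin (X.len o.1) => X.rdAt o j

/-- C(4) -/
def C4 : Prop := ∀ (o : X.Occ) (L : List (List X.D)), L.length < 4 → (∀ p ∈ L, X.IsPiece p) →
  L.flatten ≠ X.bdPath o

/-- T(4): no three corners of 2-cells fit together around an interior vertex of degree three of a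
reduced diagram. -/
def T4 : Prop := ∀ o1 o2 o3 : X.Occ,
  X.rdAt (X.flip o1) 0 = X.rdAt o2 0 → X.EssDiff (X.flip o1) o2 →
  X.rdAt (X.flip o2) 0 = X.rdAt o3 0 → X.EssDiff (X.flip o2) o3 →
  X.rdAt (X.flip o3) 0 = X.rdAt o1 0 → X.EssDiff (X.flip o3) o1 → False

/-- edge paths -/
def IsPath : X.V → List X.D → X.V → Prop
  | u, [], v => u = v
  | u, d :: p, v => X.src d = u ∧ IsPath (X.src (X.rev d)) p v

/-- deletion of a backtrack or of the boundary path of a 2-cell -/
def Elem (p q : List X.D) : Prop := ∃ a l b, p = a ++ l ++ b ∧ q = a ++ b ∧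
  ((∃ d, l = [d, X.rev d]) ∨ ∃ o, l = X.bdPath o)

/-- simple connectedness (edge path group) -/
def SimplyConnected : Prop := Nonempty X.V ∧ (∀ u v, ∃ p, X.IsPath u p v) ∧
  ∀ v p, X.IsPath v p v →
    Relation.EqvGen (fun p q => (X.IsPath v p v ∧ X.IsPath v q v) ∧ X.Elem p q) p []

/-- uniform local finiteness -/
def ULF : Prop := ∃ N : ℕ, ∀ v, {d | X.src d = v}.Finite ∧ {d | X.src d = v}.ncard ≤ N ∧
  {f | ∃ i, X.src (X.bd f i) = v}.Finite ∧ {f | ∃ i, X.src (X.bd f i) = v}.ncard ≤ N

/-- the 1-skeleton as a simple graph (loops and multiplicities do not matter for the metric) -/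
def gr : SimpleGraph X.V where
  Adj u v := u ≠ v ∧ ∃ d, X.src d = u ∧ X.src (X.rev d) = v
  symm := ⟨by
    rintro u v ⟨h, d, h1, h2⟩
    exact ⟨h.symm, X.rev d, h2, by rw [X.rev_rev]; exact h1⟩⟩
  loopless := ⟨fun _ h => h.1 rfl⟩

end Cpx

end PropA
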