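import Pool.Agent.PropA.Defs

/-! Module D1: faces, ends of common arcs. -/

namespace PropA

universe u

namespace GC

variable {X : GC.{u}}

theorem Yadj_lr {v : X.V} {f : X.F} :
    X.Y.Adj (Sum.inl v) (Sum.inr f) ↔ ∃ c, X.fc c = f ∧ X.vt c = v := by
  constructor
  · rintro (⟨c, h1, h2⟩ | ⟨c, h1, h2⟩)
    · exact ⟨c, (Sum.inr.inj h2).symm, (Sum.inl.inj h1).symm⟩
    · simp at h1
  · rintro ⟨c, rfl, rfl⟩
    exact Or.inl ⟨c, rfl, rfl⟩

theorem Yadj_ll {u v : X.V} : ¬ X.Y.Adj (Sum.inl u) (Sum.inl v) := by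
  rintro (⟨c, h1, h2⟩ | ⟨c, h1, h2⟩) <;> simp at h2

theorem Yadj_rr {f g : X.F} : ¬ X.Y.Adj (Sum.inr f) (Sum.inr g) := by
  rintro (⟨c, h1, h2⟩ | ⟨c, h1, h2⟩) <;> simp at h1

theorem vt_opD (c : X.C) : X.vt (X.op c) = X.vt c := X.src_op c

theorem op_nx_eqD (c : X.C) : X.op (X.nx c) = X.nx.symm (X.op c) := by
  rw [Equiv.eq_symm_apply]
  have := congrArg X.op (X.op_nx c)
  rw [X.op_op] at this
  exact this

theorem vt_nx (c : X.C) : X.vt (X.nx c) = X.src (X.rev (X.rd c)) := by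
  rw [← vt_opD, vt, X.rd_rev]

theorem fc_nx_pow (c : X.C) (k : ℕ) : X.fc ((X.nx ^ k) c) = X.fc c := by
  induction k with
  | zero => rfl
  | succ k ih => rw [pow_succ', Equiv.Perm.mul_apply, X.fc_nx, ih]

theorem nx_pow_succ (c : X.C) (k : ℕ) : (X.nx ^ (k + 1)) c = X.nx ((X.nx ^ k) c) := by
  rw [pow_succ', Equiv.Perm.mul_apply]

/-- the dart `d` is read on the face `f` -/
def On (X : GC.{u}) (f : X.F) (d : X.D) : Prop := ∃ c, X.fc c = f ∧ X.rd c = d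

theorem On.rev {f : X.F} {d : X.D} (h : X.On f d) : X.On f (X.rev d) := by
  obtain ⟨c, h1, h2⟩ := h
  exact ⟨X.op (X.nx c), by rw [X.fc_op, X.fc_nx, h1], by rw [X.rd_rev, h2]⟩

theorem On.src {f : X.F} {d : X.D} (h : X.On f d) : X.Y.Adj (Sum.inl (X.src d)) (Sum.inr f) := by
  obtain ⟨c, h1, h2⟩ := h
  exact Yadj_lr.2 ⟨c, h1, by rw [vt, h2]⟩

theorem On.tgt {f : X.F} {d : X.D} (h : X.On f d) :
    X.Y.Adj (Sum.inl (X.src (X.rev d))) (Sum.inr f) := h.rev.src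

/-- ends of the intersection of `h` and `f`, seen on `h` -/
def Ends (X : GC.{u}) (f h : X.F) : Set X.V :=
  {u | X.Y.Adj (Sum.inl u) (Sum.inr f) ∧ ∃ c, X.fc c = h ∧ X.vt c = u ∧ ¬ X.On f (X.rd c)}

theorem Ends.adj {f h : X.F} {u : X.V} (hu : u ∈ X.Ends f h) :
    X.Y.Adj (Sum.inl u) (Sum.inr h) := by
  obtain ⟨_, c, h1, h2, _⟩ := hu
  exact Yadj_lr.2 ⟨c, h1, h2⟩

variable {N : ℕ}

/-- from an end of `h ∩ f` the common arc to any other common vertex starts in the direction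
opposite to the free dart -/
theorem Good.end_arc (hX : X.Good N) {f h : X.F} (hfh : h ≠ f) {u v : X.V} (huv : u ≠ v)
    {e : X.C} (he1 : X.fc e = h) (he2 : X.vt e = u) (he3 : ¬ X.On f (X.rd e))
    (huf : X.Y.Adj (Sum.inl u) (Sum.inr f)) (hvf : X.Y.Adj (Sum.inl v) (Sum.inr f))
    (hvh : X.Y.Adj (Sum.inl v) (Sum.inr h)) :
    ∃ k : ℕ, 0 < k ∧ X.vt ((X.nx ^ k) (X.op e)) = v ∧
      ∀ j < k, X.On f (X.rd ((X.nx ^ j) (X.op e))) := by
  obtain ⟨c, c', k, h1, h2, h3, h4, h5, h6, -, -⟩ := hX.arc h f u v hfh huv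
    (Yadj_lr.2 ⟨e, he1, he2⟩) hvh huf hvf
  have hon : ∀ j < k, X.On f (X.rd ((X.nx ^ j) c)) := fun j hj => by
    rw [h4 j hj]
    exact ⟨_, by rw [fc_nx_pow, h2], rfl⟩
  have hc : c = X.op e := by
    rcases hX.emb e c (by rw [he1, h1]) (by rw [he2, h3]) with h | h
    · exfalso
      apply he3
      have := hon 0 h5
      rwa [pow_zero, Equiv.Perm.one_apply, h] at this
    · exact h
  subst hc
  exact ⟨k, h5, h6, hon⟩

theorem Good.ends_card (hX : X.Good N) {f h : X.F} (hfh : h ≠ f) {u1 u2 u3 : X.V}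
    (h1 : u1 ∈ X.Ends f h) (h2 : u2 ∈ X.Ends f h) (h3 : u3 ∈ X.Ends f h) (h12 : u1 ≠ u2)
    (h13 : u1 ≠ u3) (h23 : u2 ≠ u3) : False := by
  obtain ⟨a1, e1, b1, c1, d1⟩ := h1
  -- the cursor at `u2`, and the fact that both darts of `h` at an intermediate vertex are on `f`
  have key : ∀ (v w : X.V) (kv kw : ℕ), v ∈ X.Ends f h → kv < kw → 0 < kv →
      X.vt ((X.nx ^ kv) (X.op e1)) = v →
      (∀ j < kw, X.On f (X.rd ((X.nx ^ j) (X.op e1)))) → False := by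
    intro v w kv kw hv hlt hpos hvt hon
    obtain ⟨av, ev, bv, cv, dv⟩ := hv
    have hfc : X.fc ((X.nx ^ kv) (X.op e1)) = X.fc ev := by
      rw [fc_nx_pow, X.fc_op, b1, bv]
    rcases hX.emb _ ev hfc (by rw [hvt, cv]) with h | h
    · apply dv
      rw [h]
      exact hon kv hlt
    · apply dv
      obtain ⟨m, rfl⟩ := Nat.exists_eq_succ_of_ne_zero hpos.ne'
      rw [h, Nat.succ_eq_add_one, nx_pow_succ, X.rd_rev]
      exact (hon m (by omega)).rev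
  obtain ⟨k2, p2, q2, r2⟩ := hX.end_arc hfh h12 b1 c1 d1 a1 h2.1 (Ends.adj h2)
  obtain ⟨k3, p3, q3, r3⟩ := hX.end_arc hfh h13 b1 c1 d1 a1 h3.1 (Ends.adj h3)
  rcases lt_trichotomy k2 k3 with hlt | heq | hlt
  · exact key u2 u3 k2 k3 h2 hlt p2 q2 r3
  · subst heq
    exact h23 (q2.symm.trans q3)
  · exact key u3 u2 k3 k2 h3 hlt p3 q3 r2

/-- walking from a vertex outside `f` to a vertex of `f` along a common arc of `g` and `g'` -/
theorem Good.common_end (hX : X.Good N) {f g g' : X.F} (hgg : g ≠ g') {u w : X.V}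
    (hug : X.Y.Adj (Sum.inl u) (Sum.inr g)) (hug' : X.Y.Adj (Sum.inl u) (Sum.inr g'))
    (huf : X.Y.Adj (Sum.inl u) (Sum.inr f))
    (hwg : X.Y.Adj (Sum.inl w) (Sum.inr g)) (hwg' : X.Y.Adj (Sum.inl w) (Sum.inr g'))
    (hwf : ¬ X.Y.Adj (Sum.inl w) (Sum.inr f)) :
    ∃ a, a ∈ X.Ends f g ∧ a ∈ X.Ends f g' := by
  classical
  have hwu : w ≠ u := by
    rintro rfl
    exact hwf huf
  obtain ⟨c, c', k, h1, h2, h3, h4, h5, h6, h7, h8⟩ := hX.arc g g' w u hgg hwu hwg hug hwg' hug'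
  have hex : ∃ j, X.Y.Adj (Sum.inl (X.vt ((X.nx ^ j) c))) (Sum.inr f) := ⟨k, by rw [h6]; exact huf⟩
  have hj := Nat.find_spec hex
  set j := Nat.find hex with hjdef
  have hjk : j ≤ k := Nat.find_min' hex (by rw [h6]; exact huf)
  have hj0 : j ≠ 0 := by
    intro h0
    rw [h0, pow_zero, Equiv.Perm.one_apply, h3] at hj
    exact hwf hj
  obtain ⟨m, hm⟩ := Nat.exists_eq_succ_of_ne_zero hj0
  have hmin : ¬ X.Y.Adj (Sum.inl (X.vt ((X.nx ^ m) c))) (Sum.inr f) :=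
    Nat.find_min hex (by omega)
  have hrd : X.rd ((X.nx ^ m) c) = X.rd ((X.nx ^ m) c') := h4 m (by omega)
  have hno : ¬ X.On f (X.rev (X.rd ((X.nx ^ m) c))) := by
    intro hon
    apply hmin
    have := hon.tgt
    rwa [X.rev_rev] at this
  refine ⟨X.vt ((X.nx ^ j) c), ⟨hj, X.op ((X.nx ^ j) c), ?_, ?_, ?_⟩,
    ⟨hj, X.op ((X.nx ^ j) c'), ?_, ?_, ?_⟩⟩
  · rw [X.fc_op, fc_nx_pow, h1]
  · rw [vt_opD]
  · rw [hm, Nat.succ_eq_add_one, nx_pow_succ, X.rd_rev]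
    exact hno
  · rw [X.fc_op, fc_nx_pow, h2]
  · rw [vt_opD, hm, Nat.succ_eq_add_one, nx_pow_succ, nx_pow_succ, vt_nx, vt_nx, hrd]
  · rw [hm, Nat.succ_eq_add_one, nx_pow_succ, X.rd_rev, ← hrd]
    exact hno

theorem nx_zpow_nat (c : X.C) (k : ℤ) : ∃ m : ℕ, (X.nx ^ k) c = (X.nx ^ m) c := by
  obtain ⟨n, hn, hc⟩ := X.per c
  have hmul : ∀ t : ℤ, (X.nx ^ ((n : ℤ) * t)) c = c := by
    intro t
    rw [zpow_mul, zpow_natCast]
    exact Equiv.Perm.zpow_apply_eq_self_of_apply_eq_self hc t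
  refine ⟨(k % (n : ℤ)).toNat, ?_⟩
  have h0 : 0 ≤ k % (n : ℤ) := Int.emod_nonneg _ (by omega)
  have : k = (k % (n : ℤ)) + (n : ℤ) * (k / (n : ℤ)) := (Int.emod_add_mul_ediv k n).symm
  conv_lhs => rw [this, zpow_add, Equiv.Perm.mul_apply, hmul]
  conv_lhs => rw [← Int.toNat_of_nonneg h0, zpow_natCast]

/-- two cursors of the same face: up to direction the second is reached from the first -/
theorem reach (c c' : X.C) (h : X.fc c = X.fc c') :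
    ∃ k : ℕ, c' = (X.nx ^ k) c ∨ c' = (X.nx ^ k) (X.op c) := by
  obtain ⟨k, h1 | h1⟩ := X.fc_orb c c' h
  · obtain ⟨m, hm⟩ := nx_zpow_nat c k
    exact ⟨m, Or.inl (h1.trans hm)⟩
  · obtain ⟨m, hm⟩ := nx_zpow_nat (X.op c) k
    exact ⟨m, Or.inr (h1.trans hm)⟩

theorem Good.ends_nonempty {f g : X.F} {u w : X.V}
    (hug : X.Y.Adj (Sum.inl u) (Sum.inr g))
    (huf : X.Y.Adj (Sum.inl u) (Sum.inr f))
    (hwg : X.Y.Adj (Sum.inl w) (Sum.inr g))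
    (hwf : ¬ X.Y.Adj (Sum.inl w) (Sum.inr f)) :
    (X.Ends f g).Nonempty := by
  classical
  obtain ⟨c0, h1, h3⟩ := Yadj_lr.1 hwg
  obtain ⟨cu, h1u, h3u⟩ := Yadj_lr.1 hug
  -- a cursor at `w` from which `u` is reached
  have hc : ∃ c, X.fc c = g ∧ X.vt c = w ∧ ∃ k : ℕ, X.vt ((X.nx ^ k) c) = u := by
    obtain ⟨k, hk | hk⟩ := reach c0 cu (h1.trans h1u.symm)
    · exact ⟨c0, h1, h3, k, by rw [← hk, h3u]⟩
    · exact ⟨X.op c0, by rw [X.fc_op, h1], by rw [vt_opD, h3], k, by rw [← hk, h3u]⟩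
  obtain ⟨c, h1, h3, k, h6⟩ := hc
  have hex : ∃ j, X.Y.Adj (Sum.inl (X.vt ((X.nx ^ j) c))) (Sum.inr f) := ⟨k, by rw [h6]; exact huf⟩
  have hj := Nat.find_spec hex
  set j := Nat.find hex with hjdef
  have hj0 : j ≠ 0 := by
    intro h0
    rw [h0, pow_zero, Equiv.Perm.one_apply, h3] at hj
    exact hwf hj
  obtain ⟨m, hm⟩ := Nat.exists_eq_succ_of_ne_zero hj0
  have hmin : ¬ X.Y.Adj (Sum.inl (X.vt ((X.nx ^ m) c))) (Sum.inr f) :=
    Nat.find_min hex (by omega)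
  have hno : ¬ X.On f (X.rev (X.rd ((X.nx ^ m) c))) := by
    intro hon
    apply hmin
    have := hon.tgt
    rwa [X.rev_rev] at this
  refine ⟨X.vt ((X.nx ^ j) c), hj, X.op ((X.nx ^ j) c), ?_, ?_, ?_⟩
  · rw [X.fc_op, fc_nx_pow, h1]
  · rw [vt_opD]
  · rw [hm, Nat.succ_eq_add_one, nx_pow_succ, X.rd_rev]
    exact hno

end GC

end PropA
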