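import Pool.Agent.PropA.D1
import Pool.Agent.PropA.A1

/-! Module D2: bounded local degree of odd slices. -/

namespace PropA

universe u

namespace GC

variable {X : GC.{u}} {N : ℕ}

theorem walk_parity {a b : X.V ⊕ X.F} (p : X.Y.Walk a b) :
    Even p.length ↔ (a.isLeft = b.isLeft) := by
  induction p with
  | nil => simp
  | @cons u v w h p ih =>
    rw [SimpleGraph.Walk.length_cons, Nat.even_add_one, ih]
    rcases u with u | u <;> rcases v with v | v
    · exact absurd h Yadj_ll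
    · rcases w with w | w <;> simp
    · rcases w with w | w <;> simp
    · exact absurd h Yadj_rr

theorem Good.even_dist (hX : X.Good N) (a b : X.V ⊕ X.F) :
    Even (X.Y.dist a b) ↔ (a.isLeft = b.isLeft) := by
  obtain ⟨p, hp⟩ := hX.hm.conn.exists_walk_length_eq_dist a b
  rw [← hp]
  exact walk_parity p

theorem Good.adj_of_dist (hX : X.Good N) {a b : X.V ⊕ X.F} (h : X.Y.dist a b ≤ 1)
    (he : ¬ Even (X.Y.dist a b)) : X.Y.Adj a b := by
  rw [← SimpleGraph.dist_eq_one_iff_adj]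
  rcases Nat.le_one_iff_eq_zero_or_eq_one.1 h with h0 | h1
  · rw [h0] at he
    exact absurd (by simp : Even 0) he
  · exact h1

theorem Good.dist_tri (hX : X.Good N) (a b c : X.V ⊕ X.F) :
    X.Y.dist a c ≤ X.Y.dist a b + X.Y.dist b c := hX.hm.conn.dist_triangle

theorem Good.adj_dist (hX : X.Good N) {a b : X.V ⊕ X.F} (h : X.Y.Adj a b) (x) :
    X.Y.dist x b ≤ X.Y.dist x a + 1 ∧ X.Y.dist x a ≤ X.Y.dist x b + 1 := by
  have h1 := hX.dist_tri x a b
  have h2 := hX.dist_tri x b a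
  rw [SimpleGraph.dist_eq_one_iff_adj.2 h] at h1
  rw [SimpleGraph.dist_eq_one_iff_adj.2 h.symm] at h2
  exact ⟨h1, h2⟩

/-- faces at a vertex -/
theorem Good.faces_card (hX : X.Good N) (v : X.V) :
    {b : X.V ⊕ X.F | X.Y.Adj (Sum.inl v) b}.Finite ∧
      {b : X.V ⊕ X.F | X.Y.Adj (Sum.inl v) b}.ncard ≤ N := by
  obtain ⟨-, -, h1, h2⟩ := hX.lf v
  have hsub : {b : X.V ⊕ X.F | X.Y.Adj (Sum.inl v) b} =
      Sum.inr '' {f | ∃ c, X.fc c = f ∧ X.vt c = v} := by
    ext b
    rcases b with b | b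
    · simp [Yadj_ll]
    · simp [Yadj_lr]
  rw [hsub]
  exact ⟨h1.image _, (Set.ncard_image_le h1).trans h2⟩

theorem Good.TB (hX : X.Good N) (v0 : X.V) (x : X.V ⊕ X.F) (i : ℕ) (g : X.V ⊕ X.F) (hi : Odd i)
    (hix : i < X.Y.dist (Sum.inl v0) x) (hx : Even (X.Y.dist (Sum.inl v0) x))
    (hg : g ∈ Sl X.Y (Sum.inl v0) x i) :
    {g' | g' ∈ Sl X.Y (Sum.inl v0) x i ∧ X.Y.dist g g' ≤ 2}.ncard ≤ 2 * N := by
  classical
  set x0 : X.V ⊕ X.F := Sum.inl v0 with hx0
  have hxl : x.isLeft = true := by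
    have := (hX.even_dist x0 x).1 hx
    rw [hx0] at this
    simpa using this.symm
  -- elements of the slice are faces
  have hface : ∀ g' ∈ Sl X.Y x0 x i, ∃ f, g' = Sum.inr f := by
    intro g' hg'
    rcases g' with a | f
    · exfalso
      have h1 : Even (X.Y.dist x0 (Sum.inl a)) := by
        rw [hX.even_dist]
        rfl
      rw [hg'.1] at h1
      exact (Nat.not_even_iff_odd.2 hi) h1
    · exact ⟨f, rfl⟩
  obtain ⟨g0, rfl⟩ := hface g hg
  -- upper and lower neighbours common with `g'`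
  have hlow : ∀ g' ∈ Sl X.Y x0 x i, X.Y.dist (Sum.inr g0) g' ≤ 2 →
      ∃ u : X.V, X.Y.Adj (Sum.inl u) (Sum.inr g0) ∧ X.Y.Adj (Sum.inl u) g' ∧
        X.Y.dist x0 (Sum.inl u) + 1 = i := by
    intro g' hg' hd
    obtain ⟨w, hw⟩ := hX.hm.helly
      ({(Sum.inr g0, 1), (g', 1), (x0, i - 1)} : Set ((X.V ⊕ X.F) × ℕ))
      (by simp) x0 (by
        have h1 := hg.1
        have h2 := hg'.1
        intro p hp
        simp only [Set.mem_insert_iff, Set.mem_singleton_iff] at hp
        obtain ⟨t, rfl⟩ := hi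
        rcases hp with rfl | rfl | rfl
        · simp only; rw [h1]; exact ⟨t + 1, by ring⟩
        · simp only; rw [h2]; exact ⟨t + 1, by ring⟩
        · simp) (by
        have h1 := hg.1
        have h2 := hg'.1
        have h3 : X.Y.dist (Sum.inr g0) x0 = i := by rw [SimpleGraph.dist_comm]; exact h1
        have h4 : X.Y.dist g' x0 = i := by rw [SimpleGraph.dist_comm]; exact h2
        have h5 : X.Y.dist g' (Sum.inr g0) ≤ 2 := by rw [SimpleGraph.dist_comm]; exact hd
        have hi1 : 1 ≤ i := by obtain ⟨t, rfl⟩ := hi; omega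
        intro p hp q hq
        simp only [Set.mem_insert_iff, Set.mem_singleton_iff] at hp hq
        rcases hp with rfl | rfl | rfl <;> rcases hq with rfl | rfl | rfl <;>
          simp only [SimpleGraph.dist_self] <;> omega)
    have w1 := hw (Sum.inr g0, 1) (by simp)
    have w2 := hw (g', 1) (by simp)
    have w3 := hw (x0, i - 1) (by simp)
    simp only at w1 w2 w3
    have a1 : X.Y.Adj w (Sum.inr g0) := hX.adj_of_dist w1.1 (by
      have := w1.2
      rwa [Nat.even_add_one] at this)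
    have a2 : X.Y.Adj w g' := hX.adj_of_dist w2.1 (by
      have := w2.2
      rwa [Nat.even_add_one] at this)
    rcases w with u | f
    · refine ⟨u, a1, a2, ?_⟩
      have := (hX.adj_dist a1 x0).1
      rw [hg.1] at this
      have h3 := w3.1
      rw [SimpleGraph.dist_comm] at h3
      have hi1 : 1 ≤ i := by obtain ⟨t, rfl⟩ := hi; omega
      omega
    · exact absurd a1 Yadj_rr
  have hup : ∀ g' ∈ Sl X.Y x0 x i, X.Y.dist (Sum.inr g0) g' ≤ 2 →
      ∃ u : X.V, X.Y.Adj (Sum.inl u) (Sum.inr g0) ∧ X.Y.Adj (Sum.inl u) g' ∧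
        X.Y.dist x0 (Sum.inl u) = i + 1 := by
    intro g' hg' hd
    obtain ⟨w, hw⟩ := hX.hm.helly
      ({(Sum.inr g0, 1), (g', 1), (x, X.Y.dist x0 x - i - 1)} : Set ((X.V ⊕ X.F) × ℕ))
      (by simp) x0 (by
        have h1 := hg.1
        have h2 := hg'.1
        intro p hp
        simp only [Set.mem_insert_iff, Set.mem_singleton_iff] at hp
        obtain ⟨t, rfl⟩ := hi
        obtain ⟨s, hs⟩ := hx
        rcases hp with rfl | rfl | rfl
        · simp only; rw [h1]; exact ⟨t + 1, by ring⟩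
        · simp only; rw [h2]; exact ⟨t + 1, by ring⟩
        · simp only
          rw [hs] at hix ⊢
          exact ⟨s + s - t - 1, by omega⟩) (by
        have h1 := hg.2
        have h2 := hg'.2
        have h3 : X.Y.dist x (Sum.inr g0) = X.Y.dist (Sum.inr g0) x := SimpleGraph.dist_comm
        have h4 : X.Y.dist x g' = X.Y.dist g' x := SimpleGraph.dist_comm
        have h5 : X.Y.dist g' (Sum.inr g0) ≤ 2 := by rw [SimpleGraph.dist_comm]; exact hd
        intro p hp q hq
        simp only [Set.mem_insert_iff, Set.mem_singleton_iff] at hp hq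
        rcases hp with rfl | rfl | rfl <;> rcases hq with rfl | rfl | rfl <;>
          simp only [SimpleGraph.dist_self] <;> omega)
    have w1 := hw (Sum.inr g0, 1) (by simp)
    have w2 := hw (g', 1) (by simp)
    have w3 := hw (x, X.Y.dist x0 x - i - 1) (by simp)
    simp only at w1 w2 w3
    have a1 : X.Y.Adj w (Sum.inr g0) := hX.adj_of_dist w1.1 (by
      have := w1.2
      rwa [Nat.even_add_one] at this)
    have a2 : X.Y.Adj w g' := hX.adj_of_dist w2.1 (by
      have := w2.2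
      rwa [Nat.even_add_one] at this)
    rcases w with u | f
    · refine ⟨u, a1, a2, ?_⟩
      have := (hX.adj_dist a1 x0).2
      rw [hg.1] at this
      have h3 := w3.1
      have h4 := hX.dist_tri x0 (Sum.inl u) x
      omega
    · exact absurd a1 Yadj_rr
  -- the set of special vertices
  have hA : ∃ a1 a2 : X.V, ∀ a a' : X.V, X.Y.Adj (Sum.inl a) (Sum.inr g0) →
      X.Y.dist x0 (Sum.inl a) + 1 = i → X.Y.dist x0 (Sum.inl a') = i + 1 →
      (∃ c, X.fc c = g0 ∧ X.vt c = a ∧ X.src (X.rev (X.rd c)) = a') → a = a1 ∨ a = a2 := by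
    rcases Nat.lt_or_ge i 2 with h2 | h2
    · refine ⟨v0, v0, fun a a' _ h _ _ => Or.inl ?_⟩
      have hi1 : i = 1 := by obtain ⟨t, rfl⟩ := hi; omega
      have : X.Y.dist x0 (Sum.inl a) = 0 := by omega
      rw [hX.hm.conn.dist_eq_zero_iff] at this
      exact (Sum.inl.inj this).symm
    · -- lower neighbours of `g0` have a common neighbour
      obtain ⟨u0, p1, p2, p3⟩ := hlow _ hg (by simp)
      obtain ⟨gs, q1, q2⟩ := hX.hm.lower (x := x0) (v := Sum.inr g0)
        {b | X.Y.Adj (Sum.inr g0) b ∧ X.Y.dist x0 b + 1 = X.Y.dist x0 (Sum.inr g0)}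
        ((hX.hm.fin (Sum.inr g0) 1).subset (fun b hb => by
          have := SimpleGraph.dist_eq_one_iff_adj.2 hb.1
          exact this.le))
        ⟨Sum.inl u0, p1.symm, by rw [hg.1]; exact p3⟩ (fun b hb => hb) (by rw [hg.1]; exact h2)
      rw [hg.1] at q2
      have hgs : ∃ f, gs = Sum.inr f := by
        rcases gs with a | f
        · exact absurd (q1 _ ⟨p1.symm, by rw [hg.1]; exact p3⟩) Yadj_ll
        · exact ⟨f, rfl⟩
      obtain ⟨gs, rfl⟩ := hgs
      have hne : g0 ≠ gs := by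
        rintro rfl
        have := hg.1
        omega
      -- a special vertex is an end
      have hend : ∀ a a' : X.V, X.Y.Adj (Sum.inl a) (Sum.inr g0) →
          X.Y.dist x0 (Sum.inl a) + 1 = i → X.Y.dist x0 (Sum.inl a') = i + 1 →
          (∃ c, X.fc c = g0 ∧ X.vt c = a ∧ X.src (X.rev (X.rd c)) = a') → a ∈ X.Ends gs g0 := by
        rintro a a' r1 r2 r3 ⟨c, s1, s2, s3⟩
        refine ⟨(q1 (Sum.inl a) ⟨r1.symm, by rw [hg.1]; exact r2⟩).symm, c, s1, s2, ?_⟩
        intro hon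
        have := hon.tgt
        rw [s3] at this
        have := (hX.adj_dist this x0).2
        omega
      by_cases hex : ∃ a1 a2 : X.V, a1 ≠ a2 ∧ a1 ∈ X.Ends gs g0 ∧ a2 ∈ X.Ends gs g0
      · obtain ⟨a1, a2, h12, e1, e2⟩ := hex
        refine ⟨a1, a2, fun a a' r1 r2 r3 r4 => ?_⟩
        have ha := hend a a' r1 r2 r3 r4
        by_contra hcon
        push Not at hcon
        exact hX.ends_card hne ha e1 e2 hcon.1 hcon.2 h12
      · push Not at hex
        by_cases hex1 : ∃ a1, a1 ∈ X.Ends gs g0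
        · obtain ⟨a1, e1⟩ := hex1
          refine ⟨a1, a1, fun a a' r1 r2 r3 r4 => Or.inl ?_⟩
          by_contra hne'
          exact hex a a1 hne' (hend a a' r1 r2 r3 r4) e1
        · push Not at hex1
          exact ⟨v0, v0, fun a a' r1 r2 r3 r4 => absurd (hend a a' r1 r2 r3 r4) (hex1 a)⟩
  obtain ⟨a1, a2, hA⟩ := hA
  -- every element of the set is adjacent to one of the special vertices
  have hsub : {g' | g' ∈ Sl X.Y x0 x i ∧ X.Y.dist (Sum.inr g0) g' ≤ 2} ⊆
      {b | X.Y.Adj (Sum.inl a1) b} ∪ {b | X.Y.Adj (Sum.inl a2) b} := by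
    rintro g' ⟨hg', hd⟩
    obtain ⟨g1, rfl⟩ := hface g' hg'
    obtain ⟨u, u1, u2, u3⟩ := hlow _ hg' hd
    obtain ⟨w, w1, w2, w3⟩ := hup _ hg' hd
    -- a boundary arc from `u` to `w`
    have harc : ∃ (c : X.C) (k : ℕ), X.fc c = g0 ∧ X.vt c = u ∧ X.vt ((X.nx ^ k) c) = w ∧
        ∀ j ≤ k, X.Y.Adj (Sum.inl (X.vt ((X.nx ^ j) c))) (Sum.inr g1) := by
      by_cases h01 : g0 = g1
      · subst h01
        obtain ⟨c0, h1, h3⟩ := Yadj_lr.1 u1
        obtain ⟨cu, h1u, h3u⟩ := Yadj_lr.1 w1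
        obtain ⟨k, hk | hk⟩ := reach c0 cu (h1.trans h1u.symm)
        · exact ⟨c0, k, h1, h3, by rw [← hk, h3u],
            fun j _ => Yadj_lr.2 ⟨_, by rw [fc_nx_pow, h1], rfl⟩⟩
        · exact ⟨X.op c0, k, by rw [X.fc_op, h1], by rw [vt_opD, h3], by rw [← hk, h3u],
            fun j _ => Yadj_lr.2 ⟨_, by rw [fc_nx_pow, X.fc_op, h1], rfl⟩⟩
      · have huw : u ≠ w := by
          rintro rfl
          omega
        obtain ⟨c, c', k, h1, h2, h3, h4, h5, h6, h7, h8⟩ := hX.arc g0 g1 u w h01 huw u1 w1 u2 w2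
        refine ⟨c, k, h1, h3, h6, fun j hj => ?_⟩
        rcases Nat.lt_or_ge j k with hlt | hge
        · exact Yadj_lr.2 ⟨(X.nx ^ j) c', by rw [fc_nx_pow, h2], by
            rw [vt, vt, h4 j hlt]⟩
        · have : j = k := le_antisymm hj hge
          subst this
          rw [h6]
          exact w2
    obtain ⟨c, k, h1, h3, h6, h9⟩ := harc
    have hex : ∃ j, X.Y.dist x0 (Sum.inl (X.vt ((X.nx ^ j) c))) = i + 1 := ⟨k, by rw [h6]; exact w3⟩
    have hj := Nat.find_spec hex
    set j := Nat.find hex with hjdef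
    have hjk : j ≤ k := Nat.find_min' hex (by rw [h6]; exact w3)
    have hj0 : j ≠ 0 := by
      intro h0
      rw [h0, pow_zero, Equiv.Perm.one_apply, h3] at hj
      omega
    obtain ⟨m, hm⟩ := Nat.exists_eq_succ_of_ne_zero hj0
    have hmin := Nat.find_min hex (show m < Nat.find hex by omega)
    have hadj : X.Y.Adj (Sum.inl (X.vt ((X.nx ^ m) c))) (Sum.inr g0) :=
      Yadj_lr.2 ⟨_, by rw [fc_nx_pow, h1], rfl⟩
    have hlev : X.Y.dist x0 (Sum.inl (X.vt ((X.nx ^ m) c))) + 1 = i := by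
      have h7 := hX.adj_dist hadj x0
      rw [hg.1] at h7
      have h8 : Even (X.Y.dist x0 (Sum.inl (X.vt ((X.nx ^ m) c)))) := by
        rw [hX.even_dist]
        rfl
      obtain ⟨t, rfl⟩ := hi
      obtain ⟨s, hs⟩ := h8
      omega
    have hgm := h9 m (by omega)
    have := hA _ (X.vt ((X.nx ^ j) c)) hadj hlev hj ⟨(X.nx ^ m) c, by rw [fc_nx_pow, h1], rfl, by
      rw [hm, Nat.succ_eq_add_one, nx_pow_succ, vt_nx]⟩
    rcases this with h | h
    · left
      change X.Y.Adj (Sum.inl a1) (Sum.inr g1)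
      rw [← h]
      exact hgm
    · right
      change X.Y.Adj (Sum.inl a2) (Sum.inr g1)
      rw [← h]
      exact hgm
  have f1 := hX.faces_card a1
  have f2 := hX.faces_card a2
  calc _ ≤ ({b | X.Y.Adj (Sum.inl a1) b} ∪ {b | X.Y.Adj (Sum.inl a2) b}).ncard :=
        Set.ncard_le_ncard hsub (f1.1.union f2.1)
    _ ≤ _ := Set.ncard_union_le _ _
    _ ≤ 2 * N := by omega

end GC

end PropA
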