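import Pool.Agent.PropA.D2

/-! Module D3: projection to the boundary of a face. -/

namespace PropA

universe u

theorem ncard_pair_le' {α : Type*} (a b : α) : ({a, b} : Set α).ncard ≤ 2 := by
  have := Set.ncard_insert_le a ({b} : Set α)
  rw [Set.ncard_singleton] at this
  exact this

theorem exists_closer {W : Type u} {G : SimpleGraph W} (hG : G.Connected) {a b : W} (h : a ≠ b) :
    ∃ c, G.Adj a c ∧ G.dist c b + 1 = G.dist a b := by
  obtain ⟨p, hp⟩ := hG.exists_walk_length_eq_dist a b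
  cases p with
  | nil => exact absurd rfl h
  | @cons _ c _ hac q =>
    refine ⟨c, hac, ?_⟩
    rw [SimpleGraph.Walk.length_cons] at hp
    have h1 := SimpleGraph.dist_le q
    have h2 : G.dist a b ≤ G.dist a c + G.dist c b := hG.dist_triangle
    rw [SimpleGraph.dist_eq_one_iff_adj.2 hac] at h2
    omega

theorem exists_between {W : Type u} {G : SimpleGraph W} (hG : G.Connected) (a b : W) (t : ℕ)
    (ht : t ≤ G.dist a b) : ∃ c, G.dist a c = t ∧ t + G.dist c b = G.dist a b := by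
  induction t with
  | zero => exact ⟨a, by simp, by simp⟩
  | succ t ih =>
    obtain ⟨c, h1, h2⟩ := ih (by omega)
    have hne : c ≠ b := by
      rintro rfl
      rw [SimpleGraph.dist_self] at h2
      omega
    obtain ⟨c', h3, h4⟩ := exists_closer hG hne
    have h5 : G.dist a c' ≤ G.dist a c + G.dist c c' := hG.dist_triangle
    have h6 : G.dist a b ≤ G.dist a c' + G.dist c' b := hG.dist_triangle
    rw [SimpleGraph.dist_eq_one_iff_adj.2 h3] at h5
    exact ⟨c', by omega, by omega⟩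

namespace GC

variable {X : GC.{u}} {N : ℕ}

/-- the base graph on the boundary of `f`: consecutive vertices and the two ends of a face -/
def Gf (X : GC.{u}) (f : X.F) : SimpleGraph X.V where
  Adj a b := a ≠ b ∧ ((∃ c, X.fc c = f ∧ X.vt c = a ∧ X.vt (X.nx c) = b) ∨
    ∃ h, h ≠ f ∧ a ∈ X.Ends f h ∧ b ∈ X.Ends f h)
  symm := ⟨by
    rintro a b ⟨hne, ⟨c, h1, h2, h3⟩ | ⟨h, h1, h2, h3⟩⟩
    · refine ⟨hne.symm, Or.inl ⟨X.op (X.nx c), by rw [X.fc_op, X.fc_nx, h1], by rw [vt_opD, h3], ?_⟩⟩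
      rw [← vt_opD, X.op_nx, h2]
    · exact ⟨hne.symm, Or.inr ⟨h, h1, h3, h2⟩⟩⟩
  loopless := ⟨fun _ h => h.1 rfl⟩

theorem Gf_adj_mem {f : X.F} {a b : X.V} (h : (X.Gf f).Adj a b) :
    X.Y.Adj (Sum.inl a) (Sum.inr f) := by
  rcases h.2 with ⟨c, h1, h2, -⟩ | ⟨h, h1, h2, h3⟩
  · exact Yadj_lr.2 ⟨c, h1, h2⟩
  · exact h2.1

theorem Good.boundary_finite (hX : X.Good N) (f : X.F) :
    {v | X.Y.Adj (Sum.inl v) (Sum.inr f)}.Finite := by
  have := (hX.hm.fin (Sum.inr f) 1).preimage (f := (Sum.inl : X.V → X.V ⊕ X.F))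
    (Set.injOn_of_injective Sum.inl_injective)
  refine this.subset fun v hv => ?_
  change X.Y.dist (Sum.inr f) (Sum.inl v) ≤ 1
  rw [SimpleGraph.dist_eq_one_iff_adj.2 (SimpleGraph.Adj.symm hv)]

theorem Good.Gf_degree (hX : X.Good N) (f : X.F) (v : X.V) :
    ((X.Gf f).neighborSet v).ncard ≤ N + 2 := by
  classical
  by_cases hv : X.Y.Adj (Sum.inl v) (Sum.inr f)
  · obtain ⟨c, hc1, hc2⟩ := Yadj_lr.1 hv
    -- neighbours through other faces
    set P : Set X.V := {b | v ≠ b ∧ ∃ h, h ≠ f ∧ v ∈ X.Ends f h ∧ b ∈ X.Ends f h} with hP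
    have hsub : (X.Gf f).neighborSet v ⊆ ({X.vt (X.nx c), X.vt (X.nx (X.op c))} : Set X.V) ∪ P := by
      rintro b ⟨hne, ⟨c', h1, h2, h3⟩ | hh⟩
      · left
        rcases hX.emb c c' (by rw [hc1, h1]) (by rw [hc2, h2]) with h | h
        · left; rw [← h3, h]
        · right; rw [← h3, h]; rfl
      · right; exact ⟨hne, hh⟩
    obtain ⟨-, -, hf1, hf2⟩ := hX.lf v
    have hPc : P.ncard ≤ {g | ∃ c, X.fc c = g ∧ X.vt c = v}.ncard := by
      have hchoose : ∀ b : X.V, ∃ h : X.F, b ∈ P → (h ≠ f ∧ v ∈ X.Ends f h ∧ b ∈ X.Ends f h) := by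
        intro b
        by_cases hb : b ∈ P
        · obtain ⟨h, hh⟩ := hb.2
          exact ⟨h, fun _ => hh⟩
        · exact ⟨f, fun hb' => absurd hb' hb⟩
      choose H hH using hchoose
      refine Set.ncard_le_ncard_of_injOn H ?_ ?_ hf1
      · intro b hb
        have := Ends.adj (hH b hb).2.1
        exact Yadj_lr.1 this
      · intro b hb b' hb' hbb
        by_contra hne
        have h1 := hH b hb
        have h2 := hH b' hb'
        rw [← hbb] at h2
        exact hX.ends_card h1.1 h1.2.1 h1.2.2 h2.2.2 hb.1 hb'.1 hne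
    have hPfin : P.Finite := by
      refine (hX.boundary_finite f).subset ?_
      rintro b ⟨-, h, -, -, hb⟩
      exact hb.1
    calc _ ≤ (({X.vt (X.nx c), X.vt (X.nx (X.op c))} : Set X.V) ∪ P).ncard :=
          Set.ncard_le_ncard hsub ((Set.toFinite _).union hPfin)
      _ ≤ ({X.vt (X.nx c), X.vt (X.nx (X.op c))} : Set X.V).ncard + P.ncard :=
          Set.ncard_union_le _ _
      _ ≤ 2 + N := by
          have : ({X.vt (X.nx c), X.vt (X.nx (X.op c))} : Set X.V).ncard ≤ 2 := ncard_pair_le' _ _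
          omega
      _ = N + 2 := by ring
  · have : (X.Gf f).neighborSet v = ∅ := by
      ext b
      simp only [SimpleGraph.mem_neighborSet, Set.mem_empty_iff_false, iff_false]
      exact fun h => hv (Gf_adj_mem h)
    rw [this, Set.ncard_empty]
    omega

theorem op_nx_pow (c : X.C) (j : ℕ) : (X.nx ^ j) (X.op ((X.nx ^ j) c)) = X.op c := by
  induction j generalizing c with
  | zero => rfl
  | succ j ih =>
    rw [pow_succ, Equiv.Perm.mul_apply, Equiv.Perm.mul_apply, ← Equiv.Perm.mul_apply, ← pow_succ,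
      nx_pow_succ]
    have h1 : (X.nx ^ j) (X.op ((X.nx ^ j) (X.nx c))) = X.op (X.nx c) := ih (X.nx c)
    rw [h1, op_nx_eqD, Equiv.apply_symm_apply]

theorem vt_back (c : X.C) (p k : ℕ) (hk : k ≤ p) :
    X.vt ((X.nx ^ k) (X.op ((X.nx ^ p) c))) = X.vt ((X.nx ^ (p - k)) c) := by
  have h1 : (X.nx ^ p) c = (X.nx ^ k) ((X.nx ^ (p - k)) c) := by
    rw [← Equiv.Perm.mul_apply, ← pow_add]
    congr 2
    omega
  rw [h1, op_nx_pow, vt_opD]

/-- position along `f`, starting from the cursor `c0` -/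
noncomputable def pos (X : GC.{u}) (c0 : X.C) (v : X.V) : ℕ := by
  classical
  exact if h : ∃ j : ℕ, X.vt ((X.nx ^ j) c0) = v then Nat.find h else 0

theorem exists_pos {f : X.F} {c0 : X.C} (h0 : X.fc c0 = f) {v : X.V}
    (hv : X.Y.Adj (Sum.inl v) (Sum.inr f)) : ∃ j : ℕ, X.vt ((X.nx ^ j) c0) = v := by
  obtain ⟨c, h1, h2⟩ := Yadj_lr.1 hv
  obtain ⟨k, hk | hk⟩ := reach c0 c (h0.trans h1.symm)
  · exact ⟨k, by rw [← hk, h2]⟩
  · obtain ⟨n, hn, hc⟩ := X.per c0
    -- `nx^k (op c0) = op (nx^(-k) c0)`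
    refine ⟨n * k - k, ?_⟩
    have h3 := vt_back c0 (n * k) k (Nat.le_mul_of_pos_left k hn)
    rw [← h3]
    have h4 : (X.nx ^ (n * k)) c0 = c0 := by
      rw [pow_mul]
      exact Equiv.Perm.pow_apply_eq_self_of_apply_eq_self hc k
    rw [h4, ← hk, h2]

theorem pos_spec {f : X.F} {c0 : X.C} (h0 : X.fc c0 = f) {v : X.V}
    (hv : X.Y.Adj (Sum.inl v) (Sum.inr f)) : X.vt ((X.nx ^ (X.pos c0 v)) c0) = v := by
  classical
  have h := exists_pos h0 hv
  unfold pos
  rw [dif_pos h]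
  convert Nat.find_spec h

theorem pos_le {c0 : X.C} {v : X.V} {j : ℕ} (h : X.vt ((X.nx ^ j) c0) = v) : X.pos c0 v ≤ j := by
  classical
  unfold pos
  rw [dif_pos ⟨j, h⟩]
  exact Nat.find_min' _ h

theorem Good.cross_chord (hX : X.Good N) {f h : X.F} (hf : h ≠ f) {c0 : X.C} (h0 : X.fc c0 = f)
    {a b : X.V} (ha : a ∈ X.Ends f h) (hb : b ∈ X.Ends f h) {k : ℕ} (hak : X.pos c0 a ≤ k)
    (hbk : k < X.pos c0 b) : X.On h (X.rd ((X.nx ^ k) c0)) ∨ X.On h (X.rd (X.op c0)) := by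
  have hne : a ≠ b := by
    rintro rfl
    omega
  obtain ⟨c, c', m, h1, h2, h3, h4, h5, h6, h7, h8⟩ :=
    hX.arc f h a b hf.symm hne ha.1 hb.1 (Ends.adj ha) (Ends.adj hb)
  have hon : ∀ j < m, X.On h (X.rd ((X.nx ^ j) c)) := fun j hj => by
    rw [h4 j hj]
    exact ⟨_, by rw [fc_nx_pow, h2], rfl⟩
  have hpa := pos_spec h0 ha.1
  rcases hX.emb ((X.nx ^ (X.pos c0 a)) c0) c (by rw [fc_nx_pow, h0, h1]) (by rw [hpa, h3])
    with he | he
  · left
    have hm : k - X.pos c0 a < m := by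
      by_contra hcon
      have h9 : X.vt ((X.nx ^ (m + X.pos c0 a)) c0) = b := by
        rw [pow_add, Equiv.Perm.mul_apply, ← he, h6]
      have := pos_le h9
      omega
    have := hon _ hm
    rw [he, ← Equiv.Perm.mul_apply, ← pow_add] at this
    convert this using 4
    omega
  · right
    have hm : X.pos c0 a < m := by
      by_contra hcon
      have h9 := vt_back c0 (X.pos c0 a) m (by omega)
      rw [← he, h6] at h9
      have := pos_le h9.symm
      omega
    have := hon _ hm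
    rw [he, op_nx_pow] at this
    exact this

theorem Good.Gf_cross (hX : X.Good N) {f : X.F} {c0 : X.C} (h0 : X.fc c0 = f) (k : ℕ) :
    {e : X.V × X.V | (X.Gf f).Adj e.1 e.2 ∧ X.pos c0 e.1 ≤ k ∧ k < X.pos c0 e.2}.ncard
      ≤ 2 * N + 2 := by
  classical
  set P : Set (X.V × X.V) := {e | X.pos c0 e.1 ≤ k ∧ k < X.pos c0 e.2 ∧
    ∃ h, h ≠ f ∧ e.1 ∈ X.Ends f h ∧ e.2 ∈ X.Ends f h} with hP
  have hsub : {e : X.V × X.V | (X.Gf f).Adj e.1 e.2 ∧ X.pos c0 e.1 ≤ k ∧ k < X.pos c0 e.2} ⊆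
      ({(X.vt ((X.nx ^ k) c0), X.vt ((X.nx ^ (k + 1)) c0)),
        (X.vt c0, X.vt (X.nx (X.op c0)))} : Set (X.V × X.V)) ∪ P := by
    rintro ⟨a, b⟩ ⟨hadj, hak, hbk⟩
    simp only at hadj hak hbk
    rcases hadj.2 with ⟨c, h1, h2, h3⟩ | hh
    · left
      have ha : X.Y.Adj (Sum.inl a) (Sum.inr f) := Gf_adj_mem hadj
      have hpa := pos_spec h0 ha
      rcases hX.emb ((X.nx ^ (X.pos c0 a)) c0) c (by rw [fc_nx_pow, h0, h1]) (by rw [hpa, h2])
        with he | he
      · have h4 : X.vt ((X.nx ^ (X.pos c0 a + 1)) c0) = b := by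
          rw [nx_pow_succ, ← he, h3]
        have h5 := pos_le h4
        have h6 : X.pos c0 a = k := by omega
        left
        rw [h6] at h4 hpa
        rw [Prod.mk.injEq]
        exact ⟨hpa.symm, h4.symm⟩
      · rcases Nat.eq_zero_or_pos (X.pos c0 a) with hz | hz
        · rw [hz] at he hpa
          rw [pow_zero, Equiv.Perm.one_apply] at he hpa
          right
          rw [Set.mem_singleton_iff, Prod.mk.injEq]
          exact ⟨hpa.symm, by rw [← h3, he]⟩
        · exfalso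
          have h9 := vt_back c0 (X.pos c0 a) 1 hz
          rw [← he, pow_one, h3] at h9
          have := pos_le h9.symm
          omega
    · right
      exact ⟨hak, hbk, hh⟩
  have hface : ∀ d : X.D, {h : X.F | X.On h d}.Finite ∧ {h : X.F | X.On h d}.ncard ≤ N := by
    intro d
    obtain ⟨-, -, hf1, hf2⟩ := hX.lf (X.src d)
    have hs : {h : X.F | X.On h d} ⊆ {g | ∃ c, X.fc c = g ∧ X.vt c = X.src d} := by
      rintro h ⟨c, h1, h2⟩
      exact ⟨c, h1, by rw [vt, h2]⟩
    exact ⟨hf1.subset hs, (Set.ncard_le_ncard hs hf1).trans hf2⟩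
  have hPc : P.ncard ≤ 2 * N := by
    have hchoose : ∀ e : X.V × X.V, ∃ h : X.F, e ∈ P →
        (h ≠ f ∧ e.1 ∈ X.Ends f h ∧ e.2 ∈ X.Ends f h) := by
      intro e
      by_cases he : e ∈ P
      · obtain ⟨h, hh⟩ := he.2.2
        exact ⟨h, fun _ => hh⟩
      · exact ⟨f, fun he' => absurd he' he⟩
    choose H hH using hchoose
    have f1 := hface (X.rd ((X.nx ^ k) c0))
    have f2 := hface (X.rd (X.op c0))
    have hle : P.ncard ≤ ({h : X.F | X.On h (X.rd ((X.nx ^ k) c0))} ∪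
        {h : X.F | X.On h (X.rd (X.op c0))}).ncard := by
      refine Set.ncard_le_ncard_of_injOn H ?_ ?_ (f1.1.union f2.1)
      · intro e he
        have h1 := hH e he
        exact hX.cross_chord h1.1 h0 h1.2.1 h1.2.2 he.1 he.2.1
      · rintro ⟨a, b⟩ he ⟨a', b'⟩ he' hee
        have h1 := hH _ he
        have h2 := hH _ he'
        rw [← hee] at h2
        obtain ⟨e1, e2, -⟩ := he
        obtain ⟨e1', e2', -⟩ := he'
        simp only at h1 h2 e1 e2 e1' e2'
        have hab : a ≠ b := by rintro rfl; omega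
        have hab' : a' ≠ b' := by rintro rfl; omega
        have hab2 : a ≠ b' := by rintro rfl; omega
        have hab3 : a' ≠ b := by rintro rfl; omega
        have haa : a = a' := by
          by_contra hne
          exact hX.ends_card h1.1 h1.2.1 h2.2.1 h1.2.2 hne hab hab3
        have hbb : b = b' := by
          by_contra hne
          exact hX.ends_card h1.1 h1.2.1 h1.2.2 h2.2.2 hab hab2 hne
        rw [haa, hbb]
    calc _ ≤ _ := hle
      _ ≤ _ := Set.ncard_union_le _ _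
      _ ≤ 2 * N := by omega
  have hPfin : P.Finite := by
    refine ((hX.boundary_finite f).prod (hX.boundary_finite f)).subset ?_
    rintro ⟨a, b⟩ ⟨-, -, h, -, h1, h2⟩
    exact ⟨h1.1, h2.1⟩
  calc _ ≤ _ := Set.ncard_le_ncard hsub ((Set.toFinite _).union hPfin)
    _ ≤ _ := Set.ncard_union_le _ _
    _ ≤ 2 + 2 * N := by
        have := ncard_pair_le' (X.vt ((X.nx ^ k) c0), X.vt ((X.nx ^ (k + 1)) c0))
          (X.vt c0, X.vt (X.nx (X.op c0)))
        omega
    _ = 2 * N + 2 := by ring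

end GC

end PropA
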