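import Pool.Agent.PropA.D3

/-! Module D4: the projection to the boundary of a face is Lipschitz. -/

namespace PropA

universe u

namespace GC

variable {X : GC.{u}} {N : ℕ}

/-- two ends of the same face are joined by a walk of length at most one -/
theorem ends_walk {f h : X.F} (hf : h ≠ f) {a b : X.V} (ha : a ∈ X.Ends f h)
    (hb : b ∈ X.Ends f h) : ∃ p : (X.Gf f).Walk a b, p.length ≤ 1 := by
  by_cases hab : a = b
  · subst hab
    exact ⟨SimpleGraph.Walk.nil, by simp⟩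
  · have hadj : (X.Gf f).Adj a b := ⟨hab, Or.inr ⟨h, hf, ha, hb⟩⟩
    exact ⟨hadj.toWalk, by simp⟩

/-- the face through which a vertex outside `f` is projected -/
theorem Good.exists_gate (hX : X.Good N) (f : X.F) (y : X.V)
    (hy : ¬ X.Y.Adj (Sum.inl y) (Sum.inr f)) :
    ∃ g : X.F, g ≠ f ∧ X.Y.dist (Sum.inl y) (Sum.inr g) + 2 = X.Y.dist (Sum.inl y) (Sum.inr f) ∧
      (∀ u : X.V, X.Y.Adj (Sum.inl u) (Sum.inr f) →
        X.Y.dist (Sum.inl y) (Sum.inl u) + 1 = X.Y.dist (Sum.inl y) (Sum.inr f) →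
        X.Y.Adj (Sum.inl u) (Sum.inr g)) ∧ (X.Ends f g).Nonempty := by
  have hodd : ¬ Even (X.Y.dist (Sum.inl y) (Sum.inr f)) := by
    rw [hX.even_dist]
    simp
  have hne : (Sum.inr f : X.V ⊕ X.F) ≠ Sum.inl y := by simp
  obtain ⟨u, hu1, hu2⟩ := exists_closer hX.hm.conn hne
  rw [SimpleGraph.dist_comm, SimpleGraph.dist_comm (u := Sum.inr f)] at hu2
  have hge : 2 ≤ X.Y.dist (Sum.inl y) (Sum.inr f) := by
    by_contra hcon
    exact hy (hX.adj_of_dist (by omega) hodd)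
  obtain ⟨g, q1, q2⟩ := hX.hm.lower (x := Sum.inl y) (v := Sum.inr f)
    {b | X.Y.Adj (Sum.inr f) b ∧
      X.Y.dist (Sum.inl y) b + 1 = X.Y.dist (Sum.inl y) (Sum.inr f)}
    ((hX.hm.fin (Sum.inr f) 1).subset (fun b hb => by
      have := SimpleGraph.dist_eq_one_iff_adj.2 hb.1
      exact this.le))
    ⟨u, hu1, hu2⟩ (fun b hb => hb) hge
  rcases u with u | u
  swap
  · exact absurd hu1 Yadj_rr
  rcases g with g | g
  · exact absurd (q1 _ ⟨hu1, hu2⟩) Yadj_ll
  have hgf : g ≠ f := by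
    rintro rfl
    omega
  refine ⟨g, hgf, q2, fun u' h1 h2 => (q1 _ ⟨h1.symm, h2⟩).symm, ?_⟩
  -- the ends are nonempty
  have hne' : (Sum.inr g : X.V ⊕ X.F) ≠ Sum.inl y := by simp
  obtain ⟨w, hw1, hw2⟩ := exists_closer hX.hm.conn hne'
  rw [SimpleGraph.dist_comm, SimpleGraph.dist_comm (u := Sum.inr g)] at hw2
  rcases w with w | w
  swap
  · exact absurd hw1 Yadj_rr
  refine Good.ends_nonempty (u := u) (w := w) (q1 _ ⟨hu1, hu2⟩).symm hu1.symm hw1.symm ?_
  intro hwf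
  have := (hX.adj_dist hwf (Sum.inl y)).1
  omega

/-- the projection -/
noncomputable def gate (hX : X.Good N) (f : X.F) (y : X.V) : X.V := by
  classical
  exact if hy : X.Y.Adj (Sum.inl y) (Sum.inr f) then y
    else (hX.exists_gate f y hy).choose_spec.2.2.2.some

theorem gate_of_adj (hX : X.Good N) (f : X.F) (y : X.V) (hy : X.Y.Adj (Sum.inl y) (Sum.inr f)) :
    gate hX f y = y := by
  unfold gate
  rw [dif_pos hy]

theorem gate_spec (hX : X.Good N) (f : X.F) (y : X.V)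
    (hy : ¬ X.Y.Adj (Sum.inl y) (Sum.inr f)) :
    ∃ g : X.F, g ≠ f ∧ X.Y.dist (Sum.inl y) (Sum.inr g) + 2 = X.Y.dist (Sum.inl y) (Sum.inr f) ∧
      (∀ u : X.V, X.Y.Adj (Sum.inl u) (Sum.inr f) →
        X.Y.dist (Sum.inl y) (Sum.inl u) + 1 = X.Y.dist (Sum.inl y) (Sum.inr f) →
        X.Y.Adj (Sum.inl u) (Sum.inr g)) ∧ gate hX f y ∈ X.Ends f g := by
  have h := (hX.exists_gate f y hy).choose_spec
  refine ⟨_, h.1, h.2.1, h.2.2.1, ?_⟩
  unfold gate
  rw [dif_neg hy]
  exact h.2.2.2.some_mem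

theorem gate_dist (hX : X.Good N) (f : X.F) (y : X.V) :
    X.Y.Adj (Sum.inl (gate hX f y)) (Sum.inr f) ∧
    X.Y.dist (Sum.inl y) (Sum.inl (gate hX f y)) + 1 ≤ X.Y.dist (Sum.inl y) (Sum.inr f) := by
  by_cases hy : X.Y.Adj (Sum.inl y) (Sum.inr f)
  · rw [gate_of_adj hX f y hy, SimpleGraph.dist_self, SimpleGraph.dist_eq_one_iff_adj.2 hy]
    exact ⟨hy, le_refl _⟩
  · obtain ⟨g, h1, h2, h3, h4⟩ := gate_spec hX f y hy
    refine ⟨h4.1, ?_⟩
    have := (hX.adj_dist (Ends.adj h4) (Sum.inl y)).2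
    omega

/-- If `g` lies between `y` and `f`, some end of `g` is joined to the gate by a short walk. -/
theorem gate_walk (hX : X.Good N) (f g : X.F) (y : X.V)
    (hy : ¬ X.Y.Adj (Sum.inl y) (Sum.inr f))
    (hfg : X.Y.dist (Sum.inr f) (Sum.inr g) = 2)
    (hg : X.Y.dist (Sum.inl y) (Sum.inr g) + 2 = X.Y.dist (Sum.inl y) (Sum.inr f)) :
    ∃ a, a ∈ X.Ends f g ∧ ∃ p : (X.Gf f).Walk a (gate hX f y), p.length ≤ 1 := by
  obtain ⟨gs, h1, h2, h3, h4⟩ := gate_spec hX f y hy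
  by_cases hgg : g = gs
  · subst hgg
    exact ⟨_, h4, SimpleGraph.Walk.nil, by simp⟩
  · -- a common vertex of `f` and `g`
    have hne : (Sum.inr f : X.V ⊕ X.F) ≠ Sum.inr g := by
      rintro h
      rw [h, SimpleGraph.dist_self] at hfg
      omega
    obtain ⟨u, hu1, hu2⟩ := exists_closer hX.hm.conn hne
    rcases u with u | u
    swap
    · exact absurd hu1 Yadj_rr
    have hug : X.Y.Adj (Sum.inl u) (Sum.inr g) := by
      rw [← SimpleGraph.dist_eq_one_iff_adj]
      omega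
    have hyu : X.Y.dist (Sum.inl y) (Sum.inl u) + 1 = X.Y.dist (Sum.inl y) (Sum.inr f) := by
      have e1 := hX.adj_dist hug (Sum.inl y)
      have e2 := hX.adj_dist hu1 (Sum.inl y)
      omega
    have hugs := h3 u hu1.symm hyu
    obtain ⟨c, c1, c2, c3⟩ := hX.hm.qc (Sum.inl y) (Sum.inl u) (Sum.inr g) (Sum.inr gs)
      (by simpa using hgg) hug hugs (by omega) (by omega)
    rcases c with c | c
    swap
    · exact absurd c1 Yadj_rr
    have hcf : ¬ X.Y.Adj (Sum.inl c) (Sum.inr f) := by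
      intro hc
      have := (hX.adj_dist hc (Sum.inl y)).1
      omega
    obtain ⟨a, ha1, ha2⟩ := hX.common_end hgg hug hugs hu1.symm c1.symm c2.symm hcf
    exact ⟨a, ha1, ends_walk h1 ha2 h4⟩

/-- from a vertex of `f` to a neighbour outside `f` -/
theorem gate_walk_out (hX : X.Good N) (f : X.F) {y y' : X.V} (hyy : X.gr.Adj y y')
    (hy : X.Y.Adj (Sum.inl y) (Sum.inr f)) (hy' : ¬ X.Y.Adj (Sum.inl y') (Sum.inr f)) :
    ∃ p : (X.Gf f).Walk y (gate hX f y'), p.length ≤ 2 := by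
  obtain ⟨hne, d, hd1, hd2⟩ := hyy
  obtain ⟨c, hc⟩ := X.rd_surj d
  have hnon : ¬ X.On f d := by
    intro hon
    apply hy'
    rw [← hd2]
    exact hon.tgt
  have hon : X.On (X.fc c) d := ⟨c, rfl, hc⟩
  have hyh : X.Y.Adj (Sum.inl y) (Sum.inr (X.fc c)) := by
    rw [← hd1]; exact hon.src
  have hyh' : X.Y.Adj (Sum.inl y') (Sum.inr (X.fc c)) := by
    rw [← hd2]; exact hon.tgt
  have hend : y ∈ X.Ends f (X.fc c) := ⟨hy, c, rfl, by rw [vt, hc, hd1], by rw [hc]; exact hnon⟩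
  have hhf : X.fc c ≠ f := by
    rintro h
    rw [h] at hyh'
    exact hy' hyh'
  have d1 : X.Y.dist (Sum.inr f) (Sum.inr (X.fc c)) = 2 := by
    have e1 := hX.dist_tri (Sum.inr f) (Sum.inl y) (Sum.inr (X.fc c))
    rw [SimpleGraph.dist_eq_one_iff_adj.2 hy.symm, SimpleGraph.dist_eq_one_iff_adj.2 hyh] at e1
    have e2 : Even (X.Y.dist (Sum.inr f) (Sum.inr (X.fc c))) := by
      rw [hX.even_dist]; rfl
    have e3 : X.Y.dist (Sum.inr f) (Sum.inr (X.fc c)) ≠ 0 := by
      rw [Ne, hX.hm.conn.dist_eq_zero_iff]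
      intro h
      exact hhf (Sum.inr.inj h).symm
    obtain ⟨t, ht⟩ := e2
    omega
  have d2 : X.Y.dist (Sum.inl y') (Sum.inr (X.fc c)) + 2 =
      X.Y.dist (Sum.inl y') (Sum.inr f) := by
    have e1 := hX.dist_tri (Sum.inl y') (Sum.inr (X.fc c)) (Sum.inr f)
    rw [SimpleGraph.dist_comm (u := Sum.inr (X.fc c)), d1] at e1
    rw [SimpleGraph.dist_eq_one_iff_adj.2 hyh'] at e1 ⊢
    have e2 : ¬ Even (X.Y.dist (Sum.inl y') (Sum.inr f)) := by
      rw [hX.even_dist]; simp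
    have e3 : X.Y.dist (Sum.inl y') (Sum.inr f) ≠ 1 := by
      rw [Ne, SimpleGraph.dist_eq_one_iff_adj]
      exact hy'
    rw [Nat.not_even_iff_odd] at e2
    obtain ⟨t, ht⟩ := e2
    omega
  obtain ⟨a, ha, p, hp⟩ := gate_walk hX f (X.fc c) y' hy' d1 d2
  obtain ⟨q, hq⟩ := ends_walk hhf hend ha
  exact ⟨q.append p, by rw [SimpleGraph.Walk.length_append]; omega⟩

/-- both outside, with a common intermediate face -/
theorem gate_walk_common (hX : X.Good N) (f g : X.F) {y y' : X.V}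
    (hy : ¬ X.Y.Adj (Sum.inl y) (Sum.inr f)) (hy' : ¬ X.Y.Adj (Sum.inl y') (Sum.inr f))
    (hfg : X.Y.dist (Sum.inr f) (Sum.inr g) = 2)
    (hg : X.Y.dist (Sum.inl y) (Sum.inr g) + 2 = X.Y.dist (Sum.inl y) (Sum.inr f))
    (hg' : X.Y.dist (Sum.inl y') (Sum.inr g) + 2 = X.Y.dist (Sum.inl y') (Sum.inr f)) :
    ∃ p : (X.Gf f).Walk (gate hX f y) (gate hX f y'), p.length ≤ 3 := by
  obtain ⟨a, ha, p, hp⟩ := gate_walk hX f g y hy hfg hg
  obtain ⟨a', ha', p', hp'⟩ := gate_walk hX f g y' hy' hfg hg'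
  have hgf : g ≠ f := by
    rintro rfl
    rw [SimpleGraph.dist_self] at hfg
    omega
  obtain ⟨q, hq⟩ := ends_walk hgf ha ha'
  refine ⟨p.reverse.append (q.append p'), ?_⟩
  rw [SimpleGraph.Walk.length_append, SimpleGraph.Walk.length_append,
    SimpleGraph.Walk.length_reverse]
  omega

/-- choosing an intermediate face -/
theorem Good.exists_mid (hX : X.Good N) (f : X.F) (b : X.V ⊕ X.F)
    (hb : 2 ≤ X.Y.dist (Sum.inr f) b) :
    ∃ g : X.F, X.Y.dist (Sum.inr f) (Sum.inr g) = 2 ∧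
      2 + X.Y.dist (Sum.inr g) b = X.Y.dist (Sum.inr f) b := by
  obtain ⟨g, h1, h2⟩ := exists_between hX.hm.conn (Sum.inr f) b 2 hb
  rcases g with v | g
  · exfalso
    have : Even (X.Y.dist (Sum.inr f) (Sum.inl v)) := by
      rw [h1]; exact even_two
    rw [hX.even_dist] at this
    simp at this
  · exact ⟨g, h1, h2⟩

theorem gate_lip (hX : X.Good N) (f : X.F) {y y' : X.V} (hyy : X.gr.Adj y y') :
    ∃ p : (X.Gf f).Walk (gate hX f y) (gate hX f y'), p.length ≤ 3 := by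
  by_cases hy : X.Y.Adj (Sum.inl y) (Sum.inr f)
  · by_cases hy' : X.Y.Adj (Sum.inl y') (Sum.inr f)
    · rw [gate_of_adj hX f y hy, gate_of_adj hX f y' hy']
      obtain ⟨hne, d, hd1, hd2⟩ := hyy
      by_cases hon : X.On f d
      · obtain ⟨c, hc1, hc2⟩ := hon
        have hadj : (X.Gf f).Adj y y' := ⟨hne, Or.inl ⟨c, hc1, by rw [vt, hc2, hd1], by
          rw [vt_nx, hc2, hd2]⟩⟩
        exact ⟨hadj.toWalk, by simp⟩
      · obtain ⟨c, hc⟩ := X.rd_surj d
        have hhf : X.fc c ≠ f := by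
          rintro h
          exact hon ⟨c, h, hc⟩
        have e1 : y ∈ X.Ends f (X.fc c) :=
          ⟨hy, c, rfl, by rw [vt, hc, hd1], by rw [hc]; exact hon⟩
        have e2 : y' ∈ X.Ends f (X.fc c) := by
          refine ⟨hy', X.op (X.nx c), by rw [X.fc_op, X.fc_nx], by rw [vt_opD, vt_nx, hc, hd2], ?_⟩
          rw [X.rd_rev, hc]
          intro h
          apply hon
          have := h.rev
          rwa [X.rev_rev] at this
        obtain ⟨p, hp⟩ := ends_walk hhf e1 e2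
        exact ⟨p, by omega⟩
    · rw [gate_of_adj hX f y hy]
      obtain ⟨p, hp⟩ := gate_walk_out hX f hyy hy hy'
      exact ⟨p, by omega⟩
  · by_cases hy' : X.Y.Adj (Sum.inl y') (Sum.inr f)
    · rw [gate_of_adj hX f y' hy']
      obtain ⟨p, hp⟩ := gate_walk_out hX f hyy.symm hy' hy
      exact ⟨p.reverse, by rw [SimpleGraph.Walk.length_reverse]; omega⟩
    · -- both outside
      obtain ⟨hne, d, hd1, hd2⟩ := hyy
      obtain ⟨c, hc⟩ := X.rd_surj d
      have hon : X.On (X.fc c) d := ⟨c, rfl, hc⟩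
      have hyh : X.Y.Adj (Sum.inl y) (Sum.inr (X.fc c)) := by
        rw [← hd1]; exact hon.src
      have hyh' : X.Y.Adj (Sum.inl y') (Sum.inr (X.fc c)) := by
        rw [← hd2]; exact hon.tgt
      -- distances
      have odd1 : Odd (X.Y.dist (Sum.inr f) (Sum.inl y)) := by
        rw [← Nat.not_even_iff_odd, hX.even_dist]; simp
      have odd2 : Odd (X.Y.dist (Sum.inr f) (Sum.inl y')) := by
        rw [← Nat.not_even_iff_odd, hX.even_dist]; simp
      have n1 : X.Y.dist (Sum.inr f) (Sum.inl y) ≠ 1 := by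
        rw [Ne, SimpleGraph.dist_eq_one_iff_adj]
        exact fun h => hy h.symm
      have n2 : X.Y.dist (Sum.inr f) (Sum.inl y') ≠ 1 := by
        rw [Ne, SimpleGraph.dist_eq_one_iff_adj]
        exact fun h => hy' h.symm
      have c1 : X.Y.dist (Sum.inl y) (Sum.inr f) = X.Y.dist (Sum.inr f) (Sum.inl y) :=
        SimpleGraph.dist_comm
      have c2 : X.Y.dist (Sum.inl y') (Sum.inr f) = X.Y.dist (Sum.inr f) (Sum.inl y') :=
        SimpleGraph.dist_comm
      have a1 := hX.adj_dist hyh (Sum.inr f)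
      have a2 := hX.adj_dist hyh' (Sum.inr f)
      have dyy : X.Y.dist (Sum.inl y) (Sum.inl y') ≤ 2 := by
        have := hX.dist_tri (Sum.inl y) (Sum.inr (X.fc c)) (Sum.inl y')
        rw [SimpleGraph.dist_eq_one_iff_adj.2 hyh, SimpleGraph.dist_eq_one_iff_adj.2 hyh'.symm]
          at this
        exact this
      have dyy' : X.Y.dist (Sum.inl y') (Sum.inl y) ≤ 2 := by
        rw [SimpleGraph.dist_comm]; exact dyy
      obtain ⟨s, hs⟩ := odd1
      obtain ⟨t, ht⟩ := odd2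
      rcases lt_trichotomy (X.Y.dist (Sum.inr f) (Sum.inl y))
        (X.Y.dist (Sum.inr f) (Sum.inl y')) with hlt | heq | hlt
      · -- `y` is closer
        obtain ⟨g, g1, g2⟩ := hX.exists_mid f (Sum.inl y) (by omega)
        have g3 := hX.dist_tri (Sum.inl y') (Sum.inl y) (Sum.inr g)
        have g4 := hX.dist_tri (Sum.inr f) (Sum.inr g) (Sum.inl y')
        have g5 : X.Y.dist (Sum.inl y) (Sum.inr g) = X.Y.dist (Sum.inr g) (Sum.inl y) :=
          SimpleGraph.dist_comm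
        have g6 : X.Y.dist (Sum.inl y') (Sum.inr g) = X.Y.dist (Sum.inr g) (Sum.inl y') :=
          SimpleGraph.dist_comm
        exact gate_walk_common hX f g hy hy' g1 (by omega) (by omega)
      · -- same distance
        have hmid : ∃ h' : X.V ⊕ X.F, X.Y.Adj (Sum.inl y) h' ∧ X.Y.Adj (Sum.inl y') h' ∧
            X.Y.dist (Sum.inr f) h' + 1 = X.Y.dist (Sum.inr f) (Sum.inl y) := by
          by_cases hcase : X.Y.dist (Sum.inr f) (Sum.inr (X.fc c)) + 1 =
              X.Y.dist (Sum.inr f) (Sum.inl y)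
          · exact ⟨_, hyh, hyh', hcase⟩
          · have hev : Even (X.Y.dist (Sum.inr f) (Sum.inr (X.fc c))) := by
              rw [hX.even_dist]; rfl
            obtain ⟨r, hr⟩ := hev
            obtain ⟨c', q1, q2, q3⟩ := hX.hm.qc (Sum.inr f) (Sum.inr (X.fc c)) (Sum.inl y)
              (Sum.inl y') (by simpa using hne) hyh.symm hyh'.symm (by omega) (by omega)
            exact ⟨c', q1, q2, by omega⟩
        obtain ⟨h', m1, m2, m3⟩ := hmid
        obtain ⟨g, g1, g2⟩ := hX.exists_mid f h' (by omega)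
        have g3 := (hX.adj_dist m1 (Sum.inr g)).2
        have g4 := (hX.adj_dist m2 (Sum.inr g)).2
        have g5 : X.Y.dist (Sum.inl y) (Sum.inr g) = X.Y.dist (Sum.inr g) (Sum.inl y) :=
          SimpleGraph.dist_comm
        have g6 : X.Y.dist (Sum.inl y') (Sum.inr g) = X.Y.dist (Sum.inr g) (Sum.inl y') :=
          SimpleGraph.dist_comm
        have g7 := hX.dist_tri (Sum.inr f) (Sum.inr g) (Sum.inl y)
        have g8 := hX.dist_tri (Sum.inr f) (Sum.inr g) (Sum.inl y')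
        exact gate_walk_common hX f g hy hy' g1 (by omega) (by omega)
      · -- `y'` is closer
        obtain ⟨g, g1, g2⟩ := hX.exists_mid f (Sum.inl y') (by omega)
        have g3 := hX.dist_tri (Sum.inl y) (Sum.inl y') (Sum.inr g)
        have g4 := hX.dist_tri (Sum.inr f) (Sum.inr g) (Sum.inl y)
        have g5 : X.Y.dist (Sum.inl y) (Sum.inr g) = X.Y.dist (Sum.inr g) (Sum.inl y) :=
          SimpleGraph.dist_comm
        have g6 : X.Y.dist (Sum.inl y') (Sum.inr g) = X.Y.dist (Sum.inr g) (Sum.inl y') :=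
          SimpleGraph.dist_comm
        exact gate_walk_common hX f g hy hy' g1 (by omega) (by omega)

end GC

end PropA
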