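import Pool.Agent.PropA.D4
import Pool.Agent.PropA.B1
import Pool.Agent.PropA.B2
import Pool.Agent.PropA.A3

/-! Module D5: induction on the radius and assembly. -/

namespace PropA

universe u

/-- graphs with edges in a finite set of bounded size only -/
theorem PA.of_finite {V : Type u} {G : SimpleGraph V} {ε : ℝ} {m : ℕ} (hε : 0 ≤ ε) (Z : Set V)
    (hZ : Z.Finite) (hm : Z.ncard ≤ m) : PA (res G Z) ε (m + 1) 1 := by
  classical
  refine ⟨Nat.one_pos, Option V, fun y => if y ∈ Z then Finsupp.single none 1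
    else Finsupp.single (some y) 1, ?_, ?_, ?_⟩
  · intro x
    by_cases hx : x ∈ Z
    · simp only [hx, if_true, mass]
      rw [Finsupp.sum_single_index rfl]
    · simp only [hx, if_false, mass]
      rw [Finsupp.sum_single_index rfl]
  · rintro x y ⟨-, hx, hy⟩
    simp only [hx, hy, if_true]
    have : ov (Finsupp.single (none : Option V) 1) (Finsupp.single none 1) = 1 := by
      unfold ov
      rw [Finsupp.support_single_ne_zero _ one_ne_zero]
      simp
    rw [this]
    push_cast
    linarith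
  · intro c
    rcases c with _ | v
    · have hsub : {x | (if x ∈ Z then Finsupp.single none 1
        else Finsupp.single (some x) 1 : Option V →₀ ℕ) none ≠ 0} ⊆ Z := by
        intro x hx
        by_contra hxZ
        simp only [Set.mem_setOf_eq, hxZ, if_false] at hx
        apply hx
        rw [Finsupp.single_apply, if_neg (by simp)]
      exact ⟨hZ.subset hsub, (Set.ncard_le_ncard hsub hZ).trans (by omega)⟩
    · have hsub : {x | (if x ∈ Z then Finsupp.single none 1
        else Finsupp.single (some x) 1 : Option V →₀ ℕ) (some v) ≠ 0} ⊆ {v} := by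
        intro x hx
        simp only [Set.mem_setOf_eq] at hx
        split_ifs at hx with h
        · rw [Finsupp.single_apply, if_neg (by simp)] at hx
          exact absurd rfl hx
        · by_contra hne
          rw [Finsupp.single_apply, if_neg (by simpa using hne)] at hx
          exact hx rfl
      refine ⟨(Set.finite_singleton v).subset hsub, ?_⟩
      refine (Set.ncard_le_ncard hsub (Set.finite_singleton v)).trans ?_
      rw [Set.ncard_singleton]
      omega

theorem PA.scale {V : Type u} {G : SimpleGraph V} {ε : ℝ} {M n t : ℕ} (ht : 0 < t)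
    (h : PA G ε M n) : PA G ε M (n * t) := by
  classical
  obtain ⟨hn, C, f, h1, h2, h3⟩ := h
  have hne : t ≠ 0 := ht.ne'
  have hsupp : ∀ g : C →₀ ℕ, (t • g).support = g.support := fun g => by
    ext c
    simp [hne]
  refine ⟨Nat.mul_pos hn ht, C, fun x => t • f x, ?_, ?_, ?_⟩
  · intro x
    have := h1 x
    unfold mass Finsupp.sum at this ⊢
    rw [hsupp, ← this, Finset.sum_mul]
    refine Finset.sum_congr rfl fun c _ => ?_
    rw [Finsupp.smul_apply, smul_eq_mul, mul_comm]
  · intro x y hxy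
    have h4 := h2 x y hxy
    have h5 : ov (t • f x) (t • f y) = ov (f x) (f y) * t := by
      unfold ov
      rw [hsupp, Finset.sum_mul]
      refine Finset.sum_congr rfl fun c _ => ?_
      rw [Finsupp.smul_apply, Finsupp.smul_apply, smul_eq_mul, smul_eq_mul]
      rcases le_total (f x c) (f y c) with h | h
      · rw [min_eq_left h, min_eq_left (Nat.mul_le_mul_left t h), mul_comm]
      · rw [min_eq_right h, min_eq_right (Nat.mul_le_mul_left t h), mul_comm]
    rw [h5]
    push_cast
    have ht' : (0 : ℝ) < t := by exact_mod_cast ht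
    nlinarith
  · intro c
    have : {x | (t • f x) c ≠ 0} = {x | f x c ≠ 0} := by
      ext x
      simp [hne]
    rw [this]
    exact h3 c

namespace GC

variable {X : GC.{u}} {N : ℕ}

/-- the induction statement -/
def RR (X : GC.{u}) (k i m : ℕ) : Prop := ∀ ε > (0 : ℝ), ∃ M n : ℕ,
  ∀ U1 U2 : Finset (X.V ⊕ X.F), U1.card ≤ i → U2.card ≤ m → ∀ Z : Set X.V,
    (∀ y ∈ Z, (∃ u ∈ U1, X.Y.dist u (Sum.inl y) ≤ k + 1) ∨
      (∃ u ∈ U2, X.Y.dist u (Sum.inl y) ≤ k)) → PropA.PA (res X.gr Z) ε M n

theorem res_res {V : Type u} (G : SimpleGraph V) (Z Z' : Set V) :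
    res (res G Z) Z' = res G (Z ∩ Z') := by
  ext a b
  simp only [res, Set.mem_inter_iff]
  tauto

theorem Good.RR_zero (hX : X.Good N) (m : ℕ) : RR X 0 0 m := by
  classical
  intro ε hε
  refine ⟨m + 1, 1, fun U1 U2 h1 h2 Z hZ => ?_⟩
  have hsub : Z ⊆ (Sum.inl : X.V → X.V ⊕ X.F) ⁻¹' (U2 : Set (X.V ⊕ X.F)) := by
    intro y hy
    rcases hZ y hy with ⟨u, hu, -⟩ | ⟨u, hu, hd⟩
    · rw [Finset.card_eq_zero.1 (Nat.le_zero.1 h1)] at hu
      simp at hu
    · have : u = Sum.inl y := by
        rw [← hX.hm.conn.dist_eq_zero_iff]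
        omega
      subst this
      exact hu
  have hfin : ((Sum.inl : X.V → X.V ⊕ X.F) ⁻¹' (U2 : Set (X.V ⊕ X.F))).Finite :=
    (Finset.finite_toSet U2).preimage (Set.injOn_of_injective Sum.inl_injective)
  refine PropA.PA.of_finite hε.le Z (hfin.subset hsub) ?_
  refine (Set.ncard_le_ncard hsub hfin).trans ?_
  have h3 : ((Sum.inl : X.V → X.V ⊕ X.F) ⁻¹' (U2 : Set (X.V ⊕ X.F))).ncard ≤
      (U2 : Set (X.V ⊕ X.F)).ncard := by
    refine Set.ncard_le_ncard_of_injOn Sum.inl (fun a ha => ha)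
      (Set.injOn_of_injective Sum.inl_injective) (Finset.finite_toSet U2)
  rw [Set.ncard_coe_finset] at h3
  omega

/-- neighbours in the 1-skeleton -/
theorem Good.gr_degree (hX : X.Good N) (v : X.V) :
    (X.gr.neighborSet v).Finite ∧ (X.gr.neighborSet v).ncard ≤ N := by
  obtain ⟨h1, h2, -, -⟩ := hX.lf v
  have hsub : X.gr.neighborSet v ⊆ (fun d => X.src (X.rev d)) '' {d | X.src d = v} := by
    rintro w ⟨-, d, h3, h4⟩
    exact ⟨d, h3, h4⟩
  exact ⟨(h1.image _).subset hsub,
    (Set.ncard_le_ncard hsub (h1.image _)).trans ((Set.ncard_image_le h1).trans h2)⟩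

/-- uniform weights on the base graphs `Gf` -/
theorem Good.Gf_PA (hX : X.Good N) {ε : ℝ} (hε : 0 < ε) : ∃ M n : ℕ, 0 < n ∧
    ∀ f : X.F, PropA.PA (X.Gf f) ε M n := by
  obtain ⟨M, n, h⟩ := cutwidth_PA.{u} (2 * N + 2) (N + 2) ε hε
  have key : ∀ f : X.F, PropA.PA (X.Gf f) ε M n := by
    intro f
    obtain ⟨c0, h0⟩ := X.fc_surj f
    refine h X.V (X.Gf f) (X.pos c0) ?_ ?_ ?_ ?_
    · refine (hX.boundary_finite f).subset ?_
      rintro v ⟨w, hw⟩
      exact Gf_adj_mem hw
    · rintro a b ⟨c, hc⟩ ⟨c', hc'⟩ hpos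
      rw [← pos_spec h0 (Gf_adj_mem hc), ← pos_spec h0 (Gf_adj_mem hc'), hpos]
    · exact hX.Gf_degree f
    · exact hX.Gf_cross h0
  by_cases hF : Nonempty X.F
  · exact ⟨M, n, (key hF.some).1, key⟩
  · exact ⟨1, 1, Nat.one_pos, fun f => absurd ⟨f⟩ hF⟩

theorem Good.RR_step (hX : X.Good N) (k i m : ℕ) (ih : ∀ m', RR X k i m') : RR X k (i + 1) m := by
  classical
  intro ε hε
  -- constants
  obtain ⟨M1, n1, hn1, h1⟩ := hX.Gf_PA (ε := ε / 6) (by linarith)
  obtain ⟨M2, n2, h2⟩ := ih (m + M1) (ε / 2) (by linarith)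
  obtain ⟨M3, n3, h3⟩ := ih (m + 1 + N) ε hε
  obtain ⟨M4, n4, h4⟩ := ih m ε hε
  have p2 : 0 < n2 := (h2 ∅ ∅ (by simp) (by simp) ∅ (by simp)).1
  have p3 : 0 < n3 := (h3 ∅ ∅ (by simp) (by simp) ∅ (by simp)).1
  have p4 : 0 < n4 := (h4 ∅ ∅ (by simp) (by simp) ∅ (by simp)).1
  refine ⟨M2 + M3 + M4, n1 * n2 * n3 * n4, fun U1 U2 hU1 hU2 Z hZ => ?_⟩
  by_cases hcard : U1.card ≤ i
  · have := h4 U1 U2 hcard hU2 Z hZ
    have h5 := (PropA.PA.mono le_rfl (show M4 ≤ M2 + M3 + M4 by omega) this).scale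
      (Nat.mul_pos (Nat.mul_pos hn1 p2) p3)
    convert h5 using 1
    ring
  · have hpos : 0 < U1.card := by omega
    obtain ⟨u, hu⟩ := Finset.card_pos.1 hpos
    have hU1' : (U1.erase u).card ≤ i := by
      rw [Finset.card_erase_of_mem hu]
      omega
    rcases u with v | f
    · -- a vertex node
      have hfc := hX.faces_card v
      set T : Finset (X.V ⊕ X.F) := hfc.1.toFinset with hT
      have hTc : T.card ≤ N := by
        rw [hT, ← Set.ncard_eq_toFinset_card _ hfc.1]
        exact hfc.2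
      have hU2' : (insert (Sum.inl v) (U2 ∪ T)).card ≤ m + 1 + N := by
        refine (Finset.card_insert_le _ _).trans ?_
        have := Finset.card_union_le U2 T
        omega
      have := h3 (U1.erase (Sum.inl v)) (insert (Sum.inl v) (U2 ∪ T)) hU1' hU2' Z (by
        intro y hy
        rcases hZ y hy with ⟨w, hw, hd⟩ | ⟨w, hw, hd⟩
        · by_cases hwv : w = Sum.inl v
          · subst hwv
            right
            by_cases hvy : (Sum.inl v : X.V ⊕ X.F) = Sum.inl y
            · exact ⟨Sum.inl v, Finset.mem_insert_self _ _, by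
                rw [← hvy, SimpleGraph.dist_self]; omega⟩
            · obtain ⟨b, hb1, hb2⟩ := exists_closer hX.hm.conn hvy
              refine ⟨b, ?_, by omega⟩
              rw [Finset.mem_insert, Finset.mem_union]
              right; right
              rw [hT, Set.Finite.mem_toFinset]
              exact hb1
          · left
            exact ⟨w, Finset.mem_erase.2 ⟨hwv, hw⟩, hd⟩
        · right
          exact ⟨w, by rw [Finset.mem_insert, Finset.mem_union]; exact Or.inr (Or.inl hw), hd⟩)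
      have h5 := (PropA.PA.mono le_rfl (show M3 ≤ M2 + M3 + M4 by omega) this).scale
        (Nat.mul_pos (Nat.mul_pos hn1 p2) p4)
      convert h5 using 1
      ring
    · -- a face node
      obtain ⟨-, C, F, f1, f2, f3⟩ := h1 f
      have hfib : PropA.PA (res X.gr Z) (ε / 2 + ε / 2) M2 (n1 * n2) := by
        refine PropA.PA.fiber (fun y => F (gate hX f y)) hn1 (by linarith) (by linarith)
          (fun y => f1 _) ?_ ?_ p2
        · rintro y y' ⟨hyy, -, -⟩
          obtain ⟨p, hp⟩ := gate_lip hX f hyy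
          have := ov_walk F (ε := ε / 6) (n := n1) (L := 3) (by linarith) f1 f2 p hp
          push_cast at this
          have e1 : (1 - 3 * (ε / 6)) = 1 - ε / 2 := by ring
          rw [e1] at this
          exact this
        · intro c
          rw [res_res]
          obtain ⟨g1, g2⟩ := f3 c
          set T : Finset (X.V ⊕ X.F) := g1.toFinset.map ⟨Sum.inl, Sum.inl_injective⟩ with hT
          have hTc : T.card ≤ M1 := by
            rw [hT, Finset.card_map, ← Set.ncard_eq_toFinset_card _ g1]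
            exact g2
          refine h2 (U1.erase (Sum.inr f)) (U2 ∪ T) hU1' ?_ _ ?_
          · have := Finset.card_union_le U2 T
            omega
          · rintro y ⟨hy, hyc⟩
            rcases hZ y hy with ⟨w, hw, hd⟩ | ⟨w, hw, hd⟩
            · by_cases hwv : w = Sum.inr f
              · subst hwv
                right
                refine ⟨Sum.inl (gate hX f y), ?_, ?_⟩
                · rw [Finset.mem_union]
                  right
                  rw [hT, Finset.mem_map]
                  exact ⟨gate hX f y, by rw [Set.Finite.mem_toFinset]; exact hyc, rfl⟩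
                · have := (gate_dist hX f y).2
                  rw [SimpleGraph.dist_comm (v := Sum.inr f)] at this
                  rw [SimpleGraph.dist_comm]
                  omega
              · left
                exact ⟨w, Finset.mem_erase.2 ⟨hwv, hw⟩, hd⟩
            · right
              exact ⟨w, Finset.mem_union_left _ hw, hd⟩
      rw [add_halves] at hfib
      have h5 := (PropA.PA.mono le_rfl (show M2 ≤ M2 + M3 + M4 by omega) hfib).scale
        (Nat.mul_pos p3 p4)
      convert h5 using 1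
      ring

theorem Good.RR_all (hX : X.Good N) (k i m : ℕ) : RR X k i m := by
  induction k generalizing i m with
  | zero =>
    induction i generalizing m with
    | zero => exact hX.RR_zero m
    | succ i ih => exact hX.RR_step 0 i m ih
  | succ k ihk =>
    have h0 : ∀ m, RR X (k + 1) 0 m := by
      intro m ε hε
      obtain ⟨M, n, h⟩ := ihk m 0 ε hε
      refine ⟨M, n, fun U1 U2 h1 h2 Z hZ => h U2 ∅ h2 (by simp) Z ?_⟩
      intro y hy
      rcases hZ y hy with ⟨w, hw, hd⟩ | ⟨w, hw, hd⟩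
      · rw [Finset.card_eq_zero.1 (Nat.le_zero.1 h1)] at hw
        simp at hw
      · left
        exact ⟨w, hw, hd⟩
    induction i generalizing m with
    | zero => exact h0 m
    | succ i ih => exact hX.RR_step (k + 1) i m ih

theorem gr_connected (hne : Nonempty X.V) (hc : X.Conn) : X.gr.Connected := by
  have key : ∀ (p : List X.D) (u v : X.V), X.Walk u p v → X.gr.Reachable u v := by
    intro p
    induction p with
    | nil =>
      intro u v h
      have : u = v := h
      rw [this]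
    | cons d p ih =>
      intro u v h
      obtain ⟨h1, h2⟩ : X.src d = u ∧ X.Walk (X.src (X.rev d)) p v := h
      have h3 := ih _ _ h2
      by_cases heq : u = X.src (X.rev d)
      · rw [heq]; exact h3
      · have hadj : X.gr.Adj u (X.src (X.rev d)) := ⟨heq, d, h1, rfl⟩
        exact hadj.reachable.trans h3
  have := hne
  exact ⟨fun u v => by
    obtain ⟨p, hp⟩ := hc u v
    exact key p u v hp⟩

theorem Good.adj_dist_two (hX : X.Good N) {y y' : X.V} (hyy : X.gr.Adj y y') :
    X.Y.dist (Sum.inl y) (Sum.inl y') ≤ 2 := by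
  obtain ⟨hne, d, hd1, hd2⟩ := hyy
  obtain ⟨c, hc⟩ := X.rd_surj d
  have hon : X.On (X.fc c) d := ⟨c, rfl, hc⟩
  have hyh : X.Y.Adj (Sum.inl y) (Sum.inr (X.fc c)) := by
    rw [← hd1]; exact hon.src
  have hyh' : X.Y.Adj (Sum.inl y') (Sum.inr (X.fc c)) := by
    rw [← hd2]; exact hon.tgt
  have := hX.dist_tri (Sum.inl y) (Sum.inr (X.fc c)) (Sum.inl y')
  rw [SimpleGraph.dist_eq_one_iff_adj.2 hyh, SimpleGraph.dist_eq_one_iff_adj.2 hyh'.symm]
    at this
  exact this

theorem Good.dist_le_two (hX : X.Good N) (y y' : X.V) :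
    X.Y.dist (Sum.inl y) (Sum.inl y') ≤ 2 * X.gr.dist y y' := by
  have key : ∀ {a b : X.V} (p : X.gr.Walk a b),
      X.Y.dist (Sum.inl a) (Sum.inl b) ≤ 2 * p.length := by
    intro a b p
    induction p with
    | nil => simp
    | @cons a b c h p ih =>
      rw [SimpleGraph.Walk.length_cons]
      have h1 := hX.adj_dist_two h
      have h2 := hX.dist_tri (Sum.inl a) (Sum.inl b) (Sum.inl c)
      omega
  obtain ⟨p, hp⟩ := (gr_connected hX.ne hX.conn).exists_walk_length_eq_dist y y'
  rw [← hp]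
  exact key p

/-- main theorem for good cursor complexes -/
theorem Good.main (X : GC.{u}) (N : ℕ) (hX : X.Good N) :
    ∀ ε > 0, ∃ M n, PropA.PA X.gr ε M n := by
  classical
  intro ε hε
  obtain ⟨v0⟩ := hX.ne
  -- label maps
  have hlab : ∀ l : ℕ, ∃ w : X.V ⊕ X.F → X.V ⊕ X.F,
      (∀ y, X.Y.dist y (w y) ≤ 5 * (4 * l + 3)) ∧
      ∀ x, Even (X.Y.dist (Sum.inl v0) x) →
        (w '' {y | Even (X.Y.dist (Sum.inl v0) y) ∧ X.Y.dist x y ≤ 4 * l + 3}).ncard ≤
          (2 * (4 * l + 3) + 1) * (6 * (4 * l + 3) + 1) * (2 * N) ^ 8 + 1 := by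
    intro l
    refine hX.hm.labels (Sum.inl v0) (2 * N) ?_ (4 * l + 3) ⟨2 * l + 1, by ring⟩
    intro x i g h1 h2 h3 h4
    exact hX.TB v0 x i g h1 h2 h3 h4
  choose w hw1 hw2 using hlab
  have hev : ∀ v : X.V, Even (X.Y.dist (Sum.inl v0) (Sum.inl v)) := fun v => by
    rw [hX.even_dist]; rfl
  have hsub : ∀ l x, (fun y : X.V => w l (Sum.inl y)) '' {y | X.gr.dist x y ≤ 2 * l + 1} ⊆
      w l '' {y | Even (X.Y.dist (Sum.inl v0) y) ∧ X.Y.dist (Sum.inl x) y ≤ 4 * l + 3} := by
    rintro l x _ ⟨y, hy, rfl⟩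
    refine ⟨Sum.inl y, ⟨hev y, ?_⟩, rfl⟩
    have := hX.dist_le_two x y
    have hy' : X.gr.dist x y ≤ 2 * l + 1 := hy
    omega
  have hfin : ∀ l x, (w l '' {y | Even (X.Y.dist (Sum.inl v0) y) ∧
      X.Y.dist (Sum.inl x) y ≤ 4 * l + 3}).Finite := fun l x =>
    ((hX.hm.fin (Sum.inl x) (4 * l + 3)).subset fun y hy => hy.2).image _
  obtain ⟨l, n, hn, F, F1, F2, F3⟩ := weights_of_labels (gr_connected hX.ne hX.conn)
    (192 * (2 * N) ^ 8 + 1) 2 (fun l (y : X.V) => w l (Sum.inl y)) (by
      intro l x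
      refine ⟨(hfin l x).subset (hsub l x), ?_⟩
      refine (Set.ncard_le_ncard (hsub l x) (hfin l x)).trans ?_
      refine (hw2 l (Sum.inl x) (hev x)).trans ?_
      have e1 : 2 * (4 * l + 3) + 1 ≤ 8 * (l + 1) := by omega
      have e2 : 6 * (4 * l + 3) + 1 ≤ 24 * (l + 1) := by omega
      have e3 : (2 * (4 * l + 3) + 1) * (6 * (4 * l + 3) + 1) ≤ 8 * (l + 1) * (24 * (l + 1)) :=
        Nat.mul_le_mul e1 e2
      have e4 : (2 * (4 * l + 3) + 1) * (6 * (4 * l + 3) + 1) * (2 * N) ^ 8 ≤
          8 * (l + 1) * (24 * (l + 1)) * (2 * N) ^ 8 := Nat.mul_le_mul_right _ e3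
      have e5 : 1 ≤ (l + 1) ^ 2 := Nat.one_le_pow _ _ (by omega)
      calc _ ≤ 8 * (l + 1) * (24 * (l + 1)) * (2 * N) ^ 8 + (l + 1) ^ 2 := by omega
        _ = (192 * (2 * N) ^ 8 + 1) * (l + 1) ^ 2 := by ring) (ε / 2) (by linarith)
  obtain ⟨M, n', hR⟩ := hX.RR_all (5 * (4 * l + 3) + 4 * l) 0 1 (ε / 2) (by linarith)
  have p' : 0 < n' := (hR ∅ ∅ (by simp) (by simp) ∅ (by simp)).1
  refine ⟨M, n * n', ?_⟩
  have := PropA.PA.fiber (G := X.gr) F hn (show (0 : ℝ) ≤ ε / 2 by linarith)
    (show (0 : ℝ) ≤ ε / 2 by linarith) F1 F2 (M := M) (n' := n') (fun c => by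
      refine hR ∅ {c} (by simp) (by simp) _ ?_
      intro x hx
      right
      refine ⟨c, by simp, ?_⟩
      obtain ⟨y, hy1, hy2⟩ := F3 x c hx
      have h1 := hw1 l (Sum.inl y)
      have hy2' : w l (Sum.inl y) = c := hy2
      rw [hy2'] at h1
      have h2 := hX.dist_le_two x y
      have h3 := hX.dist_tri (Sum.inl x) (Sum.inl y) c
      rw [SimpleGraph.dist_comm]
      omega) p'
  rwa [add_halves] at this

end GC

end PropA
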