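import Mathlib
import Pool.Agent.PropA.Complex

/-!
Shared definitions for MP_db4510_al (Property A for C(4)-T(4) complexes).
-/

namespace PropA

universe u

/-! ### A. Hereditary modular graphs -/

/-- Locally finite hereditary modular graphs: connected, bipartite, quadrangle condition,
no induced 6-cycle, finite balls. -/
structure HM {W : Type u} (G : SimpleGraph W) : Prop where
  conn : G.Connected
  bip : ∃ col : W → Bool, ∀ a b, G.Adj a b → col a ≠ col b
  qc : ∀ x v a b, a ≠ b → G.Adj v a → G.Adj v b →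
    G.dist x a + 1 = G.dist x v → G.dist x b + 1 = G.dist x v →
    ∃ c, G.Adj a c ∧ G.Adj b c ∧ G.dist x c + 2 = G.dist x v
  c6 : ∀ a1 b1 a2 b2 a3 b3, a1 ≠ a2 → a2 ≠ a3 → a1 ≠ a3 → b1 ≠ b2 → b2 ≠ b3 → b1 ≠ b3 →
    G.Adj a1 b1 → G.Adj b1 a2 → G.Adj a2 b2 → G.Adj b2 a3 → G.Adj a3 b3 → G.Adj b3 a1 →
    G.Adj a1 b2 ∨ G.Adj a2 b3 ∨ G.Adj a3 b1
  fin : ∀ x r, {y | G.dist x y ≤ r}.Finite

/-- `m` lies on a geodesic from `x0` to `z`. -/
def Bel {W : Type u} (G : SimpleGraph W) (x0 m z : W) : Prop :=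
  G.dist x0 m + G.dist m z = G.dist x0 z

/-- The slice at distance `i` from `x0` of the interval from `x0` to `x`. -/
def Sl {W : Type u} (G : SimpleGraph W) (x0 x : W) (i : ℕ) : Set W :=
  {w | G.dist x0 w = i ∧ i + G.dist w x = G.dist x0 x}

open Classical in
/-- The largest `j ≤ i` such that the slice at level `j` below `z` has diameter at most
`2 (i - j)`. -/
noncomputable def JJ {W : Type u} (G : SimpleGraph W) (x0 : W) (i : ℕ) (z : W) : ℕ :=
  Nat.findGreatest (fun j => ∀ m ∈ Sl G x0 z j, ∀ m' ∈ Sl G x0 z j, G.dist m m' ≤ 2 * (i - j)) i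

/-- The canonical set at level `i` below `z`. -/
def FF {W : Type u} (G : SimpleGraph W) (x0 : W) (i : ℕ) (z : W) : Set W :=
  {w | w ∈ Sl G x0 z i ∧ ∀ m ∈ Sl G x0 z (JJ G x0 i z), JJ G x0 i z + G.dist m w = i}

/-! ### B. Weights with natural number values -/

/-- total mass -/
def mass {C : Type u} (f : C →₀ ℕ) : ℕ := f.sum fun _ a => a

/-- overlap -/
def ov {C : Type u} (f g : C →₀ ℕ) : ℕ := ∑ c ∈ f.support, min (f c) (g c)

/-- `PA G ε M n`: there are weights `f x` of total mass `n` whose overlap along edges is at least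
`(1-ε) n`, each label being used by at most `M` vertices. -/
def PA {V : Type u} (G : SimpleGraph V) (ε : ℝ) (M n : ℕ) : Prop :=
  0 < n ∧ ∃ (C : Type u) (f : V → C →₀ ℕ), (∀ x, mass (f x) = n) ∧
    (∀ x y, G.Adj x y → (1 - ε) * n ≤ (ov (f x) (f y) : ℝ)) ∧
    ∀ c, {x | f x c ≠ 0}.Finite ∧ {x | f x c ≠ 0}.ncard ≤ M

/-- restriction of a graph to a set of vertices (all vertices are kept) -/
def res {V : Type u} (G : SimpleGraph V) (Z : Set V) : SimpleGraph V where
  Adj x y := G.Adj x y ∧ x ∈ Z ∧ y ∈ Z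
  symm := ⟨fun _ _ h => ⟨h.1.symm, h.2.2, h.2.1⟩⟩
  loopless := ⟨fun _ h => G.loopless.irrefl _ h.1⟩

/-! ### C. Square multigraphs -/

/-- A multigraph (`K` = oriented edges, `r` = reversal, `s` = source) with a family of squares:
`Sq a a' b b'` says that the paths `a a'` and `b b'` (same source, same target) bound a square. -/
structure SG where
  N : Type u
  K : Type u
  s : K → N
  r : K → K
  r_r : ∀ k, r (r k) = k
  Sq : K → K → K → K → Prop
  sq_path : ∀ {a a' b b'}, Sq a a' b b' →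
    s a = s b ∧ s a' = s (r a) ∧ s b' = s (r b) ∧ s (r a') = s (r b')
  sq_swap : ∀ {a a' b b'}, Sq a a' b b' → Sq b b' a a'
  sq_rot : ∀ {a a' b b'}, Sq a a' b b' → Sq a' (r b') (r a) b
  sq_ne : ∀ {a a' b b'}, Sq a a' b b' → a ≠ b ∧ a' ≠ r a
  sq_uniq : ∀ {a a' a'' b b'}, Sq a a' b b' → Sq a a'' b b' → a' = a''
  sq_E : ∀ {a a' b b' c c'}, Sq a a' b b' → Sq b b' c c' → a ≠ c → Sq a a' c c'
  sq_H : ∀ {a b c a1 b1 b2 c2 c3 a3}, Sq a a1 b b1 → Sq b b2 c c2 → Sq c c3 a a3 →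
    (∃ c1, Sq a a1 c c1 ∧ Sq b b1 c c1) ∨ (∃ a2, Sq b b2 a a2 ∧ Sq c c2 a a2) ∨
    (∃ b3, Sq c c3 b b3 ∧ Sq a a3 b b3)

/-! ### D. Cursor complexes (working form of a combinatorial 2-complex) -/

/-- A 2-complex given by darts and cursors.  A cursor is a corner of a face together with a
direction of reading the boundary; `rd c` is the dart read at `c`, `nx` moves to the next corner,
`op` reverses the direction at the same corner. -/
structure GC where
  V : Type u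
  D : Type u
  F : Type u
  C : Type u
  src : D → V
  rev : D → D
  rev_rev : ∀ d, rev (rev d) = d
  rev_ne : ∀ d, rev d ≠ d
  fc : C → F
  rd : C → D
  nx : Equiv.Perm C
  op : C → C
  op_op : ∀ c, op (op c) = c
  op_nx : ∀ c, op (nx (op (nx c))) = c
  or_ne : ∀ (k : ℤ) c, (nx ^ k) c ≠ op c
  rd_rev : ∀ c, rd (op (nx c)) = rev (rd c)
  src_op : ∀ c, src (rd (op c)) = src (rd c)
  fc_nx : ∀ c, fc (nx c) = fc c
  fc_op : ∀ c, fc (op c) = fc c
  fc_orb : ∀ c c', fc c = fc c' → ∃ k : ℤ, c' = (nx ^ k) c ∨ c' = (nx ^ k) (op c)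
  per : ∀ c, ∃ n : ℕ, 0 < n ∧ (nx ^ n) c = c
  rd_surj : ∀ d, ∃ c, rd c = d
  fc_surj : ∀ f, ∃ c, fc c = f

namespace GC

variable (X : GC.{u})

/-- the vertex of a cursor -/
def vt (c : X.C) : X.V := X.src (X.rd c)

/-- the two cursors read the same `k` darts -/
def Ag (k : ℕ) (c c' : X.C) : Prop := ∀ j < k, X.rd ((X.nx ^ j) c) = X.rd ((X.nx ^ j) c')

/-- the two cursors are related by a symmetry of the face -/
def Tw (c c' : X.C) : Prop := X.fc c = X.fc c' ∧ ∀ j : ℕ, X.rd ((X.nx ^ j) c) = X.rd ((X.nx ^ j) c')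

/-- the `k` darts read at `c` form a piece (or `k = 0`) -/
def Pc (c : X.C) (k : ℕ) : Prop := k = 0 ∨ ∃ c', ¬ X.Tw c c' ∧ X.Ag k c c'

/-- small cancellation condition C(4) -/
def C4 : Prop := ∀ c k1 k2 k3 n, X.Pc c k1 → X.Pc ((X.nx ^ k1) c) k2 →
  X.Pc ((X.nx ^ (k1 + k2)) c) k3 → 0 < n → (X.nx ^ n) c = c → k1 + k2 + k3 < n

/-- small cancellation condition T(4) -/
def T4 : Prop := ∀ c1 c2 c3, X.rd (X.op c1) = X.rd c2 → ¬ X.Tw (X.op c1) c2 →
  X.rd (X.op c2) = X.rd c3 → ¬ X.Tw (X.op c2) c3 →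
  X.rd (X.op c3) = X.rd c1 → ¬ X.Tw (X.op c3) c1 → False

/-- the only faces with a reflection symmetry are bigons running along an edge which is in no
other face -/
def NR : Prop := ∀ c, X.Tw c (X.op c) →
  X.nx (X.nx c) = c ∧ ∀ c', X.rd c' = X.rd c → c' = c ∨ c' = X.op c

/-- `p` is an edge path from `u` to `v` -/
def Walk : X.V → List X.D → X.V → Prop
  | u, [], v => u = v
  | u, d :: p, v => X.src d = u ∧ Walk (X.src (X.rev d)) p v

/-- connectedness -/
def Conn : Prop := ∀ u v, ∃ p, X.Walk u p v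

/-- simple connectedness, in the form in which it is used: every dart action on a set over the
vertices which is compatible with reversal and with the faces has trivial monodromy -/
def SC : Prop := ∀ (S : Type u) (π : S → X.V) (act : S → X.D → S),
  (∀ σ d, X.src d = π σ → π (act σ d) = X.src (X.rev d) ∧ act (act σ d) (X.rev d) = σ) →
  (∀ σ c n, X.vt c = π σ → 0 < n → (X.nx ^ n) c = c →
    (List.ofFn fun j : Fin n => X.rd ((X.nx ^ (j : ℕ)) c)).foldl act σ = σ) →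
  ∀ σ p, X.Walk (π σ) p (π σ) → p.foldl act σ = σ

/-- uniform local finiteness with constant `N` -/
def LF (N : ℕ) : Prop := ∀ v, {d | X.src d = v}.Finite ∧ {d | X.src d = v}.ncard ≤ N ∧
  {f | ∃ c, X.fc c = f ∧ X.vt c = v}.Finite ∧ {f | ∃ c, X.fc c = f ∧ X.vt c = v}.ncard ≤ N

/-- the bipartite incidence graph -/
def Y : SimpleGraph (X.V ⊕ X.F) where
  Adj a b := (∃ c, a = Sum.inl (X.vt c) ∧ b = Sum.inr (X.fc c)) ∨
    (∃ c, b = Sum.inl (X.vt c) ∧ a = Sum.inr (X.fc c))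
  symm := ⟨fun _ _ h => h.symm⟩
  loopless := ⟨by
    rintro a (⟨c, h1, h2⟩ | ⟨c, h1, h2⟩) <;> simp [h1] at h2⟩

/-- the 1-skeleton -/
def gr : SimpleGraph X.V where
  Adj u v := u ≠ v ∧ ∃ d, X.src d = u ∧ X.src (X.rev d) = v
  symm := ⟨by
    rintro u v ⟨h, d, h1, h2⟩
    exact ⟨h.symm, X.rev d, h2, by rw [X.rev_rev]; exact h1⟩⟩
  loopless := ⟨fun _ h => h.1 rfl⟩

end GC

end PropA

namespace PropA

universe u

namespace GC

variable (X : GC.{u})

/-- corners: cursors up to direction -/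
def Cor : Type u := Quot fun c c' : X.C => c' = X.op c

/-- the corner of a cursor -/
def cor (c : X.C) : X.Cor := Quot.mk _ c

/-- vertex of a corner -/
def vtx : X.Cor → X.V := Quot.lift X.vt (by
  rintro a b rfl
  exact (X.src_op a).symm)

/-- face of a corner -/
def fac : X.Cor → X.F := Quot.lift X.fc (by
  rintro a b rfl
  exact (X.fc_op a).symm)

/-- The corners `κ, κ'` of one face and `μ, μ'` of another one are the two ends of a common
boundary arc; `κ, μ` are at the starting vertex, `κ', μ'` at the final one. -/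
def Qr (κ κ' μ μ' : X.Cor) : Prop := ∃ (c c' : X.C) (k : ℕ),
  X.cor c = κ ∧ X.cor ((X.nx ^ k) c) = κ' ∧ X.cor c' = μ ∧ X.cor ((X.nx ^ k) c') = μ' ∧
  X.Ag k c c' ∧ κ ≠ μ ∧ κ ≠ κ'

/-- source in the incidence multigraph; `(κ, true)` is the corner `κ` traversed from the vertex to
the face -/
def sK : X.Cor × Bool → X.V ⊕ X.F
  | (κ, true) => Sum.inl (X.vtx κ)
  | (κ, false) => Sum.inr (X.fac κ)

/-- reversal -/
def rK (k : X.Cor × Bool) : X.Cor × Bool := (k.1, !k.2)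

/-- squares -/
def SqK (a a' b b' : X.Cor × Bool) : Prop :=
  a.2 = b.2 ∧ a'.2 = !a.2 ∧ b'.2 = !a.2 ∧
    (if a.2 then X.Qr a.1 a'.1 b.1 b'.1 else X.Qr a.1 b.1 a'.1 b'.1)

/-- Everything that is used about the complex in the final part. -/
structure Good (N : ℕ) : Prop where
  ne : Nonempty X.V
  conn : X.Conn
  lf : X.LF N
  hm : HM X.Y
  emb : ∀ c c', X.fc c = X.fc c' → X.vt c = X.vt c' → c' = c ∨ c' = X.op c
  arc : ∀ f g u v, f ≠ g → u ≠ v → X.Y.Adj (Sum.inl u) (Sum.inr f) →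
    X.Y.Adj (Sum.inl v) (Sum.inr f) → X.Y.Adj (Sum.inl u) (Sum.inr g) →
    X.Y.Adj (Sum.inl v) (Sum.inr g) →
    ∃ (c c' : X.C) (k : ℕ), X.fc c = f ∧ X.fc c' = g ∧ X.vt c = u ∧ X.Ag k c c' ∧ 0 < k ∧
      X.vt ((X.nx ^ k) c) = v ∧ X.vt c' = u ∧ X.vt ((X.nx ^ k) c') = v

end GC

end PropA
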