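import Pool.Agent.PropA.D5
import Pool.Agent.PropA.B3
import Pool.Agent.PropA.C0
import Pool.Agent.PropA.C1

/-! Final assembly. -/

namespace PropA

universe u

theorem PA.iso {V V' : Type u} {G : SimpleGraph V} {G' : SimpleGraph V'} (φ : V ≃ V')
    (h : ∀ a b, G.Adj a b ↔ G'.Adj (φ a) (φ b)) {ε : ℝ} {M n : ℕ} (hPA : PA G ε M n) :
    PA G' ε M n := by
  obtain ⟨hn, C, f, h1, h2, h3⟩ := hPA
  refine ⟨hn, C, fun y => f (φ.symm y), fun y => h1 _, ?_, ?_⟩
  · intro x y hxy
    apply h2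
    rw [h, φ.apply_symm_apply, φ.apply_symm_apply]
    exact hxy
  · intro c
    have he : {y | f (φ.symm y) c ≠ 0} = φ '' {x | f x c ≠ 0} := by
      ext y
      constructor
      · intro hy
        exact ⟨φ.symm y, hy, φ.apply_symm_apply y⟩
      · rintro ⟨x, hx, rfl⟩
        change f (φ.symm (φ x)) c ≠ 0
        rw [φ.symm_apply_apply]
        exact hx
    rw [he]
    exact ⟨(h3 c).1.image _, (Set.ncard_image_le (h3 c).1).trans (h3 c).2⟩

theorem Cpx.gr_connected (X : Cpx.{u}) (hs : X.SimplyConnected) : X.gr.Connected := by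
  obtain ⟨hne, hc, -⟩ := hs
  have key : ∀ (p : List X.D) (u v : X.V), X.IsPath u p v → X.gr.Reachable u v := by
    intro p
    induction p with
    | nil =>
      intro u v h
      have : u = v := h
      rw [this]
    | cons d p ih =>
      intro u v h
      obtain ⟨h1, h2⟩ : X.src d = u ∧ X.IsPath (X.src (X.rev d)) p v := h
      have h3 := ih _ _ h2
      by_cases heq : u = X.src (X.rev d)
      · rw [heq]; exact h3
      · have hadj : X.gr.Adj u (X.src (X.rev d)) := ⟨heq, d, h1, rfl⟩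
        exact hadj.reachable.trans h3
  exact ⟨fun u v => by
    obtain ⟨p, hp⟩ := hc u v
    exact key p u v hp⟩

theorem final (X : Cpx.{u}) (hs : X.SimplyConnected) (hu : X.ULF) (h4 : X.C4) (ht : X.T4) :
    PropertyA (fun x y => X.gr.dist x y) ∧ CoarseEmb (fun x y => X.gr.dist x y) := by
  have hconn := X.gr_connected hs
  have hPA : ∀ ε > 0, ∃ M n, PA X.gr ε M n := by
    intro ε hε
    obtain ⟨Z, φ, N, hφ, hne, h4', ht', hn', hc', hsc', hl'⟩ := X.exists_GC hs hu h4 ht
    have hgood := Z.good N h4' ht' hn' hne hc' hsc' hl'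
    obtain ⟨M, n, h⟩ := GC.Good.main Z N hgood ε hε
    exact ⟨M, n, h.iso φ hφ⟩
  exact ⟨propertyA_of_PA hconn hPA, coarse_of_PA hconn hPA⟩

end PropA
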